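import Pool.Agent.Helper42.LT.NCle

set_option autoImplicit false

/-!
# LT-N0: elements with constant first factor, B_2
-/

noncomputable section

open Polynomial TensorProduct
open scoped Classical

namespace Helper42.LT

open Helper14.Gon Helper14.W4

universe u v w

section
variable {K : Type u} [Field K]

/-- double contraction of `u ∧ v ⊗ z` -/
private lemma ct_ct_tn (η θ : Additive (RatFunc K)ˣ →+ ℚ) (u v : Additive (RatFunc K)ˣ)
    (z : Cx 2 0 (RatFunc K)) :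
    ct 2 0 η (ct 2 1 θ (tn 2 2 (W2 u v) z)) = (θ u * η v - θ v * η u) • z := by
  refine Cx_ind (fun z => ct 2 0 η (ct 2 1 θ (tn 2 2 (W2 u v) z)) =
    (θ u * η v - θ v * η u) • z) (by simp)
    (fun a b ha hb => by simp only [map_add, ha, hb, smul_add]) (fun x υ => ?_) z
  have e : PB 2 0 (cl 2 x) υ = e0 (RatFunc K) υ • PB 2 0 (cl 2 x) (u0 (RatFunc K)) := by
    conv_lhs => rw [← e0_inj υ, map_smul]
  rw [e, map_smul, tn_PB, W2_apply, map_smul, map_smul, ct_ct_PB, smul_comm]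

theorem exists_W0 [IsAlgClosed K] (a b : K) (hab : a ≠ b) (y : Cx 2 0 K) :
    ∃ W : Cx 3 1 (RatFunc K),
      dC 0 1 W - tn 2 2 (W2 (ee a) (ee b)) (rC 0 0 y) ∈ KC 2 1 := by
  obtain ⟨W, hW⟩ := star_kappa a b hab y
  refine ⟨W, Fil_le_KC 2 1 ?_⟩
  rw [mem_Fil]
  intro a'
  rw [mem_Fil_one]
  intro b'
  rw [map_sub, map_sub, hW, ct_ct_tn, va_ee, va_ee, va_ee, va_ee, ifs, sub_eq_zero]

theorem NC0_le [IsAlgClosed K] (j : ℕ) :
    (NC 0 (j + 2) : Submodule ℚ (Cx 2 (j + 2) (RatFunc K))) ≤ WW 0 (j + 1) := by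
  refine NC_le_of 0 (fun a b hab y => ?_) j
  obtain ⟨W, hW⟩ := exists_W0 a b hab y
  have e : tn 2 2 (W2 (ee a) (ee b)) (rC 0 0 y) =
      dC 0 1 W - (dC 0 1 W - tn 2 2 (W2 (ee a) (ee b)) (rC 0 0 y)) := by abel
  change tn 2 2 (W2 (ee a) (ee b)) (rC 0 0 y) ∈ WW 0 1
  rw [e]
  exact sub_mem (dC_mem_WW 0 1 W) (KC_le_WW 0 1 hW)

end

end Helper42.LT
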