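import Pool.Agent.Helper42.LT.EulR

set_option autoImplicit false

/-!
# LT-Red: reduction to the case of degree s in B tensor Lambda^s

PLAN (about 0.4 h).  Induction on i.  For i + 1: z in Cx (k+2) (s+i+1+1), by hF in
Fil (k+2) _ (s+2).  Apply euler_red with m = k+2, j = s+i+1, s replaced by s+1 (s+1 <= s+i+1):
z = z' + (combination of wC (rU kappa) (ct chi z)), z' in Fil (k+2) _ (s+1) <= X by hX2.
For each chi: Good (s+i) (ct chi z) by hG, so by induction ct chi z = dC w + x, x in X (s+i), and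
wC (rU kappa) (dC w + x) = - dC (wC (rU kappa) w) + wC (rU kappa) x (dC_wC), in range dC + X by hX1.
The index s + (i + 1) is definitionally (s + i) + 1, so no casts are needed.
-/

noncomputable section

open Polynomial TensorProduct
open scoped Classical

namespace Helper42.LT

open Helper14.Gon Helper14.W4

universe u v w

section
variable {K : Type u} [Field K]

theorem reduce [IsAlgClosed K] (k s : ℕ) (Good : ∀ j : ℕ, Cx (k + 2) (j + 1) (RatFunc K) → Prop)
    (X : ∀ j : ℕ, Submodule ℚ (Cx (k + 2) (j + 1) (RatFunc K)))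
    (hG : ∀ (j : ℕ) (z : Cx (k + 2) (j + 1 + 1) (RatFunc K)) (χ : Additive Kˣ →+ ℚ),
      Good (j + 1) z → Good j (ct (k + 2) (j + 1) (χ.comp (lcU 0)) z))
    (hF : ∀ (j : ℕ) (z : Cx (k + 2) (j + 1) (RatFunc K)), Good j z → z ∈ Fil (k + 2) (j + 1) (s + 2))
    (hX1 : ∀ (j : ℕ) (κ : Additive Kˣ) (z : Cx (k + 2) (j + 1) (RatFunc K)),
      z ∈ X j → wC (k + 2) (j + 1) (rU κ) z ∈ X (j + 1))
    (hX2 : ∀ j : ℕ, Fil (k + 2) (j + 1) (s + 1) ≤ X j)
    (base : ∀ z : Cx (k + 2) (s + 1) (RatFunc K), Good s z →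
      z ∈ LinearMap.range (dC k s : Cx (k + 3) s (RatFunc K) →ₗ[ℚ] _) ⊔ X s)
    (i : ℕ) (z : Cx (k + 2) (s + i + 1) (RatFunc K)) (hz : Good (s + i) z) :
    z ∈ LinearMap.range (dC k (s + i) : Cx (k + 3) (s + i) (RatFunc K) →ₗ[ℚ] _) ⊔ X (s + i) := by
  induction i with
  | zero => exact base z hz
  | succ i ih =>
    have hz' : Good (s + i + 1) z := hz
    have h1 := euler_red (k + 2) (s + i + 1) (s + 1) (by omega) z (hF (s + i + 1) z hz')
    obtain ⟨z1, hz1, z2, hz2, h12⟩ := Submodule.mem_sup.1 h1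
    change z ∈ LinearMap.range (dC k (s + i + 1) : Cx (k + 3) (s + i + 1) (RatFunc K) →ₗ[ℚ] _) ⊔
      X (s + i + 1)
    rw [← h12]
    refine Submodule.add_mem _ (Submodule.mem_sup_right (hX2 (s + i + 1) hz1)) ?_
    refine (Submodule.span_le.2 ?_) hz2
    rintro x ⟨κ, χ, rfl⟩
    have h3 := ih (ct (k + 2) (s + i + 1) (χ.comp (lcU 0)) z) (hG (s + i) z χ hz')
    obtain ⟨y1, ⟨w, rfl⟩, y2, hy2, hy⟩ := Submodule.mem_sup.1 h3
    rw [← hy, map_add]
    refine Submodule.add_mem _ (Submodule.mem_sup_left ?_)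
      (Submodule.mem_sup_right (hX1 (s + i) κ y2 hy2))
    have h4 := dC_wC k (s + i) (rU κ) w
    refine ⟨-(wC (k + 3) (s + i) (rU κ) w), ?_⟩
    rw [map_neg, h4, neg_neg]

end

end Helper42.LT
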