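import Pool.Agent.Helper42.LT.B2
import Pool.Agent.Helper42.LT.N0
import Pool.Agent.Helper42.LT.Red
import Pool.Agent.Helper14.Loc.Main

set_option autoImplicit false

/-!
# LT-Fin0: localisation in degree n - 1

PLAN (about 0.8 h).  F = RatFunc K.
 * goodA s j z := z in Fil 2 (j+1) (s+2) and dT (j+1) z in FilT (j+3) (s+3).
   hG: ct by theta = chi.comp (lcU 0): ct_Fil; dT (j+1) (ct 2 (j+1) theta z) =
   ctT (j+3) theta (dT (j+2) z) - lt (j+2) theta z (definition of lt (j+2), rfl up to rearrangement);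
   ctT_FilT, lt_Fil.
 * stepA (s >= 1): reduce with k = 0, this Good, X j := Fil 2 (j+1) (s+1): hX1 wC_Fil, hX2 le_rfl;
   base: starB s z gives range + KC 2 s + NC 0 (s+1); KC_le_Fil; NC0_le (s-1) (write s = t+1):
   NC 0 (t+2) <= WW 0 (t+1) = range + KC.
   Result for a cocycle z in Fil 2 (j+1) (s+2), s <= j: z in range (dC 0 j) + Fil 2 (j+1) (s+1)
   (j = s + i; obtain i from Nat.exists_eq_add_of_le and subst).
 * stepB (s = 0): the same with X j := RC 0 j: hX1: ct_a (wC (rU kappa) z) = - wC (rU kappa) (ct_a z)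
   (ct_wC, va_rU_apply) and wC 2 j (rU kappa) (rC 0 j y) = rC 0 (j+1) (wC 2 j kappa y) (Cx_ind, rC_PB, rT_wT);
   hX2: mem_Fil_one; base: KC 2 0 <= RC 0 0 (KC_le_Fil, hX2), NC 0 1 <= RC 0 0: for
   omega = wT 0 v u0 (Tx1_ind): ct_a (tn 2 1 omega (rC y)) = va a v . rC 0 0 y.
 * surj_zero: z cocycle in Cx 2 (j+1): descending from Fil 2 (j+1) (j+2) = top (Fil_top): for all
   t <= j: z in range (dC 0 j) + Fil 2 (j+1) (j+2-t); at each step subtract dC w (again a cocycle,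
   dT_dC), finally z = dC w + z', z' in RC 0 j a cocycle; decomp2 j z' (H6.lean; its hypothesis hc follows
   from mem_RC and sC_rC).  cyc F 0 (j+1) is the kernel of dT (j+1), see Helper14/Loc/Main.lean
   and locMid_of there for Surj; the cases k = 0 of cyc unfold by rfl / Iff.rfl.
-/

noncomputable section

open Polynomial TensorProduct
open scoped Classical

namespace Helper42.LT

open Helper14.Gon Helper14.W4

universe u v w

section
variable {K : Type u} [Field K]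

/-- the property used in the reduction -/
private def GdA (s j : ℕ) (z : Cx (0 + 2) (j + 1) (RatFunc K)) : Prop :=
  z ∈ Fil (0 + 2) (j + 1) (s + 2) ∧ dT (j + 1) z ∈ FilT (j + 3) (s + 3)

private lemma GdA_ct (s j : ℕ) (z : Cx (0 + 2) (j + 1 + 1) (RatFunc K)) (χ : Additive Kˣ →+ ℚ)
    (hz : GdA s (j + 1) z) : GdA s j (ct (0 + 2) (j + 1) (χ.comp (lcU 0)) z) := by
  obtain ⟨h1, h2⟩ := hz
  refine ⟨ct_Fil 2 _ h1, ?_⟩
  have e : dT (j + 1) (ct 2 (j + 1) (χ.comp (lcU 0)) z) =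
      ctT (j + 3) (χ.comp (lcU 0)) (dT (j + 2) z) - lt (j + 2) (χ.comp (lcU 0)) z := by
    have e1 : lt (j + 2) (χ.comp (lcU 0)) z = ctT (j + 3) (χ.comp (lcU 0)) (dT (j + 2) z) -
      dT (j + 1) (ct 2 (j + 1) (χ.comp (lcU 0)) z) := rfl
    rw [e1]
    abel
  change dT (j + 1) (ct 2 (j + 1) (χ.comp (lcU 0)) z) ∈ _
  rw [e]
  exact sub_mem (ctT_FilT _ h2) (lt_Fil _ h1)

private lemma Fin0_stepA [IsAlgClosed K] (t j : ℕ) (htj : t + 1 ≤ j)
    (z : Cx 2 (j + 1) (RatFunc K)) (h1 : z ∈ Fil 2 (j + 1) (t + 1 + 2))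
    (h2 : dT (j + 1) z = 0) :
    z ∈ LinearMap.range (dC 0 j : Cx 3 j (RatFunc K) →ₗ[ℚ] _) ⊔ Fil 2 (j + 1) (t + 1 + 1) := by
  obtain ⟨i, rfl⟩ := Nat.exists_eq_add_of_le htj
  refine reduce 0 (t + 1) (GdA (t + 1)) (fun j => Fil (0 + 2) (j + 1) (t + 1 + 1))
    (fun j z χ h => GdA_ct (t + 1) j z χ h) (fun j z h => h.1)
    (fun j κ z h => wC_Fil 2 κ h) (fun j => le_rfl) ?_ i z ⟨h1, ?_⟩
  · intro z hz
    have h3 := starB (t + 1) z hz.2
    have h4 : LinearMap.range (dC 0 (t + 1) : Cx 3 (t + 1) (RatFunc K) →ₗ[ℚ] _) ⊔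
        KC 2 (t + 1) ⊔ NC 0 (t + 1 + 1) ≤
        LinearMap.range (dC 0 (t + 1) : Cx 3 (t + 1) (RatFunc K) →ₗ[ℚ] _) ⊔
          Fil (0 + 2) (t + 1 + 1) (t + 1 + 1) := by
      refine sup_le (sup_le le_sup_left ?_) ?_
      · exact (KC_le_Fil 2 (t + 1)).trans le_sup_right
      · refine (NC0_le t).trans ?_
        refine sup_le le_sup_left ?_
        exact (KC_le_Fil 2 (t + 1)).trans le_sup_right
    exact h4 h3
  · rw [show dT (t + 1 + i + 1) z = 0 from h2]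
    exact zero_mem _

private lemma Fin0_RC_wC (j : ℕ) (κ : Additive Kˣ) (z : Cx (0 + 2) (j + 1) (RatFunc K))
    (hz : z ∈ RC 0 j) : wC (0 + 2) (j + 1) (rU κ) z ∈ RC 0 (j + 1) := by
  rw [mem_RC] at hz ⊢
  intro a
  obtain ⟨y, hy⟩ := hz a
  have e1 : ct (0 + 2) (j + 1) (va a) (wC (0 + 2) (j + 1) (rU κ) z) =
      - wC 2 j (rU κ) (rC 0 j y) := by
    have e2 := ct_wC 2 j (va a) (rU κ) z
    rw [va_rU_apply, zero_smul, zero_sub] at e2
    refine e2.trans ?_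
    congr 1
    have e3 : ct 2 j (va a) z = rC 0 j y := hy.symm
    rw [e3]
  have e4 : wC 2 j (rU κ) (rC 0 j y) = rC 0 (j + 1) (wC 2 j κ y) := by
    refine Cx_ind (fun y => wC 2 j (rU κ) (rC 0 j y) = rC 0 (j + 1) (wC 2 j κ y))
      (by simp) (fun a b ha hb => by simp only [map_add, ha, hb]) (fun x ω => ?_) y
    have e5 := rC_PB 0 j x ω
    have e6 := rC_PB 0 (j + 1) x (wT j κ ω)
    have e7 := wC_PB 2 j κ (cl 2 x) ω
    have e8 := wC_PB 2 j (rU κ) (cl 2 (mapP (RatFunc.C : K →+* RatFunc K) x)) (rT j ω)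
    rw [rT_wT] at e6
    calc wC 2 j (rU κ) (rC 0 j (PB 2 j (cl 2 x) ω))
        = wC 2 j (rU κ) (PB 2 j (cl 2 (mapP (RatFunc.C : K →+* RatFunc K) x)) (rT j ω)) :=
          congrArg _ e5
      _ = PB 2 (j + 1) (cl 2 (mapP (RatFunc.C : K →+* RatFunc K) x)) (wT j (rU κ) (rT j ω)) := e8
      _ = rC 0 (j + 1) (PB 2 (j + 1) (cl 2 x) (wT j κ ω)) := e6.symm
      _ = rC 0 (j + 1) (wC 2 j κ (PB 2 j (cl 2 x) ω)) := congrArg _ e7.symm
  rw [e1, e4, ← map_neg]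
  exact ⟨_, rfl⟩

private lemma Fin0_Fil_RC (j : ℕ) :
    (Fil (0 + 2) (j + 1) (0 + 1) : Submodule ℚ (Cx (0 + 2) (j + 1) (RatFunc K))) ≤ RC 0 j := by
  intro z hz
  rw [mem_RC]
  intro a
  have h := (mem_Fil_one 2 j z).1 hz a
  exact ⟨0, (map_zero _).trans h.symm⟩

private lemma Fin0_NC_RC :
    (NC 0 1 : Submodule ℚ (Cx (0 + 2) 1 (RatFunc K))) ≤ RC 0 0 := by
  refine Submodule.span_le.2 ?_
  rintro x ⟨y, ω, rfl⟩
  change tn 2 1 ω (rC 0 0 y) ∈ RC 0 0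
  refine Tx1_ind (fun ω => tn 2 1 ω (rC 0 0 y) ∈ RC 0 0) ?_ (fun a b ha hb => ?_)
    (fun q v => ?_) ω
  · have e : tn 2 1 (0 : Tx 1 (RatFunc K)) (rC 0 0 y) = 0 := by
      have := tn_smul 2 1 (0 : ℚ) (0 : Tx 1 (RatFunc K)) (rC 0 0 y)
      rwa [zero_smul, zero_smul] at this
    rw [e]
    exact zero_mem _
  · rw [tn_add]
    exact add_mem ha hb
  · rw [tn_smul]
    refine Submodule.smul_mem _ _ ?_
    rw [mem_RC]
    intro a
    have key : ∀ z : Cx 2 0 (RatFunc K), ct 2 0 (va a) (tn 2 1 (wT 0 v (u0 _)) z) = va a v • z := by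
      intro z
      refine Cx_ind (fun z => ct 2 0 (va a) (tn 2 1 (wT 0 v (u0 _)) z) = va a v • z)
        (by simp) (fun a b ha hb => by simp only [map_add, smul_add, ha, hb]) (fun x υ => ?_) z
      rw [tn_PB', map_smul, ct_PB, ctT_wT_zero, map_smul, smul_comm, ← map_smul, e0_inj]
    refine ⟨va a v • y, ?_⟩
    rw [map_smul]
    exact (key _).symm

private lemma Fin0_stepB [IsAlgClosed K] (j : ℕ)
    (z : Cx 2 (j + 1) (RatFunc K)) (h1 : z ∈ Fil 2 (j + 1) 2)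
    (h2 : dT (j + 1) z = 0) :
    z ∈ LinearMap.range (dC 0 j : Cx 3 j (RatFunc K) →ₗ[ℚ] _) ⊔ RC 0 j := by
  obtain ⟨i, rfl⟩ := Nat.exists_eq_add_of_le (Nat.zero_le j)
  refine reduce 0 0 (GdA 0) (fun j => RC 0 j)
    (fun j z χ h => GdA_ct 0 j z χ h) (fun j z h => h.1)
    (fun j κ z h => Fin0_RC_wC j κ z h) (fun j => Fin0_Fil_RC j) ?_ i z ⟨h1, ?_⟩
  · intro z hz
    have h3 := starB 0 z hz.2
    have h4 : LinearMap.range (dC 0 0 : Cx 3 0 (RatFunc K) →ₗ[ℚ] _) ⊔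
        KC 2 0 ⊔ NC 0 (0 + 1) ≤
        LinearMap.range (dC 0 0 : Cx 3 0 (RatFunc K) →ₗ[ℚ] _) ⊔ RC 0 0 := by
      refine sup_le (sup_le le_sup_left ?_) ?_
      · exact (KC_le_Fil 2 0).trans ((Fin0_Fil_RC 0).trans le_sup_right)
      · exact Fin0_NC_RC.trans le_sup_right
    exact h4 h3
  · rw [show dT (0 + i + 1) z = 0 from h2]
    exact zero_mem _

theorem surj_zero [IsAlgClosed K] (j : ℕ) : Helper14.Loc.Surj K 0 j := by
  intro z hz
  have hz' : dT (j + 1) z = 0 := hz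
  have hdd : ∀ w : Cx 3 j (RatFunc K), dT (j + 1) (dC 0 j w) = 0 :=
    fun w => LinearMap.congr_fun (dT_dC j) w
  have key : ∀ t : ℕ, t ≤ j → ∃ w : Cx 3 j (RatFunc K),
      (z : Cx 2 (j + 1) (RatFunc K)) - dC 0 j w ∈ Fil 2 (j + 1) (j - t + 2) := by
    intro t
    induction t with
    | zero =>
      intro _
      refine ⟨0, ?_⟩
      rw [Fil_top 2 (by omega)]
      trivial
    | succ t ih =>
      intro ht
      obtain ⟨w, hw⟩ := ih (by omega)
      have e : j - t = (j - (t + 1)) + 1 := by omega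
      rw [e] at hw
      have h3 := Fin0_stepA (j - (t + 1)) j (by omega) (z - dC 0 j w) hw
        (by rw [map_sub, hz', hdd, sub_zero])
      obtain ⟨x, ⟨w', rfl⟩, y, hy, hxy⟩ := Submodule.mem_sup.1 h3
      refine ⟨w + w', ?_⟩
      have e2 : (z : Cx 2 (j + 1) (RatFunc K)) - dC 0 j (w + w') = y := by
        rw [map_add, ← sub_sub, ← hxy]
        abel
      rw [e2]
      exact hy
  obtain ⟨w, hw⟩ := key j le_rfl
  rw [Nat.sub_self] at hw
  have h3 := Fin0_stepB j (z - dC 0 j w) hw (by rw [map_sub, hz', hdd, sub_zero])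
  obtain ⟨x, ⟨w', rfl⟩, y, hy, hxy⟩ := Submodule.mem_sup.1 h3
  have hy0 : dT (j + 1) y = 0 := by
    have e3 : y = (z - dC 0 j w) - dC 0 j w' := by
      rw [← hxy]
      abel
    rw [e3, map_sub, map_sub, hz', hdd, hdd, sub_zero, sub_zero]
  have hc : ∀ a, rC 0 j (sC 0 0 j (ct 2 j (va a) y)) = ct 2 j (va a) y := by
    intro a
    obtain ⟨y', hy'⟩ := (mem_RC 0 j y).1 hy a
    have e4 : ct 2 j (va a) y = rC 0 j y' := hy'.symm
    rw [e4, sC_rC]
  obtain ⟨z0, s, za, h4, h5, h6⟩ := decomp2 j y hy0 hc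
  refine ⟨z0, s, za, w + w', h4, h5, ?_⟩
  have e5 : (z : Cx 2 (j + 1) (RatFunc K)) = y + dC 0 j (w + w') := by
    rw [map_add]
    have : (z : Cx 2 (j + 1) (RatFunc K)) = (z - dC 0 j w) + dC 0 j w := by abel
    rw [this, ← hxy]
    abel
  rw [h6] at e5
  exact e5

end

end Helper42.LT
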