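import Pool.Agent.Helper14.W4.Lk3

set_option autoImplicit false

/-!
# Localisation in degrees `n - 1`, `n - 2`: definitions

`F = K(t)`, `D = K →₀ ℚ` (finite divisors).  `Fil k j s` is the space of the elements of
`B_k(F) ⊗ Λ^j F^* ⊗ ℚ` of degree `< s` in the divisors, `KC` the elements with a constant in the
exterior factor, `NC` the elements with constant first factor.
-/

noncomputable section

open Polynomial TensorProduct
open scoped Classical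

namespace Helper42.LT

open Helper14.Gon Helper14.W4

universe u v w

section
variable {F : Type u} [Field F]

/-- `b ↦ b ⊗ ω` on `B_k ⊗ Λ^0` -/
def tn (k j : ℕ) (ω : Tx j F) : Cx k 0 F →ₗ[ℚ] Cx k j F :=
  mapT k ((LinearMap.toSpanSingleton ℚ (Tx j F) ω) ∘ₗ (e0 F))

lemma tn_PB (k j : ℕ) (ω : Tx j F) (b : B k F) : tn k j ω (PB k 0 b (u0 F)) = PB k j b ω := by
  rw [tn, mapT_PB, LinearMap.comp_apply, u0, e0_dm, LinearMap.toSpanSingleton_apply, one_smul]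

lemma tn_PB' (k j : ℕ) (ω : Tx j F) (b : B k F) (υ : Tx 0 F) :
    tn k j ω (PB k 0 b υ) = e0 F υ • PB k j b ω := by
  rw [tn, mapT_PB, LinearMap.comp_apply, LinearMap.toSpanSingleton_apply, map_smul]

lemma tn_add (k j : ℕ) (ω υ : Tx j F) (z : Cx k 0 F) :
    tn k j (ω + υ) z = tn k j ω z + tn k j υ z := by
  have h : (LinearMap.toSpanSingleton ℚ (Tx j F) (ω + υ)) ∘ₗ (e0 F) =
      (LinearMap.toSpanSingleton ℚ (Tx j F) ω) ∘ₗ (e0 F) +
      (LinearMap.toSpanSingleton ℚ (Tx j F) υ) ∘ₗ (e0 F) := by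
    refine LinearMap.ext fun x => ?_
    simp only [LinearMap.comp_apply, LinearMap.add_apply, LinearMap.toSpanSingleton_apply,
      smul_add]
  rw [tn, tn, tn, ← mapT_add, h]

lemma tn_smul (k j : ℕ) (q : ℚ) (ω : Tx j F) (z : Cx k 0 F) :
    tn k j (q • ω) z = q • tn k j ω z := by
  have h : (LinearMap.toSpanSingleton ℚ (Tx j F) (q • ω)) ∘ₗ (e0 F) =
      q • (LinearMap.toSpanSingleton ℚ (Tx j F) ω) ∘ₗ (e0 F) := by
    refine LinearMap.ext fun x => ?_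
    simp only [LinearMap.comp_apply, LinearMap.smul_apply, LinearMap.toSpanSingleton_apply]
    rw [smul_comm]
  rw [tn, tn, ← mapT_smul, h]

/-- `tn` as a bilinear map -/
def tnL (k j : ℕ) : Tx j F →ₗ[ℚ] (Cx k 0 F →ₗ[ℚ] Cx k j F) where
  toFun ω := tn k j ω
  map_add' a b := LinearMap.ext fun z => tn_add k j a b z
  map_smul' q a := LinearMap.ext fun z => tn_smul k j q a z

lemma tnL_apply (k j : ℕ) (ω : Tx j F) (z : Cx k 0 F) : tnL k j ω z = tn k j ω z := rfl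

/-- multiplication `Λ^1 × Λ^n → Λ^{n+1}` -/
def mA (n : ℕ) : Lam 1 F →ₗ[ℤ] Lam n F →ₗ[ℤ] Lam (n + 1) F :=
  LinearMap.mk₂ ℤ
    (fun η ω => ⟨η.1 * ω.1, by
      change _ ∈ LinearMap.range (ExteriorAlgebra.ι ℤ) ^ (n + 1)
      rw [add_comm n 1, pow_add]
      exact Submodule.mul_mem_mul η.2 ω.2⟩)
    (by intro a b ω; ext; simp [add_mul])
    (by intro c a ω; ext; simp [mul_assoc])
    (by intro a ω η; ext; simp [mul_add])
    (by intro c a ω; ext; exact mul_smul_comm c _ _)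

/-- right multiplication `Λ^1 → Λ^{n+1}`, `v ↦ v ∧ ω` -/
def ra1 (n : ℕ) : Tx n F →ₗ[ℚ] (Tx 1 F →ₗ[ℚ] Tx (n + 1) F) :=
  LinearMap.liftBaseChange ℚ ((LinearMap.baseChangeHom ℤ ℚ (Lam 1 F) (Lam (n + 1) F)) ∘ₗ
    (mA n).flip)

/-- right multiplication `Λ^2 → Λ^{n+2}`, `v ∧ w ↦ v ∧ w ∧ ω` -/
def ra2 (n : ℕ) : Tx n F →ₗ[ℚ] (Tx 2 F →ₗ[ℚ] Tx (n + 2) F) :=
  LinearMap.liftBaseChange ℚ ((LinearMap.baseChangeHom ℤ ℚ (Lam 2 F) (Lam (n + 2) F)) ∘ₗ
    (mulW n).flip)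

lemma ra1_toQ (n : ℕ) (ω : Lam n F) (η : Lam 1 F) :
    ra1 n (toQ ω) (toQ η) = toQ (mA n η ω) := by
  have h : ra1 n (toQ ω) = LinearMap.baseChange ℚ ((mA n).flip ω) := by
    simp only [ra1, toQ]
    exact LinearMap.liftBaseChange_one_tmul ℚ _ _
  rw [h]
  rfl

lemma ra2_toQ (n : ℕ) (ω : Lam n F) (η : Lam 2 F) :
    ra2 n (toQ ω) (toQ η) = toQ (mulW n η ω) := by
  have h : ra2 n (toQ ω) = LinearMap.baseChange ℚ ((mulW n).flip ω) := by
    simp only [ra2, toQ]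
    exact LinearMap.liftBaseChange_one_tmul ℚ _ _
  rw [h]
  rfl

lemma ra1_wT (n : ℕ) (v : Additive Fˣ) (ω : Tx n F) :
    ra1 n ω (wT 0 v (u0 F)) = wT n v ω := by
  have key : (LinearMap.applyₗ (wT 0 v (u0 F))) ∘ₗ ra1 n = wT n v := by
    refine Helper14.W4.Tx_ext fun w => ?_
    change ra1 n (toQ _) (wT 0 v (u0 F)) = wT n v (toQ _)
    rw [u0, dm, wT_toQ, wT_toQ, ra1_toQ, wL_ιMulti, wL_ιMulti]
    congr 1
    ext
    change ExteriorAlgebra.ιMulti ℤ 1 _ * ExteriorAlgebra.ιMulti ℤ n w =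
      ExteriorAlgebra.ιMulti ℤ (n + 1) (Matrix.vecCons v w)
    rw [ExteriorAlgebra.ιMulti_succ_apply, ExteriorAlgebra.ιMulti_succ_apply]
    simp
  exact LinearMap.congr_fun key ω

lemma ra2_wT (n : ℕ) (v v' : Additive Fˣ) (ω : Tx n F) :
    ra2 n ω (wT 1 v (wT 0 v' (u0 F))) = wT (n + 1) v (wT n v' ω) := by
  have key : (LinearMap.applyₗ (wT 1 v (wT 0 v' (u0 F)))) ∘ₗ ra2 n = (wT (n + 1) v) ∘ₗ (wT n v') := by
    refine Helper14.W4.Tx_ext fun w => ?_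
    change ra2 n (toQ _) (wT 1 v (wT 0 v' (u0 F))) = wT (n + 1) v (wT n v' (toQ _))
    rw [u0, dm, wT_toQ, wT_toQ, wT_toQ, wT_toQ, ra2_toQ, wL_ιMulti, wL_ιMulti, wL_ιMulti,
      wL_ιMulti]
    have h : ∀ w0 : Fin 0 → Additive Fˣ, exteriorPower.ιMulti ℤ 2
        (Matrix.vecCons v (Matrix.vecCons v' w0)) = wdg v v' := by
      intro w0
      simp only [wdg]
      congr 1
      funext i
      fin_cases i <;> rfl
    rw [h, mulW_wdg, wL_ιMulti, wL_ιMulti]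
  exact LinearMap.congr_fun key ω

/-- elements of `Λ^1` -/
lemma Tx1_ind (p : Tx 1 F → Prop) (h0 : p 0) (hadd : ∀ a b, p a → p b → p (a + b))
    (h1 : ∀ (q : ℚ) (v : Additive Fˣ), p (q • wT 0 v (u0 F))) (z : Tx 1 F) : p z := by
  refine Tx_ind p h0 hadd (fun v ω => ?_) z
  have h := e0_inj ω
  rw [← h, map_smul]
  exact h1 _ v

/-- `mapT` of a right multiplication -/
def rm1 (k n : ℕ) (ω : Tx n F) : Cx k 1 F →ₗ[ℚ] Cx k (n + 1) F := mapT k (ra1 n ω)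

/-- `mapT` of a right multiplication -/
def rm2 (k n : ℕ) (ω : Tx n F) : Cx k 2 F →ₗ[ℚ] Cx k (n + 2) F := mapT k (ra2 n ω)

lemma rm1_PB (k n : ℕ) (ω : Tx n F) (b : B k F) (v : Additive Fˣ) :
    rm1 k n ω (PB k 1 b (wT 0 v (u0 F))) = PB k (n + 1) b (wT n v ω) := by
  rw [rm1, mapT_PB, ra1_wT]

lemma rm2_PB (k n : ℕ) (ω : Tx n F) (b : B k F) (v v' : Additive Fˣ) :
    rm2 k n ω (PB k 2 b (wT 1 v (wT 0 v' (u0 F)))) = PB k (n + 2) b (wT (n + 1) v (wT n v' ω)) := by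
  rw [rm2, mapT_PB, ra2_wT]

lemma rm1_add (k n : ℕ) (ω υ : Tx n F) (z : Cx k 1 F) :
    rm1 k n (ω + υ) z = rm1 k n ω z + rm1 k n υ z := by
  rw [rm1, rm1, rm1, ← mapT_add, map_add]

lemma rm1_smul (k n : ℕ) (q : ℚ) (ω : Tx n F) (z : Cx k 1 F) :
    rm1 k n (q • ω) z = q • rm1 k n ω z := by
  rw [rm1, rm1, ← mapT_smul, map_smul]

/-- right multiplication and `b ⊗ v` -/
lemma rm1_tn (k n : ℕ) (ω : Tx n F) (v : Additive Fˣ) (z : Cx k 0 F) :
    rm1 k n ω (tn k 1 (wT 0 v (u0 F)) z) = tn k (n + 1) (wT n v ω) z := by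
  refine Cx_ind (fun z => rm1 k n ω (tn k 1 (wT 0 v (u0 F)) z) = tn k (n + 1) (wT n v ω) z)
    (by simp) (fun a b ha hb => by simp only [map_add, ha, hb]) (fun x υ => ?_) z
  rw [tn_PB', map_smul, rm1_PB, tn_PB']

lemma rm2_tn (k n : ℕ) (ω : Tx n F) (v v' : Additive Fˣ) (z : Cx k 0 F) :
    rm2 k n ω (tn k 2 (wT 1 v (wT 0 v' (u0 F))) z) = tn k (n + 2) (wT (n + 1) v (wT n v' ω)) z := by
  refine Cx_ind (fun z => rm2 k n ω (tn k 2 (wT 1 v (wT 0 v' (u0 F))) z) =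
    tn k (n + 2) (wT (n + 1) v (wT n v' ω)) z)
    (by simp) (fun a b ha hb => by simp only [map_add, ha, hb]) (fun x υ => ?_) z
  rw [tn_PB', map_smul, rm2_PB, tn_PB']

/-- the differential and right multiplication -/
lemma dC_rm1 (k n : ℕ) (ω : Tx n F) (z : Cx (k + 3) 1 F) :
    dC k (n + 1) (rm1 (k + 3) n ω z) = rm2 (k + 2) n ω (dC k 1 z) := by
  refine Cx_ind (fun z => dC k (n + 1) (rm1 (k + 3) n ω z) = rm2 (k + 2) n ω (dC k 1 z))
    (by simp) (fun a b ha hb => by simp only [map_add, ha, hb]) (fun x υ => ?_) z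
  refine Tx1_ind (fun υ => dC k (n + 1) (rm1 (k + 3) n ω (PB (k + 3) 1 (cl (k + 3) x) υ)) =
    rm2 (k + 2) n ω (dC k 1 (PB (k + 3) 1 (cl (k + 3) x) υ))) (by simp)
    (fun a b ha hb => by simp only [map_add, ha, hb]) (fun q v => ?_) υ
  simp only [map_smul]
  rw [rm1_PB, dC_PB, dC_PB, rm2_PB]

/-- the differential of `b ⊗ ω` -/
lemma rm1_dC (k n : ℕ) (ω : Tx n F) (z : Cx (k + 3) 0 F) :
    rm1 (k + 2) n ω (dC k 0 z) = dC k n (tn (k + 3) n ω z) := by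
  refine Cx_ind (fun z => rm1 (k + 2) n ω (dC k 0 z) = dC k n (tn (k + 3) n ω z))
    (by simp) (fun a b ha hb => by simp only [map_add, ha, hb]) (fun x υ => ?_) z
  have h := e0_inj υ
  rw [← h]
  simp only [map_smul]
  rw [dC_PB, rm1_PB, tn_PB, dC_PB]

end

section
variable {K : Type u} [Field K]

/-- elements of degree `< s` in the divisors, terms `B_k ⊗ Λ^j` -/
def Fil (k : ℕ) : (j s : ℕ) → Submodule ℚ (Cx k j (RatFunc K))
  | _, 0 => ⊥
  | 0, _ + 1 => ⊤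
  | j + 1, s + 1 => ⨅ a : K, (Fil k j s).comap (ct k j (va a))

/-- elements of degree `< s` in the divisors, last term -/
def FilT : (j s : ℕ) → Submodule ℚ (Tx j (RatFunc K))
  | _, 0 => ⊥
  | 0, _ + 1 => ⊤
  | j + 1, s + 1 => ⨅ a : K, (FilT j s).comap (ctT j (va a))

lemma Fil_zero (k j : ℕ) : (Fil k j 0 : Submodule ℚ (Cx k j (RatFunc K))) = ⊥ := by
  cases j <;> rfl

lemma FilT_zero (j : ℕ) : (FilT j 0 : Submodule ℚ (Tx j (RatFunc K))) = ⊥ := by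
  cases j <;> rfl

lemma mem_Fil (k j s : ℕ) (z : Cx k (j + 1) (RatFunc K)) :
    z ∈ Fil k (j + 1) (s + 1) ↔ ∀ a : K, ct k j (va a) z ∈ Fil k j s := by
  change z ∈ ⨅ a : K, (Fil k j s).comap (ct k j (va a)) ↔ _
  rw [Submodule.mem_iInf]
  rfl

lemma mem_FilT (j s : ℕ) (z : Tx (j + 1) (RatFunc K)) :
    z ∈ FilT (j + 1) (s + 1) ↔ ∀ a : K, ctT j (va a) z ∈ FilT j s := by
  change z ∈ ⨅ a : K, (FilT j s).comap (ctT j (va a)) ↔ _
  rw [Submodule.mem_iInf]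
  rfl

lemma mem_Fil_one (k j : ℕ) (z : Cx k (j + 1) (RatFunc K)) :
    z ∈ Fil k (j + 1) 1 ↔ ∀ a : K, ct k j (va a) z = 0 := by
  rw [mem_Fil]
  simp only [Fil_zero, Submodule.mem_bot]

lemma Fil_top (k : ℕ) : ∀ {j s : ℕ}, j < s → (Fil k j s : Submodule ℚ (Cx k j (RatFunc K))) = ⊤
  | _, 0, h => absurd h (by omega)
  | 0, _ + 1, _ => rfl
  | j + 1, s + 1, h => by
    rw [eq_top_iff]
    intro z _
    rw [mem_Fil]
    intro a
    rw [Fil_top k (show j < s by omega)]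
    trivial

lemma FilT_top : ∀ {j s : ℕ}, j < s → (FilT j s : Submodule ℚ (Tx j (RatFunc K))) = ⊤
  | _, 0, h => absurd h (by omega)
  | 0, _ + 1, _ => rfl
  | j + 1, s + 1, h => by
    rw [eq_top_iff]
    intro z _
    rw [mem_FilT]
    intro a
    rw [FilT_top (show j < s by omega)]
    trivial

lemma Fil_mono (k : ℕ) : ∀ {j s : ℕ}, (Fil k j s : Submodule ℚ (Cx k j (RatFunc K))) ≤
    Fil k j (s + 1)
  | _, 0 => by rw [Fil_zero]; exact bot_le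
  | 0, _ + 1 => le_rfl
  | j + 1, s + 1 => fun z hz => by
    rw [mem_Fil] at hz ⊢
    exact fun a => Fil_mono k (hz a)

lemma FilT_mono : ∀ {j s : ℕ}, (FilT j s : Submodule ℚ (Tx j (RatFunc K))) ≤
    FilT j (s + 1)
  | _, 0 => by rw [FilT_zero]; exact bot_le
  | 0, _ + 1 => le_rfl
  | j + 1, s + 1 => fun z hz => by
    rw [mem_FilT] at hz ⊢
    exact fun a => FilT_mono (hz a)

/-- contractions respect the filtration -/
lemma ct_Fil (k : ℕ) : ∀ {j s : ℕ} (θ : Additive (RatFunc K)ˣ →+ ℚ)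
    {z : Cx k (j + 1) (RatFunc K)}, z ∈ Fil k (j + 1) s → ct k j θ z ∈ Fil k j s
  | _, 0, θ, z, h => by
    rw [Fil_zero, Submodule.mem_bot] at h ⊢
    rw [h, map_zero]
  | 0, _ + 1, _, _, _ => trivial
  | j + 1, s + 1, θ, z, h => by
    rw [mem_Fil] at h ⊢
    intro a
    rw [ct_ct]
    exact neg_mem (ct_Fil k θ (h a))

lemma ctT_FilT : ∀ {j s : ℕ} (θ : Additive (RatFunc K)ˣ →+ ℚ)
    {z : Tx (j + 1) (RatFunc K)}, z ∈ FilT (j + 1) s → ctT j θ z ∈ FilT j s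
  | _, 0, θ, z, h => by
    rw [FilT_zero, Submodule.mem_bot] at h ⊢
    rw [h, map_zero]
  | 0, _ + 1, _, _, _ => trivial
  | j + 1, s + 1, θ, z, h => by
    rw [mem_FilT] at h ⊢
    intro a
    rw [ctT_ctT]
    exact neg_mem (ctT_FilT θ (h a))

lemma va_rU_apply (a : K) (κ : Additive Kˣ) : va a (rU κ) = 0 :=
  DFunLike.congr_fun (va_rU a) κ

lemma dv_rU (κ : Additive Kˣ) : dv (rU κ) = 0 := by
  ext a
  exact va_rU_apply a κ

/-- multiplication with a constant respects the filtration -/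
lemma wC_Fil (k : ℕ) : ∀ {j s : ℕ} (κ : Additive Kˣ) {z : Cx k j (RatFunc K)},
    z ∈ Fil k j s → wC k j (rU κ) z ∈ Fil k (j + 1) s
  | _, 0, κ, z, h => by
    rw [Fil_zero, Submodule.mem_bot] at h ⊢
    rw [h, map_zero]
  | 0, s + 1, κ, z, _ => by
    rw [mem_Fil]
    intro a
    rw [ct_wC_zero, va_rU_apply, zero_smul]
    exact zero_mem _
  | j + 1, s + 1, κ, z, h => by
    rw [mem_Fil] at h ⊢
    intro a
    rw [ct_wC, va_rU_apply, zero_smul, zero_sub]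
    exact neg_mem (wC_Fil k κ (h a))

/-- Lie derivatives respect the filtration -/
lemma ld_Fil (k : ℕ) : ∀ {j s : ℕ} (θ : Additive (RatFunc K)ˣ →+ ℚ)
    {z : Cx (k + 3) j (RatFunc K)}, z ∈ Fil (k + 3) j s → ld k j θ z ∈ Fil (k + 2) j s
  | _, 0, θ, z, h => by
    rw [Fil_zero, Submodule.mem_bot] at h ⊢
    rw [h, map_zero]
  | 0, _ + 1, _, _, _ => trivial
  | j + 1, s + 1, θ, z, h => by
    rw [mem_Fil] at h ⊢
    intro a
    rw [ct_ld]
    exact ld_Fil k θ (h a)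

lemma ll_Fil : ∀ {j s : ℕ} (θ η : Additive (RatFunc K)ˣ →+ ℚ)
    {z : Cx 2 j (RatFunc K)}, z ∈ Fil 2 j s → ll j θ η z ∈ FilT j s
  | _, 0, θ, η, z, h => by
    rw [Fil_zero, Submodule.mem_bot] at h
    rw [FilT_zero, Submodule.mem_bot, h, map_zero]
  | 0, _ + 1, _, _, _, _ => trivial
  | j + 1, s + 1, θ, η, z, h => by
    rw [mem_Fil] at h
    rw [mem_FilT]
    intro a
    rw [ctT_ll]
    exact ll_Fil θ η (h a)

lemma lt_Fil : ∀ {j s : ℕ} (θ : Additive (RatFunc K)ˣ →+ ℚ)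
    {z : Cx 2 j (RatFunc K)}, z ∈ Fil 2 j s → lt j θ z ∈ FilT (j + 1) (s + 1)
  | _, 0, θ, z, h => by
    rw [Fil_zero, Submodule.mem_bot] at h
    rw [h, map_zero]
    exact zero_mem _
  | 0, s + 1, _, _, _ => by
    rw [FilT_top (by omega)]
    trivial
  | j + 1, s + 1, θ, z, h => by
    rw [mem_FilT]
    intro a
    have h1 : ctT (j + 1) (va a) (lt (j + 1) θ z) = ll (j + 1) θ (va a) z -
        lt j θ (ct 2 j (va a) z) := by
      change _ = (ctT (j + 1) (va a)) (lt (j + 1) θ z) + lt j θ (ct 2 j (va a) z) - _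
      abel
    rw [h1]
    refine sub_mem (ll_Fil θ (va a) h) (lt_Fil θ ?_)
    rw [mem_Fil] at h
    exact h a

/-- elements with a constant in the exterior factor -/
def KC (k j : ℕ) : Submodule ℚ (Cx k (j + 1) (RatFunc K)) :=
  Submodule.span ℚ {x | ∃ (κ : Additive Kˣ) (z : Cx k j (RatFunc K)), x = wC k j (rU κ) z}

/-- elements with a constant in the exterior factor, last term -/
def KT (j : ℕ) : Submodule ℚ (Tx (j + 1) (RatFunc K)) :=
  Submodule.span ℚ {x | ∃ (κ : Additive Kˣ) (z : Tx j (RatFunc K)), x = wT j (rU κ) z}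

/-- elements with constant first factor -/
def NC (k j : ℕ) : Submodule ℚ (Cx (k + 2) j (RatFunc K)) :=
  Submodule.span ℚ {x | ∃ (y : Cx (k + 2) 0 K) (ω : Tx j (RatFunc K)),
    x = tn (k + 2) j ω (rC k 0 y)}

/-- coboundaries and elements with a constant in the exterior factor -/
def WW (k j : ℕ) : Submodule ℚ (Cx (k + 2) (j + 1) (RatFunc K)) :=
  LinearMap.range (dC k j : Cx (k + 3) j (RatFunc K) →ₗ[ℚ] _) ⊔ KC (k + 2) j

/-- elements with constant residues -/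
def RC (k j : ℕ) : Submodule ℚ (Cx (k + 2) (j + 1) (RatFunc K)) :=
  ⨅ a : K, (LinearMap.range (rC k j : Cx (k + 2) j K →ₗ[ℚ] _)).comap (ct (k + 2) j (va a))

lemma mem_RC (k j : ℕ) (z : Cx (k + 2) (j + 1) (RatFunc K)) :
    z ∈ RC k j ↔ ∀ a : K, ct (k + 2) j (va a) z ∈ LinearMap.range (rC k j : Cx (k + 2) j K →ₗ[ℚ] _) := by
  rw [RC, Submodule.mem_iInf]
  rfl

/-- products of elements with constant double contractions of the differential with `Λ^n` -/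
def SY (n : ℕ) : Submodule ℚ (Cx 3 (n + 1) (RatFunc K)) :=
  Submodule.span ℚ {x | ∃ (z : Cx 3 1 (RatFunc K)) (ω : Tx n (RatFunc K)),
    dC 0 1 z ∈ NC 0 2 ⊔ KC 2 1 ∧ x = rm1 3 n ω z}

lemma wC_mem_KC (k j : ℕ) (κ : Additive Kˣ) (z : Cx k j (RatFunc K)) :
    wC k j (rU κ) z ∈ KC k j := Submodule.subset_span ⟨κ, z, rfl⟩

lemma wT_mem_KT (j : ℕ) (κ : Additive Kˣ) (z : Tx j (RatFunc K)) :
    wT j (rU κ) z ∈ KT j := Submodule.subset_span ⟨κ, z, rfl⟩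

lemma tn_mem_NC (k j : ℕ) (y : Cx (k + 2) 0 K) (ω : Tx j (RatFunc K)) :
    tn (k + 2) j ω (rC k 0 y) ∈ NC k j := Submodule.subset_span ⟨y, ω, rfl⟩

lemma dC_mem_WW (k j : ℕ) (w : Cx (k + 3) j (RatFunc K)) : dC k j w ∈ WW k j :=
  Submodule.mem_sup_left ⟨w, rfl⟩

lemma KC_le_WW (k j : ℕ) : (KC (k + 2) j : Submodule ℚ (Cx (k + 2) (j + 1) (RatFunc K))) ≤
    WW k j := le_sup_right

/-- `KC` is contained in the filtration -/
lemma KC_le_Fil (k j : ℕ) : (KC k j : Submodule ℚ (Cx k (j + 1) (RatFunc K))) ≤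
    Fil k (j + 1) (j + 1) := by
  refine Submodule.span_le.2 ?_
  rintro x ⟨κ, z, rfl⟩
  refine wC_Fil k κ ?_
  rw [Fil_top k (by omega)]
  trivial

end

end Helper42.LT
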