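import Pool.Agent.Helper14.W4.H6
import Pool.Agent.Helper42.LT.Defs

set_option autoImplicit false

/-!
# LT-Dec: the decomposition of a cocycle with constant residues, terms B_{k+3} tensor Lambda^{j+1}
-/

noncomputable section

open Polynomial TensorProduct
open scoped Classical

namespace Helper42.LT

open Helper14.Gon Helper14.W4

universe u v w

section
variable {K : Type u} [Field K]

theorem decompj [IsAlgClosed K] (k j : ℕ) (z : Cx (k + 3) (j + 1) (RatFunc K))
    (hz : dC k (j + 1) z = 0) (hc : z ∈ RC (k + 1) j) :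
    ∃ (z0 : Cx (k + 3) (j + 1) K) (s : Finset K) (za : K → Cx (k + 3) j K),
      dC k (j + 1) z0 = 0 ∧ (∀ a, dC k j (za a) = 0) ∧
      z = rC (k + 1) (j + 1) z0 + ∑ a ∈ s, wC (k + 3) j (ee a) (rC (k + 1) j (za a)) := by
  rw [mem_RC] at hc
  have hc' : ∀ a, rC (k + 1) j (sC 0 (k + 1) j (ct (k + 3) j (va a) z)) =
      ct (k + 3) j (va a) z := by
    intro a
    obtain ⟨y, hy⟩ := hc a
    have hy' : rC (k + 1) j y = ct (k + 3) j (va a) z := hy
    rw [← hy', sC_rC]
  obtain ⟨s, hs⟩ := ct_finite (k + 3) j z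
  set za : K → Cx (k + 3) j K := fun a => sC 0 (k + 1) j (ct (k + 3) j (va a) z) with hza
  set z'' := z - ∑ a ∈ s, wC (k + 3) j (ee a) (rC (k + 1) j (za a)) with hz''
  have h1 : ∀ b, ct (k + 3) j (va b) z'' = 0 := by
    intro b
    rw [hz'', map_sub, map_sum]
    have : ∀ a ∈ s, ct (k + 3) j (va b) (wC (k + 3) j (ee a) (rC (k + 1) j (za a))) =
        if a = b then rC (k + 1) j (za a) else 0 := fun a _ => ct_va_wC (k + 1) j a b _
    rw [Finset.sum_congr rfl this, Finset.sum_ite_eq']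
    split_ifs with hb
    · rw [hza]; simp only [hc' b, sub_self]
    · rw [hs b hb, sub_zero]
  have hl : ∀ (b : K) (y : Cx (k + 3) j K), ld k j (va b) (rC (k + 1) j y) = 0 := by
    intro b y
    cases j with
    | zero => exact ld_va_rC_zero k b y
    | succ j => exact ld_va_rC k j b y
  have h2 : ∀ b, ld k (j + 1) (va b) z'' = rC k (j + 1) (dC k j (za b)) := by
    intro b
    have e1 := ld_cyc k j (va b) z
    rw [hz, map_zero] at e1
    have e2 : ld k (j + 1) (va b) z = dC k j (ct (k + 3) j (va b) z) := (sub_eq_zero.1 e1.symm)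
    rw [hz'', map_sub, map_sum, e2, ← hc' b, rC_dC]
    rw [Finset.sum_eq_zero, sub_zero]
    intro a _
    rw [ld_wC, hl, map_zero]
  have h3 : ∀ b, dC k j (za b) = 0 := by
    intro b
    have := sC_ld b k (j + 1) z''
    rwa [h2, sC_rC] at this
  have h4 : ∀ b, ld k (j + 1) (va b) z'' = 0 := fun b => by rw [h2, h3, map_zero]
  have h5 := Emj 0 k j z'' h1 h4
  refine ⟨sC 0 (k + 1) (j + 1) z'', s, za, ?_, h3, ?_⟩
  · rw [← sC_dC, hz'', map_sub, hz, map_sum, Finset.sum_eq_zero, sub_zero, map_zero]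
    intro a _
    rw [dC_wC, rC_dC, h3, map_zero, map_zero, neg_zero]
  · rw [h5, hz'']; abel

end

end Helper42.LT
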