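import Pool.Agent.Helper14.Gon.Alt
import Pool.Agent.Helper14.W4.H1

set_option autoImplicit false

/-!
# LT-Psi: a bilinear family which changes sign under a swap of a neighbouring factor defines
a map on the exterior power

PLAN (about 0.7 h).  This is the construction mul3, mul3_swap, psi, psi_iotaMulti, psiQ of
Pool/Agent/Helper11/Gon/Ex.lean (see also Pool/Agent/Helper14/Gon/Alt.lean and Exact.lean: altOf,
ss_ne_zero, ss_ne_one, ...), with b3 s j u v omega replaced by an arbitrary b u v (toQ omega).
 * multilinear map m : (Fin (n+3) -> V) -> Q over the integers,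
     m v = b (v 0) (v 1) (toQ (iotaMulti (n+1) (fun i => v i.succ.succ)))      (V = Additive F^x);
   additivity and smul in each variable: additive in the first two variables since b is a
   homomorphism, in the others since iotaMulti is multilinear and b u v, toQ are additive;
 * m (v o swap i.castSucc i.succ) = - m v:
     i = 0: b v u = - b u v (from h1 by polarisation);
     i = 1: h2 with w, v and the wedge of the remaining ones (wL_iotaMulti, wT_toQ);
     i >= 2: iotaMulti changes sign (AlternatingMap.map_swap);
 * altOf (Helper14/Gon/Alt.lean) gives an alternating map, exteriorPower.alternatingMapLinearEquiv a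
   linear map on Lam (n+3) F, LinearMap.liftBaseChange the map on Tx (n+3) F;
 * the formula: by Tx_ext (Helper14.W4.Tx_ext) it suffices to take omega = toQ (iotaMulti w), then
   wT_toQ, wL_iotaMulti and the definition.
-/

noncomputable section

open Polynomial TensorProduct
open scoped Classical

namespace Helper42.LT

open Helper14.Gon Helper14.W4

universe u v w

section
variable {F : Type u} [Field F] {Q : Type v} [AddCommGroup Q] [Module ℚ Q]

/-- the first hypothesis -/
private def H1 {n : ℕ} (b : Additive Fˣ →+ Additive Fˣ →+ (Tx (n + 1) F →ₗ[ℚ] Q)) : Prop :=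
  ∀ (u : Additive Fˣ) (ω : Tx (n + 1) F), b u u ω = 0

/-- the second hypothesis -/
private def H2 {n : ℕ} (b : Additive Fˣ →+ Additive Fˣ →+ (Tx (n + 1) F →ₗ[ℚ] Q)) : Prop :=
  ∀ (u v w : Additive Fˣ) (ω : Tx n F), b u v (wT n w ω) = - b u w (wT n v ω)

variable (j : ℕ) (b : Additive Fˣ →+ Additive Fˣ →+ (Tx (j + 1) F →ₗ[ℚ] Q))

/-- the family on decomposable elements -/
private def b3 (u v : Additive Fˣ) (ω : Lam (j + 1) F) : Q := b u v (toQ ω)

private lemma b3_add1 (u u' v : Additive Fˣ) (ω : Lam (j + 1) F) :
    b3 j b (u + u') v ω = b3 j b u v ω + b3 j b u' v ω := by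
  simp only [b3, map_add, AddMonoidHom.add_apply, LinearMap.add_apply]

private lemma b3_add2 (u v v' : Additive Fˣ) (ω : Lam (j + 1) F) :
    b3 j b u (v + v') ω = b3 j b u v ω + b3 j b u v' ω := by
  simp only [b3, map_add, LinearMap.add_apply]

private lemma b3_add3 (u v : Additive Fˣ) (ω ω' : Lam (j + 1) F) :
    b3 j b u v (ω + ω') = b3 j b u v ω + b3 j b u v ω' := by
  simp only [b3, toQ, tmul_add, map_add]

private lemma b3_zs1 (c : ℤ) (u v : Additive Fˣ) (ω : Lam (j + 1) F) :
    b3 j b (c • u) v ω = c • b3 j b u v ω :=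
  map_zsmul (AddMonoidHom.mk' (fun u => b3 j b u v ω) (fun _ _ => b3_add1 j b _ _ v ω)) c u

private lemma b3_zs2 (c : ℤ) (u v : Additive Fˣ) (ω : Lam (j + 1) F) :
    b3 j b u (c • v) ω = c • b3 j b u v ω :=
  map_zsmul (AddMonoidHom.mk' (fun v => b3 j b u v ω) (fun _ _ => b3_add2 j b u _ _ ω)) c v

/-- `b3` in the last variable. -/
private def b3H (u v : Additive Fˣ) : Lam (j + 1) F →+ Q :=
  AddMonoidHom.mk' (fun ω => b3 j b u v ω) (fun _ _ => b3_add3 j b u v _ _)

private lemma b3_swap (h1 : H1 b) (u v : Additive Fˣ) (ω : Lam (j + 1) F) :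
    b3 j b v u ω = - b3 j b u v ω := by
  have h : b3 j b (u + v) (u + v) ω = 0 := h1 (u + v) (toQ ω)
  have hu : b3 j b u u ω = 0 := h1 u (toQ ω)
  have hv : b3 j b v v ω = 0 := h1 v (toQ ω)
  rw [b3_add1, b3_add2, b3_add2, hu, hv, zero_add, add_zero] at h
  exact eq_neg_of_add_eq_zero_left (by rw [add_comm]; exact h)

/-- The multilinear map `(v_0, v_1, …) ↦ [be(v_0, v_1) ⊗ v_2 ∧ …]`. -/
private def mul3 : MultilinearMap ℤ (fun _ : Fin (j + 3) => Additive Fˣ) Q where
  toFun v := b3 j b (v 0) (v 1) (exteriorPower.ιMulti ℤ (j + 1) (fun i => v i.succ.succ))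
  map_update_add' := by
    intro _ v m x y
    refine Fin.cases ?_ (fun m => ?_) m
    · have e : ∀ z : Additive Fˣ, (fun i : Fin (j + 1) =>
          Function.update v 0 z i.succ.succ) = fun i => v i.succ.succ := by
        intro z; funext i
        exact Function.update_of_ne (ss_ne_zero i) _ _
      have e1 : ∀ z : Additive Fˣ, Function.update v 0 z 1 = v 1 := by
        intro z; exact Function.update_of_ne (by simp) _ _
      simp only [Function.update_self, e, e1]
      exact b3_add1 j b x y (v 1) (exteriorPower.ιMulti ℤ (j + 1) (fun i => v i.succ.succ))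
    · refine Fin.cases ?_ (fun m => ?_) m
      · have e : ∀ z : Additive Fˣ, (fun i : Fin (j + 1) =>
            Function.update v 1 z i.succ.succ) = fun i => v i.succ.succ := by
          intro z; funext i
          exact Function.update_of_ne (ss_ne_one i) _ _
        have e1 : ∀ z : Additive Fˣ, Function.update v 1 z 0 = v 0 := by
          intro z; exact Function.update_of_ne (by simp) _ _
        simp only [Fin.succ_zero_eq_one, Function.update_self, e, e1]
        exact b3_add2 j b _ x y _
      · have e : ∀ z : Additive Fˣ, (fun i : Fin (j + 1) =>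
            Function.update v m.succ.succ z i.succ.succ) =
            Function.update (fun i : Fin (j + 1) => v i.succ.succ) m z := by
          intro z; funext i
          by_cases hi : i = m
          · subst hi; simp
          · rw [Function.update_of_ne hi, Function.update_of_ne]
            simpa using hi
        have e0 : ∀ z : Additive Fˣ, Function.update v m.succ.succ z 0 = v 0 := by
          intro z; exact Function.update_of_ne (ss_ne_zero m).symm _ _
        have e1 : ∀ z : Additive Fˣ, Function.update v m.succ.succ z 1 = v 1 := by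
          intro z; exact Function.update_of_ne (ss_ne_one m).symm _ _
        simp only [e0, e1]
        rw [e, e, e, (exteriorPower.ιMulti ℤ (j + 1)).map_update_add, b3_add3]
  map_update_smul' := by
    intro _ v m c x
    refine Fin.cases ?_ (fun m => ?_) m
    · have e : ∀ z : Additive Fˣ, (fun i : Fin (j + 1) =>
          Function.update v 0 z i.succ.succ) = fun i => v i.succ.succ := by
        intro z; funext i
        exact Function.update_of_ne (ss_ne_zero i) _ _
      have e1 : ∀ z : Additive Fˣ, Function.update v 0 z 1 = v 1 := by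
        intro z; exact Function.update_of_ne (by simp) _ _
      simp only [Function.update_self, e, e1]
      exact b3_zs1 j b c x _ _
    · refine Fin.cases ?_ (fun m => ?_) m
      · have e : ∀ z : Additive Fˣ, (fun i : Fin (j + 1) =>
            Function.update v 1 z i.succ.succ) = fun i => v i.succ.succ := by
          intro z; funext i
          exact Function.update_of_ne (ss_ne_one i) _ _
        have e1 : ∀ z : Additive Fˣ, Function.update v 1 z 0 = v 0 := by
          intro z; exact Function.update_of_ne (by simp) _ _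
        simp only [Fin.succ_zero_eq_one, Function.update_self, e, e1]
        exact b3_zs2 j b c _ x _
      · have e : ∀ z : Additive Fˣ, (fun i : Fin (j + 1) =>
            Function.update v m.succ.succ z i.succ.succ) =
            Function.update (fun i : Fin (j + 1) => v i.succ.succ) m z := by
          intro z; funext i
          by_cases hi : i = m
          · subst hi; simp
          · rw [Function.update_of_ne hi, Function.update_of_ne]
            simpa using hi
        have e0 : ∀ z : Additive Fˣ, Function.update v m.succ.succ z 0 = v 0 := by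
          intro z; exact Function.update_of_ne (ss_ne_zero m).symm _ _
        have e1 : ∀ z : Additive Fˣ, Function.update v m.succ.succ z 1 = v 1 := by
          intro z; exact Function.update_of_ne (ss_ne_one m).symm _ _
        simp only [e0, e1]
        rw [e, e, (exteriorPower.ιMulti ℤ (j + 1)).map_update_smul]
        exact map_zsmul (b3H j b (v 0) (v 1)) c _

private lemma mul3_apply (v : Fin (j + 3) → Additive Fˣ) :
    mul3 j b v = b3 j b (v 0) (v 1)
      (exteriorPower.ιMulti ℤ (j + 1) (fun i => v i.succ.succ)) := rfl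

private lemma mul3_swap (h1 : H1 b) (h2 : H2 b) (v : Fin (j + 3) → Additive Fˣ)
    (i : Fin (j + 2)) :
    mul3 j b (v ∘ Equiv.swap i.castSucc i.succ) = - mul3 j b v := by
  rw [mul3_apply, mul3_apply]
  refine Fin.cases ?_ (fun i => ?_) i
  · have e0 : (v ∘ Equiv.swap (0 : Fin (j + 2)).castSucc (0 : Fin (j + 2)).succ) 0 = v 1 := by
      rw [Function.comp_apply, Fin.castSucc_zero, Equiv.swap_apply_left]; rfl
    have e1 : (v ∘ Equiv.swap (0 : Fin (j + 2)).castSucc (0 : Fin (j + 2)).succ) 1 = v 0 := by
      rw [Function.comp_apply, Fin.castSucc_zero, Fin.succ_zero_eq_one, Equiv.swap_apply_right]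
    have e2 : (fun i : Fin (j + 1) => (v ∘ Equiv.swap (0 : Fin (j + 2)).castSucc
        (0 : Fin (j + 2)).succ) i.succ.succ) = fun i => v i.succ.succ := by
      funext i
      rw [Function.comp_apply, Fin.castSucc_zero, Fin.succ_zero_eq_one,
        Equiv.swap_apply_of_ne_of_ne (ss_ne_zero i) (ss_ne_one i)]
    rw [e0, e1, e2]
    exact b3_swap j b h1 (v 0) (v 1) _
  · refine Fin.cases ?_ (fun i => ?_) i
    · set σ := Equiv.swap (Fin.succ (0 : Fin (j + 1))).castSucc
        (Fin.succ (0 : Fin (j + 1))).succ with hσ
      have hl : (Fin.succ (0 : Fin (j + 1))).castSucc = (1 : Fin (j + 3)) := rfl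
      have hr : (Fin.succ (0 : Fin (j + 1))).succ = (2 : Fin (j + 3)) := rfl
      have e0 : (v ∘ σ) 0 = v 0 := by
        rw [Function.comp_apply, hσ, Equiv.swap_apply_of_ne_of_ne]
        · rw [hl]; exact fun h => absurd (congrArg Fin.val h) (by simp)
        · exact (Fin.succ_ne_zero _).symm
      have e1 : (v ∘ σ) 1 = v 2 := by
        rw [Function.comp_apply, hσ, hl, hr, Equiv.swap_apply_left]
      have e2 : (fun i : Fin (j + 1) => (v ∘ σ) i.succ.succ) =
          Matrix.vecCons (v 1) (fun i : Fin j => v i.succ.succ.succ) := by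
        funext i
        refine Fin.cases ?_ (fun i => ?_) i
        · change (v ∘ σ) 2 = v 1
          rw [Function.comp_apply, hσ, hl, hr, Equiv.swap_apply_right]
        · change (v ∘ σ) i.succ.succ.succ = v i.succ.succ.succ
          rw [Function.comp_apply, hσ, hl, Equiv.swap_apply_of_ne_of_ne]
          · exact ss_ne_one i.succ
          · intro h
            have := congrArg Fin.val h
            simp only [Fin.val_succ] at this
            have h2 : ((0 : Fin (j + 1)) : ℕ) = 0 := rfl
            omega
      have e3 : (fun i : Fin (j + 1) => v i.succ.succ) =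
          Matrix.vecCons (v 2) (fun i : Fin j => v i.succ.succ.succ) := by
        funext i
        refine Fin.cases ?_ (fun i => ?_) i
        · rfl
        · rfl
      rw [e0, e1, e2, e3, ← wL_ιMulti, ← wL_ιMulti]
      have h := h2 (v 0) (v 2) (v 1) (toQ (exteriorPower.ιMulti ℤ j
        (fun i : Fin j => v i.succ.succ.succ)))
      rw [wT_toQ, wT_toQ] at h
      exact h
    · set σ := Equiv.swap (Fin.succ (Fin.succ i)).castSucc (Fin.succ (Fin.succ i)).succ with hσ
      have hl : (Fin.succ (Fin.succ i)).castSucc = (i.castSucc.succ.succ : Fin (j + 3)) := rfl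
      have e0 : (v ∘ σ) 0 = v 0 := by
        rw [Function.comp_apply, hσ, hl, Equiv.swap_apply_of_ne_of_ne]
        · exact (Fin.succ_ne_zero _).symm
        · exact (Fin.succ_ne_zero _).symm
      have e1 : (v ∘ σ) 1 = v 1 := by
        rw [Function.comp_apply, hσ, hl, Equiv.swap_apply_of_ne_of_ne]
        · exact (ss_ne_one _).symm
        · exact (ss_ne_one _).symm
      have e2 : (fun m : Fin (j + 1) => (v ∘ σ) m.succ.succ) =
          (fun m : Fin (j + 1) => v m.succ.succ) ∘ Equiv.swap i.castSucc i.succ := by
        funext m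
        simp only [Function.comp_apply]
        congr 1
        by_cases h1 : m = i.castSucc
        · subst h1
          rw [Equiv.swap_apply_left, hσ, hl, Equiv.swap_apply_left]
        · by_cases h2 : m = i.succ
          · subst h2
            rw [hσ, hl, Equiv.swap_apply_right, Equiv.swap_apply_right]
          · rw [Equiv.swap_apply_of_ne_of_ne h1 h2, hσ, hl, Equiv.swap_apply_of_ne_of_ne]
            · intro h; exact h1 (Fin.succ_injective _ (Fin.succ_injective _ h))
            · intro h; exact h2 (Fin.succ_injective _ (Fin.succ_injective _ h))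
      rw [e0, e1, e2, (exteriorPower.ιMulti ℤ (j + 1)).map_swap _ (Fin.castSucc_lt_succ).ne]
      exact map_neg (b3H j b (v 0) (v 1)) _

/-- The inverse construction `Λ^{j+3} → Q`. -/
private def psi (h1 : H1 b) (h2 : H2 b) : Lam (j + 3) F →ₗ[ℤ] Q :=
  exteriorPower.alternatingMapLinearEquiv (altOf (mul3 j b) (mul3_swap j b h1 h2))

private lemma psi_ιMulti (h1 : H1 b) (h2 : H2 b) (v : Fin (j + 3) → Additive Fˣ) :
    psi j b h1 h2 (exteriorPower.ιMulti ℤ (j + 3) v) = mul3 j b v := by
  simp only [psi]
  rw [exteriorPower.alternatingMapLinearEquiv_apply_ιMulti]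
  rfl

/-- The rational version. -/
private def psiQ (h1 : H1 b) (h2 : H2 b) : Tx (j + 3) F →ₗ[ℚ] Q :=
  LinearMap.liftBaseChange ℚ (psi j b h1 h2)

private lemma psiQ_toQ (h1 : H1 b) (h2 : H2 b) (ω : Lam (j + 3) F) :
    psiQ j b h1 h2 (toQ ω) = psi j b h1 h2 ω := by
  simp only [psiQ, toQ]
  exact LinearMap.liftBaseChange_one_tmul ℚ _ _

end

theorem exists_psiQ {F : Type u} [Field F] {Q : Type v} [AddCommGroup Q] [Module ℚ Q] (n : ℕ)
    (b : Additive Fˣ →+ Additive Fˣ →+ (Tx (n + 1) F →ₗ[ℚ] Q))
    (h1 : ∀ (u : Additive Fˣ) (ω : Tx (n + 1) F), b u u ω = 0)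
    (h2 : ∀ (u v w : Additive Fˣ) (ω : Tx n F), b u v (wT n w ω) = - b u w (wT n v ω)) :
    ∃ ψ : Tx (n + 3) F →ₗ[ℚ] Q, ∀ (u v : Additive Fˣ) (ω : Tx (n + 1) F),
      ψ (wT (n + 2) u (wT (n + 1) v ω)) = b u v ω := by
  have h1' : H1 b := h1
  have h2' : H2 b := h2
  refine ⟨psiQ n b h1' h2', fun u v ω => ?_⟩
  have key : (psiQ n b h1' h2') ∘ₗ (wT (n + 2) u) ∘ₗ (wT (n + 1) v) = b u v := by
    refine Helper14.W4.Tx_ext fun w => ?_
    rw [LinearMap.comp_apply, LinearMap.comp_apply, wT_toQ, wT_toQ, psiQ_toQ, wL_ιMulti,
      wL_ιMulti, psi_ιMulti, mul3_apply]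
    rfl
  exact LinearMap.congr_fun key ω

end Helper42.LT
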