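import Pool.Agent.Helper42.LT.Tau
import Pool.Agent.Helper42.LT.Psi

set_option autoImplicit false

/-!
# LT-SC: products of elements with constant double contractions of the differential

PLAN (about 1.2 h).  F = RatFunc K.
 * starC: Qu := Cx 3 (n+2) F / WW 1 (n+1), q = mkQ.  Choose Wc y u v (exists_W in Tau.lean) with
   dC 0 1 (Wc y u v) - tn 2 2 (W2 u v) (rC 0 0 y) in KC 2 1.
   b u v omega : Cx 2 0 K -> Qu, y |-> q (rm1 3 (n+1) omega (Wc y u v)), omega in Tx (n+1) F.  By uniq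
   (Tau.lean) it does not depend on the choice, so it is linear in y and additive in u, v; it is
   linear in omega (rm1_add, rm1_smul).  So b : V ->+ V ->+ (Tx (n+1) F ->L (Cx 2 0 K ->L Qu)).
   h1: W = 0 for u = v (W2_self).  h2: rm1 3 (n+1) (wT n w omega) W = - rm2 3 n omega (wC 3 1 w W)
   (Cx_ind, Tx1_ind; W = {x} tensor g: both sides are {x} tensor g ^ w ^ omega, wT_wT), so
   b u v (w^omega) + b u w (v^omega) = - q (rm2 3 n omega (wC w W + wC v W')), and tau_alt (Tau.lean),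
   rm2 maps WW 1 1 to WW 1 (n+1) (dC_rm1 backwards, rm2_KC).
   exists_psiQ (Psi.lean) gives psi : Tx (n+3) F ->L (Cx 2 0 K ->L Qu).
   Psi := liftC (b' |-> (omega |-> psi omega (sC 0 0 0 (PB 2 0 b' u0)))) : Cx 2 (n+3) F ->L Qu.
   - Psi kills KC 2 (n+2): psi (wT (rU kappa) ..) = 0 (Tx_ind, b (rU kappa) v = 0 since W = 0 works:
     tn 2 2 (W2 (rU kappa) v) z in KC 2 1 by tn_KT).
   - Psi (dC 0 (n+2) z) = q z for z in SY (n+1) + NC 1 (n+2) + KC 3 (n+1):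
     z = rm1 3 (n+1) omega z', dC 0 1 z' in NC 0 2 + KC 2 1: elements of NC 0 2 are sums of
     tn 2 2 (W2 u_i v_i) (rC 0 0 y_i) (Tx_ind twice on Tx 2, e0_inj), so z'' := z' - sum Wc y_i u_i v_i has
     dC 0 1 z'' in KC 2 1, q (rm1 omega z'') = 0 by uniq, and dC (rm1 omega z') = rm2 omega (dC z')
     (dC_rm1) = sum tn (u_i^v_i^omega) (rC y_i) + KC (rm2_tn, rm2_KC), Psi of it is
     sum psi (u_i ^ v_i ^ omega) (sC 0 0 0 (rC 0 0 y_i)) = sum b u_i v_i omega y_i  (sC_rC).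
     z in NC 1 (n+2): q z = 0 by NC1_le n (SKb.lean), dC z in KC (dC_NC); z in KC: q z = 0, dC_KC.
   With hz: q z = Psi (dC z) = 0.
-/

noncomputable section

open Polynomial TensorProduct
open scoped Classical

namespace Helper42.LT

open Helper14.Gon Helper14.W4

universe u v w

section
variable {K : Type u} [Field K]

private lemma tn_zero' (k j : ℕ) (z : Cx k 0 (RatFunc K)) :
    tn k j (0 : Tx j (RatFunc K)) z = 0 := by
  have h := map_zero (tnL k j (F := RatFunc K))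
  exact LinearMap.congr_fun h z

/-- the defining property of the star elements -/
private def IsW (y : Cx 2 0 K) (u v : Additive (RatFunc K)ˣ) (W : Cx 3 1 (RatFunc K)) : Prop :=
  dC 0 1 W - tn 2 2 (W2 u v) (rC 0 0 y) ∈ KC 2 1

private lemma IsW.add {y y' : Cx 2 0 K} {u v : Additive (RatFunc K)ˣ} {W W' : Cx 3 1 (RatFunc K)}
    (h : IsW y u v W) (h' : IsW y' u v W') : IsW (y + y') u v (W + W') := by
  unfold IsW at *
  have := add_mem h h'
  rw [map_add, map_add, map_add]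
  have e : dC 0 1 W + dC 0 1 W' - (tn 2 2 (W2 u v) (rC 0 0 y) + tn 2 2 (W2 u v) (rC 0 0 y')) =
    (dC 0 1 W - tn 2 2 (W2 u v) (rC 0 0 y)) + (dC 0 1 W' - tn 2 2 (W2 u v) (rC 0 0 y')) := by abel
  rw [e]; exact this

private lemma IsW.smul {y : Cx 2 0 K} {u v : Additive (RatFunc K)ˣ} {W : Cx 3 1 (RatFunc K)}
    (h : IsW y u v W) (r : ℚ) : IsW (r • y) u v (r • W) := by
  unfold IsW at *
  have := Submodule.smul_mem _ r h
  rw [map_smul, map_smul, map_smul, ← smul_sub]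
  exact this

private lemma IsW.addu {y : Cx 2 0 K} {u u' v : Additive (RatFunc K)ˣ}
    {W W' : Cx 3 1 (RatFunc K)}
    (h : IsW y u v W) (h' : IsW y u' v W') : IsW y (u + u') v (W + W') := by
  unfold IsW at *
  have := add_mem h h'
  rw [map_add, map_add, AddMonoidHom.add_apply, tn_add]
  have e : dC 0 1 W + dC 0 1 W' - (tn 2 2 (W2 u v) (rC 0 0 y) + tn 2 2 (W2 u' v) (rC 0 0 y)) =
    (dC 0 1 W - tn 2 2 (W2 u v) (rC 0 0 y)) + (dC 0 1 W' - tn 2 2 (W2 u' v) (rC 0 0 y)) := by abel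
  rw [e]; exact this

private lemma IsW.addv {y : Cx 2 0 K} {u v v' : Additive (RatFunc K)ˣ}
    {W W' : Cx 3 1 (RatFunc K)}
    (h : IsW y u v W) (h' : IsW y u v' W') : IsW y u (v + v') (W + W') := by
  unfold IsW at *
  have := add_mem h h'
  rw [map_add, map_add, tn_add]
  have e : dC 0 1 W + dC 0 1 W' - (tn 2 2 (W2 u v) (rC 0 0 y) + tn 2 2 (W2 u v') (rC 0 0 y)) =
    (dC 0 1 W - tn 2 2 (W2 u v) (rC 0 0 y)) + (dC 0 1 W' - tn 2 2 (W2 u v') (rC 0 0 y)) := by abel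
  rw [e]; exact this

private lemma IsW.self (y : Cx 2 0 K) (u : Additive (RatFunc K)ˣ) : IsW y u u 0 := by
  unfold IsW
  rw [map_zero, W2_self, tn_zero', sub_zero]
  exact zero_mem _

private lemma IsW.const (y : Cx 2 0 K) (κ : Additive Kˣ) (v : Additive (RatFunc K)ˣ) :
    IsW y (rU κ) v 0 := by
  unfold IsW
  rw [map_zero, zero_sub]
  refine neg_mem (tn_KT 2 1 ?_ _)
  rw [W2_apply]
  exact wT_mem_KT 1 κ _

private lemma rm1_indep [IsAlgClosed K] (n : ℕ) {y : Cx 2 0 K} {u v : Additive (RatFunc K)ˣ}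
    {W W' : Cx 3 1 (RatFunc K)} (h : IsW y u v W) (h' : IsW y u v W')
    (ω : Tx (n + 1) (RatFunc K)) :
    rm1 3 (n + 1) ω W - rm1 3 (n + 1) ω W' ∈ WW 1 (n + 1) := by
  unfold IsW at *
  have h1 : dC 0 1 (W - W') ∈ KC 2 1 := by
    rw [map_sub]
    have := sub_mem h h'
    have e : dC 0 1 W - dC 0 1 W' =
      (dC 0 1 W - tn 2 2 (W2 u v) (rC 0 0 y)) - (dC 0 1 W' - tn 2 2 (W2 u v) (rC 0 0 y)) := by abel
    rw [e]; exact this
  have h2 := uniq n (W - W') h1 ω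
  rw [map_sub] at h2
  exact h2

/-- the chosen star element -/
private def Wc [IsAlgClosed K] (y : Cx 2 0 K) (u v : Additive (RatFunc K)ˣ) :
    Cx 3 1 (RatFunc K) := (exists_W u v y).choose

private lemma Wc_spec [IsAlgClosed K] (y : Cx 2 0 K) (u v : Additive (RatFunc K)ˣ) :
    IsW y u v (Wc y u v) := (exists_W u v y).choose_spec

/-- right multiplication by a product -/
private lemma rm1_wT (n : ℕ) (w : Additive (RatFunc K)ˣ) (ω : Tx n (RatFunc K))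
    (z : Cx 3 1 (RatFunc K)) :
    rm1 3 (n + 1) (wT n w ω) z = - rm2 3 n ω (wC 3 1 w z) := by
  refine Cx_ind (fun z => rm1 3 (n + 1) (wT n w ω) z = - rm2 3 n ω (wC 3 1 w z))
    (by simp) (fun a b ha hb => by simp only [map_add, ha, hb, neg_add]) (fun x υ => ?_) z
  refine Tx1_ind (fun υ => rm1 3 (n + 1) (wT n w ω) (PB 3 1 (cl 3 x) υ) =
    - rm2 3 n ω (wC 3 1 w (PB 3 1 (cl 3 x) υ))) (by simp)
    (fun a b ha hb => by simp only [map_add, ha, hb, neg_add]) (fun q v => ?_) υ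
  simp only [map_smul]
  rw [rm1_PB, wC_PB, rm2_PB, wT_wT n v w, map_neg, smul_neg]

private lemma rm2_WW (n : ℕ) (ω : Tx n (RatFunc K)) {z : Cx 3 2 (RatFunc K)}
    (h : z ∈ WW 1 1) : rm2 3 n ω z ∈ WW 1 (n + 1) := by
  unfold WW at h
  obtain ⟨a, ⟨w, rfl⟩, b, hb, rfl⟩ := Submodule.mem_sup.1 h
  rw [map_add]
  refine add_mem ?_ (KC_le_WW 1 (n + 1) (rm2_KC 3 n ω hb))
  have e := dC_rm1 1 n ω w
  have e2 : rm2 3 n ω (dC 1 1 w) = dC 1 (n + 1) (rm1 4 n ω w) := e.symm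
  rw [e2]
  exact dC_mem_WW 1 (n + 1) _

section
variable [IsAlgClosed K] {Qu : Type u} [AddCommGroup Qu] [Module ℚ Qu] (n : ℕ)
  (q : Cx 3 (n + 2) (RatFunc K) →ₗ[ℚ] Qu)
  (hq : ∀ x ∈ (WW 1 (n + 1) : Submodule ℚ (Cx 3 (n + 2) (RatFunc K))), q x = 0)

include hq in
private lemma bv_eq {u v : Additive (RatFunc K)ˣ}
    (ω : Tx (n + 1) (RatFunc K)) {y : Cx 2 0 K} {W : Cx 3 1 (RatFunc K)} (h : IsW y u v W) :
    q (rm1 3 (n + 1) ω (Wc y u v)) = q (rm1 3 (n + 1) ω W) := by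
  have := hq _ (rm1_indep n (Wc_spec y u v) h ω)
  rwa [map_sub, sub_eq_zero] at this

private def bL (u v : Additive (RatFunc K)ˣ) :
    Tx (n + 1) (RatFunc K) →ₗ[ℚ] (Cx 2 0 K →ₗ[ℚ] Qu) :=
  LinearMap.mk₂ ℚ (fun ω y => q (rm1 3 (n + 1) ω (Wc y u v)))
    (by
      intro ω υ y
      rw [rm1_add, map_add])
    (by
      intro r ω y
      rw [rm1_smul, map_smul])
    (by
      intro ω y y'
      rw [bv_eq n q hq ω ((Wc_spec y u v).add (Wc_spec y' u v)), map_add, map_add])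
    (by
      intro r ω y
      rw [bv_eq n q hq ω ((Wc_spec y u v).smul r), map_smul, map_smul])

private lemma bL_apply (u v : Additive (RatFunc K)ˣ)
    (ω : Tx (n + 1) (RatFunc K)) (y : Cx 2 0 K) :
    bL n q hq u v ω y = q (rm1 3 (n + 1) ω (Wc y u v)) := rfl

private def bB : Additive (RatFunc K)ˣ →+ Additive (RatFunc K)ˣ →+
    (Tx (n + 1) (RatFunc K) →ₗ[ℚ] (Cx 2 0 K →ₗ[ℚ] Qu)) :=
  AddMonoidHom.mk' (fun u => AddMonoidHom.mk' (fun v => bL n q hq u v) (fun v v' => by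
      refine LinearMap.ext fun ω => LinearMap.ext fun y => ?_
      have h := bv_eq n q hq ω ((Wc_spec y u v).addv (Wc_spec y u v'))
      rw [map_add, map_add] at h
      exact h))
    (fun u u' => by
      refine AddMonoidHom.ext fun v => LinearMap.ext fun ω => LinearMap.ext fun y => ?_
      have h := bv_eq n q hq ω ((Wc_spec y u v).addu (Wc_spec y u' v))
      rw [map_add, map_add] at h
      exact h)

private lemma bB_apply (u v : Additive (RatFunc K)ˣ)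
    (ω : Tx (n + 1) (RatFunc K)) (y : Cx 2 0 K) :
    bB n q hq u v ω y = q (rm1 3 (n + 1) ω (Wc y u v)) := rfl

private lemma bB_self (u : Additive (RatFunc K)ˣ)
    (ω : Tx (n + 1) (RatFunc K)) : bB n q hq u u ω = 0 := by
  refine LinearMap.ext fun y => ?_
  rw [bB_apply, bv_eq n q hq ω (IsW.self y u), map_zero, map_zero]
  rfl

private lemma bB_swap (u v w : Additive (RatFunc K)ˣ)
    (ω : Tx n (RatFunc K)) : bB n q hq u v (wT n w ω) = - bB n q hq u w (wT n v ω) := by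
  refine LinearMap.ext fun y => ?_
  rw [LinearMap.neg_apply, bB_apply, bB_apply, ← add_eq_zero_iff_eq_neg, ← map_add, rm1_wT,
    rm1_wT, ← neg_add, ← map_add, map_neg, neg_eq_zero]
  exact hq _ (rm2_WW n ω (tau_alt y u v w _ _ (Wc_spec y u v) (Wc_spec y u w)))

private theorem hN_aux (Ψ : Cx 2 (n + 3) (RatFunc K) →ₗ[ℚ] Qu)
    (h9 : ∀ (u v : Additive (RatFunc K)ˣ) (ω : Tx (n + 1) (RatFunc K)) (y : Cx 2 0 K),
      Ψ (tn 2 (n + 3) (wT (n + 2) u (wT (n + 1) v ω)) (rC 0 0 y)) =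
        q (rm1 3 (n + 1) ω (Wc y u v))) :
    ∀ c ∈ (NC 0 2 : Submodule ℚ (Cx 2 2 (RatFunc K))),
      ∃ W : Cx 3 1 (RatFunc K), dC 0 1 W - c ∈ KC 2 1 ∧
        ∀ ω : Tx (n + 1) (RatFunc K), q (rm1 3 (n + 1) ω W) = Ψ (rm2 2 (n + 1) ω c) := by
  intro c hc
  induction hc using Submodule.span_induction with
  | zero => exact ⟨0, by simp, fun ω => by simp⟩
  | add x y _ _ hx hy =>
    obtain ⟨W, h1, h2⟩ := hx
    obtain ⟨W', h1', h2'⟩ := hy
    refine ⟨W + W', ?_, fun ω => by rw [map_add, map_add, h2, h2', map_add, map_add]⟩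
    have e : dC 0 1 (W + W') - (x + y) = (dC 0 1 W - x) + (dC 0 1 W' - y) := by
      rw [map_add]; abel
    rw [e]; exact add_mem h1 h1'
  | smul r x _ hx =>
    obtain ⟨W, h1, h2⟩ := hx
    refine ⟨r • W, ?_, fun ω => by rw [map_smul, map_smul, h2, map_smul, map_smul]⟩
    rw [map_smul, ← smul_sub]
    exact Submodule.smul_mem _ r h1
  | mem x hx =>
    obtain ⟨y, ω2, rfl⟩ := hx
    refine Tx_ind (fun ω2 => ∃ W : Cx 3 1 (RatFunc K),
      dC 0 1 W - tn (0 + 2) 2 ω2 (rC 0 0 y) ∈ KC 2 1 ∧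
      ∀ ω : Tx (n + 1) (RatFunc K), q (rm1 3 (n + 1) ω W) =
        Ψ (rm2 2 (n + 1) ω (tn (0 + 2) 2 ω2 (rC 0 0 y)))) ?_ ?_ ?_ ω2
    · exact ⟨0, by rw [tn_zero']; simp, fun ω => by rw [tn_zero']; simp⟩
    · rintro a b ⟨W, h1, h2⟩ ⟨W', h1', h2'⟩
      refine ⟨W + W', ?_, fun ω => by
        rw [map_add, map_add, h2, h2', tn_add, map_add, map_add]⟩
      rw [tn_add]
      have e : dC 0 1 (W + W') - (tn (0 + 2) 2 a (rC 0 0 y) + tn (0 + 2) 2 b (rC 0 0 y)) =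
          (dC 0 1 W - tn (0 + 2) 2 a (rC 0 0 y)) +
          (dC 0 1 W' - tn (0 + 2) 2 b (rC 0 0 y)) := by
        rw [map_add]; abel
      rw [e]; exact add_mem h1 h1'
    · intro u ω1
      refine Tx1_ind (fun ω1 => ∃ W : Cx 3 1 (RatFunc K),
        dC 0 1 W - tn (0 + 2) 2 (wT 1 u ω1) (rC 0 0 y) ∈ KC 2 1 ∧
        ∀ ω : Tx (n + 1) (RatFunc K), q (rm1 3 (n + 1) ω W) =
          Ψ (rm2 2 (n + 1) ω (tn (0 + 2) 2 (wT 1 u ω1) (rC 0 0 y)))) ?_ ?_ ?_ ω1
      · exact ⟨0, by rw [map_zero (wT 1 u), tn_zero']; simp, fun ω => by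
          rw [map_zero (wT 1 u), tn_zero']; simp⟩
      · rintro a b ⟨W, h1, h2⟩ ⟨W', h1', h2'⟩
        refine ⟨W + W', ?_, fun ω => by
          rw [map_add, map_add, h2, h2', map_add (wT 1 u), tn_add, map_add, map_add]⟩
        rw [map_add (wT 1 u), tn_add]
        have e : dC 0 1 (W + W') - (tn (0 + 2) 2 (wT 1 u a) (rC 0 0 y) +
            tn (0 + 2) 2 (wT 1 u b) (rC 0 0 y)) =
            (dC 0 1 W - tn (0 + 2) 2 (wT 1 u a) (rC 0 0 y)) +
            (dC 0 1 W' - tn (0 + 2) 2 (wT 1 u b) (rC 0 0 y)) := by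
          rw [map_add]; abel
        rw [e]; exact add_mem h1 h1'
      · intro r v
        have h0 : wT 1 u (r • wT 0 v (u0 (RatFunc K))) = r • W2 u v := by
          rw [map_smul, W2_apply]
        refine ⟨r • Wc y u v, ?_, fun ω => ?_⟩
        · rw [h0, tn_smul, map_smul, ← smul_sub]
          exact Submodule.smul_mem _ r (Wc_spec y u v)
        · rw [h0, tn_smul, map_smul, map_smul, map_smul, map_smul]
          congr 1
          have e1 : rm2 2 (n + 1) ω (tn (0 + 2) 2 (W2 u v) (rC 0 0 y)) =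
              tn 2 (n + 3) (wT (n + 2) u (wT (n + 1) v ω)) (rC 0 0 y) := by
            rw [W2_apply]; exact rm2_tn 2 (n + 1) ω u v _
          rw [e1, h9]

include hq in
private theorem key_aux (Ψ : Cx 2 (n + 3) (RatFunc K) →ₗ[ℚ] Qu)
    (hΨK : ∀ z ∈ (KC 2 (n + 2) : Submodule ℚ (Cx 2 (n + 3) (RatFunc K))), Ψ z = 0)
    (hN : ∀ c ∈ (NC 0 2 : Submodule ℚ (Cx 2 2 (RatFunc K))),
      ∃ W : Cx 3 1 (RatFunc K), dC 0 1 W - c ∈ KC 2 1 ∧
        ∀ ω : Tx (n + 1) (RatFunc K), q (rm1 3 (n + 1) ω W) = Ψ (rm2 2 (n + 1) ω c)) :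
    ∀ z ∈ (SY (n + 1) ⊔ NC 1 (n + 2) ⊔ KC 3 (n + 1) :
      Submodule ℚ (Cx 3 (n + 2) (RatFunc K))), Ψ (dC 0 (n + 2) z) = q z := by
  have hle : (SY (n + 1) ⊔ NC 1 (n + 2) ⊔ KC 3 (n + 1) :
      Submodule ℚ (Cx 3 (n + 2) (RatFunc K))) ≤ LinearMap.ker (Ψ ∘ₗ dC 0 (n + 2) - q) := by
    refine sup_le (sup_le ?_ ?_) ?_
    · refine Submodule.span_le.2 ?_
      rintro x ⟨z', ω, hz', rfl⟩
      rw [SetLike.mem_coe, LinearMap.mem_ker, LinearMap.sub_apply, LinearMap.comp_apply,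
        sub_eq_zero]
      obtain ⟨c, hc, k, hk, hck⟩ := Submodule.mem_sup.1 hz'
      obtain ⟨W, h1, h2⟩ := hN c hc
      have e1 : dC 0 (n + 2) (rm1 3 (n + 1) ω z') = rm2 2 (n + 1) ω (dC 0 1 z') :=
        dC_rm1 0 (n + 1) ω z'
      rw [e1, ← hck, map_add, map_add, ← h2,
        hΨK _ (rm2_KC 2 (n + 1) ω hk), add_zero]
      have h3 : dC 0 1 (W - z') ∈ KC 2 1 := by
        rw [map_sub, ← hck]
        have e : dC 0 1 W - (c + k) = (dC 0 1 W - c) - k := by abel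
        rw [e]; exact sub_mem h1 hk
      have h4 := uniq n (W - z') h3 ω
      rw [map_sub] at h4
      rw [← sub_eq_zero, ← map_sub]
      exact hq _ h4
    · intro x hx
      rw [LinearMap.mem_ker, LinearMap.sub_apply, LinearMap.comp_apply, sub_eq_zero,
        hΨK _ (dC_NC 0 (n + 2) hx)]
      exact (hq _ (NC1_le n hx)).symm
    · intro x hx
      rw [LinearMap.mem_ker, LinearMap.sub_apply, LinearMap.comp_apply, sub_eq_zero,
        hΨK _ (dC_KC 0 (n + 1) hx)]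
      exact (hq _ (KC_le_WW 1 (n + 1) hx)).symm
  intro z hz
  have := hle hz
  rwa [LinearMap.mem_ker, LinearMap.sub_apply, LinearMap.comp_apply, sub_eq_zero] at this

include hq in
private theorem starC_aux (z : Cx 3 (n + 2) (RatFunc K))
    (h : z ∈ SY (n + 1) ⊔ NC 1 (n + 2) ⊔ KC 3 (n + 1))
    (hz : dC 0 (n + 2) z ∈ KC 2 (n + 2)) : q z = 0 := by
  obtain ⟨ψ, hψ⟩ := exists_psiQ n (bB n q hq) (bB_self n q hq) (bB_swap n q hq)
  -- the map on `B_2 ⊗ Λ^{n+3}`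
  set Ψ : Cx 2 (n + 3) (RatFunc K) →ₗ[ℚ] Qu :=
    liftC (AddMonoidHom.mk' (fun b' =>
      ψ.flip (sC (0 : K) 0 0 (PB 2 0 b' (u0 (RatFunc K))))) (fun a b => by
        rw [map_add, LinearMap.add_apply, map_add, map_add])) with hΨ
  have hΨ1 : ∀ (b' : B 2 (RatFunc K)) (ω : Tx (n + 3) (RatFunc K)),
      Ψ (PB 2 (n + 3) b' ω) = ψ ω (sC (0 : K) 0 0 (PB 2 0 b' (u0 (RatFunc K)))) := by
    intro b' ω
    rw [hΨ, liftC_PB]
    rfl
  have hΨ2 : ∀ (z0 : Cx 2 0 (RatFunc K)) (ω : Tx (n + 3) (RatFunc K)),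
      Ψ (tn 2 (n + 3) ω z0) = ψ ω (sC (0 : K) 0 0 z0) := by
    intro z0 ω
    refine Cx_ind (fun z0 => Ψ (tn 2 (n + 3) ω z0) = ψ ω (sC (0 : K) 0 0 z0))
      (by simp) (fun a b ha hb => by simp only [map_add, ha, hb]) (fun x υ => ?_) z0
    rw [tn_PB', map_smul, hΨ1, ← map_smul, ← map_smul, ← map_smul, e0_inj]
  have hΨK : ∀ z ∈ (KC 2 (n + 2) : Submodule ℚ (Cx 2 (n + 3) (RatFunc K))), Ψ z = 0 := by
    intro z hz
    refine (Submodule.span_le.2 ?_ : (KC 2 (n + 2) : Submodule ℚ (Cx 2 (n + 3) (RatFunc K))) ≤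
      LinearMap.ker Ψ) hz
    rintro x ⟨κ, z, rfl⟩
    rw [SetLike.mem_coe, LinearMap.mem_ker]
    refine Cx_ind (fun z => Ψ (wC 2 (n + 2) (rU κ) z) = 0) (by simp)
      (fun a b ha hb => by rw [map_add, map_add, ha, hb, add_zero]) (fun x υ => ?_) z
    rw [wC_PB, hΨ1]
    refine Tx_ind (fun υ => ψ (wT (n + 2) (rU κ) υ)
      (sC (0 : K) 0 0 (PB 2 0 (cl 2 x) (u0 (RatFunc K)))) = 0) (by simp)
      (fun a b ha hb => by simp only [map_add, LinearMap.add_apply, ha, hb, add_zero])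
      (fun v ω => ?_) υ
    rw [hψ, bB_apply, bv_eq n q hq ω (IsW.const _ κ v), map_zero, map_zero]
  have hN := hN_aux n q Ψ (fun u v ω y => by
    rw [hΨ2, hψ, sC_rC]
    rfl)
  have key := key_aux n q hq Ψ hΨK hN
  have h1 := key z h
  rw [hΨK _ hz] at h1
  exact h1.symm

end

theorem starC [IsAlgClosed K] (n : ℕ) (z : Cx 3 (n + 2) (RatFunc K))
    (h : z ∈ SY (n + 1) ⊔ NC 1 (n + 2) ⊔ KC 3 (n + 1))
    (hz : dC 0 (n + 2) z ∈ KC 2 (n + 2)) : z ∈ WW 1 (n + 1) := by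
  have h1 := starC_aux n (WW 1 (n + 1) : Submodule ℚ (Cx 3 (n + 2) (RatFunc K))).mkQ
    (fun x hx => by rw [Submodule.mkQ_apply, Submodule.Quotient.mk_eq_zero]; exact hx) z h hz
  rwa [Submodule.mkQ_apply, Submodule.Quotient.mk_eq_zero] at h1

end

end Helper42.LT
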