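import Pool.Agent.Helper42.LT.KB
import Pool.Agent.Helper42.LT.SC
import Pool.Agent.Helper42.LT.Red
import Pool.Agent.Helper42.LT.Dec
import Pool.Agent.Helper14.Loc.Main

set_option autoImplicit false

/-!
# LT-Fin1: localisation in degree n - 2

PLAN (about 0.8 h).  F = RatFunc K.
 * star1 n: koszul n z hz (KB.lean) and starC (SC.lean).
 * Good s j z := z in Fil 3 (j+1) (s+2) and dC 0 (j+1) z in Fil 2 (j+2) (s+2).
   hG: ct by theta = chi.comp (lcU 0): ct_Fil; dC 0 (j+1) (ct 3 (j+1) theta z) =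
   ld 0 (j+2) theta z - ct 2 (j+2) theta (dC 0 (j+2) z) (ld_cyc); ld_Fil, ct_Fil.
 * step (s = t+1 >= 1): reduce with k = 1, this Good, X j := Fil 3 (j+1) (s+1): hX1 wC_Fil, hX2 le_rfl;
   base: z in Cx 3 (t+2), dC 0 (t+2) z in Fil 2 (t+3) (t+3) <= KC 2 (t+2) (Fil_le_KC in EulT.lean),
   star1 t: z in WW 1 (t+1) = range + KC, KC_le_Fil.
   Result for a cocycle z in Fil 3 (j+1) (s+2), 1 <= s <= j: z in range (dC 1 j) + Fil 3 (j+1) (s+1)
   (j = s + i; obtain i and subst).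
 * last step (s = 0): X j := RC 1 j: hX1: ct_a (wC (rU kappa) z) = - wC (rU kappa) (ct_a z) (ct_wC,
   va_rU_apply) and wC 3 j (rU kappa) (rC 1 j y) = rC 1 (j+1) (wC 3 j kappa y) (Cx_ind, rC_PB, rT_wT);
   hX2: mem_Fil_one; base: z in Cx 3 1, dC 0 1 z in Fil 2 2 2: its double contractions vanish
   (mem_Fil, mem_Fil_one), weak1 (Wk.lean): range + KC 3 0 + NC 1 1, and KC 3 0 <= RC 1 0 (KC_le_Fil,
   hX2), NC 1 1 <= RC 1 0: for omega = wT 0 v u0 (Tx1_ind): ct_a (tn 3 1 omega (rC y)) = va a v . rC 1 0 y.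
 * surj_one: z cocycle in Cx 3 (j+1): descending from Fil 3 (j+1) (j+2) = top (Fil_top), at each step
   subtract dC w (again a cocycle, dC_dC), finally z = dC w + z', z' in RC 1 j a cocycle; decompj 0 j z'
   (Dec.lean).  cyc F 1 (j+1) is the kernel of dC 0 (j+1), see Helper14/Loc/Main.lean for Surj.
-/

noncomputable section

open Polynomial TensorProduct
open scoped Classical

namespace Helper42.LT

open Helper14.Gon Helper14.W4

universe u v w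

section
variable {K : Type u} [Field K]

theorem star1 [IsAlgClosed K] (n : ℕ) (z : Cx 3 (n + 2) (RatFunc K))
    (hz : dC 0 (n + 2) z ∈ KC 2 (n + 2)) : z ∈ WW 1 (n + 1) :=
  starC n z (koszul n z hz) hz

private def Good1 (s j : ℕ) (z : Cx 3 (j + 1) (RatFunc K)) : Prop :=
  z ∈ Fil 3 (j + 1) (s + 2) ∧ dC 0 (j + 1) z ∈ Fil 2 (j + 2) (s + 2)

private lemma good_ct (s j : ℕ) (z : Cx 3 (j + 1 + 1) (RatFunc K)) (χ : Additive Kˣ →+ ℚ)
    (h : Good1 s (j + 1) z) : Good1 s j (ct 3 (j + 1) (χ.comp (lcU 0)) z) := by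
  obtain ⟨h1, h2⟩ := h
  refine ⟨ct_Fil 3 _ h1, ?_⟩
  have e : dC 0 (j + 1) (ct 3 (j + 1) (χ.comp (lcU 0)) z) =
      ld 0 (j + 2) (χ.comp (lcU 0)) z - ct 2 (j + 2) (χ.comp (lcU 0)) (dC 0 (j + 2) z) := by
    rw [ld_cyc 0 (j + 1) (χ.comp (lcU 0)) z]
    abel
  rw [e]
  exact sub_mem (ld_Fil 0 _ h1) (ct_Fil 2 _ h2)

private lemma good_cyc (s j : ℕ) (z : Cx 3 (j + 1) (RatFunc K)) (h1 : z ∈ Fil 3 (j + 1) (s + 2))
    (h2 : dC 0 (j + 1) z = 0) : Good1 s j z := ⟨h1, by rw [h2]; exact zero_mem _⟩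

private lemma step_pos [IsAlgClosed K] (t j : ℕ) (hj : t + 1 ≤ j) (z : Cx 3 (j + 1) (RatFunc K))
    (h1 : z ∈ Fil 3 (j + 1) (t + 1 + 2)) (h2 : dC 0 (j + 1) z = 0) :
    z ∈ LinearMap.range (dC 1 j : Cx 4 j (RatFunc K) →ₗ[ℚ] _) ⊔ Fil 3 (j + 1) (t + 2) := by
  obtain ⟨i, rfl⟩ := Nat.exists_eq_add_of_le hj
  refine reduce 1 (t + 1) (fun j z => Good1 (t + 1) j z) (fun j => Fil 3 (j + 1) (t + 2))
    (fun j z χ h => good_ct (t + 1) j z χ h) (fun j z h => h.1)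
    (fun j κ z h => wC_Fil 3 κ h) (fun j => le_rfl) ?_ i z (good_cyc (t + 1) _ z h1 h2)
  intro z hz
  have h3 : dC 0 (t + 2) z ∈ KC 2 (t + 2) := Fil_le_KC 2 (t + 2) hz.2
  have h4 : z ∈ WW 1 (t + 1) := star1 t z h3
  have h5 : (WW 1 (t + 1) : Submodule ℚ (Cx 3 (t + 2) (RatFunc K))) ≤
      LinearMap.range (dC 1 (t + 1) : Cx 4 (t + 1) (RatFunc K) →ₗ[ℚ] _) ⊔
        Fil 3 (t + 2) (t + 2) := sup_le_sup le_rfl (KC_le_Fil 3 (t + 1))
  exact h5 h4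

private lemma wC_rC (j : ℕ) (κ : Additive Kˣ) (y : Cx 3 j K) :
    wC 3 j (rU κ) (rC 1 j y) = rC 1 (j + 1) (wC 3 j κ y) := by
  refine Cx_ind (fun y => wC 3 j (rU κ) (rC 1 j y) = rC 1 (j + 1) (wC 3 j κ y)) (by simp)
    (fun a b ha hb => by simp only [map_add, ha, hb]) (fun x ω => ?_) y
  rw [rC_PB, wC_PB, wC_PB, rC_PB, rT_wT]

private lemma Fil_one_le_RC (j : ℕ) :
    (Fil 3 (j + 1) 1 : Submodule ℚ (Cx 3 (j + 1) (RatFunc K))) ≤ RC 1 j := by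
  intro z hz
  rw [mem_RC]
  intro a
  have h := (mem_Fil_one 3 j z).1 hz a
  exact ⟨0, by rw [map_zero]; exact h.symm⟩

private lemma wC_RC (j : ℕ) (κ : Additive Kˣ) (z : Cx 3 (j + 1) (RatFunc K)) (h : z ∈ RC 1 j) :
    wC 3 (j + 1) (rU κ) z ∈ RC 1 (j + 1) := by
  rw [mem_RC] at h ⊢
  intro a
  obtain ⟨y, hy⟩ := h a
  refine ⟨- wC 3 j κ y, ?_⟩
  have e : ct 3 (j + 1) (va a) (wC 3 (j + 1) (rU κ) z) = - wC 3 j (rU κ) (ct 3 j (va a) z) := by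
    rw [ct_wC, va_rU_apply, zero_smul, zero_sub]
  rw [map_neg, ← wC_rC, hy]
  exact e.symm

private lemma tn_RC (y : Cx 3 0 K) (ω : Tx 1 (RatFunc K)) :
    tn 3 1 ω (rC 1 0 y) ∈ RC 1 0 := by
  refine Tx1_ind (fun ω => tn 3 1 ω (rC 1 0 y) ∈ RC 1 0) ?_ ?_ ?_ ω
  · have := tn_smul 3 1 (0 : ℚ) (0 : Tx 1 (RatFunc K)) (rC 1 0 y)
    rw [zero_smul, zero_smul] at this
    rw [this]
    exact zero_mem _
  · intro a b ha hb
    rw [tn_add]
    exact add_mem ha hb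
  · intro q v
    rw [tn_smul]
    refine Submodule.smul_mem _ _ ?_
    rw [mem_RC]
    intro a
    refine ⟨va a v • y, ?_⟩
    rw [map_smul]
    have e : ∀ x : Cx 3 0 (RatFunc K), ct 3 0 (va a) (tn 3 1 (wT 0 v (u0 (RatFunc K))) x) =
        va a v • x := by
      intro x
      refine Cx_ind (fun x => ct 3 0 (va a) (tn 3 1 (wT 0 v (u0 (RatFunc K))) x) = va a v • x)
        (by simp) (fun a b ha hb => by simp only [map_add, smul_add, ha, hb]) (fun x υ => ?_) x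
      have h := e0_inj υ
      rw [tn_PB', map_smul, ct_PB, ctT_wT_zero, map_smul]
      conv_rhs => rw [← h]
      rw [map_smul, smul_comm]
    exact (e _).symm

private lemma NC_le_RC : (NC 1 1 : Submodule ℚ (Cx 3 1 (RatFunc K))) ≤ RC 1 0 := by
  refine Submodule.span_le.2 ?_
  rintro x ⟨y, ω, rfl⟩
  exact tn_RC y ω

private lemma step_zero [IsAlgClosed K] (j : ℕ) (z : Cx 3 (j + 1) (RatFunc K))
    (h1 : z ∈ Fil 3 (j + 1) 2) (h2 : dC 0 (j + 1) z = 0) :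
    z ∈ LinearMap.range (dC 1 j : Cx 4 j (RatFunc K) →ₗ[ℚ] _) ⊔ RC 1 j := by
  obtain ⟨i, rfl⟩ : ∃ i, j = 0 + i := ⟨j, (Nat.zero_add j).symm⟩
  refine reduce 1 0 (fun j z => Good1 0 j z) (fun j => RC 1 j)
    (fun j z χ h => good_ct 0 j z χ h) (fun j z h => h.1)
    (fun j κ z h => wC_RC j κ z h) (fun j => Fil_one_le_RC j) ?_ i z (good_cyc 0 _ z h1 h2)
  intro z hz
  have h3 : ∀ a b : K, ct 2 0 (va b) (ct 2 1 (va a) (dC 0 1 z)) = 0 := by
    intro a b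
    exact (mem_Fil_one 2 0 _).1 ((mem_Fil 2 1 1 (dC 0 1 z)).1 hz.2 a) b
  have h4 := weak1 z h3
  have h5 : (LinearMap.range (dC 1 0 : Cx 4 0 (RatFunc K) →ₗ[ℚ] _) ⊔ KC 3 0 ⊔ NC 1 1 :
      Submodule ℚ (Cx 3 1 (RatFunc K))) ≤
      LinearMap.range (dC 1 0 : Cx 4 0 (RatFunc K) →ₗ[ℚ] _) ⊔ RC 1 0 := by
    refine sup_le (sup_le le_sup_left ?_) ?_
    · exact ((KC_le_Fil 3 0).trans (Fil_one_le_RC 0)).trans le_sup_right
    · exact NC_le_RC.trans le_sup_right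
  exact h5 h4

private lemma descend [IsAlgClosed K] (j : ℕ) (z : Cx 3 (j + 1) (RatFunc K))
    (hz : dC 0 (j + 1) z = 0) : ∀ t ≤ j, ∃ w : Cx 4 j (RatFunc K),
      z - dC 1 j w ∈ Fil 3 (j + 1) (j - t + 2) := by
  intro t
  induction t with
  | zero =>
    intro _
    refine ⟨0, ?_⟩
    rw [Fil_top 3 (by omega)]
    trivial
  | succ t ih =>
    intro ht
    obtain ⟨w, hw⟩ := ih (by omega)
    obtain ⟨r, hr⟩ : ∃ r, j - t = r + 1 := ⟨j - t - 1, by omega⟩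
    have hr' : j - (t + 1) = r := by omega
    rw [hr] at hw
    rw [hr']
    have hc : dC 0 (j + 1) (z - dC 1 j w) = 0 := by
      have e : dC 0 (j + 1) (dC 1 j w) = 0 := LinearMap.congr_fun (dC_dC 0 j) w
      rw [map_sub, hz, e, sub_zero]
    have h := step_pos r j (by omega) _ hw hc
    obtain ⟨x, ⟨w', rfl⟩, y, hy, hxy⟩ := Submodule.mem_sup.1 h
    refine ⟨w + w', ?_⟩
    have e : z - dC 1 j (w + w') = y := by
      rw [map_add, ← sub_sub, ← hxy]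
      abel
    rw [e]
    exact hy

theorem surj_one [IsAlgClosed K] (j : ℕ) : Helper14.Loc.Surj K 1 j := by
  intro z hz
  have hz' : dC 0 (j + 1) z = 0 := hz
  obtain ⟨w, hw⟩ := descend j z hz' j le_rfl
  rw [Nat.sub_self, Nat.zero_add] at hw
  have hc : dC 0 (j + 1) (z - dC 1 j w) = 0 := by
    have e : dC 0 (j + 1) (dC 1 j w) = 0 := LinearMap.congr_fun (dC_dC 0 j) w
    rw [map_sub, hz', e, sub_zero]
  obtain ⟨x, ⟨w', rfl⟩, y, hy, hxy⟩ := Submodule.mem_sup.1 (step_zero j _ hw hc)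
  have hyc : dC 0 (j + 1) y = 0 := by
    have e : dC 0 (j + 1) (dC 1 j w') = 0 := LinearMap.congr_fun (dC_dC 0 j) w'
    have e2 : dC 0 (j + 1) (dC 1 j w' + y) = dC 0 (j + 1) (z - dC 1 j w) :=
      congrArg (dC 0 (j + 1)) hxy
    rw [map_add, e, hc] at e2
    rw [← e2]
    exact (zero_add _).symm
  obtain ⟨z0, s, za, h0, ha, hy2⟩ := decompj 0 j y hyc hy
  refine ⟨z0, s, za, w + w', h0, ha, ?_⟩
  have e3 : z = y + dC 1 j (w + w') := by
    rw [map_add]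
    have : z = (z - dC 1 j w) + dC 1 j w := by abel
    rw [this, ← hxy]
    abel
  rw [e3]
  congr 1

end

end Helper42.LT
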