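import Pool.Agent.Helper42.LT.EulT
import Pool.Agent.Helper18.W4.Star

set_option autoImplicit false

/-!
# LT-NC: elements with constant first factor

PLAN (about 0.8 h).
 * KC under right multiplication: rm1 k n omega z in KC k n for z in KC k 0, rm2 k n omega z in KC k (n+1)
   for z in KC k 1: generators wC k j (rU kappa) z', Cx_ind for z' (for rm2: z' = PB k 1 b (wT 0 v u0),
   Tx1_ind), rm1_PB, rm2_PB.
 * tn_KT: for omega in KT j: tn k (j+1) omega z in KC k j  (tn of wT (rU kappa) omega' =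
   wC k j (rU kappa) (tn k j omega' z), Cx_ind; tn_add, tn_smul or tnL for the span).
 * wC_NC, rm1_NC: tn and wT: wC k j v (tn k j omega z) = tn k (j+1) (wT j v omega) z.
 * dC_KC, dC_NC: dC_wC; dC k j (tn (k+3) j omega (rC (k+1) 0 y)) in KC (k+2) j: y = {x} (Cx_ind over K),
   rC_PB, lgP of a constant is rU (lgP x) (mapP), dC_PB.
 * mem_NK: u in Cx (k+2) 2 with constant double contractions: euler_C for u (j = 1):
   2 u = sum_a wC (ee a) (ct_a u) mod KC, and euler_C for ct_a u (j = 0):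
   ct_a u = sum_b wC (ee b) (ct_b (ct_a u)) mod KC, where ct_b (ct_a u) = rC y; and
   wC k 0 (ee b) (rC y) = tn k 1 (wT 0 (ee b) u0) (rC y) is in NC; wC_KC, wC_NC.
 * NC_le_of: for the generator tn (k+2) (j+2) omega (rC k 0 y) of NC k (j+2): by Tx_ind twice
   omega = wT v (wT v' omega'); V_ind (EulT.lean) in v and in v' (statement: membership in WW k (j+1),
   linear in v, v'); v or v' constant: in KC; v = ee a, v' = ee b: a = b: wT_self; a <> b:
   rm2_tn: it is rm2 (k+2) j omega' of the element in h, and rm2 maps WW k 1 to WW k (j+1)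
   (dC_rm1 read from right to left: rm2 (dC k 1 w) = dC k (j+1) (rm1 w); rm2_KC).
-/

noncomputable section

open Polynomial TensorProduct
open scoped Classical

namespace Helper42.LT

open Helper14.Gon Helper14.W4

universe u v w

section
variable {K : Type u} [Field K]

theorem rm1_KC (k n : ℕ) (ω : Tx n (RatFunc K)) {z : Cx k 1 (RatFunc K)} (h : z ∈ KC k 0) :
    rm1 k n ω z ∈ KC k n := by
  have h2 : (KC k 0 : Submodule ℚ (Cx k 1 (RatFunc K))) ≤ (KC k n).comap (rm1 k n ω) := by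
    refine Submodule.span_le.2 ?_
    rintro x ⟨κ, z, rfl⟩
    change rm1 k n ω (wC k 0 (rU κ) z) ∈ KC k n
    refine Cx_ind (fun z => rm1 k n ω (wC k 0 (rU κ) z) ∈ KC k n) ?_ ?_ ?_ z
    · rw [map_zero, map_zero]
      exact zero_mem _
    · intro a b ha hb
      rw [map_add, map_add]
      exact add_mem ha hb
    · intro x υ
      rw [← e0_inj υ, map_smul, map_smul, map_smul, wC_PB, rm1_PB]
      refine Submodule.smul_mem _ _ ?_
      rw [← wC_PB]
      exact wC_mem_KC k n κ _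
  exact h2 h

theorem rm2_KC (k n : ℕ) (ω : Tx n (RatFunc K)) {z : Cx k 2 (RatFunc K)} (h : z ∈ KC k 1) :
    rm2 k n ω z ∈ KC k (n + 1) := by
  have h2 : (KC k 1 : Submodule ℚ (Cx k 2 (RatFunc K))) ≤ (KC k (n + 1)).comap (rm2 k n ω) := by
    refine Submodule.span_le.2 ?_
    rintro x ⟨κ, z, rfl⟩
    change rm2 k n ω (wC k 1 (rU κ) z) ∈ KC k (n + 1)
    refine Cx_ind (fun z => rm2 k n ω (wC k 1 (rU κ) z) ∈ KC k (n + 1)) ?_ ?_ ?_ z
    · rw [map_zero, map_zero]
      exact zero_mem _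
    · intro a b ha hb
      rw [map_add, map_add]
      exact add_mem ha hb
    · intro x υ
      refine Tx1_ind (fun υ => rm2 k n ω (wC k 1 (rU κ) (PB k 1 (cl k x) υ)) ∈ KC k (n + 1))
        ?_ ?_ ?_ υ
      · rw [map_zero, map_zero, map_zero]
        exact zero_mem _
      · intro a b ha hb
        rw [map_add, map_add, map_add]
        exact add_mem ha hb
      · intro q v
        rw [map_smul, map_smul, map_smul, wC_PB, rm2_PB]
        refine Submodule.smul_mem _ _ ?_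
        rw [← wC_PB]
        exact wC_mem_KC k (n + 1) κ _
  exact h2 h

private lemma wC_tn_aux (k j : ℕ) (v : Additive (RatFunc K)ˣ) (ω : Tx j (RatFunc K))
    (z : Cx k 0 (RatFunc K)) : wC k j v (tn k j ω z) = tn k (j + 1) (wT j v ω) z := by
  refine Cx_ind (fun z => wC k j v (tn k j ω z) = tn k (j + 1) (wT j v ω) z) ?_ ?_ ?_ z
  · rw [map_zero, map_zero, map_zero]
  · intro a b ha hb
    rw [map_add, map_add, map_add, ha, hb]
  · intro x υ
    rw [tn_PB', map_smul, wC_PB, tn_PB']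

theorem tn_KT (k j : ℕ) {ω : Tx (j + 1) (RatFunc K)} (h : ω ∈ KT j) (z : Cx k 0 (RatFunc K)) :
    tn k (j + 1) ω z ∈ KC k j := by
  have h2 : (KT j : Submodule ℚ (Tx (j + 1) (RatFunc K))) ≤
      (KC k j).comap ((tnL k (j + 1)).flip z) := by
    refine Submodule.span_le.2 ?_
    rintro x ⟨κ, υ, rfl⟩
    change tn k (j + 1) (wT j (rU κ) υ) z ∈ KC k j
    rw [← wC_tn_aux]
    exact wC_mem_KC k j κ _
  exact h2 h

theorem wC_tn (k j : ℕ) (v : Additive (RatFunc K)ˣ) (ω : Tx j (RatFunc K))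
    (z : Cx k 0 (RatFunc K)) : wC k j v (tn k j ω z) = tn k (j + 1) (wT j v ω) z :=
  wC_tn_aux k j v ω z

theorem wC_NC (k j : ℕ) (v : Additive (RatFunc K)ˣ) {z : Cx (k + 2) j (RatFunc K)}
    (h : z ∈ NC k j) : wC (k + 2) j v z ∈ NC k (j + 1) := by
  have h2 : (NC k j : Submodule ℚ (Cx (k + 2) j (RatFunc K))) ≤
      (NC k (j + 1)).comap (wC (k + 2) j v) := by
    refine Submodule.span_le.2 ?_
    rintro x ⟨y, ω, rfl⟩
    change wC (k + 2) j v (tn (k + 2) j ω (rC k 0 y)) ∈ NC k (j + 1)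
    rw [wC_tn]
    exact tn_mem_NC k (j + 1) y _
  exact h2 h

theorem rm1_NC (k n : ℕ) (ω : Tx n (RatFunc K)) {z : Cx (k + 2) 1 (RatFunc K)}
    (h : z ∈ NC k 1) : rm1 (k + 2) n ω z ∈ NC k (n + 1) := by
  have h2 : (NC k 1 : Submodule ℚ (Cx (k + 2) 1 (RatFunc K))) ≤
      (NC k (n + 1)).comap (rm1 (k + 2) n ω) := by
    refine Submodule.span_le.2 ?_
    rintro x ⟨y, υ, rfl⟩
    change rm1 (k + 2) n ω (tn (k + 2) 1 υ (rC k 0 y)) ∈ NC k (n + 1)
    refine Tx1_ind (fun υ => rm1 (k + 2) n ω (tn (k + 2) 1 υ (rC k 0 y)) ∈ NC k (n + 1))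
      ?_ ?_ ?_ υ
    · have e : tn (k + 2) 1 (0 : Tx 1 (RatFunc K)) (rC k 0 y) = 0 := by
        rw [← tnL_apply, map_zero, LinearMap.zero_apply]
      rw [e, map_zero]
      exact zero_mem _
    · intro a b ha hb
      rw [tn_add, map_add]
      exact add_mem ha hb
    · intro q v
      rw [tn_smul, map_smul, rm1_tn]
      exact Submodule.smul_mem _ _ (tn_mem_NC k (n + 1) y _)
  exact h2 h

theorem dC_KC (k j : ℕ) {z : Cx (k + 3) (j + 1) (RatFunc K)} (h : z ∈ KC (k + 3) j) :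
    dC k (j + 1) z ∈ KC (k + 2) (j + 1) := by
  have h2 : (KC (k + 3) j : Submodule ℚ (Cx (k + 3) (j + 1) (RatFunc K))) ≤
      (KC (k + 2) (j + 1)).comap (dC k (j + 1)) := by
    refine Submodule.span_le.2 ?_
    rintro x ⟨κ, z, rfl⟩
    change dC k (j + 1) (wC (k + 3) j (rU κ) z) ∈ KC (k + 2) (j + 1)
    rw [dC_wC]
    exact neg_mem (wC_mem_KC (k + 2) (j + 1) κ _)
  exact h2 h

theorem dC_NC (k j : ℕ) {z : Cx (k + 3) j (RatFunc K)} (h : z ∈ NC (k + 1) j) :
    dC k j z ∈ KC (k + 2) j := by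
  have h2 : (NC (k + 1) j : Submodule ℚ (Cx (k + 3) j (RatFunc K))) ≤
      (KC (k + 2) j).comap (dC k j) := by
    refine Submodule.span_le.2 ?_
    rintro x ⟨y, ω, rfl⟩
    change dC k j (tn (k + 3) j ω (rC (k + 1) 0 y)) ∈ KC (k + 2) j
    refine Cx_ind (fun y => dC k j (tn (k + 3) j ω (rC (k + 1) 0 y)) ∈ KC (k + 2) j) ?_ ?_ ?_ y
    · rw [map_zero, map_zero, map_zero]
      exact zero_mem _
    · intro a b ha hb
      rw [map_add, map_add, map_add]
      exact add_mem ha hb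
    · intro x υ
      rw [rC_PB]
      have e := tn_PB' (k + 3) j ω (cl (k + 3) (mapP (RatFunc.C : K →+* RatFunc K) x)) (rT 0 υ)
      have e2 : tn (k + 3) j ω (PB (k + 1 + 2) 0
        (cl (k + 1 + 2) (mapP (RatFunc.C : K →+* RatFunc K) x)) (rT 0 υ)) =
        e0 (RatFunc K) (rT 0 υ) •
          PB (k + 3) j (cl (k + 3) (mapP (RatFunc.C : K →+* RatFunc K) x)) ω := e
      rw [e2, map_smul, dC_PB, mapP_some_eq]
      refine Submodule.smul_mem _ _ ?_
      rw [← wC_PB]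
      exact wC_mem_KC (k + 2) j (lgP x) _
  exact h2 h

theorem mem_NK [IsAlgClosed K] (k : ℕ) (z : Cx (k + 2) 2 (RatFunc K))
    (h : ∀ a b : K, ct (k + 2) 0 (va b) (ct (k + 2) 1 (va a) z) ∈
      LinearMap.range (rC k 0 : Cx (k + 2) 0 K →ₗ[ℚ] _)) :
    z ∈ NC k 2 ⊔ KC (k + 2) 1 := by
  have key : ∀ a : K, ct (k + 2) 1 (va a) z ∈ NC k 1 ⊔ KC (k + 2) 0 := by
    intro a
    obtain ⟨S, hS⟩ := euler_C (k + 2) 0 (ct (k + 2) 1 (va a) z)
    have h1 := hS S (Finset.Subset.refl S)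
    have h2 : (∑ b ∈ S, wC (k + 2) 0 (ee b) (ct (k + 2) 0 (va b) (ct (k + 2) 1 (va a) z))) ∈
        NC k 1 := by
      refine sum_mem fun b _ => ?_
      obtain ⟨y, hy⟩ := h a b
      rw [← hy]
      have h3 : tn (k + 2) 0 (u0 (RatFunc K)) (rC k 0 y) = rC k 0 y := by
        have h4 : ∀ w : Cx (k + 2) 0 (RatFunc K), tn (k + 2) 0 (u0 (RatFunc K)) w = w := by
          intro w
          refine Cx_ind (fun w => tn (k + 2) 0 (u0 (RatFunc K)) w = w) ?_ ?_ ?_ w
          · rw [map_zero]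
          · intro a b ha hb
            rw [map_add, ha, hb]
          · intro x υ
            rw [tn_PB', ← map_smul, e0_inj]
        exact h4 _
      rw [← h3, wC_tn]
      exact tn_mem_NC k 1 y _
    have h5 : ct (k + 2) 1 (va a) z =
        (∑ b ∈ S, wC (k + 2) 0 (ee b) (ct (k + 2) 0 (va b) (ct (k + 2) 1 (va a) z))) -
        ((∑ b ∈ S, wC (k + 2) 0 (ee b) (ct (k + 2) 0 (va b) (ct (k + 2) 1 (va a) z))) -
          ((0 + 1 : ℕ) : ℚ) • ct (k + 2) 1 (va a) z) := by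
      rw [sub_sub_cancel, zero_add, Nat.cast_one, one_smul]
    rw [h5]
    exact sub_mem (Submodule.mem_sup_left h2) (Submodule.mem_sup_right h1)
  have key2 : ∀ a : K, wC (k + 2) 1 (ee a) (ct (k + 2) 1 (va a) z) ∈
      NC k 2 ⊔ KC (k + 2) 1 := by
    intro a
    obtain ⟨p, hp, q, hq, hpq⟩ := Submodule.mem_sup.1 (key a)
    rw [← hpq, map_add]
    exact add_mem (Submodule.mem_sup_left (wC_NC k 1 _ hp))
      (Submodule.mem_sup_right (wC_KC (k + 2) 0 _ hq))
  obtain ⟨S, hS⟩ := euler_C (k + 2) 1 z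
  have h1 := hS S (Finset.Subset.refl S)
  have h2 : (∑ a ∈ S, wC (k + 2) 1 (ee a) (ct (k + 2) 1 (va a) z)) ∈
      NC k 2 ⊔ KC (k + 2) 1 := sum_mem fun a _ => key2 a
  have h5 : z = (1 / 2 : ℚ) • ((∑ a ∈ S, wC (k + 2) 1 (ee a) (ct (k + 2) 1 (va a) z)) -
      ((∑ a ∈ S, wC (k + 2) 1 (ee a) (ct (k + 2) 1 (va a) z)) - ((1 + 1 : ℕ) : ℚ) • z)) := by
    rw [sub_sub_cancel, smul_smul]
    norm_num
  rw [h5]
  exact Submodule.smul_mem _ _ (sub_mem h2 (Submodule.mem_sup_right h1))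

private lemma rm2_WW (k j : ℕ) (ω : Tx j (RatFunc K)) {z : Cx (k + 2) 2 (RatFunc K)}
    (h : z ∈ WW k 1) : rm2 (k + 2) j ω z ∈ WW k (j + 1) := by
  obtain ⟨p, ⟨w, rfl⟩, q, hq, hpq⟩ := Submodule.mem_sup.1 h
  rw [← hpq, map_add, ← dC_rm1]
  exact add_mem (dC_mem_WW k (j + 1) _) (KC_le_WW k (j + 1) (rm2_KC (k + 2) j ω hq))

theorem NC_le_of [IsAlgClosed K] (k : ℕ)
    (h : ∀ a b : K, a ≠ b → ∀ y : Cx (k + 2) 0 K,
      tn (k + 2) 2 (W2 (ee a) (ee b)) (rC k 0 y) ∈ WW k 1) (j : ℕ) :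
    (NC k (j + 2) : Submodule ℚ (Cx (k + 2) (j + 2) (RatFunc K))) ≤ WW k (j + 1) := by
  refine Submodule.span_le.2 ?_
  rintro x ⟨y, ω, rfl⟩
  change tn (k + 2) (j + 2) ω (rC k 0 y) ∈ WW k (j + 1)
  have key : ∀ (v v' : Additive (RatFunc K)ˣ) (υ : Tx j (RatFunc K)),
      tn (k + 2) (j + 2) (wT (j + 1) v (wT j v' υ)) (rC k 0 y) ∈ WW k (j + 1) := by
    intro v v' υ
    refine V_ind (fun v => tn (k + 2) (j + 2) (wT (j + 1) v (wT j v' υ)) (rC k 0 y) ∈
      WW k (j + 1)) ?_ ?_ ?_ ?_ v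
    · intro κ
      exact KC_le_WW k (j + 1) (tn_KT (k + 2) (j + 1) (wT_mem_KT (j + 1) κ _) _)
    · intro a
      refine V_ind (fun v' => tn (k + 2) (j + 2) (wT (j + 1) (ee a) (wT j v' υ)) (rC k 0 y) ∈
        WW k (j + 1)) ?_ ?_ ?_ ?_ v'
      · intro κ
        rw [wT_wT]
        exact KC_le_WW k (j + 1) (tn_KT (k + 2) (j + 1) (neg_mem (wT_mem_KT (j + 1) κ _)) _)
      · intro b
        by_cases hab : a = b
        · subst hab
          rw [wT_self, ← tnL_apply, map_zero, LinearMap.zero_apply]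
          exact zero_mem _
        · rw [← rm2_tn]
          exact rm2_WW k j υ (h a b hab y)
      · intro u w hu hw
        rw [wT_add, LinearMap.add_apply, map_add, tn_add]
        exact add_mem hu hw
      · intro u hu
        rw [wT_neg, LinearMap.neg_apply, map_neg, ← tnL_apply, map_neg, LinearMap.neg_apply]
        exact neg_mem hu
    · intro u w hu hw
      rw [wT_add, LinearMap.add_apply, tn_add]
      exact add_mem hu hw
    · intro u hu
      rw [wT_neg, LinearMap.neg_apply, ← tnL_apply, map_neg, LinearMap.neg_apply]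
      exact neg_mem hu
  refine Tx_ind (fun ω => tn (k + 2) (j + 2) ω (rC k 0 y) ∈ WW k (j + 1)) ?_ ?_ ?_ ω
  · rw [← tnL_apply, map_zero, LinearMap.zero_apply]
    exact zero_mem _
  · intro a b ha hb
    rw [tn_add]
    exact add_mem ha hb
  · intro v υ
    refine Tx_ind (fun υ => tn (k + 2) (j + 2) (wT (j + 1) v υ) (rC k 0 y) ∈ WW k (j + 1))
      ?_ ?_ ?_ υ
    · rw [map_zero, ← tnL_apply, map_zero, LinearMap.zero_apply]
      exact zero_mem _
    · intro a b ha hb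
      rw [map_add, tn_add]
      exact add_mem ha hb
    · intro v' υ'
      exact key v v' υ'

end

end Helper42.LT
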