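import Pool.Agent.Helper42.LT.SKa
import Pool.Agent.Helper42.LT.NCle

set_option autoImplicit false

/-!
# LT-SKb: the Spence-Kummer relation in B_3(K(t)) and its consequence

With x constant, y = fy a b, A1, ..., A7 as in SKa.lean:
  b3 A1 + b3 A2 + b3 A3 - 2 b3 A4 - 2 b3 A5 - 2 b3 A6 - 2 b3 A7 - 2 b3 x - 2 b3 y + 2 b3 1 = 0.
PLAN (about 1 h).
 * SK: beta := left side.  dC 0 0 beta = 0 in Cx 2 1: dC_PB gives tn 2 1 (wT 0 (lgP A) u0) (bb A) for
   every term; lg A1 = x + 2(1-y) - y - 2(1-x), lg A2 = x + y, lg A3 = x - y,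
   lg A4 = x + (1-y) - y - (1-x), lg A5 = x + (1-y) - (1-x) (up to lg(-1)), lg A6 = (1-y) - (1-x),
   lg A7 = (1-y) - y - (1-x) (up to lg (-1), killed by wT_neg_one / wT_lg_neg).
   Coefficients: of y: -A1 + A2 - A3 + 2 A4 + 2 A7 - 2 y; of 1-y: 2 A1 - 2 A4 - 2 A5 - 2 A6 - 2 A7;
   of x: A1 + A2 + A3 - 2 A4 - 2 A5 - 2 x; of 1-x: -2 A1 + 2 A4 + 2 A5 + 2 A6 + 2 A7; all 0 by r1, r2, r3.
   Then const_cyc (Helper14/W4/H4) with c = b: beta = rC 1 0 (sC b 1 0 beta); at t = b: y = 1,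
   A2 = A3 = x, the others 0: {x} + {x} - 2 {x} - 2 {1} + 2 {1} = 0.
 * If lg A = p Y + q Y' + const (Y = lg y, Y' = lg (1-y)), (p,q) <> (0,0) integers, then
   PB 3 2 (cl 3 A) (W2 Y Y') is in WW 1 1:  W2 (lg A) Y' = p W2 Y Y' + W2 const Y' and
   W2 (lg A) Y = - q W2 Y Y' + W2 const Y, and PB 3 2 (cl 3 A) (W2 (lg A) v) = dC 1 1 (PB 4 1 (cl 4 A)
   (wT 0 v u0)) (dC_PB), and PB 3 2 b (W2 const v) is in KC 3 1.
 * three3 tensor W2 Y Y' (i.e. apply tn 3 2 (W2 Y Y')): PB 3 2 (cl 3 1) (W2 Y Y') in WW 1 1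
   (lg (1 - 1/y) = Y' - Y up to sign).  SK tensor W2 Y Y': 2 PB 3 2 (cl 3 x) (W2 Y Y') in WW 1 1.
 * Y = ee a - lg const, Y' = ee b - lg const (1 - y = (t-b)/(a-b)), so the same for W2 (ee a) (ee b)
   modulo KC 3 1.  x = 0: cl_zero; x = 1: from three3 (PB 3 2 (cl 3 (some 1))).
 * star5y: Cx_ind over K for y (P1 K: none gives cl_inf, some x gives star5 via rC_PB, mapP).
-/

noncomputable section

open Polynomial TensorProduct
open scoped Classical

namespace Helper42.LT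

open Helper14.Gon Helper14.W4

universe u v w

section
variable {F : Type u} [Field F]

/-- `v ↦ (b ↦ b ⊗ v)` -/
private def GH : Additive Fˣ →+ (Cx 2 0 F →ₗ[ℚ] Cx 2 1 F) :=
  AddMonoidHom.mk' (fun v => tn 2 1 (wT 0 v (u0 F))) (fun v v' => by
    refine LinearMap.ext fun z => ?_
    rw [wT_add, LinearMap.add_apply, tn_add, LinearMap.add_apply])

private lemma GH_apply (v : Additive Fˣ) : GH v = tn 2 1 (wT 0 v (u0 F)) := rfl

private lemma GH_m1 : GH (lg (-1 : F)) = 0 := by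
  refine LinearMap.ext fun z => ?_
  rw [GH_apply, wT_neg_one, LinearMap.zero_apply]
  have h := tn_smul 2 1 (0 : ℚ) (0 : Tx 1 F) z
  rw [zero_smul, zero_smul] at h
  rw [LinearMap.zero_apply]
  exact h

private lemma dC_b3 (x : P1 F) : dC 0 0 (b3 x) = GH (lgP x) (bb x) := by
  have h := dC_PB 0 0 x (u0 F)
  refine h.trans ?_
  rw [GH_apply, bb, tn_PB]

private lemma mem_lg {K : Type u} [Field K] (A : P1 (RatFunc K)) (v : Additive (RatFunc K)ˣ) :
    PB 3 2 (cl 3 A) (W2 (lgP A) v) ∈ WW 1 1 := by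
  have h := dC_mem_WW 1 1 (PB 4 1 (cl 4 A) (wT 0 v (u0 _)))
  have e := dC_PB 1 1 A (wT 0 v (u0 _))
  rw [W2_apply]
  rw [← e]
  exact h

private lemma mem_c {K : Type u} [Field K] (b : B 3 (RatFunc K)) (κ : Additive Kˣ)
    (v : Additive (RatFunc K)ˣ) : PB 3 2 b (W2 (rU κ) v) ∈ WW 1 1 := by
  refine KC_le_WW 1 1 ?_
  have h := wC_mem_KC 3 1 κ (PB 3 1 b (wT 0 v (u0 _)))
  rw [wC_PB] at h
  exact h

private lemma mem_c' {K : Type u} [Field K] (b : B 3 (RatFunc K)) (κ : Additive Kˣ)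
    (v : Additive (RatFunc K)ˣ) : PB 3 2 b (W2 v (rU κ)) ∈ WW 1 1 := by
  rw [W2_swap, map_neg]
  exact neg_mem (mem_c b κ v)

private lemma mem_pq {K : Type u} [Field K] {A : P1 (RatFunc K)} {Y Y' : Additive (RatFunc K)ˣ}
    {κ : Additive Kˣ} {p q : ℤ} (h : lgP A = p • Y + q • Y' + rU κ) (hpq : p ≠ 0 ∨ q ≠ 0) :
    PB 3 2 (cl 3 A) (W2 Y Y') ∈ WW 1 1 := by
  have h1 := mem_lg A Y'
  have h2 := mem_lg A Y
  rw [h] at h1 h2
  have c1 := mem_c (cl 3 A) κ Y'
  have c2 := mem_c (cl 3 A) κ Y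
  have e1 : W2 (p • Y + q • Y' + rU κ) Y' = (p : ℚ) • W2 Y Y' + W2 (rU κ) Y' := by
    rw [map_add, map_add, map_zsmul, map_zsmul, AddMonoidHom.add_apply, AddMonoidHom.add_apply,
      AddMonoidHom.smul_apply, AddMonoidHom.smul_apply, W2_self, smul_zero, add_zero,
      Int.cast_smul_eq_zsmul]
  have e2 : W2 (p • Y + q • Y' + rU κ) Y = -((q : ℚ) • W2 Y Y') + W2 (rU κ) Y := by
    rw [map_add, map_add, map_zsmul, map_zsmul, AddMonoidHom.add_apply, AddMonoidHom.add_apply,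
      AddMonoidHom.smul_apply, AddMonoidHom.smul_apply, W2_self, smul_zero, zero_add,
      W2_swap Y' Y, smul_neg, Int.cast_smul_eq_zsmul]
  rw [e1, map_add, map_smul] at h1
  rw [e2, map_add, map_neg, map_smul] at h2
  rcases hpq with hp | hq
  · have h3 := sub_mem h1 c1
    rw [add_sub_cancel_right] at h3
    have hp' : (p : ℚ) ≠ 0 := by exact_mod_cast hp
    have h4 := Submodule.smul_mem _ ((p : ℚ)⁻¹) h3
    rwa [smul_smul, inv_mul_cancel₀ hp', one_smul] at h4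
  · have h3 := sub_mem h2 c2
    rw [add_sub_cancel_right] at h3
    have h3' := neg_mem h3
    rw [neg_neg] at h3'
    have hq' : (q : ℚ) ≠ 0 := by exact_mod_cast hq
    have h4 := Submodule.smul_mem _ ((q : ℚ)⁻¹) h3'
    rwa [smul_smul, inv_mul_cancel₀ hq', one_smul] at h4

end

section
variable {K : Type u} [Field K]

private lemma sC_b3 (c : K) (x : P1 (RatFunc K)) : sC c 1 0 (b3 x) = b3 (spec c x) := by
  have e := sC_PB c 1 0 x (u0 (RatFunc K))
  rw [b3, b3]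
  refine e.trans ?_
  congr 1
  rw [u0, sT_dm, u0]
  congr 1
  funext i
  exact i.elim0

private lemma b3_zero {F : Type u} [Field F] : b3 (some 0 : P1 F) = 0 := by
  rw [b3, cl_zero 2, map_zero]; rfl

private lemma lgc (κ : K) : lg (RatFunc.C κ : RatFunc K) = rU (lg κ) := by
  rw [rU, resU_lg]

private lemma Xne (x : K) : (RatFunc.X - RatFunc.C x : RatFunc K) ≠ 0 := by
  rw [← RatFunc.algebraMap_X, ← RatFunc.algebraMap_C, ← map_sub]
  exact RatFunc.algebraMap_ne_zero (X_sub_C_ne_zero x)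

private lemma Cne {x : K} (hx : x ≠ 0) : (RatFunc.C x : RatFunc K) ≠ 0 :=
  (_root_.map_ne_zero RatFunc.C).2 hx

private lemma one_sub_fy {a b : K} (hab : a ≠ b) :
    1 - fy a b = (RatFunc.X - RatFunc.C b) / RatFunc.C (a - b) := by
  have h1 := Cne (sub_ne_zero.2 hab.symm)
  have h2 := Cne (sub_ne_zero.2 hab)
  rw [fy, eq_div_iff h2, sub_mul, one_mul, div_mul_eq_mul_div, sub_eq_iff_eq_add,
    ← sub_eq_iff_eq_add', eq_div_iff h1]
  rw [map_sub, map_sub]
  ring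

private lemma fy_ne {a b : K} (hab : a ≠ b) : fy a b ≠ 0 :=
  div_ne_zero (Xne a) (Cne (sub_ne_zero.2 hab.symm))

private lemma fy_ne' {a b : K} (hab : a ≠ b) : 1 - fy a b ≠ 0 := by
  rw [one_sub_fy hab]
  exact div_ne_zero (Xne b) (Cne (sub_ne_zero.2 hab))

private lemma lg_one_sub_C (x : K) : lg (1 - RatFunc.C x : RatFunc K) = rU (lg (1 - x)) := by
  rw [← lgc, map_sub, map_one]

private lemma lg_C_sub_one (x : K) : lg (RatFunc.C x - 1 : RatFunc K) = rU (lg (x - 1)) := by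
  rw [← lgc, map_sub, map_one]

private lemma spec_fy {a b : K} (hab : a ≠ b) : spec b (some (fy a b)) = some 1 := by
  have h1 := sub_ne_zero.2 hab.symm
  have sX : spec b (some (RatFunc.X - RatFunc.C a : RatFunc K)) = some (b - a) := by
    have := spec_poly b (Polynomial.X - Polynomial.C a : K[X])
    rw [map_sub, RatFunc.algebraMap_X, RatFunc.algebraMap_C] at this
    simpa using this
  rw [fy, sp_div_some sX (spec_C b _) h1, div_self h1]

private lemma spec_A {x a b : K} (hx1 : x ≠ 1) (hab : a ≠ b) :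
    spec b (some (RatFunc.C x * (1 - fy a b) ^ 2 / (fy a b * (1 - RatFunc.C x) ^ 2))) = some 0 ∧
    spec b (some (RatFunc.C x * fy a b)) = some x ∧
    spec b (some (RatFunc.C x / fy a b)) = some x ∧
    spec b (some (RatFunc.C x * (1 - fy a b) / (fy a b * (1 - RatFunc.C x)))) = some 0 ∧
    spec b (some (RatFunc.C x * (1 - fy a b) / (RatFunc.C x - 1))) = some 0 ∧
    spec b (some ((1 - fy a b) / (1 - RatFunc.C x))) = some 0 ∧
    spec b (some ((1 - fy a b) / (fy a b * (RatFunc.C x - 1)))) = some 0 := by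
  have h1 := spec_fy hab
  have h0 := spec_one_sub h1
  rw [sub_self] at h0
  have hx := spec_C b x
  have hx' := spec_one_sub hx
  have hx'' := sp_sub_one hx
  have n1 : 1 - x ≠ 0 := sub_ne_zero.2 (Ne.symm hx1)
  have n2 : x - 1 ≠ 0 := sub_ne_zero.2 hx1
  refine ⟨?_, ?_, ?_, ?_, ?_, ?_, ?_⟩
  · rw [sq, sq, sp_div_some (sp_mul_some hx (sp_mul_some h0 h0))
      (sp_mul_some h1 (sp_mul_some hx' hx')) (mul_ne_zero one_ne_zero (mul_ne_zero n1 n1))]
    simp
  · rw [sp_mul_some hx h1, mul_one]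
  · rw [sp_div_some hx h1 one_ne_zero, div_one]
  · rw [sp_div_some (sp_mul_some hx h0) (sp_mul_some h1 hx') (mul_ne_zero one_ne_zero n1)]
    simp
  · rw [sp_div_some (sp_mul_some hx h0) hx'' n2]
    simp
  · rw [sp_div_some h0 hx' n1]
    simp
  · rw [sp_div_some h0 (sp_mul_some h1 hx'') (mul_ne_zero one_ne_zero n2)]
    simp

private lemma lg_A {x a b : K} (hx0 : x ≠ 0) (hx1 : x ≠ 1) (hab : a ≠ b) :
    lg (RatFunc.C x * (1 - fy a b) ^ 2 / (fy a b * (1 - RatFunc.C x) ^ 2)) =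
      rU (lg x) + (2 : ℤ) • lg (1 - fy a b) - (lg (fy a b) + (2 : ℤ) • rU (lg (1 - x))) ∧
    lg (RatFunc.C x * fy a b) = rU (lg x) + lg (fy a b) ∧
    lg (RatFunc.C x / fy a b) = rU (lg x) - lg (fy a b) ∧
    lg (RatFunc.C x * (1 - fy a b) / (fy a b * (1 - RatFunc.C x))) =
      rU (lg x) + lg (1 - fy a b) - (lg (fy a b) + rU (lg (1 - x))) ∧
    lg (RatFunc.C x * (1 - fy a b) / (RatFunc.C x - 1)) =
      rU (lg x) + lg (1 - fy a b) - (lg (-1) + rU (lg (1 - x))) ∧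
    lg ((1 - fy a b) / (1 - RatFunc.C x)) = lg (1 - fy a b) - rU (lg (1 - x)) ∧
    lg ((1 - fy a b) / (fy a b * (RatFunc.C x - 1))) =
      lg (1 - fy a b) - (lg (fy a b) + (lg (-1) + rU (lg (1 - x)))) := by
  have nx := Cne hx0
  have ny := fy_ne hab
  have ny' := fy_ne' hab
  have n1 : (1 - RatFunc.C x : RatFunc K) ≠ 0 := by
    rw [← map_one RatFunc.C, ← map_sub]
    exact Cne (sub_ne_zero.2 (Ne.symm hx1))
  have n2 : (RatFunc.C x - 1 : RatFunc K) ≠ 0 := by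
    rw [← map_one RatFunc.C, ← map_sub]
    exact Cne (sub_ne_zero.2 hx1)
  have e2 : lg (RatFunc.C x - 1 : RatFunc K) = lg (-1) + rU (lg (1 - x)) := by
    rw [← neg_sub, lg_neg' n1, lg_one_sub_C]
  refine ⟨?_, ?_, ?_, ?_, ?_, ?_, ?_⟩
  · rw [lg_div (mul_ne_zero nx (pow_ne_zero 2 ny')) (mul_ne_zero ny (pow_ne_zero 2 n1)),
      lg_mul nx (pow_ne_zero 2 ny'), lg_mul ny (pow_ne_zero 2 n1), lg_pow _ two_ne_zero,
      lg_pow _ two_ne_zero, lgc, lg_one_sub_C]
    rfl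
  · rw [lg_mul nx ny, lgc]
  · rw [lg_div nx ny, lgc]
  · rw [lg_div (mul_ne_zero nx ny') (mul_ne_zero ny n1), lg_mul nx ny', lg_mul ny n1, lgc,
      lg_one_sub_C]
  · rw [lg_div (mul_ne_zero nx ny') n2, lg_mul nx ny', lgc, e2]
  · rw [lg_div ny' n1, lg_one_sub_C]
  · rw [lg_div ny' (mul_ne_zero ny n2), lg_mul ny n2, e2]

theorem SK {x a b : K} (hx0 : x ≠ 0) (hx1 : x ≠ 1) (hab : a ≠ b) :
    b3 (some (RatFunc.C x * (1 - fy a b) ^ 2 / (fy a b * (1 - RatFunc.C x) ^ 2))) +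
      b3 (some (RatFunc.C x * fy a b)) + b3 (some (RatFunc.C x / fy a b)) -
      (2 : ℚ) • b3 (some (RatFunc.C x * (1 - fy a b) / (fy a b * (1 - RatFunc.C x)))) -
      (2 : ℚ) • b3 (some (RatFunc.C x * (1 - fy a b) / (RatFunc.C x - 1))) -
      (2 : ℚ) • b3 (some ((1 - fy a b) / (1 - RatFunc.C x))) -
      (2 : ℚ) • b3 (some ((1 - fy a b) / (fy a b * (RatFunc.C x - 1)))) -
      (2 : ℚ) • b3 (some (RatFunc.C x : RatFunc K)) - (2 : ℚ) • b3 (some (fy a b)) +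
      (2 : ℚ) • b3 (some (1 : RatFunc K)) = 0 := by
  have q1 := r1 hx0 hx1 hab
  have q2 := r2 hx0 hx1 hab
  have q3 := r3 hx0 hx1 hab
  obtain ⟨l1, l2, l3, l4, l5, l6, l7⟩ := lg_A hx0 hx1 hab
  obtain ⟨s1, s2, s3, s4, s5, s6, s7⟩ := spec_A hx1 hab
  have sy := spec_fy hab
  have lx := lgc x
  have l11 : lg (1 : RatFunc K) = 0 := by
    have h := lg_mul (one_ne_zero : (1 : RatFunc K) ≠ 0) one_ne_zero
    rw [mul_one] at h
    exact (left_eq_add.1 h)
  generalize RatFunc.C x * (1 - fy a b) ^ 2 / (fy a b * (1 - RatFunc.C x) ^ 2) = A1 at *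
  generalize RatFunc.C x * fy a b = A2 at *
  generalize RatFunc.C x / fy a b = A3 at *
  generalize RatFunc.C x * (1 - fy a b) / (fy a b * (1 - RatFunc.C x)) = A4 at *
  generalize RatFunc.C x * (1 - fy a b) / (RatFunc.C x - 1) = A5 at *
  generalize (1 - fy a b) / (1 - RatFunc.C x) = A6 at *
  generalize (1 - fy a b) / (fy a b * (RatFunc.C x - 1)) = A7 at *
  set β : Cx 3 0 (RatFunc K) := b3 (some A1) + b3 (some A2) + b3 (some A3) - (2 : ℚ) • b3 (some A4) -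
      (2 : ℚ) • b3 (some A5) - (2 : ℚ) • b3 (some A6) - (2 : ℚ) • b3 (some A7) -
      (2 : ℚ) • b3 (some (RatFunc.C x : RatFunc K)) - (2 : ℚ) • b3 (some (fy a b)) +
      (2 : ℚ) • b3 (some (1 : RatFunc K)) with hβ
  have hd : dC 0 0 β = 0 := by
    rw [hβ]
    simp only [map_add, map_sub, map_smul, dC_b3, lgP_some]
    simp only [l1, l2, l3, l4, l5, l6, l7, lx, l11]
    simp only [map_add, map_sub, map_zsmul, map_zero, GH_m1, LinearMap.add_apply,
      LinearMap.sub_apply, LinearMap.zero_apply, LinearMap.smul_apply, smul_zero, add_zero,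
      zero_add]
    generalize GH (rU (lg x)) = gx
    generalize GH (lg (fy a b)) = gy
    generalize GH (lg (1 - fy a b)) = gy'
    generalize GH (rU (lg (1 - x))) = gx'
    have e1 := congrArg gx q1
    have e2 := congrArg gy q1
    have e3 := congrArg gy' q1
    have e4 := congrArg gx' q1
    have e5 := congrArg gy q2
    have e6 := congrArg gx q3
    simp only [map_add, map_sub, map_smul] at e1 e2 e3 e4 e5 e6
    linear_combination (norm := module) e1 - e2 + (2 : ℚ) • e3 - (2 : ℚ) • e4 + e5 + e6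
  have hc := const_cyc b 1 β hd
  have hs : sC b 1 0 β = 0 := by
    rw [hβ]
    simp only [map_add, map_sub, map_smul, sC_b3, s1, s2, s3, s4, s5, s6, s7, sy, spec_C, spec_one,
      b3_zero]
    module
  rw [hs, map_zero] at hc
  exact hc.symm

private lemma tn_b3 {F : Type u} [Field F] (ω : Tx 2 F) (x : P1 F) :
    tn 3 2 ω (b3 x) = PB 3 2 (cl 3 x) ω := by
  rw [b3, tn_PB]

private lemma star_Y (x : K) {a b : K} (hab : a ≠ b) :
    PB 3 2 (cl 3 (some (RatFunc.C x : RatFunc K))) (W2 (lg (fy a b)) (lg (1 - fy a b))) ∈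
      WW 1 1 := by
  set ω : Tx 2 (RatFunc K) := W2 (lg (fy a b)) (lg (1 - fy a b)) with hω
  have my : PB 3 2 (cl 3 (some (fy a b))) ω ∈ WW 1 1 :=
    mem_pq (κ := 0) (p := 1) (q := 0) (by rw [lgP_some, map_zero]; simp) (Or.inl one_ne_zero)
  have m1 : PB 3 2 (cl 3 (some (1 : RatFunc K))) ω ∈ WW 1 1 := by
    have h := congrArg (tn 3 2 ω) (three3 hab)
    rw [map_add, map_add, tn_b3, tn_b3, tn_b3, tn_b3] at h
    rw [← h]
    refine add_mem (add_mem my ?_) ?_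
    · exact mem_pq (κ := 0) (p := 0) (q := 1) (by rw [lgP_some, map_zero]; simp)
        (Or.inr one_ne_zero)
    · refine mem_pq (κ := lg (-1)) (p := -1) (q := 1) ?_ (Or.inr one_ne_zero)
      have ny := fy_ne hab
      have ny' := fy_ne' hab
      have e : 1 - (fy a b)⁻¹ = -(1 - fy a b) / fy a b := by
        field_simp
        ring
      rw [lgP_some, e, lg_div (neg_ne_zero.2 ny') ny, lg_neg' ny', ← lgc, map_neg, map_one]
      simp only [neg_smul, one_smul]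
      abel
  by_cases hx0 : x = 0
  · subst hx0
    rw [map_zero, cl_zero 2, map_zero]
    exact zero_mem _
  by_cases hx1 : x = 1
  · subst hx1
    rw [map_one]
    exact m1
  have h := congrArg (tn 3 2 ω) (SK hx0 hx1 hab)
  simp only [map_add, map_sub, map_smul, map_zero, tn_b3] at h
  obtain ⟨l1, l2, l3, l4, l5, l6, l7⟩ := lg_A hx0 hx1 hab
  have lm : lg (-1 : RatFunc K) = rU (lg (-1)) := by rw [← lgc, map_neg, map_one]
  have t1 := mem_pq (A := some (RatFunc.C x * (1 - fy a b) ^ 2 / (fy a b * (1 - RatFunc.C x) ^ 2)))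
    (Y := lg (fy a b)) (Y' := lg (1 - fy a b)) (κ := lg x - (2 : ℤ) • lg (1 - x)) (p := -1)
    (q := 2) (by rw [lgP_some, l1, map_sub, map_zsmul, neg_smul, one_smul]; abel)
    (Or.inr two_ne_zero)
  have t2 := mem_pq (A := some (RatFunc.C x * fy a b))
    (Y := lg (fy a b)) (Y' := lg (1 - fy a b)) (κ := lg x) (p := 1)
    (q := 0) (by rw [lgP_some, l2, zero_smul, one_smul]; abel)
    (Or.inl one_ne_zero)
  have t3 := mem_pq (A := some (RatFunc.C x / fy a b))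
    (Y := lg (fy a b)) (Y' := lg (1 - fy a b)) (κ := lg x) (p := -1)
    (q := 0) (by rw [lgP_some, l3, zero_smul, neg_smul, one_smul]; abel)
    (Or.inl (by norm_num))
  have t4 := mem_pq (A := some (RatFunc.C x * (1 - fy a b) / (fy a b * (1 - RatFunc.C x))))
    (Y := lg (fy a b)) (Y' := lg (1 - fy a b)) (κ := lg x - lg (1 - x)) (p := -1)
    (q := 1) (by rw [lgP_some, l4, map_sub, neg_smul, one_smul, one_smul]; abel)
    (Or.inr one_ne_zero)
  have t5 := mem_pq (A := some (RatFunc.C x * (1 - fy a b) / (RatFunc.C x - 1)))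
    (Y := lg (fy a b)) (Y' := lg (1 - fy a b)) (κ := lg x - (lg (-1) + lg (1 - x))) (p := 0)
    (q := 1) (by rw [lgP_some, l5, map_sub, map_add, zero_smul, one_smul, lm]; abel)
    (Or.inr one_ne_zero)
  have t6 := mem_pq (A := some ((1 - fy a b) / (1 - RatFunc.C x)))
    (Y := lg (fy a b)) (Y' := lg (1 - fy a b)) (κ := -lg (1 - x)) (p := 0)
    (q := 1) (by rw [lgP_some, l6, map_neg, zero_smul, one_smul]; abel)
    (Or.inr one_ne_zero)
  have t7 := mem_pq (A := some ((1 - fy a b) / (fy a b * (RatFunc.C x - 1))))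
    (Y := lg (fy a b)) (Y' := lg (1 - fy a b)) (κ := -(lg (-1) + lg (1 - x))) (p := -1)
    (q := 1) (by rw [lgP_some, l7, map_neg, map_add, neg_smul, one_smul, one_smul, lm]; abel)
    (Or.inr one_ne_zero)
  rw [← hω] at t1 t2 t3 t4 t5 t6 t7
  have hh : (2 : ℚ) • PB 3 2 (cl 3 (some (RatFunc.C x : RatFunc K))) ω ∈ WW 1 1 := by
    have e := eq_sub_of_add_eq' h
    have e2 : (2 : ℚ) • PB 3 2 (cl 3 (some (RatFunc.C x : RatFunc K))) ω =
      PB 3 2 (cl 3 (some (RatFunc.C x * (1 - fy a b) ^ 2 / (fy a b * (1 - RatFunc.C x) ^ 2)))) ω +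
      PB 3 2 (cl 3 (some (RatFunc.C x * fy a b))) ω + PB 3 2 (cl 3 (some (RatFunc.C x / fy a b))) ω -
      (2 : ℚ) • PB 3 2 (cl 3 (some (RatFunc.C x * (1 - fy a b) / (fy a b * (1 - RatFunc.C x))))) ω -
      (2 : ℚ) • PB 3 2 (cl 3 (some (RatFunc.C x * (1 - fy a b) / (RatFunc.C x - 1)))) ω -
      (2 : ℚ) • PB 3 2 (cl 3 (some ((1 - fy a b) / (1 - RatFunc.C x)))) ω -
      (2 : ℚ) • PB 3 2 (cl 3 (some ((1 - fy a b) / (fy a b * (RatFunc.C x - 1))))) ω -
      (2 : ℚ) • PB 3 2 (cl 3 (some (fy a b))) ω +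
      (2 : ℚ) • PB 3 2 (cl 3 (some (1 : RatFunc K))) ω := by
      linear_combination (norm := module) (-1 : ℚ) • h
    rw [e2]
    refine add_mem (sub_mem (sub_mem (sub_mem (sub_mem (sub_mem (add_mem (add_mem t1 t2) t3) ?_) ?_)
      ?_) ?_) ?_) ?_
    · exact Submodule.smul_mem _ _ t4
    · exact Submodule.smul_mem _ _ t5
    · exact Submodule.smul_mem _ _ t6
    · exact Submodule.smul_mem _ _ t7
    · exact Submodule.smul_mem _ _ my
    · exact Submodule.smul_mem _ _ m1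
  have h4 := Submodule.smul_mem _ ((2 : ℚ)⁻¹) hh
  rwa [smul_smul, inv_mul_cancel₀ two_ne_zero, one_smul] at h4

theorem star5 (x : K) {a b : K} (hab : a ≠ b) :
    PB 3 2 (cl 3 (some (RatFunc.C x : RatFunc K))) (W2 (ee a) (ee b)) ∈ WW 1 1 := by
  have e1 : ee a = lg (fy a b) + rU (lg (b - a)) := by
    rw [fy, lg_div (Xne a) (Cne (sub_ne_zero.2 hab.symm)), lgc, sub_add_cancel]
    rfl
  have e2 : ee b = lg (1 - fy a b) + rU (lg (a - b)) := by
    rw [one_sub_fy hab, lg_div (Xne b) (Cne (sub_ne_zero.2 hab)), lgc, sub_add_cancel]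
    rfl
  have h := star_Y x hab
  have e3 : W2 (lg (fy a b) + rU (lg (b - a))) (lg (1 - fy a b) + rU (lg (a - b))) =
      (W2 (lg (fy a b)) (lg (1 - fy a b)) + W2 (lg (fy a b)) (rU (lg (a - b)))) +
      (W2 (rU (lg (b - a))) (lg (1 - fy a b)) + W2 (rU (lg (b - a))) (rU (lg (a - b)))) := by
    simp only [map_add, AddMonoidHom.add_apply]
    abel
  rw [e1, e2, e3, map_add, map_add, map_add]
  exact add_mem (add_mem h (mem_c' _ _ _)) (add_mem (mem_c _ _ _) (mem_c _ _ _))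

theorem star5y (a b : K) (hab : a ≠ b) (y : Cx 3 0 K) :
    tn 3 2 (W2 (ee a) (ee b)) (rC 1 0 y) ∈ WW 1 1 := by
  refine Cx_ind (fun y : Cx 3 0 K => tn 3 2 (W2 (ee a) (ee b)) (rC 1 0 y) ∈ WW 1 1)
    (by rw [map_zero, map_zero]; exact zero_mem _)
    (fun u v hu hv => by rw [map_add, map_add]; exact add_mem hu hv) (fun x υ => ?_) y
  have e := rC_PB 1 0 x υ
  have e2 := tn_PB' 3 2 (W2 (ee a) (ee b)) (cl 3 (mapP (RatFunc.C : K →+* RatFunc K) x)) (rT 0 υ)
  have e3 : tn 3 2 (W2 (ee a) (ee b)) (rC 1 0 (PB 3 0 (cl 3 x) υ)) =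
    e0 _ (rT 0 υ) • PB 3 2 (cl 3 (mapP (RatFunc.C : K →+* RatFunc K) x)) (W2 (ee a) (ee b)) := by
    rw [← e2]
    exact congrArg _ e
  rw [e3]
  refine Submodule.smul_mem _ _ ?_
  rcases x with _ | x
  · rw [mapP_none, cl_inf 2, map_zero]
    exact zero_mem _
  · rw [mapP_some]
    exact star5 x hab

/-- elements with constant first factor, `B_3` -/
theorem NC1_le [IsAlgClosed K] (j : ℕ) :
    (NC 1 (j + 2) : Submodule ℚ (Cx 3 (j + 2) (RatFunc K))) ≤ WW 1 (j + 1) :=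
  NC_le_of 1 star5y j

end

end Helper42.LT
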