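import Pool.Agent.Helper42.LT.Defs

set_option autoImplicit false

/-!
# LT-EulT: Euler's formula modulo constants

PLAN (about 0.7 h).  V = Additive (RatFunc K)^x.
 * V_ind: let H be the subgroup generated by the rU kappa and the ee a.  H = top: apply hom_ext_gen
   (Helper14/W4/H4) to the quotient map V -> V/H and 0.  Then AddSubgroup.closure_induction.
   (rU (lg kappa) = lg (RatFunc.C kappa), every element of Additive K^x is lg of something.)
 * wT_exp: by V_ind; for rU kappa: all va a (rU kappa) = 0 (va_rU_apply), the difference is in KT;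
   for ee a with S0 = {a}: va_ee; sums and negatives: union of the S0.
 * wT_KT: wT (j+1) v (KT j) is contained in KT (j+1) (wT_wT).  Same for wC_KC.
 * euler_T: induction on j and Tx_ind: for g = wT j v omega use ctT_wT (ctT_wT_zero for j = 0),
   sum_a wT (ee a) (va a v . omega - wT v (ctT (va a) omega))
     = wT v omega (mod KT, wT_exp) + wT v (sum_a wT (ee a) (ctT (va a) omega)) (wT_wT)
   and the induction hypothesis for omega (S0 = union of the two finite sets).
 * FilT_le_KT: induction on j: g in FilT (j+1) (j+1) => ctT (va a) g in FilT j j <= KT (j-1)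
   (for j = 0: it is 0), so sum_a wT (ee a) (ctT (va a) g) is in KT j by wT_KT, and (j+1) g in KT j
   by euler_T.
 * euler_C, Fil_le_KC: the same for B_k tensor Lambda (Cx_ind reduces euler_C to euler_T: for
   z = PB k (j+1) b omega apply PB k (j+1) b to euler_T; PB k (j+1) b maps KT j to KC k j because
   PB k (j+1) b (wT j v omega) = wC k j v (PB k j b omega)).
-/

noncomputable section

open Polynomial TensorProduct
open scoped Classical

namespace Helper42.LT

open Helper14.Gon Helper14.W4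

universe u v w

section
variable {K : Type u} [Field K]

private lemma wC_wC' (k j : ℕ) (v w : Additive (RatFunc K)ˣ) (z : Cx k j (RatFunc K)) :
    wC k (j + 1) v (wC k j w z) = - wC k (j + 1) w (wC k j v z) := by
  refine Cx_ind (fun z => wC k (j + 1) v (wC k j w z) = - wC k (j + 1) w (wC k j v z))
    (by simp) (fun a b ha hb => ?_) (fun x υ => ?_) z
  · simp only [map_add, ha, hb]
    abel
  · rw [wC_PB, wC_PB, wC_PB, wC_PB, wT_wT, map_neg]

private lemma PB_KT (k j : ℕ) (b : B k (RatFunc K)) {x : Tx (j + 1) (RatFunc K)} (h : x ∈ KT j) :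
    PB k (j + 1) b x ∈ KC k j := by
  have hle : (KT j : Submodule ℚ (Tx (j + 1) (RatFunc K))) ≤
      (KC k j).comap (PB k (j + 1) b) := by
    refine Submodule.span_le.2 ?_
    rintro x ⟨κ, z, rfl⟩
    change PB k (j + 1) b (wT j (rU κ) z) ∈ KC k j
    rw [← wC_PB]
    exact wC_mem_KC _ _ κ _
  exact hle h

/-- induction on the elements of `K(t)^*` -/
theorem V_ind [IsAlgClosed K] (p : Additive (RatFunc K)ˣ → Prop)
    (h1 : ∀ κ : Additive Kˣ, p (rU κ)) (h2 : ∀ a : K, p (ee a))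
    (hadd : ∀ u v, p u → p v → p (u + v)) (hneg : ∀ u, p u → p (-u))
    (v : Additive (RatFunc K)ˣ) : p v := by
  have hv : v ∈ AddSubgroup.closure (Set.range (fun κ : K => lg (RatFunc.C κ : RatFunc K)) ∪
      Set.range (ee : K → Additive (RatFunc K)ˣ)) := by rw [gen_top]; trivial
  induction hv using AddSubgroup.closure_induction with
  | mem x hx =>
    rcases hx with ⟨κ, rfl⟩ | ⟨a, rfl⟩
    · have := h1 (lg κ)
      rwa [rU, resU_lg] at this
    · exact h2 a
  | zero =>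
    have := h1 0
    rwa [map_zero] at this
  | add a b _ _ ha hb => exact hadd _ _ ha hb
  | neg a _ ha => exact hneg _ ha

theorem wT_exp [IsAlgClosed K] (j : ℕ) (v : Additive (RatFunc K)ˣ) :
    ∃ S0 : Finset K, ∀ S : Finset K, S0 ⊆ S → ∀ ω : Tx j (RatFunc K),
      wT j v ω - ∑ a ∈ S, va a v • wT j (ee a) ω ∈ KT j := by
  refine V_ind (fun v => ∃ S0 : Finset K, ∀ S : Finset K, S0 ⊆ S → ∀ ω : Tx j (RatFunc K),
      wT j v ω - ∑ a ∈ S, va a v • wT j (ee a) ω ∈ KT j) ?_ ?_ ?_ ?_ v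
  · intro κ
    refine ⟨∅, fun S _ ω => ?_⟩
    have h : ∑ a ∈ S, va a (rU κ) • wT j (ee a) ω = 0 := by
      refine Finset.sum_eq_zero fun a _ => ?_
      rw [va_rU_apply, zero_smul]
    rw [h, sub_zero]
    exact wT_mem_KT j κ ω
  · intro a
    refine ⟨{a}, fun S hS ω => ?_⟩
    have h : ∑ b ∈ S, va b (ee a) • wT j (ee b) ω = wT j (ee a) ω := by
      rw [Finset.sum_eq_single a]
      · rw [va_ee, if_pos rfl, one_smul]
      · intro b _ hb
        rw [va_ee, if_neg (Ne.symm hb), zero_smul]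
      · intro ha
        exact absurd (hS (Finset.mem_singleton_self a)) ha
    rw [h, sub_self]
    exact zero_mem _
  · rintro u w ⟨S1, h1⟩ ⟨S2, h2⟩
    refine ⟨S1 ∪ S2, fun S hS ω => ?_⟩
    have e1 := h1 S (Finset.union_subset_left hS) ω
    have e2 := h2 S (Finset.union_subset_right hS) ω
    have h : wT j (u + w) ω - ∑ a ∈ S, va a (u + w) • wT j (ee a) ω =
        (wT j u ω - ∑ a ∈ S, va a u • wT j (ee a) ω) +
        (wT j w ω - ∑ a ∈ S, va a w • wT j (ee a) ω) := by
      have h3 : ∑ a ∈ S, va a (u + w) • wT j (ee a) ω =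
          ∑ a ∈ S, va a u • wT j (ee a) ω + ∑ a ∈ S, va a w • wT j (ee a) ω := by
        rw [← Finset.sum_add_distrib]
        refine Finset.sum_congr rfl fun a _ => ?_
        rw [map_add, add_smul]
      rw [h3, wT_add, LinearMap.add_apply]
      abel
    rw [h]
    exact add_mem e1 e2
  · rintro u ⟨S1, h1⟩
    refine ⟨S1, fun S hS ω => ?_⟩
    have e1 := h1 S hS ω
    have h : wT j (-u) ω - ∑ a ∈ S, va a (-u) • wT j (ee a) ω =
        -(wT j u ω - ∑ a ∈ S, va a u • wT j (ee a) ω) := by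
      have h3 : ∑ a ∈ S, va a (-u) • wT j (ee a) ω = -∑ a ∈ S, va a u • wT j (ee a) ω := by
        rw [← Finset.sum_neg_distrib]
        refine Finset.sum_congr rfl fun a _ => ?_
        rw [map_neg, neg_smul]
      rw [h3, wT_neg, LinearMap.neg_apply]
      abel
    rw [h]
    exact neg_mem e1

theorem wT_KT (j : ℕ) (v : Additive (RatFunc K)ˣ) {ω : Tx (j + 1) (RatFunc K)} (h : ω ∈ KT j) :
    wT (j + 1) v ω ∈ KT (j + 1) := by
  have hle : (KT j : Submodule ℚ (Tx (j + 1) (RatFunc K))) ≤ (KT (j + 1)).comap (wT (j + 1) v) := by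
    refine Submodule.span_le.2 ?_
    rintro x ⟨κ, z, rfl⟩
    change wT (j + 1) v (wT j (rU κ) z) ∈ KT (j + 1)
    rw [wT_wT]
    exact neg_mem (wT_mem_KT _ κ _)
  exact hle h

theorem wC_KC (k j : ℕ) (v : Additive (RatFunc K)ˣ) {z : Cx k (j + 1) (RatFunc K)}
    (h : z ∈ KC k j) : wC k (j + 1) v z ∈ KC k (j + 1) := by
  have hle : (KC k j : Submodule ℚ (Cx k (j + 1) (RatFunc K))) ≤
      (KC k (j + 1)).comap (wC k (j + 1) v) := by
    refine Submodule.span_le.2 ?_
    rintro x ⟨κ, z, rfl⟩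
    change wC k (j + 1) v (wC k j (rU κ) z) ∈ KC k (j + 1)
    rw [wC_wC']
    exact neg_mem (wC_mem_KC _ _ κ _)
  exact hle h

/-- Euler's formula modulo constants -/
theorem euler_T [IsAlgClosed K] (j : ℕ) (g : Tx (j + 1) (RatFunc K)) :
    ∃ S0 : Finset K, ∀ S : Finset K, S0 ⊆ S →
      (∑ a ∈ S, wT j (ee a) (ctT j (va a) g)) - ((j + 1 : ℕ) : ℚ) • g ∈ KT j := by
  induction j with
  | zero =>
    refine Tx_ind (fun g => ∃ S0 : Finset K, ∀ S : Finset K, S0 ⊆ S →
      (∑ a ∈ S, wT 0 (ee a) (ctT 0 (va a) g)) - ((0 + 1 : ℕ) : ℚ) • g ∈ KT 0) ?_ ?_ ?_ g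
    · refine ⟨∅, fun S _ => ?_⟩
      simp only [map_zero, Finset.sum_const_zero, smul_zero, sub_zero]
      exact zero_mem _
    · rintro a b ⟨S1, h1⟩ ⟨S2, h2⟩
      refine ⟨S1 ∪ S2, fun S hS => ?_⟩
      have e := add_mem (h1 S (Finset.union_subset_left hS)) (h2 S (Finset.union_subset_right hS))
      have h : (∑ c ∈ S, wT 0 (ee c) (ctT 0 (va c) (a + b))) - ((0 + 1 : ℕ) : ℚ) • (a + b) =
          ((∑ c ∈ S, wT 0 (ee c) (ctT 0 (va c) a)) - ((0 + 1 : ℕ) : ℚ) • a) +
          ((∑ c ∈ S, wT 0 (ee c) (ctT 0 (va c) b)) - ((0 + 1 : ℕ) : ℚ) • b) := by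
        simp only [map_add, Finset.sum_add_distrib, smul_add]
        abel
      rw [h]
      exact e
    · intro v ω
      obtain ⟨S0, h0⟩ := wT_exp 0 v
      refine ⟨S0, fun S hS => ?_⟩
      have e := neg_mem (h0 S hS ω)
      have h : (∑ c ∈ S, wT 0 (ee c) (ctT 0 (va c) (wT 0 v ω))) -
          ((0 + 1 : ℕ) : ℚ) • (wT 0 v ω) =
          -(wT 0 v ω - ∑ a ∈ S, va a v • wT 0 (ee a) ω) := by
        have h1 : ∑ c ∈ S, wT 0 (ee c) (ctT 0 (va c) (wT 0 v ω)) =
            ∑ a ∈ S, va a v • wT 0 (ee a) ω := by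
          refine Finset.sum_congr rfl fun a _ => ?_
          rw [ctT_wT_zero, map_smul]
        have h2 : ((0 + 1 : ℕ) : ℚ) = 1 := by norm_num
        rw [h1, h2, one_smul, neg_sub]
      rw [h]
      exact e
  | succ j ih =>
    refine Tx_ind (fun g => ∃ S0 : Finset K, ∀ S : Finset K, S0 ⊆ S →
      (∑ a ∈ S, wT (j + 1) (ee a) (ctT (j + 1) (va a) g)) - ((j + 1 + 1 : ℕ) : ℚ) • g
        ∈ KT (j + 1)) ?_ ?_ ?_ g
    · refine ⟨∅, fun S _ => ?_⟩
      simp only [map_zero, Finset.sum_const_zero, smul_zero, sub_zero]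
      exact zero_mem _
    · rintro a b ⟨S1, h1⟩ ⟨S2, h2⟩
      refine ⟨S1 ∪ S2, fun S hS => ?_⟩
      have e := add_mem (h1 S (Finset.union_subset_left hS)) (h2 S (Finset.union_subset_right hS))
      have h : (∑ c ∈ S, wT (j + 1) (ee c) (ctT (j + 1) (va c) (a + b))) -
          ((j + 1 + 1 : ℕ) : ℚ) • (a + b) =
          ((∑ c ∈ S, wT (j + 1) (ee c) (ctT (j + 1) (va c) a)) - ((j + 1 + 1 : ℕ) : ℚ) • a) +
          ((∑ c ∈ S, wT (j + 1) (ee c) (ctT (j + 1) (va c) b)) - ((j + 1 + 1 : ℕ) : ℚ) • b) := by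
        simp only [map_add, Finset.sum_add_distrib, smul_add]
        abel
      rw [h]
      exact e
    · intro v ω
      obtain ⟨S0, h0⟩ := wT_exp (j + 1) v
      obtain ⟨S1, h1⟩ := ih ω
      refine ⟨S0 ∪ S1, fun S hS => ?_⟩
      have e0 := neg_mem (h0 S (Finset.union_subset_left hS) ω)
      have e1 := wT_KT j v (h1 S (Finset.union_subset_right hS))
      have h : (∑ c ∈ S, wT (j + 1) (ee c) (ctT (j + 1) (va c) (wT (j + 1) v ω))) -
          ((j + 1 + 1 : ℕ) : ℚ) • (wT (j + 1) v ω) =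
          -(wT (j + 1) v ω - ∑ a ∈ S, va a v • wT (j + 1) (ee a) ω) +
          wT (j + 1) v ((∑ a ∈ S, wT j (ee a) (ctT j (va a) ω)) - ((j + 1 : ℕ) : ℚ) • ω) := by
        have h2 : ∑ c ∈ S, wT (j + 1) (ee c) (ctT (j + 1) (va c) (wT (j + 1) v ω)) =
            ∑ a ∈ S, va a v • wT (j + 1) (ee a) ω +
              wT (j + 1) v (∑ a ∈ S, wT j (ee a) (ctT j (va a) ω)) := by
          rw [map_sum, ← Finset.sum_add_distrib]
          refine Finset.sum_congr rfl fun a _ => ?_
          rw [ctT_wT, map_sub, map_smul, wT_wT j (ee a) v, sub_neg_eq_add]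
        rw [h2, map_sub, map_smul]
        push_cast
        simp only [add_smul, one_smul]
        abel
      rw [h]
      exact add_mem e0 e1

theorem euler_C [IsAlgClosed K] (k j : ℕ) (z : Cx k (j + 1) (RatFunc K)) :
    ∃ S0 : Finset K, ∀ S : Finset K, S0 ⊆ S →
      (∑ a ∈ S, wC k j (ee a) (ct k j (va a) z)) - ((j + 1 : ℕ) : ℚ) • z ∈ KC k j := by
  refine Cx_ind (fun z => ∃ S0 : Finset K, ∀ S : Finset K, S0 ⊆ S →
      (∑ a ∈ S, wC k j (ee a) (ct k j (va a) z)) - ((j + 1 : ℕ) : ℚ) • z ∈ KC k j) ?_ ?_ ?_ z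
  · refine ⟨∅, fun S _ => ?_⟩
    simp only [map_zero, Finset.sum_const_zero, smul_zero, sub_zero]
    exact zero_mem _
  · rintro a b ⟨S1, h1⟩ ⟨S2, h2⟩
    refine ⟨S1 ∪ S2, fun S hS => ?_⟩
    have e := add_mem (h1 S (Finset.union_subset_left hS)) (h2 S (Finset.union_subset_right hS))
    have h : (∑ c ∈ S, wC k j (ee c) (ct k j (va c) (a + b))) -
        ((j + 1 : ℕ) : ℚ) • (a + b) =
        ((∑ c ∈ S, wC k j (ee c) (ct k j (va c) a)) - ((j + 1 : ℕ) : ℚ) • a) +
        ((∑ c ∈ S, wC k j (ee c) (ct k j (va c) b)) - ((j + 1 : ℕ) : ℚ) • b) := by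
      simp only [map_add, Finset.sum_add_distrib, smul_add]
      abel
    rw [h]
    exact e
  · intro x ω
    obtain ⟨S0, h0⟩ := euler_T j ω
    refine ⟨S0, fun S hS => ?_⟩
    have e := PB_KT k j (cl k x) (h0 S hS)
    have h : (∑ c ∈ S, wC k j (ee c) (ct k j (va c) (PB k (j + 1) (cl k x) ω))) -
        ((j + 1 : ℕ) : ℚ) • (PB k (j + 1) (cl k x) ω) =
        PB k (j + 1) (cl k x) ((∑ a ∈ S, wT j (ee a) (ctT j (va a) ω)) -
          ((j + 1 : ℕ) : ℚ) • ω) := by
      rw [map_sub, map_smul, map_sum]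
      congr 1
      refine Finset.sum_congr rfl fun a _ => ?_
      rw [ct_PB, wC_PB]
    rw [h]
    exact e

theorem FilT_le_KT [IsAlgClosed K] (j : ℕ) :
    (FilT (j + 1) (j + 1) : Submodule ℚ (Tx (j + 1) (RatFunc K))) ≤ KT j := by
  induction j with
  | zero =>
    intro g hg
    rw [mem_FilT] at hg
    obtain ⟨S0, h0⟩ := euler_T 0 g
    have e := h0 S0 (Finset.Subset.refl _)
    have h : ∑ a ∈ S0, wT 0 (ee a) (ctT 0 (va a) g) = 0 := by
      refine Finset.sum_eq_zero fun a _ => ?_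
      have h1 := hg a
      rw [FilT_zero, Submodule.mem_bot] at h1
      rw [h1, map_zero]
    rw [h, zero_sub] at e
    have e2 := neg_mem e
    rw [neg_neg] at e2
    exact (Submodule.smul_mem_iff _ (by norm_num)).1 e2
  | succ j ih =>
    intro g hg
    rw [mem_FilT] at hg
    obtain ⟨S0, h0⟩ := euler_T (j + 1) g
    have e := h0 S0 (Finset.Subset.refl _)
    have h : ∑ a ∈ S0, wT (j + 1) (ee a) (ctT (j + 1) (va a) g) ∈ KT (j + 1) := by
      refine Submodule.sum_mem _ fun a _ => ?_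
      exact wT_KT j (ee a) (ih (hg a))
    have e2 := sub_mem h e
    rw [sub_sub_cancel] at e2
    refine (Submodule.smul_mem_iff _ ?_).1 e2
    exact_mod_cast Nat.succ_ne_zero (j + 1)

theorem Fil_le_KC [IsAlgClosed K] (k j : ℕ) :
    (Fil k (j + 1) (j + 1) : Submodule ℚ (Cx k (j + 1) (RatFunc K))) ≤ KC k j := by
  induction j with
  | zero =>
    intro g hg
    rw [mem_Fil] at hg
    obtain ⟨S0, h0⟩ := euler_C k 0 g
    have e := h0 S0 (Finset.Subset.refl _)
    have h : ∑ a ∈ S0, wC k 0 (ee a) (ct k 0 (va a) g) = 0 := by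
      refine Finset.sum_eq_zero fun a _ => ?_
      have h1 := hg a
      rw [Fil_zero, Submodule.mem_bot] at h1
      rw [h1, map_zero]
    rw [h, zero_sub] at e
    have e2 := neg_mem e
    rw [neg_neg] at e2
    exact (Submodule.smul_mem_iff _ (by norm_num)).1 e2
  | succ j ih =>
    intro g hg
    rw [mem_Fil] at hg
    obtain ⟨S0, h0⟩ := euler_C k (j + 1) g
    have e := h0 S0 (Finset.Subset.refl _)
    have h : ∑ a ∈ S0, wC k (j + 1) (ee a) (ct k (j + 1) (va a) g) ∈ KC k (j + 1) := by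
      refine Submodule.sum_mem _ fun a _ => ?_
      exact wC_KC k j (ee a) (ih (hg a))
    have e2 := sub_mem h e
    rw [sub_sub_cancel] at e2
    refine (Submodule.smul_mem_iff _ ?_).1 e2
    exact_mod_cast Nat.succ_ne_zero (j + 1)

end

end Helper42.LT
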