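import Pool.Agent.Helper42.LT.Psi
import Pool.Agent.Helper42.LT.EulT
import Pool.Agent.Helper14.W4.N3

set_option autoImplicit false

/-!
# LT-B2: elements of B_2 tensor Lambda^{j+1} whose differential involves a constant

PLAN (about 1.2 h).  F = RatFunc K, D = K ->_0 Q, V = Additive F^x, S := range (dC 0 j) + KC 2 j +
NC 0 (j+1) (submodule of Cx 2 (j+1) F), Qu := Cx 2 (j+1) F / S, q = S.mkQ.
 (1) L2 : Cx 2 0 F ->L (K x K -> Q), L2 b (c, d) = e0 (ll 0 (va c) (va d) b)  (LinearMap.pi).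
     ker L2 <= range (rC 0 0): E2 (Helper14/W4/H4.lean) with e0_inj.
     L2 (PB 2 0 (cl 2 x) (u0 _)) = ar2 (dv (l1P x)) (dv (lgP x)), where
     ar2 r s (c, d) = r c * s d - s c * r d  (ll_PB, e0_dm, va_lg; co / dv by definition).
 (2) sigma : (K x K -> Q) ->L Cx 2 0 F with L2 (sigma (L2 b)) = L2 b for all b:
     LinearMap.exists_rightInverse_of_surjective for L2.rangeRestrict, then
     LinearMap.exists_extend.  So b - sigma (L2 b) in range (rC 0 0).
 (3) For omega in Tx j F: ew omega : D ->L Tx (j+1) F, single a c |-> c . wT j (ee a) omega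
     (Finsupp.lsum or Finsupp.linearCombination); by wT_exp: ew omega (dv v) - wT j v omega in KT j.
     T : V3 K Qu, T p r s = q (tn 2 (j+1) (ew omega p) (sigma (ar2 r s))).
     T p r r = 0.  T (dv (lg f)) (dv (lg (1-f))) (dv (lg f)) = 0: sigma (ar2 ..) = sigma (L2 {f}) =
     {f} + constant (=> NC), tn of KT is in KC, so T .. = q (PB 2 (j+1) (cl 2 f) (wT j (lg f) omega))
     = q (dC 0 j (PB 3 j (cl 3 f) omega)) = 0  (dC_PB).
     tri_alt (Helper14/W4/N3.lean): T p r s = - T s r p.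
 (4) b : V ->+ V ->+ (Tx (j+1) F ->L Qu), b u v omega' = q (tn 2 (j+1) omega' (sigma (ar2 (dv u) (dv v)))).
     h1: ar2 r r = 0.  h2: b u v (wT j w omega) = T (dv w) (dv u) (dv v) = - T (dv v) (dv u) (dv w)
     = - b u w (wT j v omega)  (use T p r s = - T p s r as well if needed, from the ar2 antisymmetry).
     exists_psiQ (Psi.lean) gives psi : Tx (j+3) F ->L Qu.
 (5) psi (dT (j+1) z) = q z for all z: Cx_ind, dT_PB: psi (wT (l1P x) (wT (lgP x) omega)) =
     b (l1P x) (lgP x) omega = q (tn omega (sigma (L2 {x}))) = q (PB 2 (j+1) (cl 2 x) omega) (mod NC).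
 (6) psi kills KT (j+2): by Tx_ind the elements are wT (rU kappa) (wT v omega) (Tx_ind on the second
     factor), b (rU kappa) v = 0 since dv (rU kappa) = 0 (dv_rU).
 (7) hz and FilT_le_KT (EulT.lean): dT z in KT (j+2), so q z = 0.
-/

noncomputable section

open Polynomial TensorProduct
open scoped Classical

namespace Helper42.LT

open Helper14.Gon Helper14.W4

universe u v w

section
variable {K : Type u} [Field K]

/-- the array of double Lie derivatives -/
private def L2 : Cx 2 0 (RatFunc K) →ₗ[ℚ] (K × K → ℚ) :=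
  LinearMap.pi fun t => (e0 (RatFunc K)) ∘ₗ (ll 0 (va t.1) (va t.2))

private lemma L2_apply (b : Cx 2 0 (RatFunc K)) (t : K × K) :
    L2 b t = e0 (RatFunc K) (ll 0 (va t.1) (va t.2) b) := rfl

private lemma L2_ker [IsAlgClosed K] (b : Cx 2 0 (RatFunc K)) (h : L2 b = 0) :
    ∃ y : Cx 2 0 K, b = rC 0 0 y := by
  refine ⟨sC 0 0 0 b, (E2 0 b fun a c => ?_).symm⟩
  have h1 : e0 (RatFunc K) (ll 0 (va a) (va c) b) = 0 := by
    have := congrFun h (a, c)
    exact this
  have h2 := e0_inj (ll 0 (va a) (va c) b)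
  rw [h1, zero_smul] at h2
  exact h2.symm

/-- the array of `r ∧ s` -/
private def ar2 (r s : K →₀ ℚ) : K × K → ℚ := fun t => r t.1 * s t.2 - s t.1 * r t.2

private lemma ar2_self (r : K →₀ ℚ) : ar2 r r = 0 := by
  funext t
  simp only [ar2, Pi.zero_apply]
  ring

private lemma ar2_zero (s : K →₀ ℚ) : ar2 (0 : K →₀ ℚ) s = 0 := by
  funext t
  simp [ar2]

private lemma ar2_add_left (r r' s : K →₀ ℚ) : ar2 (r + r') s = ar2 r s + ar2 r' s := by
  funext t
  simp only [ar2, Pi.add_apply, Finsupp.add_apply]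
  ring

private lemma ar2_add_right (r s s' : K →₀ ℚ) : ar2 r (s + s') = ar2 r s + ar2 r s' := by
  funext t
  simp only [ar2, Pi.add_apply, Finsupp.add_apply]
  ring

private lemma ar2_smul_left (c : ℚ) (r s : K →₀ ℚ) : ar2 (c • r) s = c • ar2 r s := by
  funext t
  simp only [ar2, Pi.smul_apply, Finsupp.smul_apply, smul_eq_mul]
  ring

private lemma ar2_smul_right (c : ℚ) (r s : K →₀ ℚ) : ar2 r (c • s) = c • ar2 r s := by
  funext t
  simp only [ar2, Pi.smul_apply, Finsupp.smul_apply, smul_eq_mul]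
  ring

private lemma L2_PB (x : P1 (RatFunc K)) :
    L2 (PB 2 0 (cl 2 x) (u0 (RatFunc K))) = ar2 (dv (l1P x)) (dv (lgP x)) := by
  funext t
  rw [L2_apply, ll_PB, map_smul, u0, e0_dm, smul_eq_mul, mul_one]
  rfl

/-- a section of `L2` on its image -/
private lemma exists_sig : ∃ σ : (K × K → ℚ) →ₗ[ℚ] Cx 2 0 (RatFunc K),
    ∀ b : Cx 2 0 (RatFunc K), L2 (σ (L2 b)) = L2 b := by
  obtain ⟨g, hg⟩ := LinearMap.exists_rightInverse_of_surjective
    (L2 (K := K)).rangeRestrict (LinearMap.range_rangeRestrict _)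
  obtain ⟨σ, hσ⟩ := LinearMap.exists_extend g
  refine ⟨σ, fun b => ?_⟩
  have h1 : σ (L2 b) = g ((L2 (K := K)).rangeRestrict b) := by
    rw [← hσ]; rfl
  have h2 := LinearMap.congr_fun hg ((L2 (K := K)).rangeRestrict b)
  have h3 := congrArg Subtype.val h2
  rw [h1]
  exact h3

/-- the linear map `single a c ↦ c • (ee a ∧ ω)` -/
private def ew (j : ℕ) (ω : Tx j (RatFunc K)) : (K →₀ ℚ) →ₗ[ℚ] Tx (j + 1) (RatFunc K) :=
  Finsupp.linearCombination ℚ (fun a : K => wT j (ee a) ω)

private lemma ew_dv [IsAlgClosed K] (j : ℕ) (ω : Tx j (RatFunc K)) (v : Additive (RatFunc K)ˣ) :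
    ew j ω (dv v) - wT j v ω ∈ KT j := by
  obtain ⟨S0, hS0⟩ := wT_exp j v
  have h1 := hS0 (S0 ∪ (dv v).support) Finset.subset_union_left ω
  have h2 : ew j ω (dv v) = ∑ a ∈ S0 ∪ (dv v).support, va a v • wT j (ee a) ω := by
    rw [ew, Finsupp.linearCombination_apply]
    refine Finset.sum_subset Finset.subset_union_right fun a _ ha => ?_
    rw [Finsupp.notMem_support_iff.1 ha]
    exact zero_smul ℚ (wT j (ee a) ω)
  rw [← h2] at h1
  have h3 := neg_mem h1
  rwa [neg_sub] at h3

private lemma PB_KT (j : ℕ) (b : B 2 (RatFunc K)) {ω : Tx (j + 1) (RatFunc K)} (h : ω ∈ KT j) :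
    PB 2 (j + 1) b ω ∈ KC 2 j := by
  induction h using Submodule.span_induction with
  | zero => rw [map_zero]; exact zero_mem _
  | add x y _ _ hx hy => rw [map_add]; exact add_mem hx hy
  | smul c x _ hx => rw [map_smul]; exact Submodule.smul_mem _ _ hx
  | mem x hx =>
    obtain ⟨κ, z, rfl⟩ := hx
    have h1 : wC 2 j (rU κ) (PB 2 j b z) = PB 2 (j + 1) b (wT j (rU κ) z) := mapT_PB 2 _ b z
    rw [← h1]
    exact wC_mem_KC 2 j κ _

private lemma tn_KT (j : ℕ) {ω : Tx (j + 1) (RatFunc K)} (h : ω ∈ KT j)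
    (z : Cx 2 0 (RatFunc K)) : tn 2 (j + 1) ω z ∈ KC 2 j := by
  refine Cx_ind (fun z => tn 2 (j + 1) ω z ∈ KC 2 j) (by rw [map_zero]; exact zero_mem _)
    (fun a b ha hb => by rw [map_add]; exact add_mem ha hb) (fun x υ => ?_) z
  rw [tn_PB']
  exact Submodule.smul_mem _ _ (PB_KT j _ h)

/-- An element of `B_2 ⊗ Λ^{j+1}` whose differential involves a constant is a coboundary up to
elements with a constant factor. -/
theorem starB [IsAlgClosed K] (j : ℕ) (z : Cx 2 (j + 1) (RatFunc K))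
    (hz : dT (j + 1) z ∈ FilT (j + 3) (j + 3)) :
    z ∈ LinearMap.range (dC 0 j : Cx 3 j (RatFunc K) →ₗ[ℚ] _) ⊔ KC 2 j ⊔ NC 0 (j + 1) := by
  set S : Submodule ℚ (Cx 2 (j + 1) (RatFunc K)) :=
    LinearMap.range (dC 0 j : Cx 3 j (RatFunc K) →ₗ[ℚ] _) ⊔ KC 2 j ⊔ NC 0 (j + 1) with hS
  have hSd : ∀ y : Cx 3 j (RatFunc K), dC 0 j y ∈ S := fun y =>
    Submodule.mem_sup_left (Submodule.mem_sup_left ⟨y, rfl⟩)
  have hSK : ∀ y ∈ KC 2 j, (y : Cx 2 (j + 1) (RatFunc K)) ∈ S := fun y hy =>
    Submodule.mem_sup_left (Submodule.mem_sup_right hy)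
  have hSN : ∀ y ∈ NC 0 (j + 1), (y : Cx 2 (j + 1) (RatFunc K)) ∈ S := fun y hy =>
    Submodule.mem_sup_right hy
  obtain ⟨σ, hσ⟩ := exists_sig (K := K)
  -- the quotient map
  set q : Cx 2 (j + 1) (RatFunc K) →ₗ[ℚ] (Cx 2 (j + 1) (RatFunc K) ⧸ S) := S.mkQ with hq
  have q0 : ∀ y : Cx 2 (j + 1) (RatFunc K), y ∈ S → q y = 0 := fun y hy => by
    rw [hq, Submodule.mkQ_apply, Submodule.Quotient.mk_eq_zero]
    exact hy
  have qeq : ∀ y y' : Cx 2 (j + 1) (RatFunc K), y - y' ∈ S → q y = q y' := fun y y' h => by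
    rw [← sub_eq_zero, ← map_sub]
    exact q0 _ h
  -- sigma of the array of `{x}`
  have hx : ∀ (x : P1 (RatFunc K)) (ω : Tx (j + 1) (RatFunc K)),
      q (tn 2 (j + 1) ω (σ (ar2 (dv (l1P x)) (dv (lgP x))))) = q (PB 2 (j + 1) (cl 2 x) ω) := by
    intro x ω
    rw [← L2_PB, ← tn_PB 2 (j + 1) ω (cl 2 x)]
    refine qeq _ _ ?_
    rw [← map_sub]
    obtain ⟨y, hy⟩ := L2_ker (σ (L2 (PB 2 0 (cl 2 x) (u0 (RatFunc K)))) -
      PB 2 0 (cl 2 x) (u0 (RatFunc K))) (by rw [map_sub, hσ, sub_self])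
    rw [hy]
    exact hSN _ (tn_mem_NC 0 (j + 1) y ω)
  -- the trilinear form
  have hT : ∀ ω : Tx j (RatFunc K), ∃ T : V3 K (Cx 2 (j + 1) (RatFunc K) ⧸ S),
      ∀ p r s, T p r s = q (tn 2 (j + 1) (ew j ω p) (σ (ar2 r s))) := by
    intro ω
    refine ⟨{ toFun := fun p =>
                { toFun := fun r =>
                    { toFun := fun s => q (tn 2 (j + 1) (ew j ω p) (σ (ar2 r s)))
                      map_add' := fun s s' => by rw [ar2_add_right, map_add, map_add, map_add]
                      map_smul' := fun c s => by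
                        rw [ar2_smul_right, map_smul, map_smul, map_smul, RingHom.id_apply] }
                  map_add' := fun r r' => LinearMap.ext fun s => by
                    change q (tn 2 (j + 1) (ew j ω p) (σ (ar2 (r + r') s))) =
                      q (tn 2 (j + 1) (ew j ω p) (σ (ar2 r s))) +
                      q (tn 2 (j + 1) (ew j ω p) (σ (ar2 r' s)))
                    rw [ar2_add_left, map_add, map_add, map_add]
                  map_smul' := fun c r => LinearMap.ext fun s => by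
                    change q (tn 2 (j + 1) (ew j ω p) (σ (ar2 (c • r) s))) =
                      c • q (tn 2 (j + 1) (ew j ω p) (σ (ar2 r s)))
                    rw [ar2_smul_left, map_smul, map_smul, map_smul] }
              map_add' := fun p p' => LinearMap.ext fun r => LinearMap.ext fun s => by
                change q (tn 2 (j + 1) (ew j ω (p + p')) (σ (ar2 r s))) =
                  q (tn 2 (j + 1) (ew j ω p) (σ (ar2 r s))) +
                  q (tn 2 (j + 1) (ew j ω p') (σ (ar2 r s)))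
                rw [map_add, tn_add, map_add]
              map_smul' := fun c p => LinearMap.ext fun r => LinearMap.ext fun s => by
                change q (tn 2 (j + 1) (ew j ω (c • p)) (σ (ar2 r s))) =
                  c • q (tn 2 (j + 1) (ew j ω p) (σ (ar2 r s)))
                rw [map_smul, tn_smul, map_smul] }, fun p r s => rfl⟩
  -- the swap
  have hsw : ∀ (u v w : Additive (RatFunc K)ˣ) (ω : Tx j (RatFunc K)),
      q (tn 2 (j + 1) (wT j w ω) (σ (ar2 (dv u) (dv v)))) =
        - q (tn 2 (j + 1) (wT j v ω) (σ (ar2 (dv u) (dv w)))) := by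
    intro u v w ω
    obtain ⟨T, hTT⟩ := hT ω
    have e1 : ∀ a b c : Additive (RatFunc K)ˣ, T (dv a) (dv b) (dv c) =
        q (tn 2 (j + 1) (wT j a ω) (σ (ar2 (dv b) (dv c)))) := by
      intro a b c
      rw [hTT]
      refine qeq _ _ (hSK _ ?_)
      have h1 : tn 2 (j + 1) (ew j ω (dv a)) (σ (ar2 (dv b) (dv c))) =
          tn 2 (j + 1) (ew j ω (dv a) - wT j a ω) (σ (ar2 (dv b) (dv c))) +
          tn 2 (j + 1) (wT j a ω) (σ (ar2 (dv b) (dv c))) := by
        rw [← tn_add, sub_add_cancel]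
      rw [h1, add_sub_cancel_right]
      exact tn_KT j (ew_dv j ω a) _
    have e2 : ∀ p r, T p r r = 0 := by
      intro p r
      rw [hTT, ar2_self, map_zero, map_zero, map_zero]
    have e3 : ∀ f : RatFunc K, f ≠ 0 → 1 - f ≠ 0 →
        T (dv (lg f)) (dv (lg (1 - f))) (dv (lg f)) = 0 := by
      intro f _ _
      rw [e1]
      have h1 := hx (some f) (wT j (lg f) ω)
      change q (tn 2 (j + 1) (wT j (lg f) ω) (σ (ar2 (dv (lg (1 - f))) (dv (lg f))))) = _ at h1
      rw [h1]
      have h2 := dC_PB 0 j (some f) ω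
      have h3 : dC 0 j (PB 3 j (cl 3 (some f)) ω) =
          PB 2 (j + 1) (cl 2 (some f)) (wT j (lg f) ω) := h2
      rw [← h3]
      exact q0 _ (hSd _)
    have h := tri_alt e2 e3 (dv w) (dv u) (dv v)
    rw [e1, e1] at h
    exact h
  -- the form on the exterior power
  obtain ⟨ψ, hψ⟩ := exists_psiQ (F := RatFunc K) (Q := Cx 2 (j + 1) (RatFunc K) ⧸ S) j
    { toFun := fun u =>
        { toFun := fun v =>
            { toFun := fun ω => q (tn 2 (j + 1) ω (σ (ar2 (dv u) (dv v))))
              map_add' := fun ω υ => by rw [tn_add, map_add]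
              map_smul' := fun c ω => by rw [tn_smul, map_smul, RingHom.id_apply] }
          map_zero' := LinearMap.ext fun ω => by
            change q (tn 2 (j + 1) ω (σ (ar2 (dv u) (dv 0)))) = 0
            have h0 : ar2 (dv u) (dv (0 : Additive (RatFunc K)ˣ)) = 0 := by
              funext t
              simp [ar2]
            rw [h0, map_zero, map_zero, map_zero]
          map_add' := fun v v' => LinearMap.ext fun ω => by
            change q (tn 2 (j + 1) ω (σ (ar2 (dv u) (dv (v + v'))))) =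
              q (tn 2 (j + 1) ω (σ (ar2 (dv u) (dv v)))) +
              q (tn 2 (j + 1) ω (σ (ar2 (dv u) (dv v'))))
            rw [map_add dv, ar2_add_right, map_add, map_add, map_add] }
      map_zero' := DFunLike.ext _ _ fun v => LinearMap.ext fun ω => by
        change q (tn 2 (j + 1) ω (σ (ar2 (dv 0) (dv v)))) = 0
        rw [map_zero dv, ar2_zero, map_zero, map_zero, map_zero]
      map_add' := fun u u' => DFunLike.ext _ _ fun v => LinearMap.ext fun ω => by
        change q (tn 2 (j + 1) ω (σ (ar2 (dv (u + u')) (dv v)))) =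
          q (tn 2 (j + 1) ω (σ (ar2 (dv u) (dv v)))) +
          q (tn 2 (j + 1) ω (σ (ar2 (dv u') (dv v))))
        rw [map_add dv, ar2_add_left, map_add, map_add, map_add] }
    (fun u ω => by
      change q (tn 2 (j + 1) ω (σ (ar2 (dv u) (dv u)))) = 0
      rw [ar2_self, map_zero, map_zero, map_zero])
    (fun u v w ω => hsw u v w ω)
  have hψ' : ∀ (u v : Additive (RatFunc K)ˣ) (ω : Tx (j + 1) (RatFunc K)),
      ψ (wT (j + 2) u (wT (j + 1) v ω)) = q (tn 2 (j + 1) ω (σ (ar2 (dv u) (dv v)))) := hψ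
  have h5 : ∀ y : Cx 2 (j + 1) (RatFunc K), ψ (dT (j + 1) y) = q y := by
    intro y
    refine Cx_ind (fun y => ψ (dT (j + 1) y) = q y) (by simp only [map_zero])
      (fun a b ha hb => by simp only [map_add, ha, hb]) (fun x ω => ?_) y
    rw [dT_PB, hψ', hx]
  have h6 : ∀ y ∈ (KT (j + 2) : Submodule ℚ (Tx (j + 3) (RatFunc K))), ψ y = 0 := by
    intro y hy
    induction hy using Submodule.span_induction with
    | zero => exact map_zero _
    | add a b _ _ ha hb => rw [map_add, ha, hb, add_zero]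
    | smul c a _ ha => rw [map_smul, ha, smul_zero]
    | mem x hx =>
      obtain ⟨κ, z, rfl⟩ := hx
      refine Tx_ind (fun z => ψ (wT (j + 2) (rU κ) z) = 0) (by simp only [map_zero])
        (fun a b ha hb => by simp only [map_add, ha, hb, add_zero]) (fun v ω => ?_) z
      rw [hψ', dv_rU, ar2_zero, map_zero, map_zero, map_zero]
  have h7 := h6 _ (FilT_le_KT (j + 2) hz)
  rw [h5, hq, Submodule.mkQ_apply, Submodule.Quotient.mk_eq_zero] at h7
  exact h7

end

end Helper42.LT
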