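import Pool.Agent.Helper42.LT.Defs

set_option autoImplicit false

/-!
# LT-EulR: elements of degree at most s in the divisors

PLAN (about 1 h).  e'_a = ee a - rU (lcU 0 (ee a)), so lcU 0 e'_a = 0 (lcU_rU) and
va b e'_a = [a = b] (va_ee, va_rU_apply).
 (1) For v in V = Additive (RatFunc K)^x: v = rU (lcU 0 v) + sum_a (va a v) e'_a in V tensor Q
     (hom_ext_gen in Helper14/W4/H4: check on constants and on ee a), so with the basis bv_i of
     WQ K = Q tensor K^x (Helper14/W4/H2: DB K, bv, co (DB K) i):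
       toQ v = sum_i co (DB K) i (lcU 0 v) . R(bv_i) + sum_a va a v . toQ e'_a   in WQ (RatFunc K),
     R = baseChange of rU.
 (2) Euler: for omega in Tx (j+1) and all large finite I, S:
       sum_(i in I) wW j (R bv_i) (ctT j ((co (DB K) i).comp (lcU 0)) omega)
         + sum_(a in S) wT j e'_a (ctT j (va a) omega) = (j+1) omega.
     Proof: same as the proof of euler in Helper14/W4/H2.lean (induction on j with Tx_ind, ctT_wT,
     wT_wT / wW_wT), using (1) instead of wT_DB.
     Transport to Cx m (j+1) with Cx_ind / PB (mapT).  Since R bv_i is a combination of toQ (rU kappa),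
     the first sum is in Sp z := span {wC m j (rU kappa) (ct m j (chi.comp (lcU 0)) z)}.
 (3) N_D: for z in Fil m (j+1) (s+1) and all large S:
       (sum_(a in S) wC m j e'_a (ct m j (va a) z)) - s . z in Fil m (j+1) s.
     Induction on s (j general), s = 0: mem_Fil_one, the sum is 0.  s+1: by mem_Fil apply
     ct m j (va b): for j = 0 (z in Cx m 1) use ct_wC_zero: the result is ct_b z - (s+1) ct_b z, which
     is in Fil m 0 s (top for s >= 1; for s = 0 it is 0); for j >= 1 use ct_wC and ct_ct: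
       ct_b (sum_a wC e'_a (ct_a z)) = ct_b z + sum_a wC e'_a (ct_a (ct_b z))   (b in S; if b is not
     in S enlarge: ct_b z = 0 for b outside a finite set, ct_finite), induction for ct_b z.
     The finite sets for ct_b z: only finitely many b matter (ct_finite), take the union.
 (4) (j + 1 - s) z in Fil m (j+1) s + Sp z, and j + 1 - s > 0.
-/

noncomputable section

open Polynomial TensorProduct
open scoped Classical

namespace Helper42.LT

open Helper14.Gon Helper14.W4

universe u v w

section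
variable {K : Type u} [Field K]

/-- normalised linear functions -/
private def en (a : K) : Additive (RatFunc K)ˣ := ee a - rU (lcU 0 (ee a))

private lemma va_en (a b : K) : va b (en a) = if a = b then 1 else 0 := by
  rw [en, map_sub, va_ee, va_rU_apply, sub_zero]

/-- the extension of the inclusion of constants -/
private def RQ : WQ K →ₗ[ℚ] WQ (RatFunc K) :=
  LinearMap.baseChange ℚ (rU : Additive Kˣ →+ Additive (RatFunc K)ˣ).toIntLinearMap

private lemma RQ_toQ (κ : Additive Kˣ) : RQ (toQ κ : WQ K) = (toQ (rU κ) : WQ (RatFunc K)) := by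
  rw [RQ, toQ, LinearMap.baseChange_tmul]
  rfl

private lemma dec1 [IsAlgClosed K] (v : Additive (RatFunc K)ˣ) :
    Finsupp.linearCombination ℚ (fun a : K => (toQ (en a) : WQ (RatFunc K))) (dv v) =
      (toQ (v - rU (lcU 0 v)) : WQ (RatFunc K)) := by
  let f : Additive (RatFunc K)ˣ →+ WQ (RatFunc K) :=
    (Finsupp.linearCombination ℚ
      (fun a : K => (toQ (en a) : WQ (RatFunc K)))).toAddMonoidHom.comp dv
  let g : Additive (RatFunc K)ˣ →+ WQ (RatFunc K) :=
    ((TensorProduct.mk ℤ ℚ (Additive (RatFunc K)ˣ) 1).toAddMonoidHom).comp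
      (AddMonoidHom.id _ - rU.comp (lcU (0 : K)))
  have h : f = g := by
    refine hom_ext_gen (fun κ => ?_) (fun a => ?_)
    · change Finsupp.linearCombination ℚ (fun a : K => (toQ (en a) : WQ (RatFunc K)))
        (dv (lg (RatFunc.C κ))) = toQ (lg (RatFunc.C κ : RatFunc K) -
          rU (lcU 0 (lg (RatFunc.C κ : RatFunc K))))
      have e : rU (lcU 0 (lg (RatFunc.C κ : RatFunc K))) = lg (RatFunc.C κ : RatFunc K) := by
        rw [lcU_lg]
        by_cases hκ : κ = 0
        · subst hκ
          have : lg (RatFunc.C (0 : K) : RatFunc K) = 0 := by rw [map_zero, lg_zero]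
          rw [this]
          simp
        · rw [lc_of_spec (spec_C 0 κ) hκ, rU, resU_lg]
      rw [dv_C, map_zero, e, sub_self, toQ, tmul_zero]
    · change Finsupp.linearCombination ℚ (fun a : K => (toQ (en a) : WQ (RatFunc K)))
        (dv (ee a)) = toQ (en a)
      rw [dv_ee, Finsupp.linearCombination_single, one_smul]
  exact DFunLike.congr_fun h v

/-- the decomposition of `v ∧ ω` -/
private lemma wT_dec [IsAlgClosed K] (j : ℕ) (v : Additive (RatFunc K)ˣ)
    {I : Finset (Module.Basis.ofVectorSpaceIndex ℚ (WQ K))} {S : Finset K}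
    (hI : (DB K (lcU 0 v)).support ⊆ I) (hS : (dv v).support ⊆ S) (ω : Tx j (RatFunc K)) :
    ∑ i ∈ I, co (DB K) i (lcU 0 v) • wW j (RQ (bv i)) ω + ∑ a ∈ S, va a v • wT j (en a) ω =
      wT j v ω := by
  have h1 : (toQ (rU (lcU 0 v)) : WQ (RatFunc K)) =
      ∑ i ∈ I, (DB K (lcU 0 v) i) • RQ (bv i) := by
    rw [← RQ_toQ]
    have h0 : (toQ (lcU 0 v) : WQ K) = ∑ i ∈ I, (DB K (lcU 0 v) i) • bv i := by
      conv_lhs => rw [← (Module.Basis.ofVectorSpace ℚ (WQ K)).linearCombination_repr
        (toQ (lcU 0 v))]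
      rw [Finsupp.linearCombination_apply, Finsupp.sum]
      have hs' : ((Module.Basis.ofVectorSpace ℚ (WQ K)).repr (toQ (lcU 0 v))).support ⊆ I := hI
      rw [Finset.sum_subset hs']
      · rfl
      · intro i _ hi
        have : (Module.Basis.ofVectorSpace ℚ (WQ K)).repr (toQ (lcU 0 v)) i = 0 :=
          Finsupp.notMem_support_iff.1 hi
        rw [this, zero_smul]
    rw [h0, map_sum]
    refine Finset.sum_congr rfl fun i _ => ?_
    rw [map_smul]
  have h2 : (toQ (v - rU (lcU 0 v)) : WQ (RatFunc K)) =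
      ∑ a ∈ S, va a v • (toQ (en a) : WQ (RatFunc K)) := by
    rw [← dec1, Finsupp.linearCombination_apply, Finsupp.sum, Finset.sum_subset hS]
    · rfl
    · intro a _ ha
      rw [Finsupp.notMem_support_iff.1 ha, zero_smul]
  have h3 : (toQ v : WQ (RatFunc K)) = toQ (rU (lcU 0 v)) + toQ (v - rU (lcU 0 v)) := by
    rw [toQ, toQ, toQ, ← tmul_add, add_sub_cancel]
  rw [← wW_toQ j v, h3, h1, h2, map_add, LinearMap.add_apply, map_sum, map_sum,
    LinearMap.sum_apply, LinearMap.sum_apply]
  congr 1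
  · refine Finset.sum_congr rfl fun i _ => ?_
    rw [map_smul, LinearMap.smul_apply]
    rfl
  · refine Finset.sum_congr rfl fun a _ => ?_
    rw [map_smul, LinearMap.smul_apply, wW_toQ]

/-- Euler's formula, separated into constants and linear functions -/
private lemma eulT [IsAlgClosed K] (j : ℕ) (ω : Tx (j + 1) (RatFunc K)) :
    ∃ (I : Finset (Module.Basis.ofVectorSpaceIndex ℚ (WQ K))) (S : Finset K), ∀ I' S',
      I ⊆ I' → S ⊆ S' →
      ∑ i ∈ I', wW j (RQ (bv i)) (ctT j ((co (DB K) i).comp (lcU 0)) ω) +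
        ∑ a ∈ S', wT j (en a) (ctT j (va a) ω) = ((j + 1 : ℕ) : ℚ) • ω := by
  have hadd : ∀ (j : ℕ) (x y : Tx (j + 1) (RatFunc K)),
      (∃ (I : Finset (Module.Basis.ofVectorSpaceIndex ℚ (WQ K))) (S : Finset K), ∀ I' S',
        I ⊆ I' → S ⊆ S' →
        ∑ i ∈ I', wW j (RQ (bv i)) (ctT j ((co (DB K) i).comp (lcU 0)) x) +
          ∑ a ∈ S', wT j (en a) (ctT j (va a) x) = ((j + 1 : ℕ) : ℚ) • x) →
      (∃ (I : Finset (Module.Basis.ofVectorSpaceIndex ℚ (WQ K))) (S : Finset K), ∀ I' S',
        I ⊆ I' → S ⊆ S' →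
        ∑ i ∈ I', wW j (RQ (bv i)) (ctT j ((co (DB K) i).comp (lcU 0)) y) +
          ∑ a ∈ S', wT j (en a) (ctT j (va a) y) = ((j + 1 : ℕ) : ℚ) • y) →
      (∃ (I : Finset (Module.Basis.ofVectorSpaceIndex ℚ (WQ K))) (S : Finset K), ∀ I' S',
        I ⊆ I' → S ⊆ S' →
        ∑ i ∈ I', wW j (RQ (bv i)) (ctT j ((co (DB K) i).comp (lcU 0)) (x + y)) +
          ∑ a ∈ S', wT j (en a) (ctT j (va a) (x + y)) = ((j + 1 : ℕ) : ℚ) • (x + y)) := by
    rintro j x y ⟨I, S, h⟩ ⟨I2, S2, h2⟩
    refine ⟨I ∪ I2, S ∪ S2, fun I' S' hI hS => ?_⟩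
    rw [smul_add, ← h I' S' (Finset.union_subset_left hI) (Finset.union_subset_left hS),
      ← h2 I' S' (Finset.union_subset_right hI) (Finset.union_subset_right hS),
      add_add_add_comm, ← Finset.sum_add_distrib, ← Finset.sum_add_distrib]
    congr 1
    · refine Finset.sum_congr rfl fun i _ => ?_
      rw [map_add, map_add]
    · refine Finset.sum_congr rfl fun i _ => ?_
      rw [map_add, map_add]
  induction j with
  | zero =>
    induction ω using Tx_ind with
    | h0 => exact ⟨∅, ∅, fun I' S' _ _ => by simp⟩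
    | hadd a b ha hb => exact hadd 0 a b ha hb
    | h1 v ω =>
      refine ⟨(DB K (lcU 0 v)).support, (dv v).support, fun I' S' hI hS => ?_⟩
      have e : (((0 + 1 : ℕ)) : ℚ) • wT 0 v ω = wT 0 v ω := by simp
      rw [e]
      refine Eq.trans ?_ (wT_dec 0 v hI hS ω)
      congr 1
      · refine Finset.sum_congr rfl fun i _ => ?_
        rw [ctT_wT_zero, map_smul]
        rfl
      · refine Finset.sum_congr rfl fun i _ => ?_
        rw [ctT_wT_zero, map_smul]
  | succ j ih =>
    induction ω using Tx_ind with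
    | h0 => exact ⟨∅, ∅, fun I' S' _ _ => by simp⟩
    | hadd a b ha hb => exact hadd (j + 1) a b ha hb
    | h1 v ω =>
      obtain ⟨I, S, h⟩ := ih ω
      refine ⟨(DB K (lcU 0 v)).support ∪ I, (dv v).support ∪ S, fun I' S' hI hS => ?_⟩
      have e1 : ∀ i, wW (j + 1) (RQ (bv i))
          (ctT (j + 1) ((co (DB K) i).comp (lcU 0)) (wT (j + 1) v ω)) =
          co (DB K) i (lcU 0 v) • wW (j + 1) (RQ (bv i)) ω +
            wT (j + 1) v (wW j (RQ (bv i)) (ctT j ((co (DB K) i).comp (lcU 0)) ω)) := by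
        intro i
        rw [ctT_wT, map_sub, map_smul, wW_wT, sub_neg_eq_add]
        rfl
      have e2 : ∀ a, wT (j + 1) (en a) (ctT (j + 1) (va a) (wT (j + 1) v ω)) =
          va a v • wT (j + 1) (en a) ω + wT (j + 1) v (wT j (en a) (ctT j (va a) ω)) := by
        intro a
        rw [ctT_wT, map_sub, map_smul, wT_wT, sub_neg_eq_add]
      have e3 := wT_dec (j + 1) v (Finset.union_subset_left hI) (Finset.union_subset_left hS) ω
      have e4 := h I' S' (Finset.union_subset_right hI) (Finset.union_subset_right hS)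
      rw [Finset.sum_congr rfl fun i _ => e1 i, Finset.sum_congr rfl fun a _ => e2 a,
        Finset.sum_add_distrib, Finset.sum_add_distrib, add_add_add_comm, e3, ← map_sum,
        ← map_sum, ← map_add, e4, map_smul]
      push_cast
      module

/-- Euler's formula on `B_m ⊗ Λ^{j+1}` -/
private lemma eulC [IsAlgClosed K] (m j : ℕ) (z : Cx m (j + 1) (RatFunc K)) :
    ∃ (I : Finset (Module.Basis.ofVectorSpaceIndex ℚ (WQ K))) (S : Finset K), ∀ I' S',
      I ⊆ I' → S ⊆ S' →
      ∑ i ∈ I', mapT m (wW j (RQ (bv i))) (ct m j ((co (DB K) i).comp (lcU 0)) z) +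
        ∑ a ∈ S', wC m j (en a) (ct m j (va a) z) = ((j + 1 : ℕ) : ℚ) • z := by
  induction z using Cx_ind with
  | h0 => exact ⟨∅, ∅, fun I' S' _ _ => by simp⟩
  | hadd a b ha hb =>
    obtain ⟨I, S, h⟩ := ha
    obtain ⟨I2, S2, h2⟩ := hb
    refine ⟨I ∪ I2, S ∪ S2, fun I' S' hI hS => ?_⟩
    rw [smul_add, ← h I' S' (Finset.union_subset_left hI) (Finset.union_subset_left hS),
      ← h2 I' S' (Finset.union_subset_right hI) (Finset.union_subset_right hS),
      add_add_add_comm, ← Finset.sum_add_distrib, ← Finset.sum_add_distrib]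
    congr 1
    · refine Finset.sum_congr rfl fun i _ => ?_
      rw [map_add, map_add]
    · refine Finset.sum_congr rfl fun i _ => ?_
      rw [map_add, map_add]
  | h1 x ω =>
    obtain ⟨I, S, h⟩ := eulT j ω
    refine ⟨I, S, fun I' S' hI hS => ?_⟩
    rw [← map_smul, ← h I' S' hI hS, map_add, map_sum, map_sum]
    congr 1
    · refine Finset.sum_congr rfl fun i _ => ?_
      rw [ct_PB, mapT_PB]
    · refine Finset.sum_congr rfl fun i _ => ?_
      rw [ct_PB, wC_PB]

/-- products of the extended constants -/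
private lemma wQ_mem (m j : ℕ) (x : WQ K) (y : Cx m j (RatFunc K)) :
    mapT m (wW j (RQ x)) y ∈ Submodule.span ℚ {w | ∃ κ : Additive Kˣ, w = wC m j (rU κ) y} := by
  induction x using TensorProduct.induction_on with
  | zero =>
    rw [map_zero, map_zero, mapT_zero]
    exact zero_mem _
  | add a b ha hb =>
    rw [map_add, map_add, mapT_add]
    exact add_mem ha hb
  | tmul q κ =>
    have e : (q ⊗ₜ[ℤ] κ : WQ K) = q • toQ κ := by
      rw [toQ, smul_tmul', smul_eq_mul, mul_one]
    rw [e, map_smul, map_smul, mapT_smul, RQ_toQ, wW_toQ]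
    exact Submodule.smul_mem _ _ (Submodule.subset_span ⟨κ, rfl⟩)

/-- the number of divisor factors -/
private lemma nD (m : ℕ) : ∀ (s j : ℕ) (z : Cx m (j + 1) (RatFunc K))
    (_ : z ∈ Fil m (j + 1) (s + 1)) (S : Finset K) (_ : ∀ a, a ∉ S → ct m j (va a) z = 0),
    (∑ a ∈ S, wC m j (en a) (ct m j (va a) z)) - (s : ℚ) • z ∈ Fil m (j + 1) s := by
  intro s
  induction s with
  | zero =>
    intro j z hz S _
    rw [mem_Fil_one] at hz
    rw [Finset.sum_eq_zero (fun a _ => by rw [hz, map_zero])]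
    rw [Nat.cast_zero, zero_smul, sub_zero]
    exact zero_mem _
  | succ s ih =>
    intro j z hz S hS
    rw [mem_Fil] at hz ⊢
    intro b
    cases j with
    | zero =>
      have e : ct m 0 (va b) (∑ a ∈ S, wC m 0 (en a) (ct m 0 (va a) z)) = ct m 0 (va b) z := by
        rw [map_sum]
        have e1 : ∀ a, ct m 0 (va b) (wC m 0 (en a) (ct m 0 (va a) z)) =
            if a = b then ct m 0 (va b) z else 0 := by
          intro a
          rw [ct_wC_zero, va_en]
          split_ifs with h
          · rw [one_smul, h]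
          · rw [zero_smul]
        rw [Finset.sum_congr rfl fun a _ => e1 a, Finset.sum_ite_eq']
        split_ifs with h
        · rfl
        · rw [hS b h]
      rw [map_sub, map_smul, e]
      cases s with
      | zero =>
        have e0 : ct m 0 (va b) z - ((0 + 1 : ℕ) : ℚ) • ct m 0 (va b) z = 0 := by
          have e00 : ((0 + 1 : ℕ) : ℚ) = 1 := by norm_num
          rw [e00, one_smul]
          exact sub_self (ct m 0 (va b) z)
        rw [e0]
        exact zero_mem _
      | succ s => trivial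
    | succ j =>
      have hb := hz b
      have hb' : ∀ a, a ∉ S → ct m j (va a) (ct m (j + 1) (va b) z) = 0 := by
        intro a ha
        rw [ct_ct, hS a ha, map_zero, neg_zero]
      have h1 := ih j _ hb S hb'
      have e : ct m (j + 1) (va b) (∑ a ∈ S, wC m (j + 1) (en a) (ct m (j + 1) (va a) z)) =
          ct m (j + 1) (va b) z +
            ∑ a ∈ S, wC m j (en a) (ct m j (va a) (ct m (j + 1) (va b) z)) := by
        rw [map_sum]
        have e1 : ∀ a, ct m (j + 1) (va b) (wC m (j + 1) (en a) (ct m (j + 1) (va a) z)) =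
            (if a = b then ct m (j + 1) (va b) z else 0) +
              wC m j (en a) (ct m j (va a) (ct m (j + 1) (va b) z)) := by
          intro a
          rw [ct_wC, va_en, ct_ct m j (va b) (va a), map_neg, sub_neg_eq_add]
          congr 1
          split_ifs with h
          · rw [one_smul, h]
          · rw [zero_smul]
        rw [Finset.sum_congr rfl fun a _ => e1 a, Finset.sum_add_distrib, Finset.sum_ite_eq']
        congr 1
        split_ifs with h
        · rfl
        · rw [hS b h]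
      rw [map_sub, map_smul, e]
      have e2 : ct m (j + 1) (va b) z +
            ∑ a ∈ S, wC m j (en a) (ct m j (va a) (ct m (j + 1) (va b) z)) -
            ((s + 1 : ℕ) : ℚ) • ct m (j + 1) (va b) z =
          ∑ a ∈ S, wC m j (en a) (ct m j (va a) (ct m (j + 1) (va b) z)) -
            (s : ℚ) • ct m (j + 1) (va b) z := by
        push_cast
        module
      rw [e2]
      exact h1

/-- an element of degree at most `s < j + 1` in the divisors is, up to an element of smaller
degree, a combination of products of constants with its contractions -/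
theorem euler_red [IsAlgClosed K] (m j s : ℕ) (hs : s ≤ j) (z : Cx m (j + 1) (RatFunc K))
    (hz : z ∈ Fil m (j + 1) (s + 1)) :
    z ∈ Fil m (j + 1) s ⊔ Submodule.span ℚ {x | ∃ (κ : Additive Kˣ) (χ : Additive Kˣ →+ ℚ),
      x = wC m j (rU κ) (ct m j (χ.comp (lcU 0)) z)} := by
  obtain ⟨I, S, h⟩ := eulC m j z
  obtain ⟨S2, hS2⟩ := ct_finite m j z
  have h1 := h I (S ∪ S2) (le_refl _) Finset.subset_union_left
  have h2 := nD m s j z hz (S ∪ S2) (fun a ha =>
    hS2 a (fun h => ha (Finset.mem_union_right _ h)))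
  have h3 : ∑ i ∈ I, mapT m (wW j (RQ (bv i))) (ct m j ((co (DB K) i).comp (lcU 0)) z) ∈
      Submodule.span ℚ {x | ∃ (κ : Additive Kˣ) (χ : Additive Kˣ →+ ℚ),
        x = wC m j (rU κ) (ct m j (χ.comp (lcU 0)) z)} := by
    refine Submodule.sum_mem _ fun i _ => ?_
    refine Submodule.span_mono ?_ (wQ_mem m j (bv i) _)
    rintro w ⟨κ, rfl⟩
    exact ⟨κ, co (DB K) i, rfl⟩
  have h4 : (((j + 1 : ℕ) : ℚ) - (s : ℚ)) • z ∈ Fil m (j + 1) s ⊔
      Submodule.span ℚ {x | ∃ (κ : Additive Kˣ) (χ : Additive Kˣ →+ ℚ),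
        x = wC m j (rU κ) (ct m j (χ.comp (lcU 0)) z)} := by
    have e : (((j + 1 : ℕ) : ℚ) - (s : ℚ)) • z =
        ((∑ a ∈ S ∪ S2, wC m j (en a) (ct m j (va a) z)) - (s : ℚ) • z) +
        ∑ i ∈ I, mapT m (wW j (RQ (bv i))) (ct m j ((co (DB K) i).comp (lcU 0)) z) := by
      rw [sub_smul, ← h1]
      abel
    rw [e]
    exact Submodule.add_mem_sup h2 h3
  have h5 : (((j + 1 : ℕ) : ℚ) - (s : ℚ)) ≠ 0 := by
    have : (s : ℚ) < ((j + 1 : ℕ) : ℚ) := by exact_mod_cast Nat.lt_succ_of_le hs
    exact (sub_pos.2 this).ne'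
  have h6 := Submodule.smul_mem _ (((j + 1 : ℕ) : ℚ) - (s : ℚ))⁻¹ h4
  rwa [smul_smul, inv_mul_cancel₀ h5, one_smul] at h6

end

end Helper42.LT
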