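import Pool.Agent.Helper42.LT.NCle
import Pool.Agent.Helper14.W4.N3

set_option autoImplicit false

/-!
# LT-Hk: elements of B_3(K(t)) with prescribed leading part

PLAN (about 1 h).  F = RatFunc K, D = K ->_0 Q.  L3 := mm3 o (dC 0 0) : Cx 3 0 F -> (K x K x K -> Q)
(mm3 in Helper14/W4/N3.lean).
 (1) L3 (PB 3 0 (cl 3 x) (u0 _)) = arr3 1 (dv (lgP x)) (dv (l1P x)) (dv (lgP x)): dC_PB gives
     GG 2 x (lgP x), mm3_GG.
     L3 beta (a, c, d) = e0 (ll 0 (va c) (va d) (ld 0 0 (va a) beta)) by definition (ct 2 0 (va a) (dC 0 0 beta)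
     = ld 0 0 (va a) beta, rfl).
 (2) L3 beta = 0 -> beta in range (rC 1 0): as in lead_const (M42.lean): for each a, E2 a applies to
     ld 0 0 (va a) beta, its specialisation at a is 0 (sC_ld a 0 0 beta), so ld 0 0 (va a) beta = 0; E3.
 (3) arr3 1 u y u in range L3 for all u y in D: P := range L3, N := (K x K x K -> Q) / P,
     T := Phi3 1 P.mkQ (N3.lean); T p r r = 0 (arr3_alt); T kills functions by (1) (x = some f);
     tri_alt: T u y u = - T u y u, so it is 0.  Polarisation: arr3 1 u y v + arr3 1 v y u in range L3.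
 (4) sigma : (K x K x K -> Q) ->L Cx 3 0 F with L3 (sigma p) = p for p in range L3
     (LinearMap.exists_rightInverse_of_surjective for L3.rangeRestrict and LinearMap.exists_extend).
 (5) hk u v y := sigma ((1/2) (arr3 1 (dv u) (dv y) (dv v) + arr3 1 (dv v) (dv y) (dv u))) as
     iterated AddMonoidHom.mk'.  (arr3 is trilinear, Phi3_apply / the proofs in Phi3, antisymmetric in the
     last two arguments.)
     sym clear; cyc: the six arrays cancel in pairs; c1, c3: dv_rU;
     gen: both have the same L3, (2); E2: z' := tn 3 1 (wT 0 v u0) beta with beta = hk v v y,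
     L3 beta = arr3 1 (dv v) (dv y) (dv v); by Cx_ind
       ct_b (ct_a (dC 0 1 (tn 3 1 (wT 0 v u0) beta))) = va b v . ld 0 0 (va a) beta - va a v . ld 0 0 (va b) beta
     (on beta = PB 3 0 x: dC_PB, ct_PB, ctT_wT, ctT_wT_zero); its leading coefficients are
     va b v * va a v * (..) - va a v * va b v * (..) = 0, so it is constant by E2 (Helper14/W4/H4);
     then mem_NK 0 (NCle.lean).
-/

noncomputable section

open Polynomial TensorProduct
open scoped Classical

namespace Helper42.LT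

open Helper14.Gon Helper14.W4

universe u v w

section
variable {K : Type u} [Field K]

/-- the leading part of an element of `B_3(K(t))` -/
private def hkL (K : Type u) [Field K] : Cx 3 0 (RatFunc K) →ₗ[ℚ] (K × K × K → ℚ) :=
  mm3 ∘ₗ (dC 0 0)

private lemma hkL_PB (x : P1 (RatFunc K)) : hkL K (PB 3 0 (cl 3 x) (u0 _)) =
    arr3 (1 : ℚ) (dv (lgP x)) (dv (l1P x)) (dv (lgP x)) := by
  have h : dC 0 0 (PB 3 0 (cl 3 x) (u0 (RatFunc K))) = GG 2 x (lgP x) := dC_PB 0 0 x _
  rw [hkL, LinearMap.comp_apply, h, mm3_GG]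

private lemma hkL_apply (β : Cx 3 0 (RatFunc K)) (a c d : K) : hkL K β (a, c, d) =
    e0 (RatFunc K) (ll 0 (va c) (va d) (ld 0 0 (va a) β)) := rfl

private lemma hk_const [IsAlgClosed K] {β : Cx 3 0 (RatFunc K)} (h : hkL K β = 0) :
    β ∈ LinearMap.range (rC 1 0 : Cx 3 0 K →ₗ[ℚ] _) := by
  have h1 : ∀ a : K, ld 0 0 (va a) β = 0 := by
    intro a
    have h2 : rC 0 0 (sC a 0 0 (ld 0 0 (va a) β)) = ld 0 0 (va a) β := by
      refine Helper14.W4.E2 a _ fun c d => ?_
      have h3 := congrFun h (a, c, d)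
      rw [hkL_apply] at h3
      have h4 := e0_inj (ll 0 (va c) (va d) (ld 0 0 (va a) β))
      rw [h3, Pi.zero_apply, zero_smul] at h4
      exact h4.symm
    have h5 : sC a 0 0 (ld 0 0 (va a) β) = 0 := sC_ld a 0 0 β
    rw [h5, map_zero] at h2
    exact h2.symm
  exact ⟨sC 0 1 0 β, E3 0 β h1⟩

private lemma hk_mem (p r q : K →₀ ℚ) : arr3 (1 : ℚ) p r q + arr3 (1 : ℚ) q r p ∈
    LinearMap.range (hkL K) := by
  set P := LinearMap.range (hkL K) with hP
  have halt : ∀ p r, Phi3 (1 : ℚ) P.mkQ p r r = 0 := fun p r => by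
    rw [Phi3_apply, arr3_alt, map_zero]
  have hkill : ∀ f : RatFunc K, f ≠ 0 → 1 - f ≠ 0 →
      Phi3 (1 : ℚ) P.mkQ (dv (lg f)) (dv (lg (1 - f))) (dv (lg f)) = 0 := by
    intro f _ _
    rw [Phi3_apply, Submodule.mkQ_apply, Submodule.Quotient.mk_eq_zero]
    refine ⟨PB 3 0 (cl 3 (some f)) (u0 _), ?_⟩
    rw [hkL_PB, lgP_some]
    rfl
  have h := tri_alt halt hkill p r q
  rw [← Submodule.Quotient.mk_eq_zero, ← Submodule.mkQ_apply, map_add]
  rw [Phi3_apply, Phi3_apply] at h
  rw [h, neg_add_cancel]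

private lemma hk_sec (K : Type u) [Field K] :
    ∃ σ : (K × K × K → ℚ) →ₗ[ℚ] Cx 3 0 (RatFunc K),
      ∀ p ∈ LinearMap.range (hkL K), hkL K (σ p) = p := by
  obtain ⟨g, hg⟩ := LinearMap.exists_rightInverse_of_surjective (hkL K).rangeRestrict
    (LinearMap.range_rangeRestrict _)
  obtain ⟨σ, hσ⟩ := LinearMap.exists_extend g
  refine ⟨σ, fun p hp => ?_⟩
  have h1 : σ p = g ⟨p, hp⟩ := LinearMap.congr_fun hσ ⟨p, hp⟩
  have h2 := LinearMap.congr_fun hg ⟨p, hp⟩
  have h3 := congrArg Subtype.val h2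
  rw [h1]
  exact h3

/-- the symmetrised trilinear map -/
private def hkF {M : Type v} [AddCommGroup M] [Module ℚ M] (Φ : V3 K M) :
    Additive (RatFunc K)ˣ →+ Additive (RatFunc K)ˣ →+ Additive (RatFunc K)ˣ →+ M :=
  AddMonoidHom.mk' (fun u => AddMonoidHom.mk' (fun v => AddMonoidHom.mk'
    (fun y => (1 / 2 : ℚ) • (Φ (dv u) (dv y) (dv v) + Φ (dv v) (dv y) (dv u)))
    (fun y y' => by
      simp only [map_add, LinearMap.add_apply]
      rw [← smul_add]
      congr 1
      abel))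
    (fun v v' => by
      refine AddMonoidHom.ext fun y => ?_
      simp only [AddMonoidHom.mk'_apply, AddMonoidHom.add_apply, map_add, LinearMap.add_apply]
      rw [← smul_add]
      congr 1
      abel))
    (fun u u' => by
      refine AddMonoidHom.ext fun v => AddMonoidHom.ext fun y => ?_
      simp only [AddMonoidHom.mk'_apply, AddMonoidHom.add_apply, map_add, LinearMap.add_apply]
      rw [← smul_add]
      congr 1
      abel)

private lemma hkF_apply {M : Type v} [AddCommGroup M] [Module ℚ M] (Φ : V3 K M)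
    (u v y : Additive (RatFunc K)ˣ) : hkF Φ u v y =
      (1 / 2 : ℚ) • (Φ (dv u) (dv y) (dv v) + Φ (dv v) (dv y) (dv u)) := rfl

private lemma hkF_self {M : Type v} [AddCommGroup M] [Module ℚ M] (Φ : V3 K M)
    (u y : Additive (RatFunc K)ˣ) : hkF Φ u u y = Φ (dv u) (dv y) (dv u) := by
  rw [hkF_apply, ← two_smul ℚ, smul_smul]
  norm_num

private lemma hk_ct (v : Additive (RatFunc K)ˣ) (β : Cx 3 0 (RatFunc K)) (a b : K) :
    ct 2 0 (va b) (ct 2 1 (va a) (dC 0 1 (tn 3 1 (wT 0 v (u0 _)) β))) =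
      va b v • ld 0 0 (va a) β - va a v • ld 0 0 (va b) β := by
  refine Cx_ind (fun β => ct 2 0 (va b) (ct 2 1 (va a) (dC 0 1 (tn 3 1 (wT 0 v (u0 _)) β))) =
      va b v • ld 0 0 (va a) β - va a v • ld 0 0 (va b) β) ?_ ?_ ?_ β
  · simp only [map_zero, smul_zero, sub_self]
  · intro x y hx hy
    simp only [map_add, smul_add, hx, hy]
    abel
  · intro x υ
    have h := e0_inj υ
    rw [← h]
    simp only [map_smul]
    rw [tn_PB, dC_PB, ct_PB, ctT_wT, ctT_wT_zero, ct_PB, map_sub, map_smul, map_smul,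
      ctT_wT_zero, map_smul, ctT_wT_zero, ld_PB, ld_PB, map_sub, map_smul, map_smul, map_smul,
      map_smul, smul_sub, smul_comm (e0 (RatFunc K) υ) (va a (lgP x)),
      smul_comm (e0 (RatFunc K) υ) (va a v)]
    simp only [smul_smul]
    congr 2 <;> ring

theorem exists_hk (K : Type u) [Field K] [IsAlgClosed K] :
    ∃ hk : Additive (RatFunc K)ˣ →+ Additive (RatFunc K)ˣ →+ Additive (RatFunc K)ˣ →+
        Cx 3 0 (RatFunc K),
      (∀ u v y, hk u v y = hk v u y) ∧
      (∀ u v w, hk u v w + hk v w u + hk w u v = 0) ∧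
      (∀ (κ : Additive Kˣ) v y, hk (rU κ) v y = 0) ∧
      (∀ u v (κ : Additive Kˣ), hk u v (rU κ) = 0) ∧
      (∀ x : P1 (RatFunc K), PB 3 0 (cl 3 x) (u0 _) - hk (lgP x) (lgP x) (l1P x) ∈
        LinearMap.range (rC 1 0 : Cx 3 0 K →ₗ[ℚ] _)) ∧
      (∀ v y, dC 0 1 (tn 3 1 (wT 0 v (u0 _)) (hk v v y)) ∈ NC 0 2 ⊔ KC 2 1) := by
  obtain ⟨σ, hσ⟩ := hk_sec K
  set Φ : V3 K (Cx 3 0 (RatFunc K)) := Phi3 (1 : ℚ) σ with hΦ
  have anti : ∀ p r s, Φ p r s = - Φ p s r := by
    intro p r s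
    have halt : ∀ p r, Φ p r r = 0 := fun p r => by
      rw [hΦ, Phi3_apply, arr3_alt, map_zero]
    have h1 := halt p (r + s)
    simp only [map_add, LinearMap.add_apply, halt, zero_add, add_zero] at h1
    exact eq_neg_of_add_eq_zero_right h1
  -- the leading part
  have lead : ∀ p r : K →₀ ℚ, hkL K (Φ p r p) = arr3 (1 : ℚ) p r p := by
    intro p r
    have h1 : arr3 (1 : ℚ) p r p ∈ LinearMap.range (hkL K) := by
      have h2 := Submodule.smul_mem _ (1 / 2 : ℚ) (hk_mem p r p)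
      rw [← two_smul ℚ, smul_smul] at h2
      norm_num at h2
      exact h2
    rw [hΦ, Phi3_apply]
    exact hσ _ h1
  refine ⟨hkF Φ, ?_, ?_, ?_, ?_, ?_, ?_⟩
  · intro u v y
    rw [hkF_apply, hkF_apply, add_comm]
  · intro u v w
    simp only [hkF_apply]
    rw [anti (dv u) (dv w) (dv v), anti (dv v) (dv w) (dv u), anti (dv w) (dv u) (dv v),
      ← smul_add, ← smul_add]
    have e : -Φ (dv u) (dv v) (dv w) + -Φ (dv v) (dv u) (dv w) +
        (Φ (dv v) (dv u) (dv w) + -Φ (dv w) (dv v) (dv u)) +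
        (Φ (dv w) (dv v) (dv u) + Φ (dv u) (dv v) (dv w)) = 0 := by abel
    rw [e, smul_zero]
  · intro κ v y
    rw [hkF_apply, dv_rU]
    simp only [map_zero, LinearMap.zero_apply, add_zero, smul_zero]
  · intro u v κ
    rw [hkF_apply, dv_rU]
    simp only [map_zero, LinearMap.zero_apply, add_zero, smul_zero]
  · intro x
    refine hk_const ?_
    rw [map_sub, hkL_PB, hkF_self, lead, sub_self]
  · intro v y
    refine mem_NK 0 _ fun a b => ?_
    rw [hk_ct, hkF_self]
    set β := Φ (dv v) (dv y) (dv v) with hβ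
    refine ⟨sC 0 0 0 (va b v • ld 0 0 (va a) β - va a v • ld 0 0 (va b) β), ?_⟩
    refine Helper14.W4.E2 0 _ fun c d => ?_
    have h1 : ∀ a : K, ll 0 (va c) (va d) (ld 0 0 (va a) β) =
        (va a v * (va c y * va d v - va d y * va c v)) • u0 (RatFunc K) := by
      intro a
      have h2 := congrFun (lead (dv v) (dv y)) (a, c, d)
      rw [← hβ, hkL_apply] at h2
      rw [← e0_inj (ll 0 (va c) (va d) (ld 0 0 (va a) β)), h2]
      congr 1
      simp only [arr3, smul_eq_mul, mul_one]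
      rfl
    have h3 : ctT 0 (va d) (lt 0 (va c) (va b v • ld 0 0 (va a) β - va a v • ld 0 0 (va b) β)) =
        ll 0 (va c) (va d) (va b v • ld 0 0 (va a) β - va a v • ld 0 0 (va b) β) := rfl
    rw [h3, map_sub, map_smul, map_smul, h1, h1, smul_smul, smul_smul, ← sub_smul]
    have e : va b v * (va a v * (va c y * va d v - va d y * va c v)) -
        va a v * (va b v * (va c y * va d v - va d y * va c v)) = 0 := by ring
    rw [e, zero_smul]

end

end Helper42.LT
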