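import Pool.Agent.Helper14.Loc.Top

set_option autoImplicit false

/-!
# Injectivity of the localisation map for all fields, weights and degrees
-/

noncomputable section

open Polynomial TensorProduct
open scoped Classical

namespace Helper42.LT

open Helper14.Gon Helper14.W4 Helper14.Loc

universe u v w

section
variable (K : Type u) [Field K]

/-- The map `H^i(Γ(K, n) ⊗ ℚ) ⊕ ⨁_{a ∈ K} H^{i-1}(Γ(K, n - 1) ⊗ ℚ) → H^i(Γ(K(t), n) ⊗ ℚ)`,
`(z, (z_a)_a) ↦ z + ∑_a (t - a) ∧ z_a`, is well defined and injective, for `n = k + j + 3`,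
`i = j + 2` (a degree below the top degree). -/
def InjMid (k j : ℕ) : Prop :=
  ∃ e : SM K k j →ₗ[ℚ] HC (RatFunc K) k (j + 1), Function.Injective e ∧
    Ind (cs K k (j + 1)) (fun x => e (inM x)) ∧ ∀ a : K, Ind (ts K k j a) (fun x => e (inR a x))

/-- The map `H^n(Γ(K, n) ⊗ ℚ) ⊕ ⨁_{a ∈ K} H^{n-1}(Γ(K, n - 1) ⊗ ℚ) → H^n(Γ(K(t), n) ⊗ ℚ)`,
`(z, (z_a)_a) ↦ z + ∑_a (t - a) ∧ z_a`, is well defined and injective, for `n = m + 1` (the top
degree). -/
def InjTop (m : ℕ) : Prop :=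
  ∃ e : ST K m →ₗ[ℚ] HT (RatFunc K) (m + 1), Function.Injective e ∧
    IndT (cst K (m + 1)) (fun x => e (inMT x)) ∧ ∀ a : K, IndT (tst K m a) (fun x => e (inRT a x))

end

section
variable {K : Type u} {V0 : Type v} {V1 : Type v} {W : Type w}
  [AddCommGroup V0] [Module ℚ V0] [AddCommGroup V1] [Module ℚ V1] [AddCommGroup W] [Module ℚ W]

/-- injective maps of quotients -/
theorem inj_of (f0 : V0 →ₗ[ℚ] W) (g : K → V1 →ₗ[ℚ] W) (B0 : Submodule ℚ V0)
    (B1 : Submodule ℚ V1) (B : Submodule ℚ W) (h0 : ∀ z ∈ B0, f0 z ∈ B)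
    (h1 : ∀ a, ∀ z ∈ B1, g a z ∈ B)
    (inj : ∀ (z0 : V0) (s : Finset K) (za : K → V1), f0 z0 + ∑ a ∈ s, g a (za a) ∈ B →
      z0 ∈ B0 ∧ ∀ a ∈ s, za a ∈ B1) :
    ∃ e : ((V0 ⧸ B0) × (K →₀ (V1 ⧸ B1))) →ₗ[ℚ] (W ⧸ B), Function.Injective e ∧
      (∀ z, e (Submodule.Quotient.mk z, 0) = Submodule.Quotient.mk (f0 z)) ∧
      (∀ a z, e (0, Finsupp.single a (Submodule.Quotient.mk z)) =
        Submodule.Quotient.mk (g a z)) := by
  set T : ((V0 ⧸ B0) × (K →₀ (V1 ⧸ B1))) →ₗ[ℚ] (W ⧸ B) :=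
    (B0.mapQ B f0 h0).coprod (Finsupp.lsum ℚ fun a => B1.mapQ B (g a) (h1 a)) with hT
  have t0 : ∀ z, T (Submodule.Quotient.mk z, 0) = Submodule.Quotient.mk (f0 z) := by
    intro z
    rw [hT, LinearMap.coprod_apply, map_zero, add_zero]
    rfl
  have t1 : ∀ a z, T (0, Finsupp.single a (Submodule.Quotient.mk z)) =
      Submodule.Quotient.mk (g a z) := by
    intro a z
    rw [hT, LinearMap.coprod_apply, map_zero, zero_add, Finsupp.lsum_single]
    rfl
  have t2 : ∀ (z0 : V0) (s : Finset K) (za : K → V1),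
      T (Submodule.Quotient.mk z0, ∑ a ∈ s, Finsupp.single a (Submodule.Quotient.mk (za a))) =
        Submodule.Quotient.mk (f0 z0 + ∑ a ∈ s, g a (za a)) := by
    intro z0 s za
    have e1 : (Submodule.Quotient.mk (f0 z0 + ∑ a ∈ s, g a (za a)) : W ⧸ B) =
        Submodule.Quotient.mk (f0 z0) + ∑ a ∈ s, Submodule.Quotient.mk (g a (za a)) := by
      rw [Submodule.Quotient.mk_add]
      congr 1
      exact map_sum B.mkQ _ _
    rw [hT, LinearMap.coprod_apply, map_sum, e1]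
    congr 1
    refine Finset.sum_congr rfl fun a _ => ?_
    rw [Finsupp.lsum_single]
    rfl
  have hinj : Function.Injective T := by
    · rw [injective_iff_map_eq_zero]
      rintro ⟨x, y⟩ hxy
      obtain ⟨z0, rfl⟩ := Submodule.Quotient.mk_surjective _ x
      choose za hza using fun a => Submodule.Quotient.mk_surjective _ (y a)
      have e1 : y = ∑ a ∈ y.support, Finsupp.single a (Submodule.Quotient.mk (za a)) := by
        conv_lhs => rw [← Finsupp.sum_single y]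
        rw [Finsupp.sum]
        exact Finset.sum_congr rfl fun a _ => by rw [hza]
      have e2 := t2 z0 y.support za
      rw [← e1, hxy] at e2
      have e3 := inj z0 y.support za ((Submodule.Quotient.mk_eq_zero _).1 e2.symm)
      have e4 : (Submodule.Quotient.mk z0 : V0 ⧸ B0) = 0 :=
        (Submodule.Quotient.mk_eq_zero _).2 e3.1
      have e5 : y = 0 := by
        by_contra hy
        obtain ⟨a, ha⟩ := Finsupp.support_nonempty_iff.2 hy
        have e6 : (Submodule.Quotient.mk (za a) : V1 ⧸ B1) = 0 :=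
          (Submodule.Quotient.mk_eq_zero _).2 (e3.2 a ha)
        rw [hza] at e6
        exact (Finsupp.mem_support_iff.1 ha) e6
      rw [e4, e5]; rfl
  exact ⟨T, hinj, fun z => t0 z, fun a z => t1 a z⟩

/-- injective maps of subquotients -/
theorem inj_of' (f0 : V0 →ₗ[ℚ] W) (g : K → V1 →ₗ[ℚ] W) (Z0 B0 : Submodule ℚ V0)
    (Z1 B1 : Submodule ℚ V1) (Z B : Submodule ℚ W) (c0 : ∀ z ∈ Z0, f0 z ∈ Z)
    (c1 : ∀ a, ∀ z ∈ Z1, g a z ∈ Z) (h0 : ∀ z ∈ B0, f0 z ∈ B)
    (h1 : ∀ a, ∀ z ∈ B1, g a z ∈ B)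
    (inj : ∀ (z0 : V0) (s : Finset K) (za : K → V1), f0 z0 + ∑ a ∈ s, g a (za a) ∈ B →
      z0 ∈ B0 ∧ ∀ a ∈ s, za a ∈ B1) :
    ∃ e : ((↥Z0 ⧸ B0.submoduleOf Z0) × (K →₀ (↥Z1 ⧸ B1.submoduleOf Z1))) →ₗ[ℚ]
        (↥Z ⧸ B.submoduleOf Z), Function.Injective e ∧
      (∀ z : ↥Z0, ∃ h : f0 z ∈ Z,
        e (Submodule.Quotient.mk z, 0) = Submodule.Quotient.mk ⟨_, h⟩) ∧
      (∀ (a : K) (z : ↥Z1), ∃ h : g a z ∈ Z,
        e (0, Finsupp.single a (Submodule.Quotient.mk z)) = Submodule.Quotient.mk ⟨_, h⟩) := by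
  obtain ⟨e, hin, he0, he1⟩ := inj_of (f0.restrict c0) (fun a => (g a).restrict (c1 a))
    (B0.submoduleOf Z0) (B1.submoduleOf Z1) (B.submoduleOf Z)
    (fun z hz => h0 _ hz) (fun a z hz => h1 a _ hz)
    (by
      intro z0 s za h
      have h' : f0 z0.1 + ∑ a ∈ s, g a (za a).1 ∈ B := by
        have h2 : (((f0.restrict c0) z0 + ∑ a ∈ s, ((g a).restrict (c1 a)) (za a) : ↥Z)).1 ∈ B :=
          h
        rw [Submodule.coe_add, Submodule.coe_sum] at h2
        simpa only [LinearMap.coe_restrict_apply] using h2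
      obtain ⟨h3, h4⟩ := inj z0.1 s (fun a => (za a).1) h'
      exact ⟨h3, fun a ha => h4 a ha⟩)
  exact ⟨e, hin, fun z => ⟨c0 _ z.2, he0 z⟩, fun a z => ⟨c1 a _ z.2, he1 a z⟩⟩

end

section
variable {K : Type u} [Field K]

theorem injMid (k j : ℕ) : InjMid K k j := by
  have ers : ∀ z : CC k (j + 1) K, eC (RatFunc K) k (j + 1)
      (rs k (j + 1) (RatFunc.C : K →+* RatFunc K) z) = rC k (j + 1) (eC K k (j + 1) z) :=
    fun z => rs_eq k (j + 1) _ z
  have eus : ∀ (a : K) (z : CC k j K), eC (RatFunc K) k (j + 1)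
      (us k j (RatFunc.C : K →+* RatFunc K) (lgm (RatFunc.X - RatFunc.C a)) z) =
        wC (k + 2) j (ee a) (rC k j (eC K k j z)) := fun a z => us_eq k j _ _ z
  have esum : ∀ (z0 : CC k (j + 1) K) (s : Finset K) (za : K → CC k j K),
      eC (RatFunc K) k (j + 1) (rs k (j + 1) (RatFunc.C : K →+* RatFunc K) z0 +
        ∑ a ∈ s, us k j (RatFunc.C : K →+* RatFunc K) (lgm (RatFunc.X - RatFunc.C a)) (za a)) =
      rC k (j + 1) (eC K k (j + 1) z0) +
        ∑ a ∈ s, wC (k + 2) j (ee a) (rC k j (eC K k j (za a))) := by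
    intro z0 s za
    rw [map_add, ers, map_sum]
    congr 1
    exact Finset.sum_congr rfl fun a _ => eus a (za a)
  refine inj_of' (rs k (j + 1) (RatFunc.C : K →+* RatFunc K))
    (fun a => us k j (RatFunc.C : K →+* RatFunc K) (lgm (RatFunc.X - RatFunc.C a)))
    (ZC K k (j + 1)) (BC K k (j + 1)) (ZC K k j) (BC K k j) (ZC (RatFunc K) k (j + 1))
    (BC (RatFunc K) k (j + 1)) ?_ ?_ ?_ ?_ ?_
  · intro z hz
    rw [mem_ZC] at hz ⊢
    rw [ers]
    exact resC_cyc _ k (j + 1) hz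
  · intro a z hz
    rw [mem_ZC] at hz ⊢
    rw [eus]
    exact wC_cyc k j _ (resC_cyc _ k j hz)
  · intro z hz
    rw [mem_BC] at hz ⊢
    rw [ers]
    exact resC_bdry _ k (j + 1) hz
  · intro a z hz
    rw [mem_BC] at hz ⊢
    rw [eus]
    exact wC_bdry k j _ (resC_bdry _ k j hz)
  · intro z0 s za h
    rw [mem_BC, esum] at h
    obtain ⟨h1, h2⟩ := inj_all k j _ s _ h
    exact ⟨(mem_BC _ _ _).2 h1, fun a ha => (mem_BC _ _ _).2 (h2 a ha)⟩

/-- the general lemma for the top degree -/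
lemma injTop_of (m : ℕ)
    (h1 : ∀ a, ∀ z ∈ BT K m,
      ut m (RatFunc.C : K →+* RatFunc K) (lgm (RatFunc.X - RatFunc.C a)) z ∈
        BT (RatFunc K) (m + 1))
    (h0 : ∀ z ∈ BT K (m + 1), rt (m + 1) (RatFunc.C : K →+* RatFunc K) z ∈
        BT (RatFunc K) (m + 1))
    (inj : ∀ (z0 : Tx (m + 1) K) (s : Finset K) (za : K → Tx m K),
      (eT (RatFunc K) (m + 1)).symm (rT (m + 1) z0 + ∑ a ∈ s, wT m (ee a) (rT m (za a))) ∈
        BT (RatFunc K) (m + 1) →
      (eT K (m + 1)).symm z0 ∈ BT K (m + 1) ∧ ∀ a ∈ s, (eT K m).symm (za a) ∈ BT K m) :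
    InjTop K m := by
  have ert : ∀ z : TT (m + 1) K, eT (RatFunc K) (m + 1)
      (rt (m + 1) (RatFunc.C : K →+* RatFunc K) z) = rT (m + 1) (eT K (m + 1) z) :=
    fun z => rt_eq (m + 1) _ z
  have eut : ∀ (a : K) (z : TT m K), eT (RatFunc K) (m + 1)
      (ut m (RatFunc.C : K →+* RatFunc K) (lgm (RatFunc.X - RatFunc.C a)) z) =
        wT m (ee a) (rT m (eT K m z)) := fun a z => ut_eq m _ _ z
  have esum : ∀ (z0 : TT (m + 1) K) (s : Finset K) (za : K → TT m K),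
      eT (RatFunc K) (m + 1) (rt (m + 1) (RatFunc.C : K →+* RatFunc K) z0 +
        ∑ a ∈ s, ut m (RatFunc.C : K →+* RatFunc K) (lgm (RatFunc.X - RatFunc.C a)) (za a)) =
      rT (m + 1) (eT K (m + 1) z0) + ∑ a ∈ s, wT m (ee a) (rT m (eT K m (za a))) := by
    intro z0 s za
    rw [map_add, ert, map_sum]
    congr 1
    exact Finset.sum_congr rfl fun a _ => eut a (za a)
  refine inj_of (rt (m + 1) (RatFunc.C : K →+* RatFunc K))
    (fun a => ut m (RatFunc.C : K →+* RatFunc K) (lgm (RatFunc.X - RatFunc.C a)))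
    (BT K (m + 1)) (BT K m) (BT (RatFunc K) (m + 1)) h0 h1 ?_
  · intro z0 s za h
    have e : rt (m + 1) (RatFunc.C : K →+* RatFunc K) z0 +
        ∑ a ∈ s, ut m (RatFunc.C : K →+* RatFunc K) (lgm (RatFunc.X - RatFunc.C a)) (za a) =
        (eT (RatFunc K) (m + 1)).symm (rT (m + 1) (eT K (m + 1) z0) +
          ∑ a ∈ s, wT m (ee a) (rT m (eT K m (za a)))) := by
      apply (eT (RatFunc K) (m + 1)).injective
      rw [LinearEquiv.apply_symm_apply, esum]
    rw [e] at h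
    obtain ⟨h2, h3⟩ := inj _ s (fun a => eT K m (za a)) h
    exact ⟨h2, fun a ha => h3 a ha⟩

theorem injTop_zero : InjTop K 0 := by
  refine injTop_of 0 ?_ ?_ ?_
  · intro a z hz
    have : z = 0 := hz
    rw [this, map_zero]; exact zero_mem _
  · intro z hz
    have : z = 0 := hz
    rw [this, map_zero]; exact zero_mem _
  · intro z0 s za h
    have h' : rT 1 z0 + ∑ a ∈ s, wT 0 (ee a) (rT 0 (za a)) = 0 :=
      (LinearEquiv.map_eq_zero_iff _).1 (h : (eT (RatFunc K) 1).symm _ = 0)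
    have h1 : ∀ b ∈ s, za b = 0 := by
      intro b hb
      have e1 := congrArg (ctT 0 (va b)) h'
      rw [map_add, ctT_va_rT, zero_add, map_sum, map_zero] at e1
      have : ∀ a ∈ s, ctT 0 (va b) (wT 0 (ee a) (rT 0 (za a))) =
          if a = b then rT 0 (za a) else 0 := fun a _ => by
        rw [ctT_wT_zero, va_ee, ite_smul, one_smul, zero_smul]
      rw [Finset.sum_congr rfl this, Finset.sum_ite_eq', if_pos hb] at e1
      have e2 := congrArg (sT b 0) e1
      rwa [sT_rT, map_zero] at e2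
    refine ⟨?_, fun a ha => ?_⟩
    · rw [Finset.sum_eq_zero fun a ha => by rw [h1 a ha, map_zero, map_zero], add_zero] at h'
      have e2 := congrArg (sT 0 1) h'
      rw [sT_rT, map_zero] at e2
      rw [e2, map_zero]; exact zero_mem _
    · rw [h1 a ha, map_zero]; exact zero_mem _

theorem injTop_succ (j : ℕ) : InjTop K (j + 1) := by
  have hB : ∀ (F : Type u) [Field F] (n : ℕ) (z : Tx (n + 2) F),
      (eT F (n + 2)).symm z ∈ BT F (n + 2) ↔ ∃ v, dT n v = z := by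
    intro F _ n z
    rw [mem_BT, LinearEquiv.apply_symm_apply]; rfl
  refine injTop_of (j + 1) ?_ ?_ ?_
  · intro a z hz
    cases j with
    | zero =>
      have : z = 0 := hz
      rw [this, map_zero]; exact zero_mem _
    | succ j =>
      obtain ⟨y, hy⟩ := (mem_BT j z).1 hz
      rw [mem_BT]
      refine ⟨wC 2 j (ee a) (rC 0 j y), ?_⟩
      rw [← wT_rT_bdry, hy]
      exact (ut_eq (j + 2) _ _ z).symm
  · intro z hz
    obtain ⟨y, hy⟩ := (mem_BT j z).1 hz
    rw [mem_BT]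
    refine ⟨rC 0 j y, ?_⟩
    rw [rT_dT, hy]
    exact (rt_eq (j + 2) _ z).symm
  · intro z0 s za h
    rw [hB] at h
    obtain ⟨v, hv⟩ := h
    cases j with
    | zero =>
      obtain ⟨h1, h2⟩ := injT_zero z0 s za v hv.symm
      refine ⟨(hB K 0 z0).2 h1, fun a ha => ?_⟩
      rw [h2 a ha, map_zero]; exact zero_mem _
    | succ j =>
      obtain ⟨h1, h2⟩ := injT_succ j z0 s za v hv.symm
      exact ⟨(hB K (j + 1) z0).2 h1, fun a ha => (hB K j (za a)).2 (h2 a ha)⟩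

theorem injTop (m : ℕ) : InjTop K m := by
  cases m with
  | zero => exact injTop_zero
  | succ j => exact injTop_succ j

end

end Helper42.LT
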