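import Pool.Agent.Helper42.LT.Defs

set_option autoImplicit false

/-!
# Forms in three functions and an element of the exterior power
-/

noncomputable section

open Polynomial TensorProduct
open scoped Classical

namespace Helper42.LT

open Helper14.Gon Helper14.W4

universe u v w

set_option genInjectivity false in
set_option genSizeOf false in
set_option genSizeOfSpec false in
/-- A form in three functions and an element of `Λ^{n+2}`, symmetric in the first two functions,
killing constants and `u, u, y, u ∧ ω`. -/
structure MForm (K : Type u) [Field K] (Q : Type v) [AddCommGroup Q] [Module ℚ Q] (n : ℕ) where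
  M : Additive (RatFunc K)ˣ →+ Additive (RatFunc K)ˣ →+ Additive (RatFunc K)ˣ →+
    (Tx (n + 2) (RatFunc K) →ₗ[ℚ] Q)
  sym : ∀ u v y, M u v y = M v u y
  cyc : ∀ u v w, M u v w + M v w u + M w u v = 0
  c1 : ∀ (κ : Additive Kˣ) v y, M (rU κ) v y = 0
  c3 : ∀ u v (κ : Additive Kˣ), M u v (rU κ) = 0
  cT : ∀ u v y, ∀ g ∈ (KT (n + 1) : Submodule ℚ (Tx (n + 2) (RatFunc K))), M u v y g = 0
  E2 : ∀ u y (ω : Tx (n + 1) (RatFunc K)), M u u y (wT (n + 1) u ω) = 0

end Helper42.LT
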