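import Pool.Agent.Helper42.LT.EulT
import Pool.Agent.Helper42.LT.MForm

set_option autoImplicit false

/-!
# LT-KA1: the contraction identities of an MForm (see Defs.lean)

PLAN (about 1.2 h).  Write e_a = ee a, d_a = ctT _ (va a), s = n + 2, m = M x x y g,
Z_S = sum_(a in S) M x x e_a (y ^ d_a g)   (v ^ omega = wT _ v omega).
 Basic facts (mf : MForm K Q n, M = mf.M):
 (P) M u v y (w ^ omega) + M v w y (u ^ omega) + M w u y (v ^ omega) = 0 for omega in Tx (n+1):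
     polarise E2: the left side is a symmetric tri-additive form A(u,v,w) with A(u,u,u) = 3 M u u y (u^omega)
     = 0; expand A at u+v+w, u+v, u+w, v+w (or first E2 at u+v, u-v ...); Q is a rational vector space.
     Special cases: (P1) M x e y (x ^ omega) = -(1/2) M x x y (e ^ omega).
 (C) M x y x = -(1/2) M x x y (from cyc with u = v = x, w = y, and sym): M x x y + 2 M x y x = 0.
 (X) expansion: for every v there is a finite S0 with M v = sum_(a in S) (va a v) . M e_a for S0 <= S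
     (V_ind, c1; all maps AddMonoidHom, scalars rational: state it as
     M v u y g = sum_(a in S) va a v . M e_a u y g, similarly in the second (sym) and the third
     argument (c3)); and M u v y (w ^ omega) = sum_a va a w . M u v y (e_a ^ omega) (wT_exp, cT).
 (E) Euler: sum_(a in S) M u v y (e_a ^ d_a g) = s . M u v y g for large S (euler_T, cT), and
     for b: sum_(a in S) M u v y (c ^ (e_a ^ d_b (d_a g))) = -(s-1) M u v y (c ^ d_b g)
     (ctT_ctT: d_b d_a = - d_a d_b, then euler_T for d_b g in Tx (n+1); wT c of KT is in KT).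
     The finite sets S0 must be uniform in b: only finitely many b have d_b g <> 0 (ctT version of
     ct_finite, ctT_fin in Helper14/W4/H2).
 xi1: d_a (x ^ g) = va a x . g - x ^ d_a g (ctT_wT).
   sum_a [M e_a x y (d_a (x^g)) - M e_a y x (d_a (x^g))]
   = M x x y g - M x y x g - sum_a M e_a x y (x ^ d_a g) + sum_a M e_a y x (x ^ d_a g);
   first two: (3/2) m by (C); third: by (P1) + (1/2) sum_a M x x y (e_a ^ d_a g) = (s/2) m;
   fourth: by (P) M e_a y x (x^w) = - M y x x (e_a^w) - M x e_a x (y^w) = (1/2) M x x y (e_a^w) +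
   (1/2) M x x e_a (y^w) (by (C)), sum (s/2) m + (1/2) Z.   Total (3/2 + s) m + (1/2) Z.
 xi2: d_b (d_a (x^g)) = va a x . d_b g - va b x . d_a g + x ^ d_b (d_a g).
   A := sum_(a,b) M e_a y e_b (x ^ d_b d_a (x^g)) = sum_b M x y e_b (x ^ d_b g) - sum_a M e_a y x (x ^ d_a g)
      (x ^ x ^ .. = 0, wT_self) = -(1/2) Z - ((s/2) m + (1/2) Z),
      since 2 M x y e (x^w) + M x x e (y^w) = 0 by (P).
   B := - sum_(a,b) M e_a x e_b (y ^ d_b d_a (x^g)) = - sum_b M x x e_b (y ^ d_b g) +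
      sum_a M e_a x x (y ^ d_a g) - sum_(a,b) M e_a x e_b (y ^ (x ^ d_b d_a g))
      = - Z - (1/2) Z - ((s-1)/2) Z:
      M e_a x x = -(1/2) M x x e_a by (C); y ^ x ^ .. = - x ^ y ^ .. (wT_wT), by (P1)
      M e_a x e_b (x ^ w) = -(1/2) M x x e_b (e_a ^ w), w = y ^ d_b d_a g, e_a ^ y ^ .. = - y ^ e_a ^ ..,
      and the second formula of (E).
   A + B = -(s/2) m - ((s+4)/2) Z.
 (The identities have been checked by computer for s = 2, 3.)
-/

noncomputable section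

open Polynomial TensorProduct
open scoped Classical

namespace Helper42.LT

open Helper14.Gon Helper14.W4

universe u v w

section
variable {K : Type u} [Field K] {Q : Type v} [AddCommGroup Q] [Module ℚ Q] {n : ℕ}

/-- the auxiliary sum -/
def Zs (mf : MForm K Q n) (x y : Additive (RatFunc K)ˣ) (g : Tx (n + 2) (RatFunc K))
    (S : Finset K) : Q :=
  ∑ a ∈ S, mf.M x x (ee a) (wT (n + 1) y (ctT (n + 1) (va a) g))

/-- expansion of an additive map killing the constants -/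
private lemma ka1_exp [IsAlgClosed K] (v : Additive (RatFunc K)ˣ) :
    ∃ S0 : Finset K, ∀ S : Finset K, S0 ⊆ S → ∀ N : Additive (RatFunc K)ˣ →+ Q,
      (∀ κ : Additive Kˣ, N (rU κ) = 0) → N v = ∑ a ∈ S, va a v • N (ee a) := by
  refine V_ind (fun v => ∃ S0 : Finset K, ∀ S : Finset K, S0 ⊆ S →
    ∀ N : Additive (RatFunc K)ˣ →+ Q, (∀ κ : Additive Kˣ, N (rU κ) = 0) →
      N v = ∑ a ∈ S, va a v • N (ee a)) ?_ ?_ ?_ ?_ v
  · intro κ
    refine ⟨∅, fun S _ N hN => ?_⟩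
    rw [hN]
    refine (Finset.sum_eq_zero fun a _ => ?_).symm
    rw [va_rU_apply, zero_smul]
  · intro b
    refine ⟨{b}, fun S hS N _ => ?_⟩
    rw [Finset.sum_eq_single b]
    · rw [va_ee, if_pos rfl, one_smul]
    · intro a _ hab
      rw [va_ee, if_neg (Ne.symm hab), zero_smul]
    · intro h
      exact absurd (hS (Finset.mem_singleton_self b)) h
  · rintro u v ⟨S1, h1⟩ ⟨S2, h2⟩
    refine ⟨S1 ∪ S2, fun S hS N hN => ?_⟩
    rw [map_add, h1 S (Finset.union_subset_left hS) N hN,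
      h2 S (Finset.union_subset_right hS) N hN, ← Finset.sum_add_distrib]
    refine Finset.sum_congr rfl fun a _ => ?_
    rw [map_add, add_smul]
  · rintro u ⟨S1, h1⟩
    refine ⟨S1, fun S hS N hN => ?_⟩
    rw [map_neg, h1 S hS N hN, ← Finset.sum_neg_distrib]
    refine Finset.sum_congr rfl fun a _ => ?_
    rw [map_neg, neg_smul]

/-- expansion of the first argument -/
theorem MForm.exp1 [IsAlgClosed K] (mf : MForm K Q n) (v : Additive (RatFunc K)ˣ) :
    ∃ S0 : Finset K, ∀ S : Finset K, S0 ⊆ S → ∀ u y g,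
      mf.M v u y g = ∑ a ∈ S, va a v • mf.M (ee a) u y g := by
  obtain ⟨S0, h0⟩ := ka1_exp (Q := Q) v
  refine ⟨S0, fun S hS u y g => ?_⟩
  have h := h0 S hS (AddMonoidHom.mk' (fun v => mf.M v u y g) (fun a b => by
    simp only [map_add, AddMonoidHom.add_apply, LinearMap.add_apply])) (fun κ => by
    simp only [AddMonoidHom.mk'_apply]
    rw [mf.c1]
    rfl)
  simpa only [AddMonoidHom.mk'_apply] using h

/-- expansion of the third argument -/
theorem MForm.exp3 [IsAlgClosed K] (mf : MForm K Q n) (v : Additive (RatFunc K)ˣ) :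
    ∃ S0 : Finset K, ∀ S : Finset K, S0 ⊆ S → ∀ u y g,
      mf.M u y v g = ∑ a ∈ S, va a v • mf.M u y (ee a) g := by
  obtain ⟨S0, h0⟩ := ka1_exp (Q := Q) v
  refine ⟨S0, fun S hS u y g => ?_⟩
  have h := h0 S hS (AddMonoidHom.mk' (fun v => mf.M u y v g) (fun a b => by
    simp only [map_add, LinearMap.add_apply])) (fun κ => by
    simp only [AddMonoidHom.mk'_apply]
    rw [mf.c3]
    rfl)
  simpa only [AddMonoidHom.mk'_apply] using h

private lemma ka1_abs {V : Type w} {Q' : Type v} [AddCommGroup V] [AddCommGroup Q'] [Module ℚ Q']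
    (f : V → V → V → Q')
    (h1 : ∀ u u' v w, f (u + u') v w = f u v w + f u' v w)
    (h2 : ∀ u v v' w, f u (v + v') w = f u v w + f u v' w)
    (h3 : ∀ u v w w', f u v (w + w') = f u v w + f u v w')
    (hs : ∀ u v w, f u v w = f v u w) (h0 : ∀ u, f u u u = 0) (u v w : V) :
    f u v w + f v w u + f w u v = 0 := by
  have k1 := h0 (u + v + w)
  have k2 := h0 (u + v)
  have k3 := h0 (u + w)
  have k4 := h0 (v + w)
  have k5 := h0 u
  have k6 := h0 v
  have k7 := h0 w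
  simp only [h1, h2, h3] at k1 k2 k3 k4
  simp only [hs v u, hs w u, hs w v] at k1 k2 k3 k4
  simp only [hs w u]
  linear_combination (norm := module) (1 / 2 : ℚ) • k1 - (1 / 2 : ℚ) • k2 -
    (1 / 2 : ℚ) • k3 - (1 / 2 : ℚ) • k4 + (1 / 2 : ℚ) • k5 + (1 / 2 : ℚ) • k6 + (1 / 2 : ℚ) • k7

/-- the polarised relation -/
private lemma ka1_P (mf : MForm K Q n) (u v w y : Additive (RatFunc K)ˣ)
    (ω : Tx (n + 1) (RatFunc K)) :
    mf.M u v y (wT (n + 1) w ω) + mf.M v w y (wT (n + 1) u ω) +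
      mf.M w u y (wT (n + 1) v ω) = 0 := by
  refine ka1_abs (fun u v w => mf.M u v y (wT (n + 1) w ω)) ?_ ?_ ?_ ?_ ?_ u v w
  · intro u u' v w
    simp only [map_add, AddMonoidHom.add_apply, LinearMap.add_apply]
  · intro u v v' w
    simp only [map_add, AddMonoidHom.add_apply, LinearMap.add_apply]
  · intro u v w w'
    simp only [wT_add, LinearMap.add_apply, map_add]
  · intro u v w
    rw [mf.sym u v y]
  · intro u
    exact mf.E2 u y ω

private lemma ka1_P1 (mf : MForm K Q n) (x e y : Additive (RatFunc K)ˣ)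
    (ω : Tx (n + 1) (RatFunc K)) :
    mf.M x e y (wT (n + 1) x ω) = (-(1 / 2) : ℚ) • mf.M x x y (wT (n + 1) e ω) := by
  have h := ka1_P mf x e x y ω
  rw [mf.sym e x y] at h
  linear_combination (norm := module) (1 / 2 : ℚ) • h

private lemma ka1_C (mf : MForm K Q n) (x y : Additive (RatFunc K)ˣ)
    (g : Tx (n + 2) (RatFunc K)) :
    mf.M x y x g = (-(1 / 2) : ℚ) • mf.M x x y g := by
  have h := mf.cyc x x y
  have h' : mf.M x x y g + mf.M x y x g + mf.M y x x g = 0 := by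
    have := LinearMap.congr_fun h g
    simpa only [LinearMap.add_apply, LinearMap.zero_apply] using this
  rw [mf.sym y x x] at h'
  linear_combination (norm := module) (1 / 2 : ℚ) • h'

/-- Euler's formula, first form -/
private lemma ka1_E1 [IsAlgClosed K] (mf : MForm K Q n) (g : Tx (n + 2) (RatFunc K)) :
    ∃ S0 : Finset K, ∀ S : Finset K, S0 ⊆ S → ∀ u v y,
      ∑ a ∈ S, mf.M u v y (wT (n + 1) (ee a) (ctT (n + 1) (va a) g)) =
        ((n + 2 : ℕ) : ℚ) • mf.M u v y g := by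
  obtain ⟨S0, h0⟩ := euler_T (n + 1) g
  refine ⟨S0, fun S hS u v y => ?_⟩
  have h := mf.cT u v y _ (h0 S hS)
  rw [map_sub, map_sum, map_smul, sub_eq_zero] at h
  exact h

private lemma ka1_fin (j : ℕ) (g : Tx (j + 1) (RatFunc K)) :
    ∃ s : Finset K, ∀ a, a ∉ s → ctT j (va a) g = 0 := by
  obtain ⟨s, hs⟩ := ctT_fin dv j g
  refine ⟨s, fun a ha => ?_⟩
  have h := hs s (le_refl _) (Finsupp.lapply a)
  have e : ctT j (va a) g = ctT j (fD dv (Finsupp.lapply a)) g := rfl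
  rw [e, h]
  refine Finset.sum_eq_zero fun i hi => ?_
  have : i ≠ a := fun h => ha (h ▸ hi)
  rw [Finsupp.lapply_apply, Finsupp.single_apply, if_neg this, zero_smul]

/-- Euler's formula, second form -/
private lemma ka1_E2 [IsAlgClosed K] (mf : MForm K Q n) (g : Tx (n + 2) (RatFunc K)) :
    ∃ S0 : Finset K, ∀ S : Finset K, S0 ⊆ S → ∀ (b : K) u v y c,
      ∑ a ∈ S, mf.M u v y (wT (n + 1) c (wT n (ee a) (ctT n (va b) (ctT (n + 1) (va a) g)))) =
        (-((n + 1 : ℕ) : ℚ)) • mf.M u v y (wT (n + 1) c (ctT (n + 1) (va b) g)) := by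
  obtain ⟨s, hs⟩ := ka1_fin (n + 1) g
  choose T hT using fun b : K => euler_T n (ctT (n + 1) (va b) g)
  refine ⟨s.biUnion T, fun S hS b u v y c => ?_⟩
  by_cases hb : b ∈ s
  · have hTS : T b ⊆ S := fun i hi => hS (Finset.mem_biUnion.2 ⟨b, hb, hi⟩)
    have h := mf.cT u v y _ (wT_KT n c (hT b S hTS))
    rw [map_sub, map_sub, map_sum, map_sum, map_smul, map_smul, sub_eq_zero] at h
    rw [neg_smul, ← h, ← Finset.sum_neg_distrib]
    refine Finset.sum_congr rfl fun a _ => ?_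
    rw [ctT_ctT n (va b) (va a), map_neg, map_neg, map_neg]
  · have h0 := hs b hb
    rw [h0, map_zero, map_zero, smul_zero]
    refine Finset.sum_eq_zero fun a _ => ?_
    rw [ctT_ctT n (va b) (va a), h0, map_zero, neg_zero, map_zero, map_zero, map_zero]

private lemma ka1_comb1 {Q' : Type v} [AddCommGroup Q'] [Module ℚ Q'] {I : Type u}
    (S : Finset I) (L P R T W : I → Q') (m z : Q') (s : ℚ)
    (key : ∀ a, L a = P a - R a - (-(1 / 2) : ℚ) • T a + W a)
    (e1 : m = ∑ a ∈ S, P a) (e2 : (-(1 / 2) : ℚ) • m = ∑ a ∈ S, R a)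
    (e3 : ∑ a ∈ S, T a = s • m) (e4 : ∑ a ∈ S, W a = (s / 2) • m + (1 / 2 : ℚ) • z) :
    ∑ a ∈ S, L a = (3 / 2 + s) • m + (1 / 2 : ℚ) • z := by
  rw [Finset.sum_congr rfl fun a _ => key a, Finset.sum_add_distrib, Finset.sum_sub_distrib,
    Finset.sum_sub_distrib, ← e1, ← e2, ← Finset.smul_sum, e3, e4]
  module

private lemma ka1_comb2 {Q' : Type v} [AddCommGroup Q'] [Module ℚ Q'] {I : Type u}
    (S : Finset I) (L F1 F2 F3 F4 F5 : I → I → Q') (m z : Q') (s : ℚ)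
    (key : ∀ a b, L a b = F1 a b - F2 a b - F3 a b + F4 a b + F5 a b)
    (f1 : ∑ a ∈ S, ∑ b ∈ S, F1 a b = (-(1 / 2) : ℚ) • z)
    (f2 : ∑ a ∈ S, ∑ b ∈ S, F2 a b = ((s + 2) / 2) • m + (1 / 2 : ℚ) • z)
    (f3 : ∑ a ∈ S, ∑ b ∈ S, F3 a b = z)
    (f4 : ∑ a ∈ S, ∑ b ∈ S, F4 a b = (-(1 / 2) : ℚ) • z)
    (f5 : ∑ a ∈ S, ∑ b ∈ S, F5 a b = (-((s + 1) / 2)) • z) :
    ∑ a ∈ S, ∑ b ∈ S, L a b = (-((s + 2) / 2)) • m - ((s + 2 + 4) / 2) • z := by
  rw [Finset.sum_congr rfl fun a _ => Finset.sum_congr rfl fun b _ => key a b]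
  simp only [Finset.sum_add_distrib, Finset.sum_sub_distrib]
  rw [f1, f2, f3, f4, f5]
  module

private lemma ka1_sum1 {Q' : Type v} [AddCommGroup Q'] [Module ℚ Q'] {I : Type u}
    (S : Finset I) (F : I → I → Q') (G : I → Q') (q : ℚ) (h : ∀ b, ∑ a ∈ S, F a b = q • G b) :
    ∑ a ∈ S, ∑ b ∈ S, F a b = q • ∑ b ∈ S, G b := by
  rw [Finset.sum_comm, Finset.smul_sum]
  exact Finset.sum_congr rfl fun b _ => h b

private lemma ka1_sum2 {Q' : Type v} [AddCommGroup Q'] [Module ℚ Q'] {I : Type u}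
    (S : Finset I) (F : I → I → Q') (G : I → Q') (h : ∀ b, ∑ a ∈ S, F a b = G b) :
    ∑ a ∈ S, ∑ b ∈ S, F a b = ∑ b ∈ S, G b := by
  rw [Finset.sum_comm]
  exact Finset.sum_congr rfl fun b _ => h b

private lemma ka1_sum3 {Q' : Type v} [AddCommGroup Q'] [Module ℚ Q'] {I : Type u}
    (S : Finset I) (F : I → I → Q') (G : I → Q') (q : ℚ) (h : ∀ a, ∑ b ∈ S, F a b = q • G a) :
    ∑ a ∈ S, ∑ b ∈ S, F a b = q • ∑ b ∈ S, G b := by
  rw [Finset.smul_sum]
  exact Finset.sum_congr rfl fun b _ => h b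

private lemma ka1_sum5 {Q' : Type v} [AddCommGroup Q'] [Module ℚ Q'] {I : Type u}
    (S : Finset I) (F : I → I → Q') (G : I → Q') (q : ℚ) (h : ∀ b, ∑ a ∈ S, F a b = (-q) • G b) :
    ∑ a ∈ S, ∑ b ∈ S, (1 / 2 : ℚ) • F a b = (-(q / 2)) • ∑ b ∈ S, G b := by
  rw [Finset.sum_comm, Finset.smul_sum]
  refine Finset.sum_congr rfl fun b _ => ?_
  rw [← Finset.smul_sum, h b, smul_smul]
  congr 1
  ring

/-- the fourth sum of `xi1` -/
private lemma ka1_four [IsAlgClosed K] (mf : MForm K Q n) (x y : Additive (RatFunc K)ˣ)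
    (g : Tx (n + 2) (RatFunc K)) :
    ∃ S0 : Finset K, ∀ S : Finset K, S0 ⊆ S →
      ∑ a ∈ S, mf.M (ee a) y x (wT (n + 1) x (ctT (n + 1) (va a) g)) =
        (((n + 2 : ℕ) : ℚ) / 2) • mf.M x x y g + (1 / 2 : ℚ) • Zs mf x y g S := by
  obtain ⟨S0, h0⟩ := ka1_E1 mf g
  refine ⟨S0, fun S hS => ?_⟩
  have key : ∀ a : K, mf.M (ee a) y x (wT (n + 1) x (ctT (n + 1) (va a) g)) =
      (1 / 2 : ℚ) • mf.M x x y (wT (n + 1) (ee a) (ctT (n + 1) (va a) g)) +
      (1 / 2 : ℚ) • mf.M x x (ee a) (wT (n + 1) y (ctT (n + 1) (va a) g)) := by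
    intro a
    have h := ka1_P mf (ee a) y x x (ctT (n + 1) (va a) g)
    rw [mf.sym y x x, ka1_C, ka1_C] at h
    linear_combination (norm := module) (1 : ℚ) • h
  rw [Finset.sum_congr rfl fun a _ => key a, Finset.sum_add_distrib, ← Finset.smul_sum,
    ← Finset.smul_sum, h0 S hS, Zs, smul_smul]
  congr 2
  ring

private lemma ka1_lin0 {T' : Type w} {Q' : Type v} [AddCommGroup T'] [Module ℚ T']
    [AddCommGroup Q'] [Module ℚ Q'] (L1 L2 : T' →ₗ[ℚ] Q') (α : ℚ) (p q : T') (z y : Q')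
    (h1 : L1 q = z) (h2 : L2 q = y) :
    L1 (α • p - q) - L2 (α • p - q) = α • L1 p - α • L2 p - z + y := by
  rw [map_sub, map_sub, map_smul, map_smul, h1, h2]
  abel

theorem xi1 [IsAlgClosed K] (mf : MForm K Q n) (x y : Additive (RatFunc K)ˣ)
    (g : Tx (n + 2) (RatFunc K)) :
    ∃ S0 : Finset K, ∀ S : Finset K, S0 ⊆ S →
      ∑ a ∈ S, (mf.M (ee a) x y (ctT (n + 2) (va a) (wT (n + 2) x g)) -
        mf.M (ee a) y x (ctT (n + 2) (va a) (wT (n + 2) x g))) =
      (3 / 2 + ((n + 2 : ℕ) : ℚ)) • mf.M x x y g + (1 / 2 : ℚ) • Zs mf x y g S := by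
  obtain ⟨S1, h1⟩ := mf.exp1 x
  obtain ⟨S2, h2⟩ := ka1_E1 mf g
  obtain ⟨S3, h3⟩ := ka1_four mf x y g
  refine ⟨S1 ∪ S2 ∪ S3, fun S hS => ?_⟩
  have hS3 : S3 ⊆ S := Finset.union_subset_right hS
  have hS1 : S1 ⊆ S := Finset.union_subset_left (Finset.union_subset_left hS)
  have hS2 : S2 ⊆ S := Finset.union_subset_right (Finset.union_subset_left hS)
  have key : ∀ a : K, mf.M (ee a) x y (ctT (n + 2) (va a) (wT (n + 2) x g)) -
        mf.M (ee a) y x (ctT (n + 2) (va a) (wT (n + 2) x g)) =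
      va a x • mf.M (ee a) x y g - va a x • mf.M (ee a) y x g -
      (-(1 / 2) : ℚ) • mf.M x x y (wT (n + 1) (ee a) (ctT (n + 1) (va a) g)) +
      mf.M (ee a) y x (wT (n + 1) x (ctT (n + 1) (va a) g)) := by
    intro a
    have h9 : mf.M (ee a) x y (wT (n + 1) x (ctT (n + 1) (va a) g)) =
        (-(1 / 2) : ℚ) • mf.M x x y (wT (n + 1) (ee a) (ctT (n + 1) (va a) g)) := by
      rw [mf.sym (ee a) x y]
      exact ka1_P1 mf x (ee a) y _
    rw [ctT_wT (n + 1)]
    exact ka1_lin0 (mf.M (ee a) x y) (mf.M (ee a) y x) (va a x) g _ _ _ h9 rfl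
  have e1 := h1 S hS1 x y g
  have e2 := h1 S hS1 y x g
  have e3 := h2 S hS2 x x y
  have e4 := h3 S hS3
  rw [ka1_C] at e2
  exact ka1_comb1 S _ _ _ _ _ _ _ _ key e1 e2 e3 e4

private lemma ka1_lin {T' : Type w} {Q' : Type v} [AddCommGroup T'] [Module ℚ T']
    [AddCommGroup Q'] [Module ℚ Q'] (L1 L2 : T' →ₗ[ℚ] Q') (α β : ℚ) (p q r : T') (z : Q')
    (h1 : L1 r = 0) (h2 : L2 r = (-(1 / 2) : ℚ) • z) :
    L1 (α • p - β • q + r) - L2 (α • p - β • q + r) =
      α • L1 p - β • L1 q - α • L2 p + β • L2 q + (1 / 2 : ℚ) • z := by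
  rw [map_add, map_add, map_sub, map_sub, map_smul, map_smul, map_smul, map_smul, h1, h2]
  module

private lemma ka1_hd (x : Additive (RatFunc K)ˣ) (g : Tx (n + 2) (RatFunc K)) (a b : K) :
    ctT (n + 1) (va b) (ctT (n + 2) (va a) (wT (n + 2) x g)) =
      va a x • ctT (n + 1) (va b) g - va b x • ctT (n + 1) (va a) g +
        wT n x (ctT n (va b) (ctT (n + 1) (va a) g)) := by
  rw [ctT_wT (n + 1), map_sub, map_smul, ctT_wT n]
  abel

private lemma ka1_e1 (mf : MForm K Q n) (x y u v : Additive (RatFunc K)ˣ)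
    (w : Tx n (RatFunc K)) :
    mf.M u x v (wT (n + 1) y (wT n x w)) =
      (-(1 / 2) : ℚ) • mf.M x x v (wT (n + 1) y (wT n u w)) := by
  rw [wT_wT n y x, map_neg, mf.sym u x, ka1_P1, wT_wT n u y, map_neg, smul_neg, neg_neg]

private lemma ka1_key (mf : MForm K Q n) (x y : Additive (RatFunc K)ˣ)
    (g : Tx (n + 2) (RatFunc K)) (a b : K) :
    mf.M (ee a) y (ee b) (wT (n + 1) x (ctT (n + 1) (va b)
        (ctT (n + 2) (va a) (wT (n + 2) x g)))) -
      mf.M (ee a) x (ee b) (wT (n + 1) y (ctT (n + 1) (va b) (ctT (n + 2) (va a)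
          (wT (n + 2) x g)))) =
      va a x • mf.M (ee a) y (ee b) (wT (n + 1) x (ctT (n + 1) (va b) g)) -
      va b x • mf.M (ee a) y (ee b) (wT (n + 1) x (ctT (n + 1) (va a) g)) -
      va a x • mf.M (ee a) x (ee b) (wT (n + 1) y (ctT (n + 1) (va b) g)) +
      va b x • mf.M (ee a) x (ee b) (wT (n + 1) y (ctT (n + 1) (va a) g)) +
      (1 / 2 : ℚ) • mf.M x x (ee b) (wT (n + 1) y (wT n (ee a)
        (ctT n (va b) (ctT (n + 1) (va a) g)))) := by
  rw [ka1_hd]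
  refine ka1_lin ((mf.M (ee a) y (ee b)).comp (wT (n + 1) x))
    ((mf.M (ee a) x (ee b)).comp (wT (n + 1) y)) (va a x) (va b x) _ _ _ _ ?_ ?_
  · rw [LinearMap.comp_apply, wT_self, map_zero]
  · rw [LinearMap.comp_apply]
    exact ka1_e1 mf x y (ee a) (ee b) _

theorem xi2 [IsAlgClosed K] (mf : MForm K Q n) (x y : Additive (RatFunc K)ˣ)
    (g : Tx (n + 2) (RatFunc K)) :
    ∃ S0 : Finset K, ∀ S : Finset K, S0 ⊆ S →
      ∑ a ∈ S, ∑ b ∈ S,
        (mf.M (ee a) y (ee b) (wT (n + 1) x (ctT (n + 1) (va b) (ctT (n + 2) (va a)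
          (wT (n + 2) x g)))) -
        mf.M (ee a) x (ee b) (wT (n + 1) y (ctT (n + 1) (va b) (ctT (n + 2) (va a)
          (wT (n + 2) x g))))) =
      (-(((n + 2 : ℕ) : ℚ) / 2)) • mf.M x x y g -
        ((((n + 2 : ℕ) : ℚ) + 4) / 2) • Zs mf x y g S := by
  obtain ⟨S1, h1⟩ := mf.exp1 x
  obtain ⟨S2, h2⟩ := mf.exp3 x
  obtain ⟨S3, h3⟩ := ka1_four mf x y g
  obtain ⟨S4, h4⟩ := ka1_E2 mf g
  refine ⟨S1 ∪ S2 ∪ (S3 ∪ S4), fun S hS => ?_⟩
  have hS1 : S1 ⊆ S := Finset.union_subset_left (Finset.union_subset_left hS)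
  have hS2 : S2 ⊆ S := Finset.union_subset_right (Finset.union_subset_left hS)
  have hS3 : S3 ⊆ S := Finset.union_subset_left (Finset.union_subset_right hS)
  have hS4 : S4 ⊆ S := Finset.union_subset_right (Finset.union_subset_right hS)
  have h1' := h1 S hS1
  have h2' := h2 S hS2
  have h3' := h3 S hS3
  have h4' := h4 S hS4
  clear h1 h2 h3 h4
  have e2 : ∀ b : K, mf.M x y (ee b) (wT (n + 1) x (ctT (n + 1) (va b) g)) =
      (-(1 / 2) : ℚ) • mf.M x x (ee b) (wT (n + 1) y (ctT (n + 1) (va b) g)) := fun b =>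
    ka1_P1 mf x y (ee b) _
  have e3 : ∀ a : K, mf.M (ee a) x x (wT (n + 1) y (ctT (n + 1) (va a) g)) =
      (-(1 / 2) : ℚ) • mf.M x x (ee a) (wT (n + 1) y (ctT (n + 1) (va a) g)) := fun a => by
    rw [mf.sym (ee a) x x, ka1_C]
  -- the five double sums
  have f1 := ka1_sum1 S (fun a b => va a x • mf.M (ee a) y (ee b) (wT (n + 1) x
      (ctT (n + 1) (va b) g))) (fun b => mf.M x x (ee b) (wT (n + 1) y
      (ctT (n + 1) (va b) g))) (-(1 / 2) : ℚ) (fun b => (h1' y (ee b) (wT (n + 1) x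
      (ctT (n + 1) (va b) g))).symm.trans (e2 b))
  have f2 := (Finset.sum_congr rfl fun a _ => (h2' (ee a) y (wT (n + 1) x
      (ctT (n + 1) (va a) g))).symm).trans h3'
  have f3 := ka1_sum2 S (fun a b => va a x • mf.M (ee a) x (ee b) (wT (n + 1) y
      (ctT (n + 1) (va b) g))) (fun b => mf.M x x (ee b) (wT (n + 1) y
      (ctT (n + 1) (va b) g))) (fun b => (h1' x (ee b) (wT (n + 1) y
      (ctT (n + 1) (va b) g))).symm)
  have f4 := ka1_sum3 S (fun a b => va b x • mf.M (ee a) x (ee b) (wT (n + 1) y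
      (ctT (n + 1) (va a) g))) (fun b => mf.M x x (ee b) (wT (n + 1) y
      (ctT (n + 1) (va b) g))) (-(1 / 2) : ℚ) (fun a => (h2' (ee a) x (wT (n + 1) y
      (ctT (n + 1) (va a) g))).symm.trans (e3 a))
  have f5 := ka1_sum5 S (fun a b => mf.M x x (ee b) (wT (n + 1) y (wT n (ee a)
        (ctT n (va b) (ctT (n + 1) (va a) g))))) (fun b => mf.M x x (ee b) (wT (n + 1) y
      (ctT (n + 1) (va b) g))) ((n + 1 : ℕ) : ℚ) (fun b => h4' b x x (ee b) y)
  have hc2 : ((n + 2 : ℕ) : ℚ) = (n : ℚ) + 2 := by push_cast; ring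
  have hc1 : ((n + 1 : ℕ) : ℚ) = (n : ℚ) + 1 := by push_cast; ring
  rw [hc2] at f2
  rw [hc1] at f5
  rw [hc2]
  exact ka1_comb2 S _ _ _ _ _ _ _ _ _ (ka1_key mf x y g) f1 f2 f3 f4 f5

end

end Helper42.LT
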