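import Pool.Agent.Helper42.LT.KA1

set_option autoImplicit false

/-!
# LT-KA2: an element of B_3 tensor Lambda^{n+2} whose differential involves a constant is killed by
every MForm

PLAN (about 1 h).  F = RatFunc K, M = mf.M, s = n + 2.  For a finite set S define linear maps
Cx 2 (n+3) F -> Q:
  xi1_S u = sum_(a,c,d in S) M (ee a) (ee d) (ee c) (ll (n+2) (va c) (va d) (ct 2 (n+2) (va a) u)),
  xi2_S u = sum_(a,b,c,d in S) M (ee a) (ee c) (ee b) (wT (n+1) (ee d)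
              (ll (n+1) (va c) (va d) (ct 2 (n+1) (va b) (ct 2 (n+2) (va a) u)))).
 (1) Both vanish on KC 2 (n+2): u = wC 2 (n+2) (rU kappa) u': ct_wC, va_rU_apply, and
     ll (j+1) th et (wC 2 j v z) = wT j v (ll j th et z) (Cx_ind, ll_PB), so all arguments of M are
     wT (rU kappa) .. up to sign (wT_wT), killed by cT (wT_mem_KT).
 (2) For u = dC 0 (n+2) (PB 3 (n+2) (cl 3 x') g) = PB 2 (n+3) (cl 2 x') (wT (n+2) x g) with x = lgP x',
     y = l1P x': ct_PB, ll_PB: ll (va c) (va d) (PB ..) = (va c y * va d x - va c x * va d y) . (..), so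
     summing over c, d with MForm.exp1 (and sym), MForm.exp3, and wT_exp + cT for ee d in the
     exterior factor: for large S
       xi1_S u = sum_a (M (ee a) x y - M (ee a) y x) (ctT (va a) (x ^ g)),
       xi2_S u = sum_(a,b) (M (ee a) y (ee b) (x ^ ..) - M (ee a) x (ee b) (y ^ ..)).
     With xi1, xi2 (KA1.lean): (s + 4) xi1_S u + xi2_S u = (s+2)(s+3) M x x y g
     [ (s+4)(3/2+s) - s/2 = (s+2)(s+3), the Z terms cancel ] = (s+2)(s+3) pi (PB 3 (n+2) (cl 3 x') g).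
 (3) Cx_ind: for every z there is S0 such that for all S containing S0
     (s+4) xi1_S (dC z) + xi2_S (dC z) = (s+2)(s+3) pi z.  With hz and (1): pi z = 0.
     (Cx_ind gives g in Tx; PB 3 (n+2) (cl 3 x') g is exactly the generator.)
-/

noncomputable section

open Polynomial TensorProduct
open scoped Classical

namespace Helper42.LT

open Helper14.Gon Helper14.W4

universe u v w

section
variable {K : Type u} [Field K] {Q : Type v} [AddCommGroup Q] [Module ℚ Q] {n : ℕ}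

/-- contraction and multiplication -/
private lemma ka2_ll_wC {F : Type u} [Field F] (j : ℕ) (θ η : Additive Fˣ →+ ℚ) (v : Additive Fˣ)
    (z : Cx 2 j F) : ll (j + 1) θ η (wC 2 j v z) = wT j v (ll j θ η z) := by
  refine Cx_ind (fun z => ll (j + 1) θ η (wC 2 j v z) = wT j v (ll j θ η z))
    (by simp only [map_zero]) (fun a b ha hb => by simp only [map_add, ha, hb]) (fun x ω => ?_) z
  rw [wC_PB, ll_PB, ll_PB, map_smul]

private lemma ka2_exp2 [IsAlgClosed K] (mf : MForm K Q n) (v : Additive (RatFunc K)ˣ) :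
    ∃ S0 : Finset K, ∀ S : Finset K, S0 ⊆ S → ∀ u y g,
      mf.M u v y g = ∑ a ∈ S, va a v • mf.M u (ee a) y g := by
  obtain ⟨S0, h0⟩ := mf.exp1 v
  refine ⟨S0, fun S hS u y g => ?_⟩
  rw [mf.sym u v y, h0 S hS u y g]
  refine Finset.sum_congr rfl fun a _ => ?_
  rw [mf.sym u (ee a) y]

private lemma ka2_expT [IsAlgClosed K] (mf : MForm K Q n) (v : Additive (RatFunc K)ˣ) :
    ∃ S0 : Finset K, ∀ S : Finset K, S0 ⊆ S → ∀ u w y (ω : Tx (n + 1) (RatFunc K)),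
      mf.M u w y (wT (n + 1) v ω) = ∑ a ∈ S, va a v • mf.M u w y (wT (n + 1) (ee a) ω) := by
  obtain ⟨S0, h0⟩ := wT_exp (n + 1) v
  refine ⟨S0, fun S hS u w y ω => ?_⟩
  have h := mf.cT u w y _ (h0 S hS ω)
  rw [map_sub, map_sum, sub_eq_zero] at h
  rw [h]
  refine Finset.sum_congr rfl fun a _ => ?_
  rw [map_smul]

/-- the first linear map -/
private def ka2_L1 (mf : MForm K Q n) (S : Finset K) :
    Cx 2 (n + 2 + 1) (RatFunc K) →ₗ[ℚ] Q :=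
  ∑ a ∈ S, ∑ c ∈ S, ∑ d ∈ S,
    (mf.M (ee a) (ee d) (ee c)) ∘ₗ (ll (n + 2) (va c) (va d)) ∘ₗ (ct 2 (n + 2) (va a))

private lemma ka2_L1_apply (mf : MForm K Q n) (S : Finset K) (u : Cx 2 (n + 2 + 1) (RatFunc K)) :
    ka2_L1 mf S u = ∑ a ∈ S, ∑ c ∈ S, ∑ d ∈ S,
      mf.M (ee a) (ee d) (ee c) (ll (n + 2) (va c) (va d) (ct 2 (n + 2) (va a) u)) := by
  simp only [ka2_L1, LinearMap.sum_apply, LinearMap.comp_apply]

/-- the second linear map -/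
private def ka2_L2 (mf : MForm K Q n) (S : Finset K) :
    Cx 2 (n + 2 + 1) (RatFunc K) →ₗ[ℚ] Q :=
  ∑ a ∈ S, ∑ b ∈ S, ∑ c ∈ S, ∑ d ∈ S,
    (mf.M (ee a) (ee c) (ee b)) ∘ₗ (wT (n + 1) (ee d)) ∘ₗ (ll (n + 1) (va c) (va d)) ∘ₗ
      (ct 2 (n + 1) (va b)) ∘ₗ (ct 2 (n + 2) (va a))

private lemma ka2_L2_apply (mf : MForm K Q n) (S : Finset K) (u : Cx 2 (n + 2 + 1) (RatFunc K)) :
    ka2_L2 mf S u = ∑ a ∈ S, ∑ b ∈ S, ∑ c ∈ S, ∑ d ∈ S,
      mf.M (ee a) (ee c) (ee b) (wT (n + 1) (ee d) (ll (n + 1) (va c) (va d)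
        (ct 2 (n + 1) (va b) (ct 2 (n + 2) (va a) u)))) := by
  simp only [ka2_L2, LinearMap.sum_apply, LinearMap.comp_apply]

private lemma ka2_ct1 (κ : Additive Kˣ) (u : Cx 2 (n + 2) (RatFunc K)) (a : K) :
    ct 2 (n + 2) (va a) (wC 2 (n + 2) (rU κ) u) =
      - wC 2 (n + 1) (rU κ) (ct 2 (n + 1) (va a) u) := by
  have h := ct_wC 2 (n + 1) (va a) (rU κ) u
  rw [va_rU_apply, zero_smul, zero_sub] at h
  exact h

private lemma ka2_ct2 (κ : Additive Kˣ) (u : Cx 2 (n + 1) (RatFunc K)) (a : K) :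
    ct 2 (n + 1) (va a) (wC 2 (n + 1) (rU κ) u) =
      - wC 2 n (rU κ) (ct 2 n (va a) u) := by
  have h := ct_wC 2 n (va a) (rU κ) u
  rw [va_rU_apply, zero_smul, zero_sub] at h
  exact h

private lemma ka2_L1_KC (mf : MForm K Q n) (S : Finset K) (u : Cx 2 (n + 2 + 1) (RatFunc K))
    (hu : u ∈ KC 2 (n + 2)) : ka2_L1 mf S u = 0 := by
  have hle : (KC 2 (n + 2) : Submodule ℚ (Cx 2 (n + 2 + 1) (RatFunc K))) ≤
      LinearMap.ker (ka2_L1 mf S) := by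
    refine Submodule.span_le.2 ?_
    rintro _ ⟨κ, z, rfl⟩
    change ka2_L1 mf S (wC 2 (n + 2) (rU κ) z) = 0
    rw [ka2_L1_apply]
    refine Finset.sum_eq_zero fun a _ => Finset.sum_eq_zero fun c _ => Finset.sum_eq_zero fun d _ => ?_
    rw [ka2_ct1, map_neg, map_neg, neg_eq_zero]
    have h := ka2_ll_wC (n + 1) (va c) (va d) (rU κ) (ct 2 (n + 1) (va a) z)
    rw [show ll (n + 2) (va c) (va d) (wC 2 (n + 1) (rU κ) (ct 2 (n + 1) (va a) z)) =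
      wT (n + 1) (rU κ) (ll (n + 1) (va c) (va d) (ct 2 (n + 1) (va a) z)) from h]
    exact mf.cT _ _ _ _ (wT_mem_KT (n + 1) κ _)
  exact hle hu

private lemma ka2_L2_KC (mf : MForm K Q n) (S : Finset K) (u : Cx 2 (n + 2 + 1) (RatFunc K))
    (hu : u ∈ KC 2 (n + 2)) : ka2_L2 mf S u = 0 := by
  have hle : (KC 2 (n + 2) : Submodule ℚ (Cx 2 (n + 2 + 1) (RatFunc K))) ≤
      LinearMap.ker (ka2_L2 mf S) := by
    refine Submodule.span_le.2 ?_
    rintro _ ⟨κ, z, rfl⟩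
    change ka2_L2 mf S (wC 2 (n + 2) (rU κ) z) = 0
    rw [ka2_L2_apply]
    refine Finset.sum_eq_zero fun a _ => Finset.sum_eq_zero fun b _ =>
      Finset.sum_eq_zero fun c _ => Finset.sum_eq_zero fun d _ => ?_
    rw [ka2_ct1, map_neg, ka2_ct2, neg_neg, ka2_ll_wC, wT_wT, map_neg, neg_eq_zero]
    exact mf.cT _ _ _ _ (wT_mem_KT (n + 1) κ _)
  exact hle hu

private lemma ka2_bil1 (mf : MForm K Q n) {S : Finset K} {x y : Additive (RatFunc K)ˣ}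
    (hx : ∀ u y g, mf.M u x y g = ∑ a ∈ S, va a x • mf.M u (ee a) y g)
    (hy : ∀ u v g, mf.M u v y g = ∑ a ∈ S, va a y • mf.M u v (ee a) g)
    (e : Additive (RatFunc K)ˣ) (g : Tx (n + 2) (RatFunc K)) :
    ∑ c ∈ S, ∑ d ∈ S, (va c y * va d x) • mf.M e (ee d) (ee c) g = mf.M e x y g := by
  rw [hy e x g]
  refine Finset.sum_congr rfl fun c _ => ?_
  rw [hx e (ee c) g, Finset.smul_sum]
  refine Finset.sum_congr rfl fun d _ => ?_
  rw [smul_smul]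

private lemma ka2_bil2 (mf : MForm K Q n) {S : Finset K} {x y : Additive (RatFunc K)ˣ}
    (hy : ∀ u v g, mf.M u y v g = ∑ a ∈ S, va a y • mf.M u (ee a) v g)
    (hx : ∀ u w y (ω : Tx (n + 1) (RatFunc K)),
      mf.M u w y (wT (n + 1) x ω) = ∑ a ∈ S, va a x • mf.M u w y (wT (n + 1) (ee a) ω))
    (e f : Additive (RatFunc K)ˣ) (g : Tx (n + 1) (RatFunc K)) :
    ∑ c ∈ S, ∑ d ∈ S, (va c y * va d x) • mf.M e (ee c) f (wT (n + 1) (ee d) g) =
      mf.M e y f (wT (n + 1) x g) := by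
  rw [hy e f]
  refine Finset.sum_congr rfl fun c _ => ?_
  rw [hx e (ee c) f g, Finset.smul_sum]
  refine Finset.sum_congr rfl fun d _ => ?_
  rw [smul_smul]

private theorem ka2_gen1 (mf : MForm K Q n) (x' : P1 (RatFunc K))
    (g : Tx (n + 2) (RatFunc K)) (x y : Additive (RatFunc K)ˣ) (hxd : x = lgP x')
    (hyd : y = l1P x') (S : Finset K)
    (hx2 : ∀ u w g, mf.M u x w g = ∑ a ∈ S, va a x • mf.M u (ee a) w g)
    (hy2 : ∀ u w g, mf.M u y w g = ∑ a ∈ S, va a y • mf.M u (ee a) w g)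
    (hx3 : ∀ u v g, mf.M u v x g = ∑ a ∈ S, va a x • mf.M u v (ee a) g)
    (hy3 : ∀ u v g, mf.M u v y g = ∑ a ∈ S, va a y • mf.M u v (ee a) g) :
    ka2_L1 mf S (PB 2 (n + 2 + 1) (cl 2 x') (wT (n + 2) x g)) =
      ∑ a ∈ S, (mf.M (ee a) x y (ctT (n + 2) (va a) (wT (n + 2) x g)) -
        mf.M (ee a) y x (ctT (n + 2) (va a) (wT (n + 2) x g))) := by
    rw [ka2_L1_apply]
    refine Finset.sum_congr rfl fun a _ => ?_
    rw [← ka2_bil1 mf hx2 hy3 (ee a),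
      ← ka2_bil1 mf hy2 hx3 (ee a), ← Finset.sum_sub_distrib]
    refine Finset.sum_congr rfl fun c _ => ?_
    rw [← Finset.sum_sub_distrib]
    refine Finset.sum_congr rfl fun d _ => ?_
    rw [ct_PB, ll_PB, map_smul, sub_smul, hxd, hyd]

private theorem ka2_gen2 (mf : MForm K Q n) (x' : P1 (RatFunc K))
    (g : Tx (n + 2) (RatFunc K)) (x y : Additive (RatFunc K)ˣ) (hxd : x = lgP x')
    (hyd : y = l1P x') (S : Finset K)
    (hx2 : ∀ u w g, mf.M u x w g = ∑ a ∈ S, va a x • mf.M u (ee a) w g)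
    (hy2 : ∀ u w g, mf.M u y w g = ∑ a ∈ S, va a y • mf.M u (ee a) w g)
    (hxT : ∀ u w y (ω : Tx (n + 1) (RatFunc K)),
      mf.M u w y (wT (n + 1) x ω) = ∑ a ∈ S, va a x • mf.M u w y (wT (n + 1) (ee a) ω))
    (hyT : ∀ u w x (ω : Tx (n + 1) (RatFunc K)),
      mf.M u w x (wT (n + 1) y ω) = ∑ a ∈ S, va a y • mf.M u w x (wT (n + 1) (ee a) ω)) :
    ka2_L2 mf S (PB 2 (n + 2 + 1) (cl 2 x') (wT (n + 2) x g)) =
      ∑ a ∈ S, ∑ b ∈ S,
        (mf.M (ee a) y (ee b) (wT (n + 1) x (ctT (n + 1) (va b) (ctT (n + 2) (va a)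
          (wT (n + 2) x g)))) -
        mf.M (ee a) x (ee b) (wT (n + 1) y (ctT (n + 1) (va b) (ctT (n + 2) (va a)
          (wT (n + 2) x g))))) := by
    rw [ka2_L2_apply]
    refine Finset.sum_congr rfl fun a _ => Finset.sum_congr rfl fun b _ => ?_
    rw [← ka2_bil2 mf hy2 hxT (ee a) (ee b),
      ← ka2_bil2 mf hx2 hyT (ee a) (ee b),
      ← Finset.sum_sub_distrib]
    refine Finset.sum_congr rfl fun c _ => ?_
    rw [← Finset.sum_sub_distrib]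
    refine Finset.sum_congr rfl fun d _ => ?_
    rw [ct_PB, ct_PB, ll_PB, map_smul, map_smul, sub_smul, hxd, hyd]

private lemma ka2_gen [IsAlgClosed K] (mf : MForm K Q n) (x' : P1 (RatFunc K))
    (g : Tx (n + 2) (RatFunc K)) :
    ∃ S0 : Finset K, ∀ S : Finset K, S0 ⊆ S →
      (((n + 2 : ℕ) : ℚ) + 4) • ka2_L1 mf S (dC 0 (n + 2) (PB 3 (n + 2) (cl 3 x') g)) +
        ka2_L2 mf S (dC 0 (n + 2) (PB 3 (n + 2) (cl 3 x') g)) =
      ((((n + 2 : ℕ) : ℚ) + 2) * (((n + 2 : ℕ) : ℚ) + 3)) • mf.M (lgP x') (lgP x') (l1P x') g := by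
  set x := lgP x' with hxdef
  set y := l1P x' with hydef
  obtain ⟨T1, h1⟩ := ka2_exp2 mf x
  obtain ⟨T2, h2⟩ := ka2_exp2 mf y
  obtain ⟨T3, h3⟩ := mf.exp3 x
  obtain ⟨T4, h4⟩ := mf.exp3 y
  obtain ⟨T5, h5⟩ := ka2_expT mf x
  obtain ⟨T6, h6⟩ := ka2_expT mf y
  obtain ⟨T7, h7⟩ := xi1 mf x y g
  obtain ⟨T8, h8⟩ := xi2 mf x y g
  refine ⟨((T1 ∪ T2) ∪ (T3 ∪ T4)) ∪ ((T5 ∪ T6) ∪ (T7 ∪ T8)), fun S hS => ?_⟩
  have k1 : T1 ⊆ S := fun a ha => hS (by simp [ha])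
  have k2 : T2 ⊆ S := fun a ha => hS (by simp [ha])
  have k3 : T3 ⊆ S := fun a ha => hS (by simp [ha])
  have k4 : T4 ⊆ S := fun a ha => hS (by simp [ha])
  have k5 : T5 ⊆ S := fun a ha => hS (by simp [ha])
  have k6 : T6 ⊆ S := fun a ha => hS (by simp [ha])
  have k7 : T7 ⊆ S := fun a ha => hS (by simp [ha])
  have k8 : T8 ⊆ S := fun a ha => hS (by simp [ha])
  have e0 : dC 0 (n + 2) (PB 3 (n + 2) (cl 3 x') g) =
      PB 2 (n + 2 + 1) (cl 2 x') (wT (n + 2) x g) := dC_PB 0 (n + 2) x' g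
  rw [e0]
  have e1 := ka2_gen1 mf x' g x y hxdef hydef S (h1 S k1) (h2 S k2) (h3 S k3) (h4 S k4)
  have e2 := ka2_gen2 mf x' g x y hxdef hydef S (h1 S k1) (h2 S k2) (h5 S k5) (h6 S k6)
  rw [e1, e2, h7 S k7, h8 S k8]
  module

theorem kos_abs [IsAlgClosed K] (mf : MForm K Q n)
    (π : Cx 3 (n + 2) (RatFunc K) →ₗ[ℚ] Q)
    (hπ : ∀ (x : P1 (RatFunc K)) (g : Tx (n + 2) (RatFunc K)),
      π (PB 3 (n + 2) (cl 3 x) g) = mf.M (lgP x) (lgP x) (l1P x) g)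
    (z : Cx 3 (n + 2) (RatFunc K)) (hz : dC 0 (n + 2) z ∈ KC 2 (n + 2)) : π z = 0 := by
  have key : ∃ S0 : Finset K, ∀ S : Finset K, S0 ⊆ S →
      (((n + 2 : ℕ) : ℚ) + 4) • ka2_L1 mf S (dC 0 (n + 2) z) + ka2_L2 mf S (dC 0 (n + 2) z) =
      ((((n + 2 : ℕ) : ℚ) + 2) * (((n + 2 : ℕ) : ℚ) + 3)) • π z := by
    refine Cx_ind (fun z => ∃ S0 : Finset K, ∀ S : Finset K, S0 ⊆ S →
      (((n + 2 : ℕ) : ℚ) + 4) • ka2_L1 mf S (dC 0 (n + 2) z) + ka2_L2 mf S (dC 0 (n + 2) z) =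
      ((((n + 2 : ℕ) : ℚ) + 2) * (((n + 2 : ℕ) : ℚ) + 3)) • π z) ?_ ?_ ?_ z
    · refine ⟨∅, fun S _ => ?_⟩
      simp only [map_zero, smul_zero, add_zero]
    · rintro a b ⟨S1, h1⟩ ⟨S2, h2⟩
      refine ⟨S1 ∪ S2, fun S hS => ?_⟩
      have k1 := h1 S (fun a ha => hS (Finset.mem_union_left _ ha))
      have k2 := h2 S (fun a ha => hS (Finset.mem_union_right _ ha))
      rw [map_add, map_add, map_add, map_add, smul_add, smul_add, ← k1, ← k2]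
      abel
    · intro x' g
      obtain ⟨S0, h0⟩ := ka2_gen mf x' g
      refine ⟨S0, fun S hS => ?_⟩
      rw [h0 S hS, hπ]
  obtain ⟨S0, h0⟩ := key
  have h := h0 S0 (Finset.Subset.refl _)
  have z1 : ka2_L1 mf S0 (dC 0 (n + 2) z) = 0 := ka2_L1_KC mf S0 _ hz
  have z2 : ka2_L2 mf S0 (dC 0 (n + 2) z) = 0 := ka2_L2_KC mf S0 _ hz
  rw [z1, z2, smul_zero, add_zero] at h
  have hne : ((((n + 2 : ℕ) : ℚ) + 2) * (((n + 2 : ℕ) : ℚ) + 3)) ≠ 0 := by positivity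
  exact (smul_eq_zero.1 h.symm).resolve_left hne

end

end Helper42.LT
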