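import Pool.Agent.Helper42.LT.Hk
import Pool.Agent.Helper42.LT.KA2

set_option autoImplicit false

/-!
# LT-KB: elements of B_3 tensor Lambda^{n+2} whose differential involves a constant

PLAN (about 0.6 h).  F = RatFunc K.
 * koszul: T := SY (n+1) + NC 1 (n+2) + KC 3 (n+1) (submodule of Cx 3 (n+2) F), Q := the quotient, q = mkQ.
   hk from exists_hk K (Hk.lean).  MForm: M u v y = q o (tn 3 (n+2) . (hk u v y)) as a linear map in g
   (tnL 3 (n+2)).flip (hk u v y) composed with mkQ, additive in u, v, y.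
   cT: tn_KT (g in KT (n+1) -> KC 3 (n+1)).  E2: tn 3 (n+2) (wT (n+1) u omega) b =
   rm1 3 (n+1) omega (tn 3 1 (wT 0 u u0) b) (rm1_tn), in SY (n+1) by the last property of hk.
   pi := mkQ; hpi: PB 3 (n+2) (cl 3 x) g = tn 3 (n+2) g (PB 3 0 (cl 3 x) u0) (tn_PB), and the difference
   to hk is in range rC: tn_mem_NC.  kos_abs (KA2.lean) gives q z = 0.
-/

noncomputable section

open Polynomial TensorProduct
open scoped Classical

namespace Helper42.LT

open Helper14.Gon Helper14.W4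

universe u v w

section
variable {K : Type u} [Field K]

theorem koszul_aux [IsAlgClosed K] (n : ℕ) {Q : Type w} [AddCommGroup Q] [Module ℚ Q]
    (q : Cx 3 (n + 2) (RatFunc K) →ₗ[ℚ] Q)
    (hSY : ∀ z ∈ (SY (n + 1) : Submodule ℚ (Cx 3 (n + 2) (RatFunc K))), q z = 0)
    (hNC : ∀ z ∈ (NC 1 (n + 2) : Submodule ℚ (Cx 3 (n + 2) (RatFunc K))), q z = 0)
    (hKC : ∀ z ∈ (KC 3 (n + 1) : Submodule ℚ (Cx 3 (n + 2) (RatFunc K))), q z = 0)
    (z : Cx 3 (n + 2) (RatFunc K)) (hz : dC 0 (n + 2) z ∈ KC 2 (n + 2)) : q z = 0 := by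
  obtain ⟨hk, hsym, hcyc, hc1, hc3, hgen, hE2⟩ := exists_hk K
  let phi : Cx 3 0 (RatFunc K) →+ (Tx (n + 2) (RatFunc K) →ₗ[ℚ] Q) :=
    AddMonoidHom.mk' (fun b => q ∘ₗ (tnL 3 (n + 2)).flip b) (fun a b => by
      rw [map_add, LinearMap.comp_add])
  have phi_apply : ∀ (b : Cx 3 0 (RatFunc K)) (g : Tx (n + 2) (RatFunc K)),
      phi b g = q (tn 3 (n + 2) g b) := fun b g => rfl
  clear_value phi
  let M : Additive (RatFunc K)ˣ →+ Additive (RatFunc K)ˣ →+ Additive (RatFunc K)ˣ →+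
      (Tx (n + 2) (RatFunc K) →ₗ[ℚ] Q) :=
    AddMonoidHom.mk' (fun u => AddMonoidHom.mk' (fun v => phi.comp (hk u v)) (fun a b => by
      rw [map_add, AddMonoidHom.comp_add])) (fun a b => by
        refine AddMonoidHom.ext fun v => AddMonoidHom.ext fun y => ?_
        change phi (hk (a + b) v y) = phi (hk a v y) + phi (hk b v y)
        rw [map_add, AddMonoidHom.add_apply, AddMonoidHom.add_apply, map_add])
  have M_apply : ∀ u v y, M u v y = phi (hk u v y) := fun u v y => rfl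
  clear_value M
  let mf : MForm K Q n :=
    { M := M
      sym := fun u v y => by rw [M_apply, M_apply, hsym]
      cyc := fun u v w => by
        have h := congrArg phi (hcyc u v w)
        rw [phi.map_add, phi.map_add, phi.map_zero] at h
        rw [M_apply, M_apply, M_apply]
        exact h
      c1 := fun κ v y => by rw [M_apply, hc1, phi.map_zero]
      c3 := fun u v κ => by rw [M_apply, hc3, phi.map_zero]
      cT := fun u v y g hg => by
        rw [M_apply, phi_apply]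
        exact hKC _ (tn_KT 3 (n + 1) hg _)
      E2 := fun u y ω => by
        rw [M_apply, phi_apply]
        exact hSY _ (Submodule.subset_span ⟨_, ω, hE2 u y, (rm1_tn 3 (n + 1) ω u _).symm⟩) }
  have hπ : ∀ (x : P1 (RatFunc K)) (g : Tx (n + 2) (RatFunc K)),
      q (PB 3 (n + 2) (cl 3 x) g) = mf.M (lgP x) (lgP x) (l1P x) g := by
    intro x g
    have h1 : mf.M (lgP x) (lgP x) (l1P x) g =
        q (tn 3 (n + 2) g (hk (lgP x) (lgP x) (l1P x))) := by
      change M (lgP x) (lgP x) (l1P x) g = _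
      rw [M_apply, phi_apply]
    obtain ⟨y, hy⟩ := hgen x
    have h2 : tn 3 (n + 2) g (rC 1 0 y) = tn 3 (n + 2) g (PB 3 0 (cl 3 x) (u0 _)) -
        tn 3 (n + 2) g (hk (lgP x) (lgP x) (l1P x)) := by
      rw [hy, map_sub]
    have h3 : q (tn 3 (n + 2) g (rC 1 0 y)) = 0 := hNC _ (tn_mem_NC 1 (n + 2) y g)
    rw [h2, map_sub, sub_eq_zero, tn_PB 3 (n + 2) g (cl 3 x)] at h3
    rw [h1, h3]
  exact kos_abs mf q hπ z hz

theorem koszul [IsAlgClosed K] (n : ℕ) (z : Cx 3 (n + 2) (RatFunc K))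
    (hz : dC 0 (n + 2) z ∈ KC 2 (n + 2)) :
    z ∈ SY (n + 1) ⊔ NC 1 (n + 2) ⊔ KC 3 (n + 1) := by
  let T : Submodule ℚ (Cx 3 (n + 2) (RatFunc K)) := SY (n + 1) ⊔ NC 1 (n + 2) ⊔ KC 3 (n + 1)
  have hSY : (SY (n + 1) : Submodule ℚ (Cx 3 (n + 2) (RatFunc K))) ≤ T :=
    le_sup_left.trans le_sup_left
  have hNC : (NC 1 (n + 2) : Submodule ℚ (Cx 3 (n + 2) (RatFunc K))) ≤ T :=
    le_sup_right.trans le_sup_left
  have hKC : (KC 3 (n + 1) : Submodule ℚ (Cx 3 (n + 2) (RatFunc K))) ≤ T := le_sup_right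
  have h := koszul_aux n T.mkQ
    (fun z hz => (Submodule.Quotient.mk_eq_zero T).2 (hSY hz))
    (fun z hz => (Submodule.Quotient.mk_eq_zero T).2 (hNC hz))
    (fun z hz => (Submodule.Quotient.mk_eq_zero T).2 (hKC hz)) z hz
  exact (Submodule.Quotient.mk_eq_zero T).1 h

end

end Helper42.LT
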