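import Pool.Agent.Helper18.W4.Star
import Pool.Agent.Helper42.LT.Defs

set_option autoImplicit false

/-!
# LT-SD: star elements with poles at infinity and at a third point

PLAN (about 1 h).  Look at Helper18/W4/Star.lean (bb_five, star_dC, star_kappa).
 * star_gen: W := -(-GG 3 m (lgP f1) + GG 3 f1 (lgP f1) + GG 3 f2 (lgP f1) - GG 3 f3 (lgP f1) +
   GG 3 f1 (lgP f2)).  (i) is star_dC.  For (ii), (iii) use wC 3 1 v (GG 3 x g) =
   PB 3 2 (cl 3 x) (wT 1 v (wT 0 g u0)) = PB 3 2 (cl 3 x) (W2 v g), and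
   PB 3 2 (cl 3 x) (W2 (lgP x) g) = dC 1 1 (GG 4 x g) (dC_PB):
   (ii) wC (lgP f1) W = - PB 3 2 (cl 3 f1) (W2 (lgP f1) (lgP f2)) = - dC 1 1 (GG 4 f1 (lgP f2)) (W2_self);
   (iii) wC (lgP f2) W: PB m (W2 f2 f1) with f1 = m + f2 (hm): W2 f2 (m + f2) = - W2 m f2, so
     = - dC (GG 4 m (lgP f2)); PB f1 (W2 f2 f1) = - dC (GG 4 f1 (lgP f2)); PB f2 (W2 f2 f1) =
     dC (GG 4 f2 (lgP f1)); PB f3 (W2 f2 f1) with f2 = f3 + rU kappa (h3): dC (GG 4 f3 (lgP f1)) +
     PB f3 (W2 (rU kappa) (lgP f1)), the last one in KC 3 1; PB f1 (W2 f2 f2) = 0.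
 * starI (pole at infinity) for y = bb (some c), c <> 0, 1: d := (b - c a)/(1 - c) (d <> a, b,
   (d-b)/(d-a) = c), f1 = (t-a)/(d-a), f2 = (t-b)/(d-b), m = f1/f2, f3 = (t-b)/(a-b), bb_five.
   lgP f1 = ee a - rU .., lgP f2 = ee b - rU .., kappa = lg of (a-b)/(d-b).
   W2 (lgP f1) (lgP f2) = W2 (ee a) (ee b) modulo terms with a constant (their PB 2 2 .. is in KC 2 1);
   PB 2 2 (cl 2 (some (C c))) omega = tn 2 2 omega (rC 0 0 (bb (some c))) (rC_bb).
   General y: the statement is closed under sums and multiples in y; y = PB 2 0 (cl 2 x) omega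
   (Cx_ind, omega = e0 omega . u0 by e0_inj) = q . bb x; x = none, 0, 1: bb_inf, bb_zero, bb_one: W = 0.
 * starD (pole at d), y = bb (some c), e a further point (e <> a, b, d),
     f1 = (t-a)(e-d)/((t-d)(e-a)), f2 = (t-b)(e-d)/((t-d)(e-b)), m = (t-a)(e-b)/((t-b)(e-a)) = f1/f2,
     f3 = (t-b)(a-d)/((t-d)(a-b)), c = (e-b)(a-d)/((b-d)(e-a)),
     1-f1 = (t-e)(d-a)/((t-d)(e-a)), 1-f2 = (t-e)(d-b)/((t-d)(e-b)), 1-m = (t-e)(b-a)/((t-b)(e-a)),
     1-f3 = (t-a)(d-b)/((t-d)(a-b)), 1-c = (b-a)(e-d)/((b-d)(e-a)) up to sign.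
   bb m + bb f2 - bb f1 - bb f3 = bb (C c): bb_rel_of (Star.lean) at b (there m = infinity, f2 = f3 = 0,
   f1 = 1 - c), key: the symbol identity (checked by computer; W2 bilinear, W2_self, W2_swap; the
   symbols are lg (t-a), lg (t-b), lg (t-d), lg (t-e) and the constants lg (e-d) etc.; W2_five may
   apply).  kappa = lgP f2 - lgP f3 constant.
   Solving for e: c e (b-d) - c a (b-d) = (e-b)(a-d): e ((a-d) - c (b-d)) = b (a-d) - c a (b-d), possible if
   c <> c0 := (a-d)/(b-d); then e <> a, b, d automatically for c <> 0, 1.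
   For c = c0: bb (some c0) = - bb (some (1 - c0)) (bb_sub): if 1 - c0 <> c0 use 1 - c0 (it is <> 0, 1,
   c0), if 1 - c0 = c0 then bb (some c0) = 0 (2 bb = 0).
   wC (ee a - ee d) W = wC (lgP f1) W + wC (rU ..) W: (ii) and KC.
-/

noncomputable section

open Polynomial TensorProduct
open scoped Classical

namespace Helper42.LT

open Helper14.Gon Helper14.W4

universe u v w

section
variable {K : Type u} [Field K]

private lemma sd_wC_add {F : Type u} [Field F] (k j : ℕ) (v v' : Additive Fˣ) (z : Cx k j F) :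
    wC k j (v + v') z = wC k j v z + wC k j v' z := by
  rw [wC, wT_add, mapT_add]
  rfl

private lemma sd_wC_GG {F : Type u} [Field F] (v : Additive Fˣ) (x : P1 F) (g : Additive Fˣ) :
    wC 3 1 v (GG 3 x g) = PB 3 2 (cl 3 x) (W2 v g) := wC_PB 3 1 v _ _

private lemma sd_dC_GG {F : Type u} [Field F] (x : P1 F) (g : Additive Fˣ) :
    dC 1 1 (GG 4 x g) = PB 3 2 (cl 3 x) (W2 (lgP x) g) := dC_PB 1 1 x _

private lemma sd_KC_left (k : ℕ) (b : B k (RatFunc K)) (κ : Additive Kˣ)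
    (v : Additive (RatFunc K)ˣ) : PB k 2 b (W2 (rU κ) v) ∈ KC k 1 := by
  have h := wC_mem_KC k 1 κ (PB k 1 b (wT 0 v (u0 (RatFunc K))))
  rw [wC_PB] at h
  exact h

private lemma sd_KC_right (k : ℕ) (b : B k (RatFunc K)) (κ : Additive Kˣ)
    (v : Additive (RatFunc K)ˣ) : PB k 2 b (W2 v (rU κ)) ∈ KC k 1 := by
  rw [W2_swap, map_neg]
  exact neg_mem (sd_KC_left k b κ v)

private lemma sd_mem_of_eq {k j : ℕ} {S : Submodule ℚ (Cx k j (RatFunc K))}
    {x y : Cx k j (RatFunc K)} (h : x = y) (hy : y ∈ S) : x ∈ S := h ▸ hy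

private lemma sd_lin (v : Additive (RatFunc K)ˣ) (x1 x2 x3 x4 x5 : Cx 3 1 (RatFunc K)) :
    wC 3 1 v (-(-x1 + x2 + x3 - x4 + x5)) =
      -(-wC 3 1 v x1 + wC 3 1 v x2 + wC 3 1 v x3 - wC 3 1 v x4 + wC 3 1 v x5) := by
  simp only [map_neg, map_add, map_sub]

theorem star_gen (m f2 f1 f3 c : P1 (RatFunc K)) (κ : Additive Kˣ)
    (h : bb m + bb f2 - bb f1 - bb f3 = bb c) (hm : lgP m = lgP f1 - lgP f2)
    (h3 : lgP f3 = lgP f2 - rU κ) :
    ∃ W : Cx 3 1 (RatFunc K),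
      dC 0 1 W = PB 2 2 (cl 2 c) (W2 (lgP f1) (lgP f2)) + PB 2 2 (cl 2 f3) (W2 (lgP f1) (rU κ)) ∧
      wC 3 1 (lgP f1) W ∈ WW 1 1 ∧ wC 3 1 (lgP f2) W ∈ WW 1 1 := by
  refine ⟨-(-GG 3 m (lgP f1) + GG 3 f1 (lgP f1) + GG 3 f2 (lgP f1) - GG 3 f3 (lgP f1) +
      GG 3 f1 (lgP f2)), star_dC m f2 f1 f3 c (rU κ) h hm h3, ?_, ?_⟩
  · rw [sd_lin, sd_wC_GG, sd_wC_GG, sd_wC_GG, sd_wC_GG, sd_wC_GG, W2_self, map_zero, map_zero,
      map_zero, map_zero, neg_zero, add_zero, add_zero, sub_zero, zero_add, ← sd_dC_GG]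
    exact neg_mem (dC_mem_WW 1 1 _)
  · rw [sd_lin, sd_wC_GG, sd_wC_GG, sd_wC_GG, sd_wC_GG, sd_wC_GG, W2_self (lgP f2), map_zero,
      add_zero]
    have a1 : W2 (lgP f2) (lgP f1) = - W2 (lgP m) (lgP f2) := by
      rw [hm, map_sub, AddMonoidHom.sub_apply, W2_self, sub_zero, ← W2_swap]
    have a2 : W2 (lgP f2) (lgP f1) = - W2 (lgP f1) (lgP f2) := W2_swap _ _
    have a3 : W2 (lgP f2) (lgP f1) = W2 (lgP f3) (lgP f1) + W2 (rU κ) (lgP f1) := by
      rw [h3, map_sub, AddMonoidHom.sub_apply, sub_add_cancel]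
    have b1 : PB 3 2 (cl 3 m) (W2 (lgP f2) (lgP f1)) ∈ WW 1 1 := by
      rw [a1, map_neg, ← sd_dC_GG]
      exact neg_mem (dC_mem_WW 1 1 _)
    have b2 : PB 3 2 (cl 3 f1) (W2 (lgP f2) (lgP f1)) ∈ WW 1 1 := by
      rw [a2, map_neg, ← sd_dC_GG]
      exact neg_mem (dC_mem_WW 1 1 _)
    have b3 : PB 3 2 (cl 3 f2) (W2 (lgP f2) (lgP f1)) ∈ WW 1 1 := by
      rw [← sd_dC_GG]
      exact dC_mem_WW 1 1 _
    have b4 : PB 3 2 (cl 3 f3) (W2 (lgP f2) (lgP f1)) ∈ WW 1 1 := by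
      rw [a3, map_add, ← sd_dC_GG]
      exact add_mem (dC_mem_WW 1 1 _) (KC_le_WW 1 1 (sd_KC_left 3 _ κ _))
    exact neg_mem (sub_mem (add_mem (add_mem (neg_mem b1) b2) b3) b4)

/-- the five-term relation with two parameters, general coordinate -/
private lemma sd_five (τ : RatFunc K) (p : K) {a b d : K} (hX : ∀ x : K, τ - RatFunc.C x ≠ 0)
    (sX : ∀ x : K, spec p (some (τ - RatFunc.C x)) = some (b - x))
    (hab : a ≠ b) (hda : d ≠ a) (hdb : d ≠ b) :
    bb (some ((τ - RatFunc.C a) / RatFunc.C (d - a) /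
        ((τ - RatFunc.C b) / RatFunc.C (d - b)))) +
      bb (some ((τ - RatFunc.C b) / RatFunc.C (d - b))) -
      bb (some ((τ - RatFunc.C a) / RatFunc.C (d - a))) -
      bb (some ((τ - RatFunc.C b) / RatFunc.C (a - b))) =
    bb (some (RatFunc.C ((d - b) / (d - a)) : RatFunc K)) := by
  have hda' : d - a ≠ 0 := sub_ne_zero.2 hda
  have hdb' : d - b ≠ 0 := sub_ne_zero.2 hdb
  have hab' : a - b ≠ 0 := sub_ne_zero.2 hab
  have cda : (RatFunc.C (d - a) : RatFunc K) ≠ 0 := (_root_.map_ne_zero RatFunc.C).2 hda'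
  have cdb : (RatFunc.C (d - b) : RatFunc K) ≠ 0 := (_root_.map_ne_zero RatFunc.C).2 hdb'
  have cab : (RatFunc.C (a - b) : RatFunc K) ≠ 0 := (_root_.map_ne_zero RatFunc.C).2 hab'
  have hD : (RatFunc.C d - τ : RatFunc K) ≠ 0 := by
    rw [← neg_sub]; exact neg_ne_zero.2 (hX d)
  have ec : (RatFunc.C ((d - b) / (d - a)) : RatFunc K) = RatFunc.C (d - b) / RatFunc.C (d - a) :=
    map_div₀ _ _ _
  have e1 : (1 : RatFunc K) - (τ - RatFunc.C a) / RatFunc.C (d - a) =
      (RatFunc.C d - τ) / RatFunc.C (d - a) := by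
    rw [eq_div_iff cda, sub_mul, one_mul, div_mul_cancel₀ _ cda, map_sub]; ring
  have e2 : (1 : RatFunc K) - (τ - RatFunc.C b) / RatFunc.C (d - b) =
      (RatFunc.C d - τ) / RatFunc.C (d - b) := by
    rw [eq_div_iff cdb, sub_mul, one_mul, div_mul_cancel₀ _ cdb, map_sub]; ring
  have e3 : (1 : RatFunc K) - (τ - RatFunc.C b) / RatFunc.C (a - b) =
      -(τ - RatFunc.C a) / RatFunc.C (a - b) := by
    rw [eq_div_iff cab, sub_mul, one_mul, div_mul_cancel₀ _ cab, map_sub]; ring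
  have e4 : (1 : RatFunc K) - (τ - RatFunc.C a) / RatFunc.C (d - a) /
        ((τ - RatFunc.C b) / RatFunc.C (d - b)) =
      (RatFunc.C (a - b) * (RatFunc.C d - τ)) /
        (RatFunc.C (d - a) * (τ - RatFunc.C b)) := by
    have := hX b
    rw [div_div_div_eq, eq_div_iff (mul_ne_zero cda this), sub_mul, one_mul,
      div_mul_cancel₀ _ (mul_ne_zero cda this), map_sub, map_sub, map_sub]
    ring
  have e5 : (1 : RatFunc K) - RatFunc.C (d - b) / RatFunc.C (d - a) =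
      -RatFunc.C (a - b) / RatFunc.C (d - a) := by
    rw [eq_div_iff cda, sub_mul, one_mul, div_mul_cancel₀ _ cda, map_sub, map_sub, map_sub]; ring
  have key : dT 0 (bb (some ((τ - RatFunc.C a) / RatFunc.C (d - a) /
        ((τ - RatFunc.C b) / RatFunc.C (d - b)))) +
      bb (some ((τ - RatFunc.C b) / RatFunc.C (d - b))) -
      bb (some ((τ - RatFunc.C a) / RatFunc.C (d - a))) -
      bb (some ((τ - RatFunc.C b) / RatFunc.C (a - b))) -
      bb (some (RatFunc.C ((d - b) / (d - a)) : RatFunc K))) = 0 := by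
    rw [dT_five]
    simp only [l1P_some, lgP_some]
    rw [ec, e1, e2, e3, e4, e5, lg_div (mul_ne_zero cab hD) (mul_ne_zero cda (hX b)),
      lg_mul cab hD, lg_mul cda (hX b), lg_div (div_ne_zero (hX a) cda) (div_ne_zero (hX b) cdb),
      lg_div (hX a) cda, lg_div (hX b) cdb, lg_div (hX b) cab, lg_div hD cda, lg_div hD cdb,
      lg_div (neg_ne_zero.2 (hX a)) cab, lg_div (neg_ne_zero.2 cab) cda, lg_div cdb cda,
      lg_neg' (hX a), lg_neg' cab]
    exact W2_five _ _ _ _ _ _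
  have s1 : spec p (some ((τ - RatFunc.C a) / RatFunc.C (d - a) : RatFunc K)) =
      some ((b - a) / (d - a)) := sp_div_some (sX a) (spec_C p _) hda'
  have s2 : spec p (some ((τ - RatFunc.C b) / RatFunc.C (d - b) : RatFunc K)) =
      some 0 := by
    rw [sp_div_some (sX b) (spec_C p _) hdb', sub_self, zero_div]
  have s3 : spec p (some ((τ - RatFunc.C b) / RatFunc.C (a - b) : RatFunc K)) =
      some 0 := by
    rw [sp_div_some (sX b) (spec_C p _) hab', sub_self, zero_div]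
  have s4 : spec p (some ((τ - RatFunc.C a) / RatFunc.C (d - a) /
        ((τ - RatFunc.C b) / RatFunc.C (d - b)) : RatFunc K)) = none :=
    sp_div_zero s1 (div_ne_zero (sub_ne_zero.2 hab.symm) hda') (div_ne_zero (hX b) cdb) s2
  refine bb_rel_of p _ _ _ _ _ _ _ key s4 s2 s1 s3 (spec_C p _) ?_
  have := bb_sub ((b - a) / (d - a))
  have e : 1 - (b - a) / (d - a) = (d - b) / (d - a) := by
    rw [eq_div_iff hda', sub_mul, one_mul, div_mul_cancel₀ _ hda']; ring
  rwa [e] at this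

private lemma sd_rU_lg (x : K) : rU (lg x) = lg (RatFunc.C x : RatFunc K) := resU_lg _ x

private lemma sd_point (τ : RatFunc K) (p : K) {a b : K} (hX : ∀ x : K, τ - RatFunc.C x ≠ 0)
    (sX : ∀ x : K, spec p (some (τ - RatFunc.C x)) = some (b - x)) (hab : a ≠ b)
    (v v' : Additive (RatFunc K)ˣ) (κ κ' : Additive Kˣ)
    (hv : lg (τ - RatFunc.C a) = v + rU κ) (hv' : lg (τ - RatFunc.C b) = v' + rU κ')
    (y : Cx 2 0 K) :
    ∃ W : Cx 3 1 (RatFunc K),
      dC 0 1 W - tn 2 2 (W2 v v') (rC 0 0 y) ∈ KC 2 1 ∧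
      wC 3 1 v W ∈ WW 1 1 ∧ wC 3 1 v' W ∈ WW 1 1 := by
  induction y using Cx_ind with
  | h0 => exact ⟨0, by simp only [map_zero, sub_zero]; exact zero_mem _,
      by rw [map_zero]; exact zero_mem _, by rw [map_zero]; exact zero_mem _⟩
  | hadd y y' hy hy' =>
    obtain ⟨W, h1, h2, h3⟩ := hy
    obtain ⟨W', h1', h2', h3'⟩ := hy'
    refine ⟨W + W', ?_, ?_, ?_⟩
    · have e : dC 0 1 (W + W') - tn 2 2 (W2 v v') (rC 0 0 (y + y')) =
          (dC 0 1 W - tn 2 2 (W2 v v') (rC 0 0 y)) +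
          (dC 0 1 W' - tn 2 2 (W2 v v') (rC 0 0 y')) := by
        rw [map_add, map_add, map_add]
        abel
      rw [e]
      exact add_mem h1 h1'
    · rw [map_add]; exact add_mem h2 h2'
    · rw [map_add]; exact add_mem h3 h3'
  | h1 x ω =>
    suffices h : ∃ W : Cx 3 1 (RatFunc K),
        dC 0 1 W - tn 2 2 (W2 v v') (rC 0 0 (bb x)) ∈ KC 2 1 ∧
        wC 3 1 v W ∈ WW 1 1 ∧ wC 3 1 v' W ∈ WW 1 1 by
      obtain ⟨W, h1, h2, h3⟩ := h
      have e : PB 2 0 (cl 2 x) ω = e0 K ω • bb x := by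
        conv_lhs => rw [← e0_inj ω, map_smul]
        rfl
      refine ⟨e0 K ω • W, ?_, ?_, ?_⟩
      · rw [e, map_smul, map_smul, map_smul, ← smul_sub]
        exact Submodule.smul_mem _ _ h1
      · rw [map_smul]; exact Submodule.smul_mem _ _ h2
      · rw [map_smul]; exact Submodule.smul_mem _ _ h3
    by_cases hx : bb x = 0
    · refine ⟨0, ?_, ?_, ?_⟩
      · rw [hx]
        simp only [map_zero, sub_zero]
        exact zero_mem _
      · rw [map_zero]; exact zero_mem _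
      · rw [map_zero]; exact zero_mem _
    rcases x with _ | c
    · exact absurd bb_inf hx
    by_cases hc0 : c = 0
    · subst hc0; exact absurd bb_zero hx
    by_cases hc1 : c = 1
    · subst hc1; exact absurd bb_one hx
    have h1c : 1 - c ≠ 0 := sub_ne_zero.2 (Ne.symm hc1)
    set d : K := (b - c * a) / (1 - c) with hd
    have hd1 : d * (1 - c) = b - c * a := by rw [hd, div_mul_cancel₀ _ h1c]
    have hda : d ≠ a := by
      intro h
      rw [h] at hd1
      apply hab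
      linear_combination hd1
    have hdb : d ≠ b := by
      intro h
      rw [h] at hd1
      have : c * (a - b) = 0 := by linear_combination hd1
      rcases mul_eq_zero.1 this with h | h
      · exact hc0 h
      · exact hab (sub_eq_zero.1 h)
    have hda' : d - a ≠ 0 := sub_ne_zero.2 hda
    have hdb' : d - b ≠ 0 := sub_ne_zero.2 hdb
    have hab' : a - b ≠ 0 := sub_ne_zero.2 hab
    have hc : (d - b) / (d - a) = c := by
      rw [div_eq_iff hda']; linear_combination hd1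
    have five := sd_five τ p hX sX hab hda hdb
    rw [hc] at five
    have cda : (RatFunc.C (d - a) : RatFunc K) ≠ 0 := (_root_.map_ne_zero RatFunc.C).2 hda'
    have cdb : (RatFunc.C (d - b) : RatFunc K) ≠ 0 := (_root_.map_ne_zero RatFunc.C).2 hdb'
    have cab : (RatFunc.C (a - b) : RatFunc K) ≠ 0 := (_root_.map_ne_zero RatFunc.C).2 hab'
    have l1 : lgP (some ((τ - RatFunc.C a) / RatFunc.C (d - a))) = v + rU (κ - lg (d - a)) := by
      rw [lgP_some, lg_div (hX a) cda, hv, map_sub rU, sd_rU_lg, add_sub_assoc]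
    have l2 : lgP (some ((τ - RatFunc.C b) / RatFunc.C (d - b))) = v' + rU (κ' - lg (d - b)) := by
      rw [lgP_some, lg_div (hX b) cdb, hv', map_sub rU, sd_rU_lg, add_sub_assoc]
    obtain ⟨W, g1, g2, g3⟩ := star_gen _ _ _ _ _ (lg (a - b) - lg (d - b)) five
      (by
        rw [lgP_some, lgP_some, lgP_some, lg_div (div_ne_zero (hX a) cda) (div_ne_zero (hX b) cdb)])
      (by
        rw [lgP_some, lgP_some, lg_div (hX b) cdb, lg_div (hX b) cab, map_sub rU, sd_rU_lg, sd_rU_lg]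
        abel)
    have hfin : ∀ (w : Additive (RatFunc K)ˣ) (θ : Additive Kˣ),
        wC 3 1 (w + rU θ) W ∈ WW 1 1 → wC 3 1 w W ∈ WW 1 1 := by
      intro w θ hw
      rw [sd_wC_add] at hw
      have := sub_mem hw (KC_le_WW 1 1 (wC_mem_KC 3 1 θ W))
      rwa [add_sub_cancel_right] at this
    rw [l1] at g2
    rw [l2] at g3
    refine ⟨W, ?_, hfin _ _ g2, hfin _ _ g3⟩
    have e1 : tn 2 2 (W2 v v') (rC 0 0 (bb (some c))) =
        PB 2 2 (cl 2 (some (RatFunc.C c : RatFunc K))) (W2 v v') := by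
      rw [rC_bb, bb, tn_PB]
    rw [g1, e1, l1, l2]
    simp only [map_add, AddMonoidHom.add_apply]
    generalize κ - lg (d - a) = θ
    generalize κ' - lg (d - b) = θ'
    have q1 := sd_KC_left 2 (cl 2 (some (RatFunc.C c : RatFunc K))) θ v'
    have q2 := sd_KC_right 2 (cl 2 (some (RatFunc.C c : RatFunc K))) θ' v
    have q3 := sd_KC_left 2 (cl 2 (some (RatFunc.C c : RatFunc K))) θ (rU θ')
    have q4 := sd_KC_right 2 (cl 2 (some ((τ - RatFunc.C b) / RatFunc.C (a - b))))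
      (lg (a - b) - lg (d - b)) v
    have q5 := sd_KC_right 2 (cl 2 (some ((τ - RatFunc.C b) / RatFunc.C (a - b))))
      (lg (a - b) - lg (d - b)) (rU θ)
    have q := add_mem (add_mem (add_mem (add_mem q1 q2) q3) q4) q5
    exact sd_mem_of_eq (by abel) q

theorem starI {a b : K} (hab : a ≠ b) (y : Cx 2 0 K) :
    ∃ W : Cx 3 1 (RatFunc K),
      dC 0 1 W - tn 2 2 (W2 (ee a) (ee b)) (rC 0 0 y) ∈ KC 2 1 ∧
      wC 3 1 (ee a) W ∈ WW 1 1 ∧ wC 3 1 (ee b) W ∈ WW 1 1 := by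
  have hX : ∀ x : K, (RatFunc.X - RatFunc.C x : RatFunc K) ≠ 0 := fun x => by
    rw [← RatFunc.algebraMap_X, ← RatFunc.algebraMap_C, ← map_sub]
    exact RatFunc.algebraMap_ne_zero (X_sub_C_ne_zero x)
  have sX : ∀ x : K, spec b (some (RatFunc.X - RatFunc.C x : RatFunc K)) = some (b - x) :=
    fun x => by
      have := spec_poly b (Polynomial.X - Polynomial.C x : K[X])
      rw [map_sub, RatFunc.algebraMap_X, RatFunc.algebraMap_C] at this
      simpa using this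
  exact sd_point RatFunc.X b hX sX hab (ee a) (ee b) 0 0 (by rw [map_zero, add_zero]; rfl)
    (by rw [map_zero, add_zero]; rfl) y

theorem starD {a b d : K} (hab : a ≠ b) (had : a ≠ d) (hbd : b ≠ d) (y : Cx 2 0 K) :
    ∃ W : Cx 3 1 (RatFunc K),
      dC 0 1 W - tn 2 2 (W2 (ee a - ee d) (ee b - ee d)) (rC 0 0 y) ∈ KC 2 1 ∧
      wC 3 1 (ee a - ee d) W ∈ WW 1 1 := by
  have hX : ∀ x : K, (RatFunc.X - RatFunc.C x : RatFunc K) ≠ 0 := fun x => by
    rw [← RatFunc.algebraMap_X, ← RatFunc.algebraMap_C, ← map_sub]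
    exact RatFunc.algebraMap_ne_zero (X_sub_C_ne_zero x)
  have had' : a - d ≠ 0 := sub_ne_zero.2 had
  have hbd' : b - d ≠ 0 := sub_ne_zero.2 hbd
  -- the coordinate
  have hq : (Polynomial.X - Polynomial.C d : K[X]) ≠ 0 := X_sub_C_ne_zero d
  have hrep : ∀ x : K, ((RatFunc.X - RatFunc.C d : RatFunc K)⁻¹ - RatFunc.C x) =
      algebraMap K[X] (RatFunc K) (1 - Polynomial.C x * (Polynomial.X - Polynomial.C d)) /
        algebraMap K[X] (RatFunc K) (Polynomial.X - Polynomial.C d) := by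
    intro x
    rw [map_sub, map_mul, map_sub, map_one, RatFunc.algebraMap_X, RatFunc.algebraMap_C,
      RatFunc.algebraMap_C]
    have := hX d
    field_simp
  have hX' : ∀ x : K, ((RatFunc.X - RatFunc.C d : RatFunc K)⁻¹ - RatFunc.C x) ≠ 0 := by
    intro x
    rw [hrep]
    refine div_ne_zero (RatFunc.algebraMap_ne_zero ?_) (RatFunc.algebraMap_ne_zero hq)
    intro h0
    have := congrArg (Polynomial.eval d) h0
    simp at this
  have sX : ∀ x : K, spec b (some ((RatFunc.X - RatFunc.C d : RatFunc K)⁻¹ - RatFunc.C x)) =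
      some ((b - d)⁻¹ - x) := by
    intro x
    rw [hrep, sp_div_some (spec_poly b _) (spec_poly b _) (by simpa using hbd')]
    congr 1
    simp only [eval_sub, eval_one, eval_mul, eval_C, eval_X]
    field_simp
  have hl : ∀ x : K, x - d ≠ 0 → lg ((RatFunc.X - RatFunc.C d : RatFunc K)⁻¹ -
      RatFunc.C (x - d)⁻¹) = (ee x - ee d) + rU (lg (-1) - lg (x - d)) := by
    intro x hx
    have cx : (RatFunc.C (x - d) : RatFunc K) ≠ 0 := (_root_.map_ne_zero RatFunc.C).2 hx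
    have e : ((RatFunc.X - RatFunc.C d : RatFunc K)⁻¹ - RatFunc.C (x - d)⁻¹) =
        -(RatFunc.X - RatFunc.C x) / ((RatFunc.X - RatFunc.C d) * RatFunc.C (x - d)) := by
      rw [map_inv₀, inv_sub_inv (hX d) cx, map_sub]
      congr 1
      ring
    rw [e, lg_div (neg_ne_zero.2 (hX x)) (mul_ne_zero (hX d) cx), lg_neg' (hX x),
      lg_mul (hX d) cx, map_sub rU, sd_rU_lg, sd_rU_lg, map_neg, map_one]
    change lg (-1) + ee x - (ee d + _) = _
    abel
  have hne : (a - d)⁻¹ ≠ (b - d)⁻¹ := by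
    intro h
    apply hab
    have := inv_injective h
    linear_combination this
  obtain ⟨W, h1, h2, -⟩ := sd_point (RatFunc.X - RatFunc.C d : RatFunc K)⁻¹ b hX' sX hne
    (ee a - ee d) (ee b - ee d) _ _ (hl a had') (hl b hbd') y
  exact ⟨W, h1, h2⟩

end

end Helper42.LT
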