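import Pool.Agent.Helper42.LT.Defs
import Pool.Agent.Helper18.W4.Star

set_option autoImplicit false

/-!
# LT-SKa: the dilogarithm relations behind the Spence-Kummer relation, and the three-term relation
for the trilogarithm

Here x is a constant, y = (t - a)/(b - a), 1 - y = (t - b)/(a - b), X = C x in K(t).
bb = class in B_2 (Helper18/W4/Star.lean), b3 = class in B_3.
PLAN (about 1 h).
 * r1, r2, r3: bb_const b (Star.lean: a combination beta with dT 0 beta = 0 equals rC (sC b beta)),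
   then sC_bb and the values at t = b (spec b of the arguments: y = 1, 1 - y = 0, so A1, A4, A5, A6, A7
   are 0, A2 = A3 = x) and bb_zero, bb_one: the specialisation is 0.
   dT 0 (combination) = 0: dT_bb, l1P, lgP and the factorisations (P = lg (y - X), Q = lg (1 - X y)):
     A1 = X (1-y)^2 / (y (1-X)^2),  1 - A1 = (y-X)(1-Xy) / (y (1-X)^2)
     A2 = X y,                      1 - A2 = 1 - X y
     A3 = X / y,                    1 - A3 = (y-X) / y
     A4 = X (1-y) / (y (1-X)),      1 - A4 = (y-X) / (y (1-X))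
     A5 = X (1-y) / (X-1),          1 - A5 = (1-Xy) / (1-X)
     A6 = (1-y) / (1-X),            1 - A6 = (y-X) / (1-X)
     A7 = (1-y) / (y (X-1)),        1 - A7 = (1-Xy) / (y (1-X))
   (all nonzero), lg of products and quotients are sums (lg_mul, lg_neg' in Star.lean or the lemmas on
   lg in Helper14/Gon; the signs lg (-1) are killed by W2_m1, W2_m1'); the resulting identity in
   W2 (bilinear, W2_self, W2_swap) has been checked by computer.  Compare dT_five, bb_five in Star.lean.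
 * three3: beta := b3 y + b3 (1-y) + b3 (1 - 1/y) - b3 1 has dC 0 0 beta = 0 in Cx 2 1:
   dC_PB: dC 0 0 (b3 z) = GG 2 z (lgP z) = tn 2 1 (wT 0 (lgP z) u0) (bb z); with bb (1-y) = - bb y,
   bb (1 - 1/y) = bb y (bb_sub, bb_inv of Star.lean hold over any field, use them over RatFunc K),
   lg (1 - 1/y) = lg (-1) + lg (1-y) - lg y, wT_neg_one: the sum is
   bb y tensor (y - (1-y) + (1-y) - y) = 0.  Then const_cyc (Helper14/W4/H4) with c = b:
   beta = rC 1 0 (sC b 1 0 beta) and the specialisation is {1} + {0} + {0} - {1} = 0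
   (PB of cl_zero; sC_PB).  beta in cyc (RatFunc K) 1 0 means dC 0 0 beta = 0.
-/

noncomputable section

open Polynomial TensorProduct
open scoped Classical

namespace Helper42.LT

open Helper14.Gon Helper14.W4

universe u v w

section sym
variable {F : Type u} [Field F]

private lemma W_r1 (U V X M P Q : Additive Fˣ) :
    W2 (P + Q - (U + (M + M))) (X + (V + V) - (U + (M + M))) =
      W2 (P - (U + M)) (X + V - (U + M)) + W2 (Q - M) (X + V - (lg (-1) + M)) +
      W2 (P - M) (V - M) + W2 (Q - (U + M)) (V - (U + (lg (-1) + M))) := by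
  simp only [map_add, map_sub, AddMonoidHom.add_apply, AddMonoidHom.sub_apply, W2_m1', W2_self]
  rw [W2_swap M U]
  abel

private lemma W_r2 (U V X M P Q : Additive Fˣ) :
    W2 Q (X + U) - W2 (P - U) (X - U) + W2 (P - (U + M)) (X + V - (U + M)) -
      W2 (Q - M) (X + V - (lg (-1) + M)) - W2 (P - M) (V - M) +
      W2 (Q - (U + M)) (V - (U + (lg (-1) + M))) = (2 : ℚ) • W2 V U := by
  rw [two_smul]
  simp only [map_add, map_sub, AddMonoidHom.add_apply, AddMonoidHom.sub_apply, W2_m1', W2_self]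
  rw [W2_swap M U, W2_swap V U]
  abel

private lemma W_r3 (U V X M P Q : Additive Fˣ) :
    W2 Q (X + U) + W2 (P - U) (X - U) - W2 (P - (U + M)) (X + V - (U + M)) -
      W2 (Q - M) (X + V - (lg (-1) + M)) + W2 (P - M) (V - M) +
      W2 (Q - (U + M)) (V - (U + (lg (-1) + M))) = (2 : ℚ) • W2 M X := by
  rw [two_smul]
  simp only [map_add, map_sub, AddMonoidHom.add_apply, AddMonoidHom.sub_apply, W2_m1', W2_self]
  rw [W2_swap M U]
  abel

private lemma lgm {X : F} (hM : 1 - X ≠ 0) : lg (X - 1) = lg (-1) + lg (1 - X) := by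
  rw [← lg_neg' hM, neg_sub]

private lemma ne_sub_one {X : F} (hM : 1 - X ≠ 0) : X - 1 ≠ 0 := by
  rw [← neg_sub]; exact neg_ne_zero.2 hM

private lemma d1 {X Y : F} (hX : X ≠ 0) (hM : 1 - X ≠ 0) (hY : Y ≠ 0) (hV : 1 - Y ≠ 0)
    (hP : Y - X ≠ 0) (hQ : 1 - X * Y ≠ 0) :
    dT 0 (bb (some (X * (1 - Y) ^ 2 / (Y * (1 - X) ^ 2)))) =
      W2 (lg (Y - X) + lg (1 - X * Y) - (lg Y + (lg (1 - X) + lg (1 - X))))
        (lg X + (lg (1 - Y) + lg (1 - Y)) - (lg Y + (lg (1 - X) + lg (1 - X)))) := by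
  have e : 1 - X * (1 - Y) ^ 2 / (Y * (1 - X) ^ 2) =
      (Y - X) * (1 - X * Y) / (Y * ((1 - X) * (1 - X))) := by
    field_simp; ring
  rw [dT_bb, l1P_some, lgP_some, e, pow_two, pow_two,
    lg_div (mul_ne_zero hP hQ) (mul_ne_zero hY (mul_ne_zero hM hM)),
    lg_div (mul_ne_zero hX (mul_ne_zero hV hV)) (mul_ne_zero hY (mul_ne_zero hM hM)),
    lg_mul hP hQ, lg_mul hY (mul_ne_zero hM hM), lg_mul hM hM, lg_mul hX (mul_ne_zero hV hV),
    lg_mul hV hV]

private lemma d2 {X Y : F} (hX : X ≠ 0) (hY : Y ≠ 0) :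
    dT 0 (bb (some (X * Y))) = W2 (lg (1 - X * Y)) (lg X + lg Y) := by
  rw [dT_bb, l1P_some, lgP_some, lg_mul hX hY]

private lemma d3 {X Y : F} (hX : X ≠ 0) (hY : Y ≠ 0) (hP : Y - X ≠ 0) :
    dT 0 (bb (some (X / Y))) = W2 (lg (Y - X) - lg Y) (lg X - lg Y) := by
  have e : 1 - X / Y = (Y - X) / Y := by field_simp
  rw [dT_bb, l1P_some, lgP_some, e, lg_div hP hY, lg_div hX hY]

private lemma d4 {X Y : F} (hX : X ≠ 0) (hM : 1 - X ≠ 0) (hY : Y ≠ 0) (hV : 1 - Y ≠ 0)
    (hP : Y - X ≠ 0) :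
    dT 0 (bb (some (X * (1 - Y) / (Y * (1 - X))))) =
      W2 (lg (Y - X) - (lg Y + lg (1 - X))) (lg X + lg (1 - Y) - (lg Y + lg (1 - X))) := by
  have e : 1 - X * (1 - Y) / (Y * (1 - X)) = (Y - X) / (Y * (1 - X)) := by
    field_simp; ring
  rw [dT_bb, l1P_some, lgP_some, e, lg_div hP (mul_ne_zero hY hM),
    lg_div (mul_ne_zero hX hV) (mul_ne_zero hY hM), lg_mul hY hM, lg_mul hX hV]

private lemma d5 {X Y : F} (hX : X ≠ 0) (hM : 1 - X ≠ 0) (hV : 1 - Y ≠ 0)
    (hQ : 1 - X * Y ≠ 0) :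
    dT 0 (bb (some (X * (1 - Y) / (X - 1)))) =
      W2 (lg (1 - X * Y) - lg (1 - X)) (lg X + lg (1 - Y) - (lg (-1) + lg (1 - X))) := by
  have hM' := ne_sub_one hM
  have e : 1 - X * (1 - Y) / (X - 1) = (1 - X * Y) / (1 - X) := by
    field_simp; ring
  rw [dT_bb, l1P_some, lgP_some, e, lg_div hQ hM, lg_div (mul_ne_zero hX hV) hM',
    lg_mul hX hV, lgm hM]

private lemma d6 {X Y : F} (hM : 1 - X ≠ 0) (hV : 1 - Y ≠ 0) (hP : Y - X ≠ 0) :
    dT 0 (bb (some ((1 - Y) / (1 - X)))) =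
      W2 (lg (Y - X) - lg (1 - X)) (lg (1 - Y) - lg (1 - X)) := by
  have e : 1 - (1 - Y) / (1 - X) = (Y - X) / (1 - X) := by
    field_simp; ring
  rw [dT_bb, l1P_some, lgP_some, e, lg_div hP hM, lg_div hV hM]

private lemma d7 {X Y : F} (hM : 1 - X ≠ 0) (hY : Y ≠ 0) (hV : 1 - Y ≠ 0)
    (hQ : 1 - X * Y ≠ 0) :
    dT 0 (bb (some ((1 - Y) / (Y * (X - 1))))) =
      W2 (lg (1 - X * Y) - (lg Y + lg (1 - X)))
        (lg (1 - Y) - (lg Y + (lg (-1) + lg (1 - X)))) := by
  have hM' := ne_sub_one hM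
  have e : 1 - (1 - Y) / (Y * (X - 1)) = (1 - X * Y) / (Y * (1 - X)) := by
    field_simp; ring
  rw [dT_bb, l1P_some, lgP_some, e, lg_div hQ (mul_ne_zero hY hM), lg_div hV (mul_ne_zero hY hM'),
    lg_mul hY hM, lg_mul hY hM', lgm hM]

end sym

section
variable {K : Type u} [Field K]

/-- the class of `{x}` in `B_3` -/
def b3 {F : Type u} [Field F] (x : P1 F) : Cx 3 0 F := PB 3 0 (cl 3 x) (u0 F)

/-- the function `(t - a) / (b - a)` -/
def fy (a b : K) : RatFunc K := (RatFunc.X - RatFunc.C a) / RatFunc.C (b - a)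

private lemma cX0 {x : K} (hx0 : x ≠ 0) : (RatFunc.C x : RatFunc K) ≠ 0 :=
  (_root_.map_ne_zero RatFunc.C).2 hx0

private lemma cX1 {x : K} (hx1 : x ≠ 1) : (1 - RatFunc.C x : RatFunc K) ≠ 0 := by
  have e : (1 - RatFunc.C x : RatFunc K) = RatFunc.C (1 - x) := by rw [map_sub, map_one]
  rw [e]
  exact cX0 (sub_ne_zero.2 hx1.symm)

private lemma spXs (x c : K) : spec c (some (RatFunc.X - RatFunc.C x : RatFunc K)) =
    some (c - x) := by
  have := spec_poly c (Polynomial.X - Polynomial.C x : K[X])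
  rw [map_sub, RatFunc.algebraMap_X, RatFunc.algebraMap_C] at this
  simpa using this

private lemma spfy (a b c : K) (hab : a ≠ b) : spec c (some (fy a b)) =
    some ((c - a) / (b - a)) :=
  sp_div_some (spXs a c) (spec_C c _) (sub_ne_zero.2 hab.symm)

private lemma spY {a b : K} (hab : a ≠ b) : spec b (some (fy a b)) = some 1 := by
  rw [spfy a b b hab, div_self (sub_ne_zero.2 hab.symm)]

private lemma spY0 {a b : K} (hab : a ≠ b) : spec a (some (fy a b)) = some 0 := by
  rw [spfy a b a hab, sub_self, zero_div]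

private lemma spV {a b : K} (hab : a ≠ b) : spec b (some (1 - fy a b)) = some 0 := by
  rw [spec_one_sub (spY hab), sub_self]

/-- a function with a nonzero value is nonzero -/
private lemma ne_of_sp {f : RatFunc K} {c y : K} (h : spec c (some f) = some y) (hy : y ≠ 0) :
    f ≠ 0 := by
  rintro rfl
  rw [spec_zero] at h
  exact hy (Option.some.inj h).symm

private lemma Y_ne {a b : K} (hab : a ≠ b) : fy a b ≠ 0 := ne_of_sp (spY hab) one_ne_zero

private lemma V_ne {a b : K} (hab : a ≠ b) : 1 - fy a b ≠ 0 := by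
  have h := spec_one_sub (spY0 hab)
  rw [sub_zero] at h
  exact ne_of_sp h one_ne_zero

private lemma P_ne {x a b : K} (hx0 : x ≠ 0) (hab : a ≠ b) :
    fy a b - RatFunc.C x ≠ 0 := by
  intro h
  have h1 : fy a b = RatFunc.C x := sub_eq_zero.1 h
  have h2 := spY0 hab
  rw [h1, spec_C] at h2
  exact hx0 (Option.some.inj h2)

private lemma Q_ne {x a b : K} (hab : a ≠ b) : 1 - RatFunc.C x * fy a b ≠ 0 := by
  have h : spec a (some (1 - RatFunc.C x * fy a b)) = some (1 - x * 0) :=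
    spec_one_sub (sp_mul_some (spec_C a x) (spY0 hab))
  rw [mul_zero, sub_zero] at h
  exact ne_of_sp h one_ne_zero

private lemma sM (x b : K) : spec b (some (1 - RatFunc.C x : RatFunc K)) = some (1 - x) :=
  spec_one_sub (spec_C b x)

private lemma v1 {x a b : K} (hx1 : x ≠ 1) (hab : a ≠ b) :
    spec b (some (RatFunc.C x * (1 - fy a b) ^ 2 / (fy a b * (1 - RatFunc.C x) ^ 2))) =
      some 0 := by
  have hx : (1 : K) - x ≠ 0 := sub_ne_zero.2 hx1.symm
  rw [pow_two, pow_two, sp_div_some (sp_mul_some (spec_C b x) (sp_mul_some (spV hab) (spV hab)))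
    (sp_mul_some (spY hab) (sp_mul_some (sM x b) (sM x b)))
    (mul_ne_zero one_ne_zero (mul_ne_zero hx hx)), mul_zero, mul_zero, zero_div]

private lemma v2 {x a b : K} (hab : a ≠ b) :
    spec b (some (RatFunc.C x * fy a b)) = some x := by
  rw [sp_mul_some (spec_C b x) (spY hab), mul_one]

private lemma v3 {x a b : K} (hab : a ≠ b) :
    spec b (some (RatFunc.C x / fy a b)) = some x := by
  rw [sp_div_some (spec_C b x) (spY hab) one_ne_zero, div_one]

private lemma v4 {x a b : K} (hx1 : x ≠ 1) (hab : a ≠ b) :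
    spec b (some (RatFunc.C x * (1 - fy a b) / (fy a b * (1 - RatFunc.C x)))) = some 0 := by
  have hx : (1 : K) - x ≠ 0 := sub_ne_zero.2 hx1.symm
  rw [sp_div_some (sp_mul_some (spec_C b x) (spV hab)) (sp_mul_some (spY hab) (sM x b))
    (mul_ne_zero one_ne_zero hx), mul_zero, zero_div]

private lemma v5 {x a b : K} (hx1 : x ≠ 1) (hab : a ≠ b) :
    spec b (some (RatFunc.C x * (1 - fy a b) / (RatFunc.C x - 1))) = some 0 := by
  rw [sp_div_some (sp_mul_some (spec_C b x) (spV hab)) (sp_sub_one (spec_C b x))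
    (sub_ne_zero.2 hx1), mul_zero, zero_div]

private lemma v6 {x a b : K} (hx1 : x ≠ 1) (hab : a ≠ b) :
    spec b (some ((1 - fy a b) / (1 - RatFunc.C x))) = some 0 := by
  rw [sp_div_some (spV hab) (sM x b) (sub_ne_zero.2 hx1.symm), zero_div]

private lemma v7 {x a b : K} (hx1 : x ≠ 1) (hab : a ≠ b) :
    spec b (some ((1 - fy a b) / (fy a b * (RatFunc.C x - 1)))) = some 0 := by
  rw [sp_div_some (spV hab) (sp_mul_some (spY hab) (sp_sub_one (spec_C b x)))
    (mul_ne_zero one_ne_zero (sub_ne_zero.2 hx1)), zero_div]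

theorem r1 {x a b : K} (hx0 : x ≠ 0) (hx1 : x ≠ 1) (hab : a ≠ b) :
    bb (some (RatFunc.C x * (1 - fy a b) ^ 2 / (fy a b * (1 - RatFunc.C x) ^ 2))) =
      bb (some (RatFunc.C x * (1 - fy a b) / (fy a b * (1 - RatFunc.C x)))) +
      bb (some (RatFunc.C x * (1 - fy a b) / (RatFunc.C x - 1))) +
      bb (some ((1 - fy a b) / (1 - RatFunc.C x))) +
      bb (some ((1 - fy a b) / (fy a b * (RatFunc.C x - 1)))) := by
  have hX := cX0 hx0
  have hM := cX1 hx1
  have hY := Y_ne hab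
  have hV := V_ne hab
  have hP := P_ne hx0 hab
  have hQ := Q_ne (x := x) hab
  have key := bb_const b (bb (some (RatFunc.C x * (1 - fy a b) ^ 2 /
      (fy a b * (1 - RatFunc.C x) ^ 2))) -
      (bb (some (RatFunc.C x * (1 - fy a b) / (fy a b * (1 - RatFunc.C x)))) +
      bb (some (RatFunc.C x * (1 - fy a b) / (RatFunc.C x - 1))) +
      bb (some ((1 - fy a b) / (1 - RatFunc.C x))) +
      bb (some ((1 - fy a b) / (fy a b * (RatFunc.C x - 1)))))) (by
        rw [map_sub, map_add, map_add, map_add, d1 hX hM hY hV hP hQ, d4 hX hM hY hV hP,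
          d5 hX hM hV hQ, d6 hM hV hP, d7 hM hY hV hQ, W_r1, sub_self])
  have h0 : sC b 0 0 (bb (some (RatFunc.C x * (1 - fy a b) ^ 2 /
      (fy a b * (1 - RatFunc.C x) ^ 2))) -
      (bb (some (RatFunc.C x * (1 - fy a b) / (fy a b * (1 - RatFunc.C x)))) +
      bb (some (RatFunc.C x * (1 - fy a b) / (RatFunc.C x - 1))) +
      bb (some ((1 - fy a b) / (1 - RatFunc.C x))) +
      bb (some ((1 - fy a b) / (fy a b * (RatFunc.C x - 1)))))) = 0 := by
    rw [map_sub, map_add, map_add, map_add, sC_bb, sC_bb, sC_bb, sC_bb, sC_bb, v1 hx1 hab,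
      v4 hx1 hab, v5 hx1 hab, v6 hx1 hab, v7 hx1 hab, bb_zero]
    abel
  rw [h0, map_zero] at key
  exact sub_eq_zero.1 key

theorem r2 {x a b : K} (hx0 : x ≠ 0) (hx1 : x ≠ 1) (hab : a ≠ b) :
    bb (some (RatFunc.C x * fy a b)) - bb (some (RatFunc.C x / fy a b)) +
      bb (some (RatFunc.C x * (1 - fy a b) / (fy a b * (1 - RatFunc.C x)))) -
      bb (some (RatFunc.C x * (1 - fy a b) / (RatFunc.C x - 1))) -
      bb (some ((1 - fy a b) / (1 - RatFunc.C x))) +
      bb (some ((1 - fy a b) / (fy a b * (RatFunc.C x - 1)))) =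
      (2 : ℚ) • bb (some (fy a b)) := by
  have hX := cX0 hx0
  have hM := cX1 hx1
  have hY := Y_ne hab
  have hV := V_ne hab
  have hP := P_ne hx0 hab
  have hQ := Q_ne (x := x) hab
  have key := bb_const b (bb (some (RatFunc.C x * fy a b)) - bb (some (RatFunc.C x / fy a b)) +
      bb (some (RatFunc.C x * (1 - fy a b) / (fy a b * (1 - RatFunc.C x)))) -
      bb (some (RatFunc.C x * (1 - fy a b) / (RatFunc.C x - 1))) -
      bb (some ((1 - fy a b) / (1 - RatFunc.C x))) +
      bb (some ((1 - fy a b) / (fy a b * (RatFunc.C x - 1)))) -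
      (2 : ℚ) • bb (some (fy a b))) (by
        rw [map_sub, map_add, map_sub, map_sub, map_add, map_sub, map_smul, d2 hX hY,
          d3 hX hY hP, d4 hX hM hY hV hP,
          d5 hX hM hV hQ, d6 hM hV hP, d7 hM hY hV hQ, W_r2, dT_bb, l1P_some, lgP_some,
          sub_self])
  have h0 : sC b 0 0 (bb (some (RatFunc.C x * fy a b)) - bb (some (RatFunc.C x / fy a b)) +
      bb (some (RatFunc.C x * (1 - fy a b) / (fy a b * (1 - RatFunc.C x)))) -
      bb (some (RatFunc.C x * (1 - fy a b) / (RatFunc.C x - 1))) -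
      bb (some ((1 - fy a b) / (1 - RatFunc.C x))) +
      bb (some ((1 - fy a b) / (fy a b * (RatFunc.C x - 1)))) -
      (2 : ℚ) • bb (some (fy a b))) = 0 := by
    rw [map_sub, map_add, map_sub, map_sub, map_add, map_sub, map_smul, sC_bb, sC_bb, sC_bb,
      sC_bb, sC_bb, sC_bb, sC_bb, v2 hab, v3 hab, v4 hx1 hab, v5 hx1 hab, v6 hx1 hab,
      v7 hx1 hab, spY hab, bb_zero, bb_one, smul_zero]
    abel
  rw [h0, map_zero] at key
  exact sub_eq_zero.1 key

theorem r3 {x a b : K} (hx0 : x ≠ 0) (hx1 : x ≠ 1) (hab : a ≠ b) :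
    bb (some (RatFunc.C x * fy a b)) + bb (some (RatFunc.C x / fy a b)) -
      bb (some (RatFunc.C x * (1 - fy a b) / (fy a b * (1 - RatFunc.C x)))) -
      bb (some (RatFunc.C x * (1 - fy a b) / (RatFunc.C x - 1))) +
      bb (some ((1 - fy a b) / (1 - RatFunc.C x))) +
      bb (some ((1 - fy a b) / (fy a b * (RatFunc.C x - 1)))) =
      (2 : ℚ) • bb (some (RatFunc.C x : RatFunc K)) := by
  have hX := cX0 hx0
  have hM := cX1 hx1
  have hY := Y_ne hab
  have hV := V_ne hab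
  have hP := P_ne hx0 hab
  have hQ := Q_ne (x := x) hab
  have key := bb_const b (bb (some (RatFunc.C x * fy a b)) + bb (some (RatFunc.C x / fy a b)) -
      bb (some (RatFunc.C x * (1 - fy a b) / (fy a b * (1 - RatFunc.C x)))) -
      bb (some (RatFunc.C x * (1 - fy a b) / (RatFunc.C x - 1))) +
      bb (some ((1 - fy a b) / (1 - RatFunc.C x))) +
      bb (some ((1 - fy a b) / (fy a b * (RatFunc.C x - 1)))) -
      (2 : ℚ) • bb (some (RatFunc.C x : RatFunc K))) (by
        rw [map_sub, map_add, map_add, map_sub, map_sub, map_add, map_smul, d2 hX hY,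
          d3 hX hY hP, d4 hX hM hY hV hP,
          d5 hX hM hV hQ, d6 hM hV hP, d7 hM hY hV hQ, W_r3, dT_bb, l1P_some, lgP_some,
          sub_self])
  have h0 : sC b 0 0 (bb (some (RatFunc.C x * fy a b)) + bb (some (RatFunc.C x / fy a b)) -
      bb (some (RatFunc.C x * (1 - fy a b) / (fy a b * (1 - RatFunc.C x)))) -
      bb (some (RatFunc.C x * (1 - fy a b) / (RatFunc.C x - 1))) +
      bb (some ((1 - fy a b) / (1 - RatFunc.C x))) +
      bb (some ((1 - fy a b) / (fy a b * (RatFunc.C x - 1)))) -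
      (2 : ℚ) • bb (some (RatFunc.C x : RatFunc K))) = 0 := by
    rw [map_sub, map_add, map_add, map_sub, map_sub, map_add, map_smul, sC_bb, sC_bb, sC_bb,
      sC_bb, sC_bb, sC_bb, sC_bb, v2 hab, v3 hab, v4 hx1 hab, v5 hx1 hab, v6 hx1 hab,
      v7 hx1 hab, spec_C, bb_zero, two_smul]
    abel
  rw [h0, map_zero] at key
  exact sub_eq_zero.1 key

private lemma dC_b3 {F : Type u} [Field F] (z : P1 F) :
    dC 0 0 (b3 z) = tn 2 1 (wT 0 (lgP z) (u0 F)) (bb z) := by
  rw [bb, tn_PB]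
  exact dC_PB 0 0 z (u0 F)

private lemma sC_b3 (c : K) (x : P1 (RatFunc K)) : sC c 1 0 (b3 x) = b3 (spec c x) := by
  have e := sC_PB c 1 0 x (u0 (RatFunc K))
  rw [b3, b3]
  refine e.trans ?_
  congr 1
  rw [u0, sT_dm, u0]
  congr 1
  funext i
  exact i.elim0

private lemma b3_zero {F : Type u} [Field F] : b3 (some 0 : P1 F) = 0 := by
  rw [b3, cl_zero 2, map_zero]; rfl

private lemma three_alg {F : Type u} [Field F] (U V : Additive Fˣ) (β : Cx 2 0 F) :
    tn 2 1 (wT 0 U (u0 F)) β + tn 2 1 (wT 0 V (u0 F)) (-β) +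
      tn 2 1 (wT 0 (lg (-1) + V - U) (u0 F)) β = 0 := by
  have e : wT 0 (lg (-1) + V - U) (u0 F) = wT 0 V (u0 F) - wT 0 U (u0 F) := by
    rw [sub_eq_add_neg, wT_add, wT_add, wT_neg, wT_neg_one, LinearMap.add_apply,
      LinearMap.add_apply, LinearMap.neg_apply, LinearMap.zero_apply]
    abel
  rw [e, ← tnL_apply, ← tnL_apply, ← tnL_apply, map_sub, LinearMap.sub_apply, map_neg]
  abel

theorem three3 {a b : K} (hab : a ≠ b) :
    b3 (some (fy a b)) + b3 (some (1 - fy a b)) + b3 (some (1 - (fy a b)⁻¹)) =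
      b3 (some (1 : RatFunc K)) := by
  have hY := Y_ne hab
  have hV := V_ne hab
  have s3 : spec b (some (1 - (fy a b)⁻¹)) = some 0 := by
    rw [spec_one_sub (sp_inv_some (spY hab) one_ne_zero), inv_one, sub_self]
  have q1 : bb (some (1 - fy a b)) = - bb (some (fy a b)) :=
    eq_neg_of_add_eq_zero_right (bb_sub (fy a b))
  have q2 : bb (some (1 - (fy a b)⁻¹)) = bb (some (fy a b)) := by
    rw [eq_neg_of_add_eq_zero_right (bb_sub (fy a b)⁻¹),
      eq_neg_of_add_eq_zero_right (bb_inv (fy a b)), neg_neg]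
  have q3 : lg (1 - (fy a b)⁻¹) = lg (-1) + lg (1 - fy a b) - lg (fy a b) := by
    have e : 1 - (fy a b)⁻¹ = -(1 - fy a b) / fy a b := by field_simp; ring
    rw [e, lg_div (neg_ne_zero.2 hV) hY, lg_neg' hV]
  have h1 : dC 0 0 (b3 (some (fy a b)) + b3 (some (1 - fy a b)) + b3 (some (1 - (fy a b)⁻¹)) -
      b3 (some (1 : RatFunc K))) = 0 := by
    rw [map_sub, map_add, map_add, dC_b3, dC_b3, dC_b3, dC_b3, q1, q2, lgP_some, lgP_some,
      lgP_some, lgP_some, q3, three_alg, bb_one, map_zero, sub_zero]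
  have h2 := const_cyc b 1 _ h1
  have h3 : sC b 1 0 (b3 (some (fy a b)) + b3 (some (1 - fy a b)) + b3 (some (1 - (fy a b)⁻¹)) -
      b3 (some (1 : RatFunc K))) = 0 := by
    rw [map_sub, map_add, map_add, sC_b3, sC_b3, sC_b3, sC_b3, spY hab, spV hab, s3, spec_one,
      b3_zero]
    abel
  rw [h3, map_zero] at h2
  exact sub_eq_zero.1 h2.symm

end

end Helper42.LT
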