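import Pool.Agent.Helper42.LT.EulT

set_option autoImplicit false

/-!
# LT-Wk: elements of B_3 tensor F^* with symmetric double residues

PLAN (about 0.8 h).
 * From hz: for all a b: bet a b z = bet b a z, i.e. ld 0 0 (va b) (ct 3 0 (va a) z) =
   ld 0 0 (va a) (ct 3 0 (va b) z): apply ct 2 0 (va b) to ld_cyc 0 0 (va a) z:
   ct_b (ct_a (dC z)) = ct_b (ld 0 1 (va a) z) - ct_b (dC 0 0 (ct_a z)), and
   ct_b (ld 0 1 (va a) z) = ld 0 0 (va a) (ct_b z) (ct_ld), ct_b (dC 0 0 w) = ld 0 0 (va b) w (rfl).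
 * The lemmas mm_symm, rel_spec (Helper14/W4/Lk3.lean), lead_terms (Lk4.lean) and lead_const (M42.lean)
   use their hypothesis dC 0 1 z = 0 only through cyc_symm 0 z hz a b, that is bet a b z = bet b a z.
   Copy them as private lemmas with the hypothesis hs : forall a b, bet a b z = bet b a z.
   (lead_terms: exists w, mm (dC 1 0 w) = mm z.)
 * z' := z - dC 1 0 w has mm z' = 0 and the same symmetry (dC (dC w) = 0: bet a b (dC 1 0 w) is
   symmetric by cyc_symm), so by lead_const' all ct 3 0 (va a) z' are constant: = rC 1 0 (y a).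
 * z'' := z' - sum_(a in s) tn 3 1 (wT 0 (ee a) u0) (rC 1 0 (y a)), s from ct_finite: all
   ct 3 0 (va b) z'' = 0 (Cx_ind or wC: tn 3 1 (wT 0 v u0) x = wC 3 0 v x for x in Cx 3 0, ct_wC_zero,
   va_ee), so z'' in Fil 3 1 1 <= KC 3 0 (mem_Fil_one, Fil_le_KC in EulT.lean).
 * z = dC 1 0 w + z'' + (element of NC 1 1).
-/

noncomputable section

open Polynomial TensorProduct
open scoped Classical

namespace Helper42.LT

open Helper14.Gon Helper14.W4

universe u v w

section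
variable {K : Type u} [Field K]

private theorem wk_symm {z : Cx 3 1 (RatFunc K)} (hz : ∀ a b : K, bet a b z = bet b a z) (a b c d : K) :
    mm z (a, b, c, d) = mm z (b, a, c, d) := by
  change e0 _ (ll 0 (va c) (va d) (bet a b z)) = e0 _ (ll 0 (va c) (va d) (bet b a z))
  have : bet a b z = bet b a z := hz a b
  rw [this]

/-- the relation from the specialisations of the double residues -/
private theorem wk_spec [IsAlgClosed K] {l : K → ℚ} (hl : Five l) {z : Cx 3 1 (RatFunc K)}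
    (hz : ∀ a b : K, bet a b z = bet b a z) {ι : Type v} (I : Finset ι) (r : ι → ℚ) (x : ι → P1 (RatFunc K))
    (g : ι → Additive (RatFunc K)ˣ) (hzs : z = ∑ i ∈ I, r i • GG 3 (x i) (g i)) (a b : K) :
    ∑ i ∈ I, r i * (va a (g i) * va b (lgP (x i)) *
      kap l a b (dv (l1P (x i))) (dv (lgP (x i)))) = 0 := by
  have hb : bet a b z = ∑ i ∈ I, (r i * (va a (g i) * va b (lgP (x i)))) •
      PB 2 0 (cl 2 (x i)) (u0 _) := by
    rw [hzs, map_sum]
    refine Finset.sum_congr rfl fun i _ => ?_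
    rw [map_smul, bet_GG, smul_smul]
  have hs : ∀ c : K, sC c 0 0 (bet a b z) =
      ∑ i ∈ I, (r i * (va a (g i) * va b (lgP (x i)))) • PB 2 0 (cl 2 (spec c (x i))) (u0 _) := by
    intro c
    rw [hb, map_sum]
    refine Finset.sum_congr rfl fun i _ => ?_
    have e : sC c 0 0 (PB 2 0 (cl 2 (x i)) (u0 (RatFunc K))) =
      PB 2 0 (cl 2 (spec c (x i))) (sT c 0 (u0 (RatFunc K))) := sC_PB c 0 0 (x i) _
    rw [map_smul, e]
    congr 2
    rw [u0, sT_dm, u0]
    congr 1
    funext i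
    exact i.elim0
  have z2 : sC b 0 0 (bet a b z) = 0 := sC_ld b 0 0 _
  have z1 : sC a 0 0 (bet a b z) = 0 := by
    have : bet a b z = bet b a z := hz a b
    rw [this]; exact sC_ld a 0 0 _
  have f1 := congrArg (lamC hl) z1
  have f2 := congrArg (lamC hl) z2
  rw [map_zero, hs, map_sum] at f1 f2
  have f3 := congrArg₂ (· - ·) f1 f2
  simp only [sub_zero] at f3
  rw [← Finset.sum_sub_distrib] at f3
  rw [← f3]
  refine Finset.sum_congr rfl fun i _ => ?_
  rw [map_smul, map_smul, lamC_PB, lamC_PB, u0, e0_dm, smul_eq_mul, smul_eq_mul]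
  rcases hx : x i with _ | f
  · simp [l1P]
  · have := kap_dv hl a b f
    change r i * (_ * _ * kap l a b (dv (lg (1 - f))) (dv (lg f))) = _
    rw [this]
    ring

/-- The leading terms of an element with symmetric double residues are those of a coboundary. -/
private theorem wk_lead [IsAlgClosed K] {z : Cx 3 1 (RatFunc K)} (hz : ∀ a b : K, bet a b z = bet b a z) :
    ∃ w : Cx 4 0 (RatFunc K), mm (dC 1 0 w) = mm z := by
  by_contra hcon
  have hnot : mm z ∉ LinearMap.range (mm ∘ₗ (dC 1 0 : Cx 4 0 (RatFunc K) →ₗ[ℚ] _)) := by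
    rintro ⟨w, hw⟩
    exact hcon ⟨w, hw⟩
  obtain ⟨Λ, hΛz, hΛ⟩ := Submodule.exists_le_ker_of_notMem hnot
  obtain ⟨ζ, hζ⟩ := exists_GG 3 z
  set I := ζ.support with hI
  -- the symmetrised form
  set Φ : V4 K := PhiL Λ + sw12 (PhiL Λ) with hΦ
  have hSA : SA Φ := by
    constructor
    · intro p q r s
      simp only [hΦ, LinearMap.add_apply, sw12_apply]; ring
    · intro p q r
      have e : ∀ p q : K →₀ ℚ, PhiL Λ p q r r = 0 := by
        intro p q
        rw [PhiL_apply]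
        have : arr p q r r = 0 := by funext t; simp only [arr, Pi.zero_apply]; ring
        rw [this, map_zero]
      simp only [hΦ, LinearMap.add_apply, sw12_apply, e]; ring
  have hkill : ∀ x : P1 (RatFunc K),
      Λ (arr (dv (lgP x)) (dv (lgP x)) (dv (l1P x)) (dv (lgP x))) = 0 := by
    intro x
    rw [← mm_dC]
    have h1 := LinearMap.mem_range_self (mm ∘ₗ (dC 1 0 : Cx 4 0 (RatFunc K) →ₗ[ℚ] _))
      (PB 4 0 (cl 4 x) (u0 _))
    have h2 := hΛ h1
    rw [LinearMap.mem_ker, LinearMap.comp_apply] at h2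
    exact h2
  have hKF : KF Φ := by
    intro f _ _
    have h2 := hkill (some f)
    rw [lgP_some, l1P_some] at h2
    simp only [hΦ, LinearMap.add_apply, sw12_apply, PhiL_apply]
    rw [h2, add_zero]
  have hmz : mm z = ∑ i ∈ I, ζ i • arr (dv i.2) (dv (lgP i.1)) (dv (l1P i.1)) (dv (lgP i.1)) := by
    conv_lhs => rw [hζ]
    rw [map_sum]
    refine Finset.sum_congr rfl fun i _ => ?_
    rw [map_smul, mm_GG]
  have hsym : ∀ a b c d : K, ∑ i ∈ I, ζ i * arr (dv i.2) (dv (lgP i.1)) (dv (l1P i.1))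
      (dv (lgP i.1)) (a, b, c, d) =
      ∑ i ∈ I, ζ i * arr (dv i.2) (dv (lgP i.1)) (dv (l1P i.1)) (dv (lgP i.1)) (b, a, c, d) := by
    intro a b c d
    have h := wk_symm hz a b c d
    rw [hmz, Finset.sum_apply, Finset.sum_apply] at h
    exact h
  -- the value of `Λ`
  have hval : ∑ i ∈ I, ζ i * Φ (dv i.2) (dv (lgP i.1)) (dv (l1P i.1)) (dv (lgP i.1)) =
      2 * Λ (mm z) := by
    have h1 : Λ (mm z) = ∑ i ∈ I, ζ i * Λ (arr (dv i.2) (dv (lgP i.1)) (dv (l1P i.1))
        (dv (lgP i.1))) := by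
      rw [hmz, map_sum]
      exact Finset.sum_congr rfl fun i _ => by rw [map_smul, smul_eq_mul]
    have h2 : Λ (mm z) = ∑ i ∈ I, ζ i * Λ (arr (dv (lgP i.1)) (dv i.2) (dv (l1P i.1))
        (dv (lgP i.1))) := by
      have : mm z = ∑ i ∈ I, ζ i • arr (dv (lgP i.1)) (dv i.2) (dv (l1P i.1)) (dv (lgP i.1)) := by
        funext t
        obtain ⟨a, b, c, d⟩ := t
        rw [wk_symm hz, hmz, Finset.sum_apply, Finset.sum_apply]
        refine Finset.sum_congr rfl fun i _ => ?_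
        simp only [Pi.smul_apply, arr, smul_eq_mul]
        ring
      rw [this, map_sum]
      exact Finset.sum_congr rfl fun i _ => by rw [map_smul, smul_eq_mul]
    rw [two_mul]
    nth_rewrite 1 [h1]
    rw [h2, ← Finset.sum_add_distrib]
    refine Finset.sum_congr rfl fun i _ => ?_
    simp only [hΦ, LinearMap.add_apply, sw12_apply, PhiL_apply]
    ring
  have S := sol_Pol hSA hKF
  have k1 := key_M I (fun i => ζ i) (fun i => dv i.2) (fun i => dv (lgP i.1))
    (fun i => dv (l1P i.1)) hsym hSA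
  have k2 := key_M I (fun i => ζ i) (fun i => dv i.2) (fun i => dv (lgP i.1))
    (fun i => dv (l1P i.1)) hsym (KP_SA S)
  -- the form `KP` vanishes on the cocycle
  have k3 : ∑ i ∈ I, ζ i * KP (Pol Φ) (dv i.2) (dv (lgP i.1)) (dv (l1P i.1)) (dv (lgP i.1)) =
      0 := by
    set T : Finset K := I.biUnion fun i => (dv i.2).support ∪ (dv (lgP i.1)).support with hT
    have t1 : ∀ i ∈ I, (dv i.2).support ⊆ T := fun i hi a ha => by
      rw [hT, Finset.mem_biUnion]; exact ⟨i, hi, Finset.mem_union_left _ ha⟩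
    have t2 : ∀ i ∈ I, (dv (lgP i.1)).support ⊆ T := fun i hi a ha => by
      rw [hT, Finset.mem_biUnion]; exact ⟨i, hi, Finset.mem_union_right _ ha⟩
    have : ∑ i ∈ I, ζ i * KP (Pol Φ) (dv i.2) (dv (lgP i.1)) (dv (l1P i.1)) (dv (lgP i.1)) =
        ∑ a ∈ T, ∑ b ∈ T, ∑ i ∈ I, ζ i * (va a i.2 * va b (lgP i.1) *
          kab (Pol Φ) a b (dv (l1P i.1)) (dv (lgP i.1))) := by
      rw [Finset.sum_congr rfl fun i hi => by
        rw [KP_sum (Pol Φ) (t1 i hi) (t2 i hi), Finset.mul_sum]]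
      rw [Finset.sum_comm]
      refine Finset.sum_congr rfl fun a _ => ?_
      rw [Finset.sum_congr rfl fun i hi => by rw [Finset.mul_sum]]
      rw [Finset.sum_comm]
      rfl
    rw [this]
    refine Finset.sum_eq_zero fun a _ => Finset.sum_eq_zero fun b _ => ?_
    by_cases hab : a = b
    · subst hab
      refine Finset.sum_eq_zero fun i _ => ?_
      rw [kab, if_pos rfl]; simp
    · have := wk_spec (lam_Five S hab) hz I (fun i => ζ i) (fun i => i.1) (fun i => i.2) hζ a b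
      rw [← this]
      refine Finset.sum_congr rfl fun i _ => ?_
      rw [kab, if_neg hab]
  rw [k3, mul_zero] at k2
  have k4 : ∑ i ∈ I, ζ i * (Pol (KP (Pol Φ)) (dv (lgP i.1)) (dv (lgP i.1)) (dv i.2)
      (dv (l1P i.1)) - Pol (KP (Pol Φ)) (dv i.2) (dv (lgP i.1)) (dv (l1P i.1)) (dv (lgP i.1))) =
      -2 * ∑ i ∈ I, ζ i * (Pol Φ (dv (lgP i.1)) (dv (lgP i.1)) (dv i.2)
      (dv (l1P i.1)) - Pol Φ (dv i.2) (dv (lgP i.1)) (dv (l1P i.1)) (dv (lgP i.1))) := by
    rw [Finset.mul_sum]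
    refine Finset.sum_congr rfl fun i _ => ?_
    rw [Pol_KP S, Pol_KP S]; ring
  rw [k4] at k2
  have k5 : ∑ i ∈ I, ζ i * (Pol Φ (dv (lgP i.1)) (dv (lgP i.1)) (dv i.2)
      (dv (l1P i.1)) - Pol Φ (dv i.2) (dv (lgP i.1)) (dv (l1P i.1)) (dv (lgP i.1))) = 0 := by
    linarith
  rw [k5, mul_zero] at k1
  apply hΛz
  have : 4 * (2 * Λ (mm z)) = 0 := by rw [← hval]; exact k1
  linarith

private theorem wk_const [IsAlgClosed K] {z : Cx 3 1 (RatFunc K)} (hz : ∀ a b : K, bet a b z = bet b a z)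
    (hm : mm z = 0) (a : K) : rC 1 0 (sC 0 1 0 (ct 3 0 (va a) z)) = ct 3 0 (va a) z := by
  refine E3 0 _ fun b => ?_
  have hb : rC 0 0 (sC a 0 0 (bet a b z)) = bet a b z := by
    refine E2 a _ fun c d => ?_
    have h1 := congrFun hm (a, b, c, d)
    have h2 : e0 (RatFunc K) (ll 0 (va c) (va d) (bet a b z)) = 0 := h1
    have h3 := e0_inj (ll 0 (va c) (va d) (bet a b z))
    rw [h2, zero_smul] at h3
    exact h3.symm
  have z1 : sC a 0 0 (bet a b z) = 0 := by
    have : bet a b z = bet b a z := hz a b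
    rw [this]; exact sC_ld a 0 0 _
  rw [z1, map_zero] at hb
  exact hb.symm

private theorem wk_bet (z : Cx 3 1 (RatFunc K))
    (hz : ∀ a b : K, ct 2 0 (va b) (ct 2 1 (va a) (dC 0 1 z)) = 0) (a b : K) :
    bet a b z = bet b a z := by
  have h1 := ld_cyc 0 0 (va a) z
  have h2 := hz a b
  rw [show ct 2 1 (va a) (dC 0 1 z) = ld 0 1 (va a) z - dC 0 0 (ct 3 0 (va a) z) from h1,
    map_sub] at h2
  have h3 : ct 2 0 (va b) (ld 0 1 (va a) z) = ld 0 0 (va a) (ct 3 0 (va b) z) :=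
    ct_ld 0 0 (va b) (va a) z
  have h4 : ct 2 0 (va b) (dC 0 0 (ct 3 0 (va a) z)) = ld 0 0 (va b) (ct 3 0 (va a) z) := rfl
  rw [h3, h4] at h2
  exact (sub_eq_zero.1 h2).symm

/-- elements of `B_3 ⊗ F^*` whose differential has vanishing double contractions -/
theorem weak1 [IsAlgClosed K] (z : Cx 3 1 (RatFunc K))
    (hz : ∀ a b : K, ct 2 0 (va b) (ct 2 1 (va a) (dC 0 1 z)) = 0) :
    z ∈ LinearMap.range (dC 1 0 : Cx 4 0 (RatFunc K) →ₗ[ℚ] _) ⊔ KC 3 0 ⊔ NC 1 1 := by
  have hs := wk_bet z hz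
  obtain ⟨w, hw⟩ := wk_lead hs
  have hdw : dC 0 1 (dC 1 0 w) = 0 := by
    have := LinearMap.congr_fun (dC_dC 0 0) w
    rw [LinearMap.comp_apply, LinearMap.zero_apply] at this
    exact this
  have hs' : ∀ a b : K, bet a b (z - dC 1 0 w) = bet b a (z - dC 1 0 w) := by
    intro a b
    have h1 : bet a b (dC 1 0 w) = bet b a (dC 1 0 w) := cyc_symm 0 _ hdw a b
    rw [map_sub, map_sub, hs a b, h1]
  have hm : mm (z - dC 1 0 w) = 0 := by rw [map_sub, hw, sub_self]
  set z' := z - dC 1 0 w with hz'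
  obtain ⟨s, hsf⟩ := ct_finite 3 0 z'
  set y : K → Cx 3 0 K := fun a => sC 0 1 0 (ct 3 0 (va a) z') with hy
  have hyc : ∀ a, rC 1 0 (y a) = ct 3 0 (va a) z' := fun a => wk_const hs' hm a
  set n := ∑ a ∈ s, tn 3 1 (wT 0 (ee a) (u0 (RatFunc K))) (rC 1 0 (y a)) with hn
  have htn : ∀ (v : Additive (RatFunc K)ˣ) (x : Cx 3 0 (RatFunc K)),
      tn 3 1 (wT 0 v (u0 (RatFunc K))) x = wC 3 0 v x := by
    intro v x
    refine Cx_ind (fun x => tn 3 1 (wT 0 v (u0 (RatFunc K))) x = wC 3 0 v x)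
      (by simp) (fun a b ha hb => by simp only [map_add, ha, hb]) (fun p υ => ?_) x
    rw [tn_PB', wC_PB]
    conv_rhs => rw [← e0_inj υ, map_smul, map_smul]
  have hn1 : n ∈ NC 1 1 := by
    rw [hn]
    exact Submodule.sum_mem _ fun a _ => tn_mem_NC 1 1 (y a) _
  have h2 : z' - n ∈ Fil 3 1 1 := by
    rw [mem_Fil_one]
    intro b
    have h3 : ct 3 0 (va b) n = if b ∈ s then rC 1 0 (y b) else 0 := by
      rw [hn, map_sum]
      have : ∀ a ∈ s, ct 3 0 (va b) (tn 3 1 (wT 0 (ee a) (u0 (RatFunc K))) (rC 1 0 (y a))) =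
          if a = b then rC 1 0 (y a) else 0 := by
        intro a _
        rw [htn, ct_wC_zero, va_ee, ite_smul, one_smul, zero_smul]
      rw [Finset.sum_congr rfl this, Finset.sum_ite_eq']
    rw [map_sub, h3]
    split_ifs with hb
    · rw [hyc, sub_self]
    · rw [hsf b hb, sub_zero]
  have h4 : z' - n ∈ KC 3 0 := Fil_le_KC 3 0 h2
  have h5 : z = dC 1 0 w + (z' - n) + n := by rw [hz']; abel
  rw [h5]
  refine Submodule.add_mem_sup (Submodule.add_mem_sup ⟨w, rfl⟩ h4) hn1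

end

end Helper42.LT
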