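import Pool.Agent.Helper42.LT.SD
import Pool.Agent.Helper42.LT.Wk
import Pool.Agent.Helper42.LT.SKb

set_option autoImplicit false

/-!
# LT-Tau: the product of a star element with a function is alternating

PLAN (about 1 h).  IsW y u v W means dC 0 1 W - tn 2 2 (W2 u v) (rC 0 0 y) in KC 2 1.
 * uniq1: the double contractions of an element of KC 2 1 vanish (KC_le_Fil, mem_Fil, mem_Fil_one), so
   weak1 applies.
 * uniq: rm1 3 (n+1) omega of the three summands of weak1: rm1_dC: rm1 (dC 1 0 w) = dC 1 (n+1) (tn w);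
   rm1_KC; rm1_NC and NC1_le n.  uniqC (the same with wC 3 1 v): dC_wC (sign), wC_KC, wC_NC, NC1_le 0.
 * exists_W: V_ind in u and v (for fixed y): rU kappa: W = 0 (tn 2 2 (W2 (rU kappa) v) z is in KC 2 1,
   tn_KT); (ee a, ee b): starI, for a = b W = 0 (W2_self); sums and negatives clear (W2 is
   bi-additive, tn_add / tnL).
 * tau_alt: choose Wc u v with IsW y u v (Wc u v) (y fixed).  tau u v w := (WW 1 1).mkQ (wC 3 1 w (Wc u v)).
   By uniqC it only depends on IsW, so tau is additive in u, v, w, tau u v w = - tau v u w,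
   tau u u w = 0, and 0 if u or v is constant (W = 0 works) or w is constant (wC_mem_KC).
   Claim: tau u v w + tau u w v = 0 for all u, v, w; V_ind three times, so u = ee a, v = ee b, w = ee d.
     a = b: tau(a,a;d) = 0 and tau(a,d;a) = 0 by starI (or a = d: tau(a,a;a) = 0); a = d similarly;
     b = d: tau(a,b;b) = 0 by starI (third property);
     distinct: starD for (b, a, d): tau(b-d, a-d; b-d) = 0.  Expand bilinearly
     (b-d)^(a-d) = b^a - b^d - d^a: with tau(x,y;x) = tau(x,y;y) = 0 for points this gives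
     - tau(b,a;d) - tau(d,a;b) = 0, that is tau(a,b;d) + tau(a,d;b) = 0 by antisymmetry.
   Then the theorem: the given W, W' replace Wc by uniqC.
-/

noncomputable section

open Polynomial TensorProduct
open scoped Classical

namespace Helper42.LT

open Helper14.Gon Helper14.W4

universe u v w

section
variable {K : Type u} [Field K]

private lemma dbl_zero {z : Cx 2 2 (RatFunc K)} (h : z ∈ KC 2 1) (a b : K) :
    ct 2 0 (va b) (ct 2 1 (va a) z) = 0 := by
  have h1 := KC_le_Fil 2 1 h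
  rw [mem_Fil] at h1
  have h2 := h1 a
  rw [mem_Fil_one] at h2
  exact h2 b

theorem uniq1 [IsAlgClosed K] (W : Cx 3 1 (RatFunc K)) (h : dC 0 1 W ∈ KC 2 1) :
    W ∈ LinearMap.range (dC 1 0 : Cx 4 0 (RatFunc K) →ₗ[ℚ] _) ⊔ KC 3 0 ⊔ NC 1 1 :=
  weak1 W fun a b => dbl_zero h a b

theorem uniq [IsAlgClosed K] (n : ℕ) (W : Cx 3 1 (RatFunc K)) (h : dC 0 1 W ∈ KC 2 1)
    (ω : Tx (n + 1) (RatFunc K)) : rm1 3 (n + 1) ω W ∈ WW 1 (n + 1) := by
  obtain ⟨s, hs, z, hz, rfl⟩ := Submodule.mem_sup.1 (uniq1 W h)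
  obtain ⟨x, hx, y, hy, hxy⟩ := Submodule.mem_sup.1 hs
  obtain ⟨w, hw⟩ := hx
  subst hxy
  subst hw
  rw [map_add, map_add]
  refine add_mem (add_mem ?_ ?_) ?_
  · rw [rm1_dC 1 (n + 1) ω w]
    exact dC_mem_WW 1 (n + 1) _
  · exact KC_le_WW 1 (n + 1) (rm1_KC 3 (n + 1) ω hy)
  · exact NC1_le n (rm1_NC 1 (n + 1) ω hz)

theorem uniqC [IsAlgClosed K] (W : Cx 3 1 (RatFunc K)) (h : dC 0 1 W ∈ KC 2 1)
    (v : Additive (RatFunc K)ˣ) : wC 3 1 v W ∈ WW 1 1 := by
  obtain ⟨s, hs, z, hz, rfl⟩ := Submodule.mem_sup.1 (uniq1 W h)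
  obtain ⟨x, hx, y, hy, hxy⟩ := Submodule.mem_sup.1 hs
  obtain ⟨w, hw⟩ := hx
  subst hxy
  subst hw
  rw [map_add, map_add]
  refine add_mem (add_mem ?_ ?_) ?_
  · have h1 := dC_wC 1 0 v w
    have h2 : wC 3 1 v (dC 1 0 w) = - dC 1 1 (wC 4 0 v w) := by
      rw [h1, neg_neg]
    rw [h2]
    exact neg_mem (dC_mem_WW 1 1 _)
  · exact KC_le_WW 1 1 (wC_KC 3 0 v hy)
  · exact NC1_le 0 (wC_NC 1 1 v hz)

/-- the defining property of the star elements -/
private def IsW (y : Cx 2 0 K) (u v : Additive (RatFunc K)ˣ) (W : Cx 3 1 (RatFunc K)) : Prop :=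
  dC 0 1 W - tn 2 2 (W2 u v) (rC 0 0 y) ∈ KC 2 1

private lemma tn_neg' (ω : Tx 2 (RatFunc K)) (z : Cx 2 0 (RatFunc K)) :
    tn 2 2 (-ω) z = - tn 2 2 ω z := by
  have := tn_smul 2 2 (-1 : ℚ) ω z
  rwa [neg_smul, one_smul, neg_smul, one_smul] at this

private lemma tn_zero' (z : Cx 2 0 (RatFunc K)) :
    tn 2 2 (0 : Tx 2 (RatFunc K)) z = 0 := by
  have := tn_smul 2 2 (0 : ℚ) 0 z
  rwa [zero_smul, zero_smul] at this

private lemma IsW.add_left {y : Cx 2 0 K} {u u' v : Additive (RatFunc K)ˣ}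
    {W W' : Cx 3 1 (RatFunc K)} (h : IsW y u v W) (h' : IsW y u' v W') :
    IsW y (u + u') v (W + W') := by
  have h1 : dC 0 1 (W + W') - tn 2 2 (W2 (u + u') v) (rC 0 0 y) =
      (dC 0 1 W - tn 2 2 (W2 u v) (rC 0 0 y)) + (dC 0 1 W' - tn 2 2 (W2 u' v) (rC 0 0 y)) := by
    rw [map_add, map_add, AddMonoidHom.add_apply, tn_add]
    abel
  change dC 0 1 (W + W') - tn 2 2 (W2 (u + u') v) (rC 0 0 y) ∈ KC 2 1
  rw [h1]
  exact add_mem h h'

private lemma IsW.swap {y : Cx 2 0 K} {u v : Additive (RatFunc K)ˣ}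
    {W : Cx 3 1 (RatFunc K)} (h : IsW y u v W) : IsW y v u (-W) := by
  have h1 : dC 0 1 (-W) - tn 2 2 (W2 v u) (rC 0 0 y) =
      - (dC 0 1 W - tn 2 2 (W2 u v) (rC 0 0 y)) := by
    rw [map_neg, W2_swap v u, tn_neg']
    abel
  change dC 0 1 (-W) - tn 2 2 (W2 v u) (rC 0 0 y) ∈ KC 2 1
  rw [h1]
  exact neg_mem h

private lemma IsW.neg_left {y : Cx 2 0 K} {u v : Additive (RatFunc K)ˣ}
    {W : Cx 3 1 (RatFunc K)} (h : IsW y u v W) : IsW y (-u) v (-W) := by
  have h1 : dC 0 1 (-W) - tn 2 2 (W2 (-u) v) (rC 0 0 y) =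
      - (dC 0 1 W - tn 2 2 (W2 u v) (rC 0 0 y)) := by
    rw [map_neg, map_neg, AddMonoidHom.neg_apply, tn_neg']
    abel
  change dC 0 1 (-W) - tn 2 2 (W2 (-u) v) (rC 0 0 y) ∈ KC 2 1
  rw [h1]
  exact neg_mem h

private lemma isW_self (y : Cx 2 0 K) (u : Additive (RatFunc K)ˣ) : IsW y u u 0 := by
  have h1 : dC 0 1 (0 : Cx 3 1 (RatFunc K)) - tn 2 2 (W2 u u) (rC 0 0 y) = 0 := by
    rw [map_zero, W2_self, tn_zero', sub_zero]
  change dC 0 1 (0 : Cx 3 1 (RatFunc K)) - tn 2 2 (W2 u u) (rC 0 0 y) ∈ KC 2 1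
  rw [h1]
  exact zero_mem _

private lemma isW_const (y : Cx 2 0 K) (κ : Additive Kˣ) (v : Additive (RatFunc K)ˣ) :
    IsW y (rU κ) v 0 := by
  have h1 : dC 0 1 (0 : Cx 3 1 (RatFunc K)) - tn 2 2 (W2 (rU κ) v) (rC 0 0 y) =
      - tn 2 2 (W2 (rU κ) v) (rC 0 0 y) := by
    rw [map_zero, zero_sub]
  change dC 0 1 (0 : Cx 3 1 (RatFunc K)) - tn 2 2 (W2 (rU κ) v) (rC 0 0 y) ∈ KC 2 1
  rw [h1]
  refine neg_mem (tn_KT 2 1 ?_ _)
  rw [W2_apply]
  exact wT_mem_KT 1 κ _

private lemma exists_isW [IsAlgClosed K] (y : Cx 2 0 K) (u v : Additive (RatFunc K)ˣ) :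
    ∃ W : Cx 3 1 (RatFunc K), IsW y u v W := by
  refine V_ind (fun u => ∃ W : Cx 3 1 (RatFunc K), IsW y u v W) (fun κ => ⟨0, isW_const y κ v⟩)
    (fun a => ?_) (fun u u' hu hu' => ?_) (fun u hu => ?_) u
  · refine V_ind (fun v => ∃ W : Cx 3 1 (RatFunc K), IsW y (ee a) v W)
      (fun κ => ⟨-0, (isW_const y κ (ee a)).swap⟩) (fun b => ?_) (fun v v' hv hv' => ?_)
      (fun v hv => ?_) v
    · by_cases hab : a = b
      · subst hab
        exact ⟨0, isW_self y _⟩
      · obtain ⟨W, hW, -, -⟩ := starI hab y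
        exact ⟨W, hW⟩
    · obtain ⟨W, hW⟩ := hv
      obtain ⟨W', hW'⟩ := hv'
      exact ⟨_, (hW.swap.add_left hW'.swap).swap⟩
    · obtain ⟨W, hW⟩ := hv
      exact ⟨_, hW.swap.neg_left.swap⟩
  · obtain ⟨W, hW⟩ := hu
    obtain ⟨W', hW'⟩ := hu'
    exact ⟨_, hW.add_left hW'⟩
  · obtain ⟨W, hW⟩ := hu
    exact ⟨_, hW.neg_left⟩

theorem exists_W [IsAlgClosed K] (u v : Additive (RatFunc K)ˣ) (y : Cx 2 0 K) :
    ∃ W : Cx 3 1 (RatFunc K), dC 0 1 W - tn 2 2 (W2 u v) (rC 0 0 y) ∈ KC 2 1 :=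
  exists_isW y u v

private lemma IsW.unique [IsAlgClosed K] {y : Cx 2 0 K} {u v : Additive (RatFunc K)ˣ}
    {W W' : Cx 3 1 (RatFunc K)} (h : IsW y u v W) (h' : IsW y u v W')
    (w : Additive (RatFunc K)ˣ) :
    (WW 1 1).mkQ (wC 3 1 w W) = (WW 1 1).mkQ (wC 3 1 w W') := by
  rw [← sub_eq_zero, ← map_sub, ← map_sub, Submodule.mkQ_apply, Submodule.Quotient.mk_eq_zero]
  refine uniqC (W - W') ?_ w
  have h1 : dC 0 1 (W - W') = (dC 0 1 W - tn 2 2 (W2 u v) (rC 0 0 y)) -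
      (dC 0 1 W' - tn 2 2 (W2 u v) (rC 0 0 y)) := by
    rw [map_sub]
    abel
  rw [h1]
  exact sub_mem h h'

private lemma wC_add' (u v : Additive (RatFunc K)ˣ) (z : Cx 3 1 (RatFunc K)) :
    wC 3 1 (u + v) z = wC 3 1 u z + wC 3 1 v z := by
  rw [wC, wC, wC, ← mapT_add, wT_add]

private lemma alt_core [IsAlgClosed K] {Q : Type v} [AddCommGroup Q]
    (T : Additive (RatFunc K)ˣ → Additive (RatFunc K)ˣ → Additive (RatFunc K)ˣ → Q)
    (add1 : ∀ u u' v w, T (u + u') v w = T u v w + T u' v w)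
    (add3 : ∀ u v w w', T u v (w + w') = T u v w + T u v w')
    (swap : ∀ u v w, T u v w = - T v u w)
    (self : ∀ u w, T u u w = 0)
    (c1 : ∀ (κ : Additive Kˣ) v w, T (rU κ) v w = 0)
    (c3 : ∀ u v (κ : Additive Kˣ), T u v (rU κ) = 0)
    (sI : ∀ a b : K, a ≠ b → T (ee a) (ee b) (ee a) = 0 ∧ T (ee a) (ee b) (ee b) = 0)
    (sD : ∀ a b d : K, a ≠ b → a ≠ d → b ≠ d → T (ee a - ee d) (ee b - ee d) (ee a - ee d) = 0)
    (u v w : Additive (RatFunc K)ˣ) : T u v w + T u w v = 0 := by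
  have add2 : ∀ u v v' w, T u (v + v') w = T u v w + T u v' w := fun u v v' w => by
    rw [swap, add1, neg_add, ← swap, ← swap]
  have neg1 : ∀ u v w, T (-u) v w = - T u v w := fun u v w =>
    map_neg (AddMonoidHom.mk' (fun u => T u v w) (fun a b => add1 a b v w)) u
  have neg2 : ∀ u v w, T u (-v) w = - T u v w := fun u v w =>
    map_neg (AddMonoidHom.mk' (fun v => T u v w) (fun a b => add2 u a b w)) v
  have neg3 : ∀ u v w, T u v (-w) = - T u v w := fun u v w =>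
    map_neg (AddMonoidHom.mk' (fun w => T u v w) (fun a b => add3 u v a b)) w
  have c2 : ∀ u (κ : Additive Kˣ) w, T u (rU κ) w = 0 := fun u κ w => by
    rw [swap, c1, neg_zero]
  refine V_ind (fun u => ∀ v w, T u v w + T u w v = 0) (fun κ v w => by rw [c1, c1, add_zero])
    (fun a v w => ?_) (fun u u' hu hu' v w => ?_) (fun u hu v w => ?_) u v w
  · refine V_ind (fun v => ∀ w, T (ee a) v w + T (ee a) w v = 0)
      (fun κ w => by rw [c2, c3, add_zero]) (fun b w => ?_) (fun v v' hv hv' w => ?_)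
      (fun v hv w => ?_) v w
    · refine V_ind (fun w => T (ee a) (ee b) w + T (ee a) w (ee b) = 0)
        (fun κ => by rw [c2, c3, add_zero]) (fun d => ?_) (fun w w' hw hw' => ?_)
        (fun w hw => ?_) w
      · by_cases hab : a = b
        · subst hab
          rw [self, zero_add]
          by_cases had : a = d
          · subst had
            exact self _ _
          · exact (sI a d had).1
        · by_cases had : a = d
          · subst had
            rw [(sI a b hab).1, self, add_zero]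
          · by_cases hbd : b = d
            · subst hbd
              rw [(sI a b hab).2, add_zero]
            · have h := sD b a d (Ne.symm hab) hbd had
              have e1 := (sI b a (Ne.symm hab)).1
              have e2 := (sI b d hbd).1
              have e3 := (sI b d hbd).2
              have e4 := (sI d a (Ne.symm had)).1
              simp only [sub_eq_add_neg, add1, add2, add3, neg1, neg2, neg3, self, e1, e2, e3, e4,
                neg_zero, add_zero, zero_add] at h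
              rw [swap (ee a) (ee b) (ee d), swap (ee a) (ee d) (ee b)]
              exact h
      · rw [add3, add2]
        calc _ = (T (ee a) (ee b) w + T (ee a) w (ee b)) +
              (T (ee a) (ee b) w' + T (ee a) w' (ee b)) := by abel
          _ = 0 := by rw [hw, hw', add_zero]
      · rw [neg3, neg2, ← neg_add, hw, neg_zero]
    · rw [add3, add2]
      calc _ = (T (ee a) v w + T (ee a) w v) + (T (ee a) v' w + T (ee a) w v') := by abel
        _ = 0 := by rw [hv, hv', add_zero]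
    · rw [neg3, neg2, ← neg_add, hv, neg_zero]
  · rw [add1, add1]
    calc _ = (T u v w + T u w v) + (T u' v w + T u' w v) := by abel
      _ = 0 := by rw [hu, hu', add_zero]
  · rw [neg1, neg1, ← neg_add, hu, neg_zero]

theorem tau_alt [IsAlgClosed K] (y : Cx 2 0 K) (u v w : Additive (RatFunc K)ˣ)
    (W W' : Cx 3 1 (RatFunc K))
    (hW : dC 0 1 W - tn 2 2 (W2 u v) (rC 0 0 y) ∈ KC 2 1)
    (hW' : dC 0 1 W' - tn 2 2 (W2 u w) (rC 0 0 y) ∈ KC 2 1) :
    wC 3 1 w W + wC 3 1 v W' ∈ WW 1 1 := by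
  choose Wc hWc using exists_isW y
  have key : ∀ (u v w : Additive (RatFunc K)ˣ) (W : Cx 3 1 (RatFunc K)), IsW y u v W →
      (WW 1 1).mkQ (wC 3 1 w (Wc u v)) = (WW 1 1).mkQ (wC 3 1 w W) :=
    fun u v w W h => (hWc u v).unique h w
  have mem0 : ∀ z : Cx 3 2 (RatFunc K), z ∈ WW 1 1 → (WW 1 1).mkQ z = 0 := fun z hz => by
    rw [Submodule.mkQ_apply, Submodule.Quotient.mk_eq_zero]
    exact hz
  have h := alt_core (fun u v w => (WW 1 1).mkQ (wC 3 1 w (Wc u v)))
    (fun u u' v w => by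
      change (WW 1 1).mkQ (wC 3 1 w (Wc (u + u') v)) = (WW 1 1).mkQ (wC 3 1 w (Wc u v)) +
        (WW 1 1).mkQ (wC 3 1 w (Wc u' v))
      rw [key _ _ w _ ((hWc u v).add_left (hWc u' v)), map_add, map_add])
    (fun u v w w' => by
      change (WW 1 1).mkQ (wC 3 1 (w + w') (Wc u v)) = (WW 1 1).mkQ (wC 3 1 w (Wc u v)) +
        (WW 1 1).mkQ (wC 3 1 w' (Wc u v))
      rw [wC_add', map_add])
    (fun u v w => by
      rw [key _ _ w _ (hWc v u).swap, map_neg, map_neg])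
    (fun u w => by
      change (WW 1 1).mkQ (wC 3 1 w (Wc u u)) = 0
      rw [key _ _ w _ (isW_self y u), map_zero, map_zero])
    (fun κ v w => by
      change (WW 1 1).mkQ (wC 3 1 w (Wc (rU κ) v)) = 0
      rw [key _ _ w _ (isW_const y κ v), map_zero, map_zero])
    (fun u v κ => mem0 _ (KC_le_WW 1 1 (wC_mem_KC 3 1 κ _)))
    (fun a b hab => by
      obtain ⟨V, h1, h2, h3⟩ := starI hab y
      change (WW 1 1).mkQ (wC 3 1 (ee a) (Wc (ee a) (ee b))) = 0 ∧
        (WW 1 1).mkQ (wC 3 1 (ee b) (Wc (ee a) (ee b))) = 0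
      rw [key _ _ (ee a) V h1, key _ _ (ee b) V h1]
      exact ⟨mem0 _ h2, mem0 _ h3⟩)
    (fun a b d hab had hbd => by
      obtain ⟨V, h1, h2⟩ := starD hab had hbd y
      change (WW 1 1).mkQ (wC 3 1 (ee a - ee d) (Wc (ee a - ee d) (ee b - ee d))) = 0
      rw [key _ _ (ee a - ee d) V h1]
      exact mem0 _ h2) u v w
  have h' : (WW 1 1).mkQ (wC 3 1 w (Wc u v)) + (WW 1 1).mkQ (wC 3 1 v (Wc u w)) = 0 := h
  rw [key u v w W hW, key u w v W' hW', ← map_add, Submodule.mkQ_apply,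
    Submodule.Quotient.mk_eq_zero] at h'
  exact h'

end

end Helper42.LT
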